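import Mathlib
import Pool.Agent.TH115.GD.Defs

/-!
# The Tate conjecture at a prime for elliptic surfaces over the projective line: definitions

`k` is a field, `k'` a separable closure of `k`, `K = k(t)`, `F = k'(t)`, and `W` is an elliptic curve
over `K`. This file has the definitions of the classes of the `ℓ`-adic Selmer group of `W` over `F`
which are fixed by the Galois group of `K`, in terms of continuous cocycles (for `ℓ = 2` these are
the definitions of `Pool.Agent.TH115.GD.Defs`, from which the points, their Galois action, cocycles,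
separable closures, completions and local triviality are taken).
-/

set_option autoImplicit false
set_option linter.all false

open Polynomial IsDedekindDomain WeierstrassCurve WeierstrassCurve.Affine
open scoped Classical

namespace Pool.Agent.Helper7K9.T3

open Pool.Agent.TH115.GD (Pt act incl rs ak IsCoc LocTriv Sep LocallyTrivial)

universe u

section cocycles

variable {K F Ω : Type u} [Field K] [Field F] [Field Ω] [Algebra K F] [Algebra F Ω] [Algebra K Ω]
  [IsScalarTower K F Ω] (ℓ : ℕ) (W : WeierstrassCurve K)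

/-- `Q` is an element of the Tate module `T_ℓ W`: `Q 0 = 0`, `ℓ Q (n + 1) = Q n`. -/
structure IsTM (Q : ℕ → Pt W Ω) : Prop where
  zero : Q 0 = 0
  mul : ∀ n, ℓ • Q (n + 1) = Q n

/-- `c` is a continuous 1-cocycle of `Gal(Ω / F)` with values in the Tate module `T_ℓ W`: `c n` is a
cocycle with values in the points of order `ℓ ^ n`, and `ℓ c (n + 1) = c n`. -/
structure IsTC (c : ℕ → (Ω ≃ₐ[F] Ω) → Pt W Ω) : Prop where
  coc : ∀ n, IsCoc W (c n)
  zero : ∀ σ, c 0 σ = 0
  mul : ∀ n σ, ℓ • c (n + 1) σ = c n σ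

/-- The class of `c` in `H ^ 1 (F, V_ℓ W)` is fixed by `Gal(Ω / K)`: for each `τ` in `Gal(Ω / K)`
there is an `m` such that `ℓ ^ m (τ c - c)` is the coboundary of an element `Q` of the Tate module.
Here `(τ c) (σ) = τ (c (σ'))` with `σ' = τ⁻¹ σ τ`. -/
def IsInv (c : ℕ → (Ω ≃ₐ[F] Ω) → Pt W Ω) : Prop :=
  ∀ τ : Ω ≃ₐ[K] Ω, ∃ (m : ℕ) (Q : ℕ → Pt W Ω), IsTM ℓ W Q ∧
    ∀ (n : ℕ) (σ σ' : Ω ≃ₐ[F] Ω), (∀ x, τ (σ' x) = σ (τ x)) →
      ℓ ^ m • (act W (ak τ) (c n σ') - c n σ) = act W (rs K σ) (Q n) - Q n

end cocycles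

section stmt

variable {K F : Type} [Field K] [Field F] [Algebra K F]

/-- The Tate conjecture at the prime `ℓ` for the elliptic surface with generic fibre `W` over
`K = k(t)`: the classes in the `ℓ`-adic Selmer group `V_ℓ Sel(W / F)`, `F = k'(t)`, which are fixed by
the Galois group, come from `W(K)`. If `c` is a cocycle of `Gal(Sep F / F)` with values in `T_ℓ W`
which is everywhere locally trivial, and the class of `c` is fixed by the Galois group of `K`, then
for every `n` there are a point `P` of `W(K)` and a point `R` with `ℓ ^ n R = P` such that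
`c n σ = σ R - R` for all `σ`. -/
def TateAt (ℓ : ℕ) (k' : Type) [Field k'] [Algebra k'[X] F] [IsFractionRing k'[X] F]
    (W : WeierstrassCurve K) : Prop :=
  ∀ c : ℕ → (Sep F ≃ₐ[F] Sep F) → Pt W (Sep F), IsTC ℓ W c →
    (∀ n, LocallyTrivial k' W (c n)) → IsInv ℓ W c →
    ∀ n, ∃ (P : Pt W K) (R : Pt W (Sep F)), ℓ ^ n • R = act W (incl K K (Sep F)) P ∧
      ∀ σ, c n σ = act W (rs K σ) R - R

end stmt

/-- The curve `y ^ 2 + a x y + b y = x ^ 3`, with the point `(0, 0)` of order three. -/
def crv3 {K : Type*} [Field K] (a b : K) : WeierstrassCurve K := ⟨a, 0, b, 0, 0⟩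

end Pool.Agent.Helper7K9.T3
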