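import Pool.Agent.TH115.ID.Step
import Pool.Agent.Helper7K9.T3.Defs

/-!
If the first layer of every Tate class at `ℓ` is the class of an `ℓ`-th part of a point, then all
Tate classes at `ℓ` come from points.
-/

set_option autoImplicit false
set_option linter.all false

open Polynomial IsDedekindDomain WeierstrassCurve WeierstrassCurve.Affine
open scoped Classical

namespace Pool.Agent.Helper7K9.T3

open Pool.Agent.TH115.GD (Pt act incl rs ak IsCoc LocTriv Sep LocallyTrivial act_act cob_isCoc)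

/-- The cocycles with values in `T_ℓ W` whose classes are everywhere locally trivial and fixed by
the Galois group of `K`. -/
structure IsTateClass {K F : Type} [Field K] [Field F] [Algebra K F] (ℓ : ℕ) (k' : Type) [Field k']
    [Algebra k'[X] F] [IsFractionRing k'[X] F]
    (W : WeierstrassCurve K) (c : ℕ → (Sep F ≃ₐ[F] Sep F) → Pt W (Sep F)) : Prop where
  tc : IsTC ℓ W c
  loc : ∀ n, LocallyTrivial k' W (c n)
  inv : IsInv ℓ W c

section step

variable {k' K F : Type} [Field k'] [Field K] [Field F] [Algebra K F] [Algebra k'[X] F]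
  [IsFractionRing k'[X] F] {ℓ : ℕ} {W : WeierstrassCurve K}

/-- Division of a Tate class by `ℓ`. -/
theorem div_class {c : ℕ → (Sep F ≃ₐ[F] Sep F) → Pt W (Sep F)} (hT : IsTateClass ℓ k' W c)
    {P : Pt W K} {H : ℕ → Pt W (Sep F)} (H0 : H 0 = act W (incl K K (Sep F)) P)
    (HS : ∀ j, ℓ • H (j + 1) = H j) (key : ∀ σ, c 1 σ = act W (rs K σ) (H 1) - H 1) :
    IsTateClass ℓ k' W (fun j σ => c (j + 1) σ - (act W (rs K σ) (H (j + 1)) - H (j + 1))) := by
  have hc := hT.tc
  have hi := hT.inv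
  have hloc := hT.loc
  have PK : ∀ φ : Sep F →ₐ[K] Sep F, act W φ (act W (incl K K (Sep F)) P) =
      act W (incl K K (Sep F)) P := by
    intro φ
    have h1 : φ.comp (incl K K (Sep F)) = incl K K (Sep F) := AlgHom.ext fun x => φ.commutes x
    rw [act_act, h1]
  set c' : ℕ → (Sep F ≃ₐ[F] Sep F) → Pt W (Sep F) :=
    fun j σ => c (j + 1) σ - (act W (rs K σ) (H (j + 1)) - H (j + 1)) with hc'
  have hc'T : IsTC ℓ W c' := by
    refine ⟨fun j => (hc.coc (j + 1)).sub W (cob_isCoc W _), fun σ => ?_, fun j σ => ?_⟩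
    · show c (0 + 1) σ - (act W (rs K σ) (H (0 + 1)) - H (0 + 1)) = 0
      rw [zero_add, key σ, sub_self]
    · show ℓ • (c (j + 1 + 1) σ - (act W (rs K σ) (H (j + 1 + 1)) - H (j + 1 + 1))) =
        c (j + 1) σ - (act W (rs K σ) (H (j + 1)) - H (j + 1))
      rw [smul_sub, smul_sub, ← map_nsmul, HS (j + 1), hc.mul (j + 1)]
  have hc'I : IsInv ℓ W c' := by
    intro τ
    obtain ⟨m, Q, hQ, hinv⟩ := hi τ
    refine ⟨m + 1, fun j => Q j - ℓ ^ m • (act W (ak τ) (H j) - H j), ⟨?_, fun j => ?_⟩, ?_⟩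
    · show Q 0 - ℓ ^ m • (act W (ak τ) (H 0) - H 0) = 0
      rw [hQ.zero, H0, PK, sub_self, smul_zero, sub_zero]
    · show ℓ • (Q (j + 1) - ℓ ^ m • (act W (ak τ) (H (j + 1)) - H (j + 1))) =
        Q j - ℓ ^ m • (act W (ak τ) (H j) - H j)
      rw [smul_sub, hQ.mul, smul_comm, smul_sub, ← map_nsmul, HS]
    · intro j σ σ' h
      have h1 := hinv j σ σ' h
      have hcomp : act W (ak τ) (act W (rs K σ') (H j)) = act W (rs K σ) (act W (ak τ) (H j)) := by
        have h5 : (ak τ).comp (rs K σ') = (rs K σ).comp (ak τ) := AlgHom.ext fun x => h x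
        rw [act_act, act_act, h5]
      have h2 : ∀ ρ : Sep F ≃ₐ[F] Sep F, ℓ • c' j ρ = c j ρ - (act W (rs K ρ) (H j) - H j) := by
        intro ρ
        show ℓ • (c (j + 1) ρ - (act W (rs K ρ) (H (j + 1)) - H (j + 1))) = _
        rw [smul_sub, smul_sub, ← map_nsmul, HS, hc.mul]
      show ℓ ^ (m + 1) • (act W (ak τ) (c' j σ') - c' j σ) =
        act W (rs K σ) (Q j - ℓ ^ m • (act W (ak τ) (H j) - H j)) -
          (Q j - ℓ ^ m • (act W (ak τ) (H j) - H j))
      have h3 : ℓ ^ (m + 1) • (act W (ak τ) (c' j σ') - c' j σ) =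
          ℓ ^ m • (act W (ak τ) (ℓ • c' j σ') - ℓ • c' j σ) := by
        rw [pow_succ, mul_smul, smul_sub ℓ, map_nsmul]
      rw [h3, h2, h2, map_sub (act W (ak τ)), map_sub (act W (ak τ)), hcomp]
      have h4 : act W (ak τ) (c j σ') -
          (act W (rs K σ) (act W (ak τ) (H j)) - act W (ak τ) (H j)) -
          (c j σ - (act W (rs K σ) (H j) - H j)) =
          (act W (ak τ) (c j σ') - c j σ) -
          (act W (rs K σ) (act W (ak τ) (H j) - H j) - (act W (ak τ) (H j) - H j)) := by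
        rw [map_sub (act W (rs K σ))]; abel
      rw [h4, smul_sub, h1, map_sub (act W (rs K σ)) (Q j), map_nsmul (act W (rs K σ)), smul_sub]
      abel
  exact ⟨hc'T, fun j => Pool.Agent.TH115.GD.lt_subT (hloc (j + 1)) _, hc'I⟩

/-- The sequence of parts of a point, with given first member. -/
theorem parts (hdiv : ∀ X : Pt W (Sep F), ∃ Y : Pt W (Sep F), ℓ • Y = X)
    {P : Pt W K} {H : Pt W (Sep F)} (hH : ℓ • H = act W (incl K K (Sep F)) P) :
    ∃ G : ℕ → Pt W (Sep F), G 0 = act W (incl K K (Sep F)) P ∧ G 1 = H ∧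
      ∀ j, ℓ • G (j + 1) = G j := by
  choose hv hhv using hdiv
  refine ⟨fun j => Nat.casesOn j (act W (incl K K (Sep F)) P)
    (fun i => Nat.rec H (fun _ X => hv X) i), rfl, rfl, fun j => ?_⟩
  cases j with
  | zero => exact hH
  | succ j => exact hhv _

theorem tate_of_part (hdiv : ∀ X : Pt W (Sep F), ∃ Y : Pt W (Sep F), ℓ • Y = X)
    (h : ∀ c : ℕ → (Sep F ≃ₐ[F] Sep F) → Pt W (Sep F), IsTateClass ℓ k' W c →
      ∃ (P : Pt W K) (H : Pt W (Sep F)), ℓ • H = act W (incl K K (Sep F)) P ∧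
        ∀ σ, c 1 σ = act W (rs K σ) H - H) : TateAt (F := F) ℓ k' W := by
  have key : ∀ (n : ℕ) (c : ℕ → (Sep F ≃ₐ[F] Sep F) → Pt W (Sep F)), IsTateClass ℓ k' W c →
      ∃ (P : Pt W K) (R : Pt W (Sep F)),
        ℓ ^ n • R = act W (incl K K (Sep F)) P ∧
        ∀ σ, c n σ = act W (rs K σ) R - R := by
    intro n
    induction n with
    | zero =>
      intro c hc
      refine ⟨0, 0, ?_, fun σ => ?_⟩
      · rw [smul_zero, map_zero]
      · rw [hc.tc.zero, map_zero, sub_zero]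
    | succ n ih =>
      intro c hc
      obtain ⟨P, H, hH, hcH⟩ := h c hc
      obtain ⟨G, G0, G1, GS⟩ := parts hdiv hH
      have Gpow : ∀ j, ℓ ^ j • G j = act W (incl K K (Sep F)) P := by
        intro j
        induction j with
        | zero => rw [pow_zero, one_smul, G0]
        | succ j ih => rw [pow_succ, mul_smul, GS, ih]
      obtain ⟨P', R', hR', hcn⟩ := ih _ (div_class hc G0 GS (fun σ => by rw [G1]; exact hcH σ))
      refine ⟨ℓ • P' + P, R' + G (n + 1), ?_, fun σ => ?_⟩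
      · rw [smul_add, Gpow, pow_succ', mul_smul, hR', map_add, map_nsmul]
      · have h1 := hcn σ
        have h2 : c (n + 1) σ - (act W (rs K σ) (G (n + 1)) - G (n + 1)) =
          act W (rs K σ) R' - R' := h1
        rw [sub_eq_iff_eq_add] at h2
        rw [h2, map_add]
        abel
  intro c hc hl hi n
  exact key n c ⟨hc, hl, hi⟩

/-- The form of the criterion for `ℓ = 3`. -/
theorem tate_of_third (hdiv : ∀ X : Pt W (Sep F), ∃ Y : Pt W (Sep F), Y + Y + Y = X)
    (h : ∀ c : ℕ → (Sep F ≃ₐ[F] Sep F) → Pt W (Sep F), IsTateClass 3 k' W c →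
      ∃ (P : Pt W K) (H : Pt W (Sep F)), H + H + H = act W (incl K K (Sep F)) P ∧
        ∀ σ, c 1 σ = act W (rs K σ) H - H) : TateAt (F := F) 3 k' W := by
  have e3 : ∀ X : Pt W (Sep F), 3 • X = X + X + X := fun X => by
    rw [show (3 : ℕ) = 2 + 1 from rfl, add_smul, two_nsmul, one_smul]
  refine tate_of_part (fun X => ?_) (fun c hc => ?_)
  · obtain ⟨Y, hY⟩ := hdiv X
    exact ⟨Y, by rw [e3, hY]⟩
  · obtain ⟨P, H, h1, h2⟩ := h c hc
    exact ⟨P, H, by rw [e3, h1], h2⟩

end step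

end Pool.Agent.Helper7K9.T3
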