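import Pool.Agent.Helper7K9.T3.Kum

/-!
Local conditions for the Kummer generators.
-/

set_option autoImplicit false
set_option linter.all false

open WeierstrassCurve WeierstrassCurve.Affine
open scoped Classical

namespace Pool.Agent.Helper7K9.T3

open Pool.Agent.TH115.GD (Pt act incl rs ak IsCoc LocTriv act_zero act_some act_inj act_act
  fixed_point exists_restrict)
open Pool.Agent.W309.TD (locConst_apply compare)

universe u

section DD

variable {F : Type*} [Field F] {W : Affine F} {a b : F} (h : IsE3 W a b)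

/-- The function `Dd` of a point. -/
noncomputable def DD (a b : F) : W.Point → F
  | .zero => 0
  | .some x y _ => if x = 0 then 0 else Dd (y / x) (b / x) (-a - y / x - b / x)

include h

theorem DD_pt {α β γ : F} (h1 : α + β + γ = -a) (h2 : α * β * γ = -b) :
    DD a b (pt h h1 h2) = Dd α β γ := by
  obtain ⟨hα, hβ, hγ⟩ := th_ne h.nb h2
  unfold pt DD
  simp only []
  rw [if_neg (pt_x_ne h h2)]
  have e1 : -(α ^ 2 * γ) / -(α * γ) = α := by field_simp
  have hb : b = -(α * β * γ) := by linear_combination h2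
  have e2 : b / -(α * γ) = β := by rw [hb]; field_simp
  have e3 : -a - α - β = γ := by linear_combination -h1
  rw [e1, e2, e3]

theorem DD_inT {P : W.Point} (hP : InT h P) : DD a b P = 0 := by
  rcases hP with rfl | rfl | rfl
  · rfl
  · unfold pT DD; simp
  · obtain ⟨hQ, e⟩ := neg_pT h
    rw [e]; unfold DD; simp

theorem DD_add_pT (P : W.Point) : DD a b (P + pT h) = DD a b P := by
  by_cases hP : InT h P
  · rw [DD_inT h hP, DD_inT h (hP.add h (Or.inr (Or.inl rfl)))]
  · rcases exists_pt h P with rfl | rfl | rfl | ⟨α, β, γ, h1, h2, rfl⟩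
    · exact absurd (Or.inl rfl) hP
    · exact absurd (Or.inr (Or.inl rfl)) hP
    · exact absurd (Or.inr (Or.inr rfl)) hP
    · rw [pt_add_pT, DD_pt, DD_pt, Dd_cyc]

theorem DD_add {P S : W.Point} (hS : InT h S) : DD a b (P + S) = DD a b P := by
  rcases hS with rfl | rfl | rfl
  · rw [add_zero]
  · exact DD_add_pT h P
  · have := DD_add_pT h (P + -(pT h))
    rw [neg_add_cancel_right] at this
    exact this.symm

variable {z : F} (hz : z ^ 2 + z + 1 = 0)

include hz in
/-- The equation of the isogenous curve. -/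
theorem t1_eq (P : W.Point) : t1 z a b P ^ 3 = 1 ∨ t1 z a b P ^ 3 = (a ^ 3 - 27 * b) ^ 2 ∨
    (t1 z a b P ^ 3) ^ 2 + 3 * a * DD a b P * t1 z a b P ^ 3 -
      (a ^ 3 - 27 * b) * t1 z a b P ^ 3 + DD a b P ^ 3 = 0 := by
  by_cases hP : InT h P
  · left; rw [t1_inT h hP]; ring
  · right
    rcases exists_pt h P with rfl | rfl | rfl | ⟨α, β, γ, h1, h2, rfl⟩
    · exact absurd (Or.inl rfl) hP
    · exact absurd (Or.inr (Or.inl rfl)) hP
    · exact absurd (Or.inr (Or.inr rfl)) hP
    · rw [t1_pt, DD_pt]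
      obtain ⟨e1, e2⟩ := uw_pt (a := a) hz h.three h1 h2
      by_cases h3 : α + z ^ 2 * β + z * γ = 0
      · left
        rw [if_pos h3]
        rw [h3] at e2
        have e4 : (α + z * β + z ^ 2 * γ) ^ 3 = a ^ 3 - 27 * b := by linear_combination e2
        rw [← e4]; ring
      · right
        rw [if_neg h3, e1, ← e2]
        ring

end DD

section DDact

variable {K Ω Ω' : Type u} [Field K] [Field Ω] [Field Ω'] [Algebra K Ω] [Algebra K Ω'] {a b : K}

theorem DD_act (W : WeierstrassCurve K) (φ : Ω →ₐ[K] Ω') (a b : Ω) (P : Pt W Ω) :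
    DD (φ a) (φ b) (act W φ P) = φ (DD a b P) := by
  rcases P with _ | ⟨x, y, hxy⟩
  · rw [act_zero]; simp [DD]
  · obtain ⟨h, hh⟩ := act_some W φ hxy
    rw [hh]
    have e3 : -φ a - φ y / φ x - φ b / φ x = φ (-a - y / x - b / x) := by
      simp only [map_sub, map_neg, map_div₀]
    simp only [DD, map_eq_zero]
    split_ifs
    · simp
    · rw [e3, ← map_div₀, ← map_div₀, Dd_map]

end DDact

section loc

variable {K F Ω L Ω' : Type u} [Field K] [Field F] [Field Ω] [Field L] [Field Ω']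
  [Algebra K F] [Algebra F Ω] [Algebra K Ω] [IsScalarTower K F Ω] [IsGalois F Ω]
  [Algebra K L] [Algebra F L] [IsScalarTower K F L]
  [Algebra L Ω'] [Algebra K Ω'] [Algebra F Ω'] [IsScalarTower K L Ω'] [IsScalarTower F L Ω']
  [IsScalarTower K F Ω'] [IsGalois L Ω'] {a b : K}
  (h3 : (3 : K) ≠ 0) (hb : b ≠ 0) (hd : a ^ 3 - 27 * b ≠ 0)
  {z : F} (hz : z ^ 2 + z + 1 = 0)

/-- Local solubility in the first step. -/
def Loc0 (a b : K) (L : Type u) [Field L] [Algebra K L] [Algebra F L] (a0 : F) : Prop :=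
  ∃ (Q : Pt (crv3 a b) L) (c : L), c ≠ 0 ∧ algebraMap F L a0 = c ^ 3 * dT (algebraMap K L b) Q

/-- Local solubility in the second step. -/
def Loc1 (a b : K) (L : Type u) [Field L] [Algebra K L] [Algebra F L] (a1 : F) : Prop :=
  ∃ c y : L, c ≠ 0 ∧ y ≠ 0 ∧ algebraMap F L a1 = c ^ 3 * y ∧
    (y = 1 ∨ y = algebraMap K L (a ^ 3 - 27 * b) ^ 2 ∨
    ∃ D : L, y ^ 2 + 3 * algebraMap K L a * D * y - algebraMap K L (a ^ 3 - 27 * b) * y + D ^ 3 = 0)

include h3 hb hd hz

theorem loc0T (h3r : ∀ x : Ω', ∃ y, y ^ 3 = x) {f : (Ω ≃ₐ[F] Ω) → Pt (crv3 a b) Ω}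
    (hf3 : ∀ σ, f σ + f σ + f σ = 0)
    (hloc : LocTriv (crv3 a b) L Ω' f) {t0 : Ω} {a0 : F} (n0 : t0 ≠ 0)
    (e0 : t0 ^ 3 = algebraMap F Ω a0) (k0 : ∀ σ, σ t0 = S0 a b (f σ) * t0) :
    Loc0 a b L a0 := by
  obtain ⟨ι, P, hP⟩ := hloc
  choose res hres using exists_restrict (F := F) (Ω := Ω) (L := L) (Ω' := Ω') ι
  set ι' : Ω →ₐ[K] Ω' := ι.restrictScalars K with hι'
  have h := isE3 a b Ω h3 hb hd
  have h' := isE3 a b Ω' h3 hb hd
  have hz' : (algebraMap F Ω' z) ^ 2 + algebraMap F Ω' z + 1 = 0 := by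
    rw [← map_pow, ← map_add, ← map_one (algebraMap F Ω'), ← map_add, hz, map_zero]
  have hzL : ∀ τ : Ω' ≃ₐ[L] Ω', τ (algebraMap F Ω' z) = algebraMap F Ω' z := by
    intro τ
    rw [IsScalarTower.algebraMap_apply F L Ω', τ.commutes]
  have hT : ∀ τ : Ω' ≃ₐ[L] Ω', act (crv3 a b) ι' (f (res τ)) = act (crv3 a b) (rs K τ) P - P :=
    fun τ => hP τ (res τ) (hres τ)
  have hTT : ∀ τ : Ω' ≃ₐ[L] Ω', act (crv3 a b) ι' (f (res τ)) + act (crv3 a b) ι' (f (res τ)) +
      act (crv3 a b) ι' (f (res τ)) = 0 :=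
    fun τ => three_act _ ι' (hf3 _)
  have hTP : ∀ τ : Ω' ≃ₐ[L] Ω', act (crv3 a b) (rs K τ) P = P + act (crv3 a b) ι' (f (res τ)) := by
    intro τ; rw [hT]; abel
  have hPP : ∀ τ : Ω' ≃ₐ[L] Ω', act (crv3 a b) (rs K τ) (P + P + P) = P + P + P := by
    intro τ
    rw [map_add, map_add, hTP]
    have : ∀ A B : Pt (crv3 a b) Ω', A + B + (A + B) + (A + B) = (A + A + A) + (B + B + B) :=
      fun A B => by abel
    rw [this, hTT, add_zero]
  obtain ⟨Q, hQ⟩ := fixed_point (K := K) (F := L) (crv3 a b) (P + P + P) hPP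
  have gb : incl K L Ω' (algebraMap K L b) = algebraMap K Ω' b :=
    (IsScalarTower.algebraMap_apply K L Ω' b).symm
  have m0 : ∀ τ : Ω' ≃ₐ[L] Ω', τ (H0 a b P) =
      S0 a b (act (crv3 a b) ι' (f (res τ))) * H0 a b P := by
    intro τ
    rw [hT]
    exact (sign0 (F := L) h3 hb hd hz' hzL h3r hPP τ).2
  have l0 : ∀ τ : Ω' ≃ₐ[L] Ω', τ (ι t0) = S0 a b (act (crv3 a b) ι' (f (res τ))) * ι t0 := by
    intro τ
    rw [hres τ t0, k0, map_mul, S0_act]
    rfl
  obtain ⟨c0, hc0, q0⟩ := compare (K := L) ((map_ne_zero ι).2 n0) (h0_ne h' P) _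
    (fun τ => s0_ne h' hz' (hTT τ)) l0 m0
  refine ⟨Q, c0, hc0, ?_⟩
  apply (algebraMap L Ω').injective
  have w1 : (ι t0) ^ 3 = algebraMap F Ω' a0 := by rw [← map_pow, e0, ι.commutes]
  rw [← IsScalarTower.algebraMap_apply F L Ω', ← w1, q0, mul_pow, h0_cube h', ← hQ,
    ← gb, dT_act, map_mul, map_pow]
  rfl

theorem loc1T {f : (Ω ≃ₐ[F] Ω) → Pt (crv3 a b) Ω}
    (hf3 : ∀ σ, InT (isE3 a b Ω h3 hb hd) (f σ))
    (hloc : LocTriv (crv3 a b) L Ω' f) {t : Ω} {a1 : F} (n1 : t ≠ 0)
    (e1 : t ^ 3 = algebraMap F Ω a1) (k1 : ∀ σ, σ t = ch (algebraMap F Ω z) (f σ) * t) :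
    Loc1 a b L a1 := by
  obtain ⟨ι, P, hP⟩ := hloc
  choose res hres using exists_restrict (F := F) (Ω := Ω) (L := L) (Ω' := Ω') ι
  set ι' : Ω →ₐ[K] Ω' := ι.restrictScalars K with hι'
  have h := isE3 a b Ω h3 hb hd
  have h' := isE3 a b Ω' h3 hb hd
  set z' := algebraMap F Ω' z with hz'def
  have hz' : z' ^ 2 + z' + 1 = 0 := by
    rw [hz'def, ← map_pow, ← map_add, ← map_one (algebraMap F Ω'), ← map_add, hz, map_zero]
  have hzL : ∀ τ : Ω' ≃ₐ[L] Ω', τ z' = z' := by
    intro τ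
    rw [hz'def, IsScalarTower.algebraMap_apply F L Ω', τ.commutes]
  have hT : ∀ τ : Ω' ≃ₐ[L] Ω', act (crv3 a b) ι' (f (res τ)) = act (crv3 a b) (rs K τ) P - P :=
    fun τ => hP τ (res τ) (hres τ)
  have hI : ∀ τ : Ω' ≃ₐ[L] Ω', InT h' (act (crv3 a b) ι' (f (res τ))) := fun τ =>
    InT_act h3 hb hd ι' (hf3 _)
  have hTP : ∀ τ : Ω' ≃ₐ[L] Ω', act (crv3 a b) (rs K τ) P = P + act (crv3 a b) ι' (f (res τ)) := by
    intro τ; rw [hT]; abel
  have hch : ∀ S : Pt (crv3 a b) Ω, InT h S →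
      ch z' (act (crv3 a b) ι' S) = ι' (ch (algebraMap F Ω z) S) := by
    have hιz : ι' (algebraMap F Ω z) = z' := ι.commutes z
    intro S hS
    rcases hS with rfl | rfl | rfl
    · rw [map_zero]
      show 1 = ι' 1
      rw [map_one]
    · rw [pT_act h3 hb hd, ch_pT, ch_pT, hιz]
    · rw [map_neg, pT_act h3 hb hd, ch_neg_pT, ch_neg_pT, map_pow, hιz]
  have ga : algebraMap K Ω' a = algebraMap L Ω' (algebraMap K L a) :=
    IsScalarTower.algebraMap_apply K L Ω' a
  have gb : algebraMap K Ω' b = algebraMap L Ω' (algebraMap K L b) :=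
    IsScalarTower.algebraMap_apply K L Ω' b
  set T1 := t1 z' (algebraMap K Ω' a) (algebraMap K Ω' b) P with hT1
  have hfa : ∀ (τ : Ω' ≃ₐ[L] Ω'), (rs K τ) (algebraMap K Ω' a) = algebraMap K Ω' a :=
    fun τ => (rs K τ).commutes a
  have hfb : ∀ (τ : Ω' ≃ₐ[L] Ω'), (rs K τ) (algebraMap K Ω' b) = algebraMap K Ω' b :=
    fun τ => (rs K τ).commutes b
  have m0 : ∀ τ : Ω' ≃ₐ[L] Ω', τ T1 = ch z' (act (crv3 a b) ι' (f (res τ))) * T1 := by
    intro τ
    have e5 := t1_act (crv3 a b) (rs K τ) z' (algebraMap K Ω' a) (algebraMap K Ω' b) P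
    rw [hfa, hfb, show (rs K τ) z' = z' from hzL τ] at e5
    by_cases hPI : InT h' P
    · have e6 : act (crv3 a b) ι' (f (res τ)) = 0 := by
        rw [hT, InT_fix h3 hb hd _ hPI, sub_self]
      rw [e6, hT1, t1_inT h' hPI, map_one]
      show (1 : Ω') = 1 * 1
      ring
    · rw [← t1_add h' hz' hPI (hI τ), ← hTP, e5]
      rfl
  have l0 : ∀ τ : Ω' ≃ₐ[L] Ω', τ (ι t) = ch z' (act (crv3 a b) ι' (f (res τ))) * ι t := by
    intro τ
    rw [hres τ t, k1, map_mul, hch _ (hf3 _)]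
    rfl
  have hT1n : T1 ≠ 0 := t1_ne h' hz' P
  obtain ⟨c0, hc0, q0⟩ := compare (K := L) ((map_ne_zero ι).2 n1) hT1n _
    (fun τ => ch_ne h' hz' (hI τ)) l0 m0
  -- the cube of `T1`
  obtain ⟨y, hy⟩ : T1 ^ 3 ∈ Set.range (algebraMap L Ω') := by
    rw [InfiniteGalois.mem_range_algebraMap_iff_fixed]
    intro τ
    rw [map_pow, m0, mul_pow, ch_cube h' hz' (hI τ), one_mul]
  obtain ⟨D, hD⟩ : DD (algebraMap K Ω' a) (algebraMap K Ω' b) P ∈ Set.range (algebraMap L Ω') := by
    rw [InfiniteGalois.mem_range_algebraMap_iff_fixed]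
    intro τ
    have e5 := DD_act (crv3 a b) (rs K τ) (algebraMap K Ω' a) (algebraMap K Ω' b) P
    rw [hfa, hfb, hTP, DD_add h' (hI τ)] at e5
    exact e5.symm
  have hy0 : y ≠ 0 := by
    rintro rfl
    rw [map_zero] at hy
    exact pow_ne_zero 3 hT1n hy.symm
  have inj := (algebraMap L Ω').injective
  have hΔ : algebraMap L Ω' (algebraMap K L (a ^ 3 - 27 * b)) =
      algebraMap K Ω' a ^ 3 - 27 * algebraMap K Ω' b := by
    rw [ga, gb]
    simp only [map_sub, map_pow, map_mul, map_ofNat]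
  refine ⟨c0, y, hc0, hy0, ?_, ?_⟩
  · apply inj
    have w1 : (ι t) ^ 3 = algebraMap F Ω' a1 := by rw [← map_pow, e1, ι.commutes]
    rw [← IsScalarTower.algebraMap_apply F L Ω', ← w1, q0, mul_pow, map_mul, map_pow, hy]
  · rcases t1_eq h' hz' P with e | e | e
    · left
      apply inj
      rw [hy, map_one]
      exact e
    · right; left
      apply inj
      rw [hy, map_pow, hΔ]
      exact e
    · right; right
      refine ⟨D, ?_⟩
      apply inj
      simp only [map_add, map_sub, map_mul, map_pow, map_ofNat, map_zero]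
      have hΔ' := hΔ
      simp only [map_sub, map_mul, map_pow, map_ofNat] at hΔ'
      rw [hΔ', hy, hD, ← ga]
      exact e

end loc

section val

/-- Cubes in the value group. -/
def Cu (γ : WithZero (Multiplicative ℤ)) : Prop := ∃ β, γ = β ^ 3

theorem Cu.one : Cu 1 := ⟨1, by rw [one_pow]⟩

theorem Cu.mul {x y : WithZero (Multiplicative ℤ)} (hx : Cu x) (hy : Cu y) : Cu (x * y) := by
  obtain ⟨s, rfl⟩ := hx
  obtain ⟨t, rfl⟩ := hy
  exact ⟨s * t, by rw [mul_pow]⟩

theorem Cu.pow {x : WithZero (Multiplicative ℤ)} (n : ℕ) (hx : Cu x) : Cu (x ^ n) := by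
  obtain ⟨s, rfl⟩ := hx
  exact ⟨s ^ n, by rw [← pow_mul, ← pow_mul, mul_comm]⟩

theorem Cu.cube (x : WithZero (Multiplicative ℤ)) : Cu (x ^ 3) := ⟨x, rfl⟩

variable {L : Type*} [Field L] (v : Valuation L (WithZero (Multiplicative ℤ)))

/-- The valuation of the ordinate is divisible by three. -/
theorem val_cube {a b x y : L} (ha : v a ≤ 1) (hb : v b = 1) (hy : y ≠ 0)
    (h : y ^ 2 + a * x * y + b * y = x ^ 3) : Cu (v y) := by
  have hy0 : v y ≠ 0 := (Valuation.ne_zero_iff v).2 hy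
  have h' : y * (y + a * x + b) = x ^ 3 := by linear_combination h
  have hv : v y * v (y + a * x + b) = v x ^ 3 := by
    rw [← map_mul, h', map_pow]
  have hax : v (a * x) ≤ v x := by
    rw [map_mul]
    exact mul_le_of_le_one_left' ha
  rcases lt_trichotomy (v y) 1 with h1 | h1 | h1
  · -- `v y < 1`
    have hx1 : v x < 1 := by
      by_contra hx
      rw [not_lt] at hx
      have hle : v (y + a * x + b) ≤ v x := by
        refine (v.map_add _ _).trans (max_le ((v.map_add _ _).trans (max_le (h1.le.trans hx) hax)) ?_)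
        rw [hb]; exact hx
      have h5 : v x ^ 3 < v x ^ 2 := by
        rw [← hv]
        have hx0 : 0 < v x := lt_of_lt_of_le zero_lt_one hx
        calc v y * v (y + a * x + b) ≤ v y * v x := mul_le_mul_right hle _
          _ < 1 * v x := mul_lt_mul_of_pos_right h1 hx0
          _ = v x := one_mul _
          _ ≤ v x ^ 2 := by rw [pow_two]; exact le_mul_of_one_le_left' hx
      have h6 : v x ^ 2 ≤ v x ^ 3 := pow_le_pow_right₀ hx (by norm_num)
      exact absurd h5 (not_lt.2 h6)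
    have h5 : v (y + a * x + b) = 1 := by
      have h6 : v (y + a * x) < v b := by
        rw [hb]
        exact lt_of_le_of_lt (v.map_add _ _) (max_lt h1 (lt_of_le_of_lt hax hx1))
      rw [Valuation.map_add_eq_of_lt_right v h6, hb]
    rw [h5, mul_one] at hv
    exact ⟨v x, hv⟩
  · rw [h1]; exact Cu.one
  · -- `1 < v y`
    rcases lt_or_ge (v x) (v y) with hxy | hxy
    · have h5 : v (y + a * x + b) = v y := by
        rw [add_assoc]
        apply Valuation.map_add_eq_of_lt_left v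
        refine lt_of_le_of_lt (v.map_add _ _) (max_lt (lt_of_le_of_lt hax hxy) ?_)
        rw [hb]; exact h1
      rw [h5] at hv
      have hx0 : v x ≠ 0 := by
        intro h6
        rw [h6] at hv
        simp at hv
        exact hy hv
      refine ⟨v y / v x, ?_⟩
      rw [div_pow, ← hv]
      field_simp
    · exfalso
      have hx1 : 1 < v x := lt_of_lt_of_le h1 hxy
      have hle : v (y + a * x + b) ≤ v x := by
        refine (v.map_add _ _).trans (max_le ((v.map_add _ _).trans (max_le hxy hax)) ?_)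
        rw [hb]; exact hx1.le
      have h5 : v x ^ 3 ≤ v x ^ 2 := by
        rw [← hv, pow_two]
        exact mul_le_mul' hxy hle
      have h6 : v x ^ 2 < v x ^ 3 := pow_lt_pow_right₀ hx1 (by norm_num)
      exact absurd h6 (not_lt.2 h5)

end val

section gen

variable {K F L : Type} [Field K] [Field F] [Field L] [Algebra K F] [Algebra K L]
  [Algebra F L] [IsScalarTower K F L] {a b : K}
  (w : Valuation L (WithZero (Multiplicative ℤ)))
  (v : Valuation F (WithZero (Multiplicative ℤ))) (hwv : ∀ x : F, w (algebraMap F L x) = v x)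

/-- The equation of a point. -/
theorem crv3_eq {K L : Type*} [Field K] [Field L] [Algebra K L] {a b : K} {x y : L}
    (h : ((crv3 a b).baseChange L).toAffine.Nonsingular x y) :
    y ^ 2 + algebraMap K L a * x * y + algebraMap K L b * y = x ^ 3 := by
  have h1 := h.1
  rw [Affine.equation_iff] at h1
  have e1 : ((crv3 a b).baseChange L).toAffine.a₁ = algebraMap K L a := rfl
  have e2 : ((crv3 a b).baseChange L).toAffine.a₂ = 0 := map_zero _
  have e3 : ((crv3 a b).baseChange L).toAffine.a₃ = algebraMap K L b := rfl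
  have e4 : ((crv3 a b).baseChange L).toAffine.a₄ = 0 := map_zero _
  have e6 : ((crv3 a b).baseChange L).toAffine.a₆ = 0 := map_zero _
  rw [e1, e2, e3, e4, e6] at h1
  linear_combination h1

include hwv in
theorem gen0 (va : v (algebraMap K F a) ≤ 1) (vb : v (algebraMap K F b) = 1) {a0 : F}
    (hs : Loc0 a b L a0) : Cu (v a0) := by
  obtain ⟨Q, c, hc, e⟩ := hs
  have wa : w (algebraMap K L a) ≤ 1 := by
    rw [IsScalarTower.algebraMap_apply K F L, hwv]; exact va
  have wb : w (algebraMap K L b) = 1 := by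
    rw [IsScalarTower.algebraMap_apply K F L, hwv]; exact vb
  rw [← hwv, e, map_mul, map_pow]
  refine Cu.mul (Cu.cube _) ?_
  rcases Q with _ | ⟨x, y, hxy⟩
  · simp only [dT, map_one]
    exact Cu.one
  · simp only [dT]
    split_ifs with hy
    · rw [map_pow, wb, one_pow]; exact Cu.one
    · exact val_cube w wa wb hy (crv3_eq hxy)

include hwv in
theorem gen1 (v3 : v 3 ≤ 1) (va : v (algebraMap K F a) ≤ 1)
    (vb : v (algebraMap K F (a ^ 3 - 27 * b)) = 1) {a1 : F}
    (hs : Loc1 a b L a1) : Cu (v a1) := by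
  obtain ⟨c, y, hc, hy, e, hz⟩ := hs
  have wa : w (algebraMap K L a) ≤ 1 := by
    rw [IsScalarTower.algebraMap_apply K F L, hwv]; exact va
  have wb : w (algebraMap K L (a ^ 3 - 27 * b)) = 1 := by
    rw [IsScalarTower.algebraMap_apply K F L, hwv]; exact vb
  have w3 : w 3 ≤ 1 := by
    have := hwv 3
    rw [map_ofNat] at this
    rw [this]; exact v3
  rw [← hwv, e, map_mul, map_pow]
  refine Cu.mul (Cu.cube _) ?_
  rcases hz with rfl | rfl | ⟨D, hD⟩
  · rw [map_one]; exact Cu.one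
  · rw [map_pow, wb, one_pow]; exact Cu.one
  · refine val_cube w (a := -(3 * algebraMap K L a)) (b := -algebraMap K L (a ^ 3 - 27 * b))
      (x := -D) ?_ ?_ hy ?_
    · rw [Valuation.map_neg, map_mul]
      exact mul_le_one' w3 wa
    · rw [Valuation.map_neg, wb]
    · linear_combination hD

theorem val_cube_s {L : Type*} [Field L] (v : Valuation L (WithZero (Multiplicative ℤ)))
    {a b x y s : L} (hs : s ≠ 0) (ha : v a ≤ v s) (hb : v b = v s ^ 3) (hy : y ≠ 0)
    (h : y ^ 2 + a * x * y + b * y = x ^ 3) : Cu (v y) := by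
  have hvs : v s ≠ 0 := (Valuation.ne_zero_iff v).2 hs
  have key := val_cube v (a := a / s) (b := b / s ^ 3) (x := x / s ^ 2) (y := y / s ^ 3)
    (by rw [map_div₀]; exact div_le_one_of_le₀ ha zero_le)
    (by rw [map_div₀, map_pow, hb]; exact div_self (pow_ne_zero 3 hvs))
    (div_ne_zero hy (pow_ne_zero 3 hs))
    (by
      field_simp
      linear_combination h)
  have e : v y = v (y / s ^ 3) * v s ^ 3 := by
    rw [map_div₀, map_pow, div_mul_cancel₀ _ (pow_ne_zero 3 hvs)]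
  rw [e]
  exact key.mul (Cu.cube _)

include hwv in
theorem gen0s {s : F} (hs0 : s ≠ 0) (va : v (algebraMap K F a) ≤ v s)
    (vb : v (algebraMap K F b) = v s ^ 3) {a0 : F} (hs : Loc0 a b L a0) : Cu (v a0) := by
  obtain ⟨Q, c, hc, e⟩ := hs
  have wa : w (algebraMap K L a) ≤ w (algebraMap F L s) := by
    rw [IsScalarTower.algebraMap_apply K F L, hwv, hwv]; exact va
  have wb : w (algebraMap K L b) = w (algebraMap F L s) ^ 3 := by
    rw [IsScalarTower.algebraMap_apply K F L, hwv, hwv]; exact vb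
  rw [← hwv, e, map_mul, map_pow]
  refine Cu.mul (Cu.cube _) ?_
  rcases Q with _ | ⟨x, y, hxy⟩
  · simp only [dT, map_one]
    exact Cu.one
  · simp only [dT]
    split_ifs with hy
    · rw [map_pow, wb]; exact (Cu.cube _).pow 2
    · exact val_cube_s w ((_root_.map_ne_zero _).2 hs0) wa wb hy (crv3_eq hxy)

include hwv in
theorem gen1s {s : F} (hs0 : s ≠ 0) (v3 : v 3 ≤ 1) (va : v (algebraMap K F a) ≤ v s)
    (vb : v (algebraMap K F (a ^ 3 - 27 * b)) = v s ^ 3) {a1 : F}
    (hs : Loc1 a b L a1) : Cu (v a1) := by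
  obtain ⟨c, y, hc, hy, e, hz⟩ := hs
  have wa : w (algebraMap K L a) ≤ w (algebraMap F L s) := by
    rw [IsScalarTower.algebraMap_apply K F L, hwv, hwv]; exact va
  have wb : w (algebraMap K L (a ^ 3 - 27 * b)) = w (algebraMap F L s) ^ 3 := by
    rw [IsScalarTower.algebraMap_apply K F L, hwv, hwv]; exact vb
  have w3 : w 3 ≤ 1 := by
    have := hwv 3
    rw [map_ofNat] at this
    rw [this]; exact v3
  rw [← hwv, e, map_mul, map_pow]
  refine Cu.mul (Cu.cube _) ?_
  rcases hz with rfl | rfl | ⟨D, hD⟩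
  · rw [map_one]; exact Cu.one
  · rw [map_pow, wb]; exact (Cu.cube _).pow 2
  · refine val_cube_s w (a := -(3 * algebraMap K L a)) (b := -algebraMap K L (a ^ 3 - 27 * b))
      (x := -D) (s := algebraMap F L s) ((_root_.map_ne_zero (algebraMap F L)).2 hs0) ?_ ?_ hy ?_
    · rw [Valuation.map_neg, map_mul]
      calc w 3 * w (algebraMap K L a) ≤ 1 * w (algebraMap K L a) := mul_le_mul_left w3 _
        _ = w (algebraMap K L a) := one_mul _
        _ ≤ _ := wa
    · rw [Valuation.map_neg, wb]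
    · linear_combination hD

end gen

end Pool.Agent.Helper7K9.T3
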