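import Pool.Agent.TH115.ID.Glob
import Pool.Agent.Helper7K9.T3.Loc

/-!
Orders modulo three of the elements of `k'(t)`.
-/

set_option autoImplicit false
set_option linter.all false

open Polynomial IsDedekindDomain
open scoped Classical

namespace Pool.Agent.Helper7K9.T3

open Pool.Agent.TH115.GD (pl val_poly)

section om

variable {R F : Type} [CommRing R] [IsDedekindDomain R] [Field F] [Algebra R F]
  [IsFractionRing R F]

/-- The order of `x` at `v`, modulo three. -/
noncomputable def om (v : HeightOneSpectrum R) (x : F) : ZMod 3 :=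
  ((-(WithZero.log (v.valuation F x)) : ℤ) : ZMod 3)

theorem om_mul (v : HeightOneSpectrum R) {x y : F} (hx : x ≠ 0) (hy : y ≠ 0) :
    om v (x * y) = om v x + om v y := by
  have hx0 : v.valuation F x ≠ 0 := (Valuation.ne_zero_iff _).2 hx
  have hy0 : v.valuation F y ≠ 0 := (Valuation.ne_zero_iff _).2 hy
  unfold om
  rw [map_mul, WithZero.log_mul hx0 hy0]
  push_cast
  ring

theorem om_pow (v : HeightOneSpectrum R) (x : F) (n : ℕ) : om v (x ^ n) = n * om v x := by
  unfold om
  rw [map_pow, WithZero.log_pow, nsmul_eq_mul]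
  push_cast
  ring

theorem om_one (v : HeightOneSpectrum R) : om v (1 : F) = 0 := by
  have := om_pow v (1 : F) 0
  rw [pow_zero, Nat.cast_zero, zero_mul] at this
  exact this

theorem om_cube (v : HeightOneSpectrum R) {c x : F} (hc : c ≠ 0) (hx : x ≠ 0) :
    om v (c ^ 3 * x) = om v x := by
  rw [om_mul v (pow_ne_zero 3 hc) hx, om_pow]
  have : ((3 : ℕ) : ZMod 3) = 0 := by decide
  rw [this, zero_mul, zero_add]

theorem om_of_Cu (v : HeightOneSpectrum R) {x : F} (h : Cu (v.valuation F x)) : om v x = 0 := by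
  obtain ⟨β, hβ⟩ := h
  unfold om
  rw [hβ, WithZero.log_pow, nsmul_eq_mul]
  push_cast
  have : (3 : ZMod 3) = 0 := by decide
  rw [this]
  ring

end om

section cubes

variable {k' F : Type} [Field k'] [Field F] [Algebra k'[X] F] [IsFractionRing k'[X] F]

/-- The place of an irreducible polynomial. -/
noncomputable def plI {π : k'[X]} (hπ : Irreducible π) : HeightOneSpectrum k'[X] where
  asIdeal := Ideal.span {π}
  isPrime := (Ideal.span_singleton_prime hπ.ne_zero).2 hπ.prime
  ne_bot := by rw [Ne, Ideal.span_singleton_eq_bot]; exact hπ.ne_zero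

theorem cube_dvd {π p : k'[X]} (hπ : Irreducible π) (hp : p ≠ 0) (hd : π ∣ p)
    (h : om (plI hπ) (algebraMap k'[X] F p) = 0) : π ^ 3 ∣ p := by
  set v := plI hπ with hv
  have hpF : algebraMap k'[X] F p ≠ 0 := by simpa using hp
  have h1 : v.valuation F (algebraMap k'[X] F p) = v.intValuation p := v.valuation_of_algebraMap p
  have h0 : v.intValuation p ≠ 0 := by
    rw [← h1]
    exact (Valuation.ne_zero_iff _).2 hpF
  unfold om at h
  rw [h1, ZMod.intCast_zmod_eq_zero_iff_dvd] at h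
  obtain ⟨m, hm⟩ := h
  have h2 : v.intValuation p < 1 := by
    rw [v.intValuation_lt_one_iff_dvd]
    show Ideal.span {π} ∣ Ideal.span {p}
    rw [Ideal.dvd_span_singleton, Ideal.mem_span_singleton]
    exact hd
  have h3 : WithZero.log (v.intValuation p) < 0 := by
    by_contra h4
    rw [not_lt] at h4
    have h5 := WithZero.exp_log h0
    have h6 : (1 : WithZero (Multiplicative ℤ)) ≤ v.intValuation p := by
      rw [← h5, ← WithZero.exp_zero, WithZero.exp_le_exp]
      exact h4
    exact absurd h2 (not_lt.2 h6)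
  have h7 : v.intValuation p ≤ WithZero.exp (-((3 : ℕ) : ℤ)) := by
    rw [← WithZero.exp_log h0, WithZero.exp_le_exp]
    push_cast at hm ⊢
    omega
  rw [v.intValuation_le_pow_iff_dvd] at h7
  have h8 : Ideal.span {π} ^ 3 ∣ Ideal.span {p} := h7
  rw [Ideal.span_singleton_pow, Ideal.dvd_span_singleton, Ideal.mem_span_singleton] at h8
  exact h8

theorem cube_poly (n : ℕ) : ∀ p : k'[X], p.natDegree ≤ n → p ≠ 0 →
    (∀ v : HeightOneSpectrum k'[X], om v (algebraMap k'[X] F p) = 0) →
    ∃ (u : k') (s : k'[X]), u ≠ 0 ∧ s ≠ 0 ∧ p = C u * s ^ 3 := by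
  induction n with
  | zero =>
    intro p hn hp _
    have h1 : p.natDegree = 0 := by omega
    obtain ⟨c, hc⟩ : ∃ c, p = C c := ⟨_, eq_C_of_natDegree_eq_zero h1⟩
    exact ⟨c, 1, fun h => hp (by rw [hc, h, C_0]), one_ne_zero, by rw [hc, one_pow, mul_one]⟩
  | succ n ih =>
    intro p hn hp h
    by_cases hu : IsUnit p
    · obtain ⟨c, hc, rfl⟩ := Polynomial.isUnit_iff.1 hu
      exact ⟨c, 1, hc.ne_zero, one_ne_zero, by rw [one_pow, mul_one]⟩
    · obtain ⟨π, hπ, hd⟩ := WfDvdMonoid.exists_irreducible_factor hu hp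
      obtain ⟨q, hq⟩ := cube_dvd (F := F) hπ hp hd (h _)
      have hq0 : q ≠ 0 := by
        rintro rfl
        rw [mul_zero] at hq
        exact hp hq
      have hπ0 : π ≠ 0 := hπ.ne_zero
      have hdeg : q.natDegree ≤ n := by
        have h1 : p.natDegree = 3 * π.natDegree + q.natDegree := by
          rw [hq, natDegree_mul (pow_ne_zero 3 hπ0) hq0, natDegree_pow]
        have h2 : 0 < π.natDegree := hπ.natDegree_pos
        omega
      have hqF : algebraMap k'[X] F q ≠ 0 := by simpa using hq0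
      have hπF : algebraMap k'[X] F π ≠ 0 := by simpa using hπ0
      obtain ⟨u, s, hu, hs, e⟩ := ih q hdeg hq0 (fun v => by
        have := h v
        rw [hq, map_mul, map_pow, om_cube v hπF hqF] at this
        exact this)
      exact ⟨u, π * s, hu, mul_ne_zero hπ0 hs, by rw [hq, e]; ring⟩

theorem cube_F {x : F} (hx : x ≠ 0) (h : ∀ v : HeightOneSpectrum k'[X], om v x = 0) :
    ∃ (u : k') (s : F), u ≠ 0 ∧ s ≠ 0 ∧ x = algebraMap k'[X] F (C u) * s ^ 3 := by
  obtain ⟨n, d, hd, rfl⟩ := IsFractionRing.div_surjective (A := k'[X]) x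
  have hd0 : d ≠ 0 := nonZeroDivisors.ne_zero hd
  have hn0 : n ≠ 0 := by
    rintro rfl
    simp at hx
  have hd' : algebraMap k'[X] F d ≠ 0 := by simpa using hd0
  have hn' : algebraMap k'[X] F n ≠ 0 := by simpa using hn0
  have e : algebraMap k'[X] F (n * d ^ 2) =
    (algebraMap k'[X] F d) ^ 3 * (algebraMap k'[X] F n / algebraMap k'[X] F d) := by
    rw [map_mul, map_pow]
    field_simp
  obtain ⟨u, s, hu, hs, e'⟩ := cube_poly (F := F) _ (n * d ^ 2) le_rfl
    (mul_ne_zero hn0 (pow_ne_zero 2 hd0)) (fun v => by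
      rw [e, om_cube v hd' (div_ne_zero hn' hd')]
      exact h v)
  have hs' : algebraMap k'[X] F s ≠ 0 := by simpa using hs
  refine ⟨u, algebraMap k'[X] F s / algebraMap k'[X] F d, hu, div_ne_zero hs' hd', ?_⟩
  rw [e', map_mul, map_pow] at e
  have : algebraMap k'[X] F n / algebraMap k'[X] F d =
      (algebraMap k'[X] F (C u) * algebraMap k'[X] F s ^ 3) / (algebraMap k'[X] F d) ^ 3 := by
    rw [e]
    field_simp
  rw [this, div_pow, mul_div_assoc]

theorem om_poly (θ : k') {p : k'[X]} (hp : p ≠ 0) :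
    om (pl θ) (algebraMap k'[X] F p) = (rootMultiplicity θ p : ZMod 3) := by
  unfold om
  rw [val_poly θ hp, WithZero.log_exp]
  push_cast
  ring

theorem om_C (v : HeightOneSpectrum k'[X]) {c : k'} (hc : c ≠ 0) :
    om v (algebraMap k'[X] F (C c)) = 0 := by
  apply om_of_Cu
  have h3 : v.valuation F (algebraMap k'[X] F (C c)) = 1 := by
    rw [v.valuation_of_algebraMap, HeightOneSpectrum.intValuation_eq_one_iff]
    intro hmem
    exact v.isPrime.ne_top (Ideal.eq_top_of_isUnit_mem _ hmem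
      (Polynomial.isUnit_C.2 (isUnit_iff_ne_zero.2 hc)))
  rw [h3]
  exact Cu.one

/-- The order at a place which is not one of the linear factors. -/
theorem om_prod_other {Z : Finset k'} {v : HeightOneSpectrum k'[X]} (hv : ∀ θ ∈ Z, v ≠ pl θ)
    (e : k' → ℕ) : om v (algebraMap k'[X] F (∏ θ ∈ Z, (X - C θ) ^ e θ)) = 0 := by
  apply om_of_Cu
  have h3 : v.valuation F (algebraMap k'[X] F (∏ θ ∈ Z, (X - C θ) ^ e θ)) = 1 := by
    rw [v.valuation_of_algebraMap, HeightOneSpectrum.intValuation_eq_one_iff]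
    intro hmem
    obtain ⟨θ, hθ, hmem⟩ := (v.isPrime.prod_mem_iff).1 hmem
    have hmem := v.isPrime.mem_of_pow_mem _ hmem
    apply hv θ hθ
    apply HeightOneSpectrum.ext
    have hle : (pl θ).asIdeal ≤ v.asIdeal := by
      show Ideal.span {X - C θ} ≤ v.asIdeal
      rw [Ideal.span_singleton_le_iff_mem]; exact hmem
    exact ((pl θ).isMaximal.eq_of_le v.isPrime.ne_top hle).symm
  rw [h3]
  exact Cu.one

theorem prod_pow_ne_zero (Z : Finset k') (e : k' → ℕ) : ∏ θ ∈ Z, (X - C θ) ^ e θ ≠ (0 : k'[X]) :=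
  Finset.prod_ne_zero_iff.2 fun θ _ => pow_ne_zero _ (X_sub_C_ne_zero θ)

theorem rootMult_prod (Z : Finset k') (e : k' → ℕ) (η : k') :
    rootMultiplicity η (∏ θ ∈ Z, (X - C θ) ^ e θ) = if η ∈ Z then e η else 0 := by
  induction Z using Finset.induction_on with
  | empty => simp
  | insert θ Z hθ ih =>
    rw [Finset.prod_insert hθ, rootMultiplicity_mul (mul_ne_zero
      (pow_ne_zero _ (X_sub_C_ne_zero θ)) (prod_pow_ne_zero Z e)), ih]
    by_cases h : η = θ
    · subst h
      rw [rootMultiplicity_X_sub_C_pow, if_neg hθ, if_pos (Finset.mem_insert_self _ _), add_zero]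
    · have h1 : rootMultiplicity η ((X - C θ) ^ e θ) = 0 := by
        rw [rootMultiplicity_eq_zero_iff]
        intro h2
        exfalso
        rw [IsRoot.def, eval_pow, eval_sub, eval_X, eval_C] at h2
        exact pow_ne_zero _ (sub_ne_zero.2 h) h2
      rw [h1, zero_add]
      simp [Finset.mem_insert, h]

/-- Representation of elements modulo cubes. -/
theorem rep3 [IsSepClosed k'] (h3 : (3 : k') ≠ 0) {a0 : F} (h0 : a0 ≠ 0) (Z : Finset k')
    (h : ∀ v : HeightOneSpectrum k'[X], (∀ θ ∈ Z, v ≠ pl θ) → om v a0 = 0) :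
    ∃ c : F, c ≠ 0 ∧ a0 = c ^ 3 * algebraMap k'[X] F
      (∏ θ ∈ Z, (X - C θ) ^ (om (pl θ) a0).val) := by
  set e : k' → ℕ := fun θ => (om (pl θ) a0).val with he
  set q : k'[X] := ∏ θ ∈ Z, (X - C θ) ^ e θ with hq
  have hq0 : q ≠ 0 := prod_pow_ne_zero Z e
  have hqF : algebraMap k'[X] F q ≠ 0 := by simpa using hq0
  have hall : ∀ v : HeightOneSpectrum k'[X], om v (a0 * (algebraMap k'[X] F q) ^ 2) = 0 := by
    intro v
    rw [om_mul v h0 (pow_ne_zero 2 hqF), om_pow]
    by_cases hv : ∃ θ ∈ Z, v = pl θ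
    · obtain ⟨θ, hθ, rfl⟩ := hv
      rw [om_poly θ hq0, hq, rootMult_prod, if_pos hθ, he]
      show om (pl θ) a0 + ((2 : ℕ) : ZMod 3) * (((om (pl θ) a0).val : ℕ) : ZMod 3) = 0
      rw [ZMod.natCast_val, ZMod.cast_id]
      have : ∀ y : ZMod 3, y + ((2 : ℕ) : ZMod 3) * y = 0 := by decide
      exact this _
    · push Not at hv
      rw [h v hv, hq, om_prod_other hv e, mul_zero, add_zero]
  obtain ⟨u, s, hu, hs, e'⟩ := cube_F (mul_ne_zero h0 (pow_ne_zero 2 hqF)) hall
  haveI : NeZero ((3 : ℕ) : k') := ⟨by exact_mod_cast h3⟩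
  obtain ⟨r, hr⟩ := IsSepClosed.exists_pow_nat_eq u 3
  have hr0 : r ≠ 0 := by
    rintro rfl
    rw [zero_pow (by norm_num)] at hr
    exact hu hr.symm
  have hrF : algebraMap k'[X] F (C r) ≠ 0 := by simpa using hr0
  refine ⟨algebraMap k'[X] F (C r) * s / algebraMap k'[X] F q,
    div_ne_zero (mul_ne_zero hrF hs) hqF, ?_⟩
  rw [← hr, C_pow, map_pow] at e'
  rw [div_pow, mul_pow, ← e']
  field_simp

end cubes

section galois

variable {k k' K F Ω : Type} [Field k] [Field k'] [Algebra k k']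
  [Field K] [Field F] [Algebra k'[X] F]
  [IsFractionRing k'[X] F] [Field Ω] [Algebra F Ω] [Algebra K Ω]

theorem om_div (θ : k') {n d : k'[X]} (hn : n ≠ 0) (hd : d ≠ 0) :
    om (pl θ) (algebraMap k'[X] F n / algebraMap k'[X] F d) =
      (rootMultiplicity θ n : ZMod 3) + 2 * (rootMultiplicity θ d : ZMod 3) := by
  have hd' : algebraMap k'[X] F d ≠ 0 := by simpa using hd
  have hn' : algebraMap k'[X] F n ≠ 0 := by simpa using hn
  have e : algebraMap k'[X] F n * algebraMap k'[X] F d ^ 2 =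
    (algebraMap k'[X] F d) ^ 3 * (algebraMap k'[X] F n / algebraMap k'[X] F d) := by
    field_simp
  rw [← om_cube _ hd' (div_ne_zero hn' hd'), ← e, om_mul _ hn' (pow_ne_zero 2 hd'), om_pow,
    om_poly θ hn, om_poly θ hd]
  norm_cast

theorem om_galois (τ : Ω ≃ₐ[K] Ω) (s : k' ≃ₐ[k] k') (hs : ∀ p : k'[X],
    τ (algebraMap F Ω (algebraMap k'[X] F p)) =
      algebraMap F Ω (algebraMap k'[X] F (p.map (s : k' →+* k')))) {x y : F} (hx : x ≠ 0)
    (hxy : τ (algebraMap F Ω x) = algebraMap F Ω y) (θ : k') :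
    om (pl (s θ)) y = om (pl θ) x := by
  obtain ⟨n, d, hd, rfl⟩ := IsFractionRing.div_surjective (A := k'[X]) x
  have hd0 : d ≠ 0 := nonZeroDivisors.ne_zero hd
  have hn0 : n ≠ 0 := by
    rintro rfl
    simp at hx
  have hinj : Function.Injective (s : k' →+* k') := s.injective
  have hy : y = algebraMap k'[X] F (n.map (s : k' →+* k')) /
      algebraMap k'[X] F (d.map (s : k' →+* k')) := by
    apply (algebraMap F Ω).injective
    rw [← hxy, map_div₀, map_div₀, hs, hs, map_div₀]
  rw [hy, om_div _ ((Polynomial.map_ne_zero_iff hinj).2 hn0)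
    ((Polynomial.map_ne_zero_iff hinj).2 hd0), om_div _ hn0 hd0]
  have e1 : rootMultiplicity (s θ) (n.map (s : k' →+* k')) = rootMultiplicity θ n :=
    (eq_rootMultiplicity_map hinj θ).symm
  have e2 : rootMultiplicity (s θ) (d.map (s : k' →+* k')) = rootMultiplicity θ d :=
    (eq_rootMultiplicity_map hinj θ).symm
  rw [e1, e2]

variable [Algebra k[X] K] [IsFractionRing k[X] K] [Algebra K F]

theorem om_root (hKF : ∀ p : k[X], algebraMap K F (algebraMap k[X] K p) =
    algebraMap k'[X] F (p.map (algebraMap k k'))) (p : k[X]) (hp : p ≠ 0) (θ : k') :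
    om (pl θ) (algebraMap K F (algebraMap k[X] K p)) =
      (rootMultiplicity θ (p.map (algebraMap k k')) : ZMod 3) := by
  rw [hKF, om_poly θ ((Polynomial.map_ne_zero_iff (algebraMap k k').injective).2 hp)]

end galois

end Pool.Agent.Helper7K9.T3
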