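import Mathlib

/-!
# The Galois conditions
-/

set_option autoImplicit false
set_option linter.all false

open Polynomial
open scoped Classical

namespace Pool.Agent.Helper7K9.T3

section cond

variable (k k' : Type) [Field k] [Field k'] [Algebra k k']

/-- `p` has a root in `k'` of multiplicity prime to three, and no normal subgroup `N` of `Gal(k' / k)`
which is a subgroup of index three of `M` contains all elements of `M` which fix a root of `p` of
multiplicity prime to three. (For `M = Gal(k' / k)`: there is no cyclic cubic extension of `k` which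
is contained in all of the fields `k(θ)`, for the roots `θ` of `p` of multiplicity prime to three.) -/
def NoCubic (M : Subgroup (k' ≃ₐ[k] k')) (p : k[X]) : Prop :=
  (∃ θ : k', ¬ 3 ∣ rootMultiplicity θ (p.map (algebraMap k k'))) ∧
  ∀ N : Subgroup (k' ≃ₐ[k] k'), N.Normal → N ≤ M → N.relIndex M = 3 →
    ∃ (θ : k') (s : k' ≃ₐ[k] k'), ¬ 3 ∣ rootMultiplicity θ (p.map (algebraMap k k')) ∧
      s ∈ M ∧ s θ = θ ∧ s ∉ N

variable {k k'}

/-- The elements of `M` fix the polynomials `A₁` and `A₂`, and the other elements of the Galois group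
exchange them. -/
def Twisted (M : Subgroup (k' ≃ₐ[k] k')) (A₁ A₂ : k'[X]) : Prop :=
  (∀ s ∈ M, A₁.map (s : k' →+* k') = A₁ ∧ A₂.map (s : k' →+* k') = A₂) ∧
  ∀ s ∉ M, A₁.map (s : k' →+* k') = A₂ ∧ A₂.map (s : k' →+* k') = A₁

variable (k) in
/-- The automorphisms of `k'` over `k` which fix `z`. -/
def fixZ (z : k') : Subgroup (k' ≃ₐ[k] k') := MulAction.stabilizer (k' ≃ₐ[k] k') z

end cond

end Pool.Agent.Helper7K9.T3
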