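import Mathlib

/-!
Functions with values in `ZMod 3` on a set with a group action which are invariant up to sign and up to
multiples of a given function.
-/

set_option autoImplicit false
set_option linter.all false

open scoped Classical

namespace Pool.Agent.Helper7K9.T3

section grp

variable {G X : Type*} [Group G] [MulAction G X]

theorem relIndex_three {M N : Subgroup G} (hNM : N ≤ M) (J : G → ZMod 3)
    (hJ : ∀ s ∈ M, ∀ t ∈ M, J (s * t) = J s + J t) (hN : ∀ s, s ∈ N ↔ s ∈ M ∧ J s = 0)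
    {s0 : G} (hs0 : s0 ∈ M) (h0 : J s0 ≠ 0) : N.relIndex M = 3 := by
  have J1 : J 1 = 0 := by
    have := hJ 1 M.one_mem 1 M.one_mem
    rw [mul_one] at this
    exact (add_eq_left.1 this.symm)
  let φ : M →* Multiplicative (ZMod 3) :=
    { toFun := fun s => Multiplicative.ofAdd (J s)
      map_one' := by
        show Multiplicative.ofAdd (J ((1 : M) : G)) = 1
        rw [Subgroup.coe_one, J1]
        rfl
      map_mul' := by
        intro s t
        show Multiplicative.ofAdd (J ((s * t : M) : G)) = _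
        rw [Subgroup.coe_mul, hJ s s.2 t t.2]
        rfl }
  have hker : N.subgroupOf M = φ.ker := by
    ext s
    rw [Subgroup.mem_subgroupOf, hN, MonoidHom.mem_ker]
    constructor
    · rintro ⟨-, h⟩
      show Multiplicative.ofAdd (J s) = 1
      rw [h]; rfl
    · intro h
      exact ⟨s.2, Multiplicative.ofAdd.injective h⟩
  have h1 : N.relIndex M = Nat.card φ.range := by
    rw [Subgroup.relIndex, hker, Subgroup.index_ker]
  have hcard : Nat.card (Multiplicative (ZMod 3)) = 3 := by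
    rw [Nat.card_eq_fintype_card]
    rfl
  have hdvd : Nat.card φ.range ∣ 3 := by
    have := Subgroup.card_subgroup_dvd_card φ.range
    rwa [hcard] at this
  rw [h1]
  rcases (Nat.dvd_prime Nat.prime_three).1 hdvd with h | h
  · exfalso
    have h2 : φ.range = ⊥ := (Subgroup.card_eq_one).1 h
    have h3 : φ ⟨s0, hs0⟩ ∈ φ.range := ⟨_, rfl⟩
    rw [h2, Subgroup.mem_bot] at h3
    exact h0 (Multiplicative.ofAdd.injective h3)
  · exact h

/-- The abstract form of the invariance argument. -/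
theorem twist (M : Subgroup G) (hMn : M.Normal) (hM : ∀ s t, s ∉ M → t ∉ M → s⁻¹ * t ∈ M)
    (n f : X → ZMod 3) (hn : ∀ (s : G) x, n (s • x) = n x)
    (hcub : ∀ N : Subgroup G, N.Normal → N ≤ M → N.relIndex M = 3 →
      ∃ (x : X) (s : G), n x ≠ 0 ∧ s ∈ M ∧ s • x = x ∧ s ∉ N)
    (hn0 : ∃ x, n x ≠ 0)
    (h1 : ∀ s ∈ M, ∃ j : ZMod 3, ∀ x, f (s • x) = f x - j * n x)
    (h2 : ∀ s ∉ M, ∃ j : ZMod 3, ∀ x, f (s • x) = -f x - j * n x) :
    ∃ d : ZMod 3, ((∀ s, s ∈ M) → d = 0) ∧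
      (∀ s ∈ M, ∀ x, f (s • x) - d * n x = f x - d * n x) ∧
      ∀ s ∉ M, ∀ x, f (s • x) - d * n x = -(f x - d * n x) := by
  obtain ⟨x0, hx0⟩ := hn0
  have hinv : n x0 * n x0 = 1 := by
    have : ∀ y : ZMod 3, y ≠ 0 → y * y = 1 := by decide
    exact this _ hx0
  obtain ⟨J, hJ⟩ : ∃ J : G → ZMod 3, ∀ s, J s = n x0 * (f x0 - f (s • x0)) := ⟨_, fun _ => rfl⟩
  have hJ1 : ∀ s ∈ M, ∀ x, f (s • x) = f x - J s * n x := by
    intro s hs x
    obtain ⟨j, hj⟩ := h1 s hs
    have e : J s = j := by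
      rw [hJ, hj x0]
      linear_combination j * hinv
    rw [hj x, e]
  have hJm : ∀ s ∈ M, ∀ t ∈ M, J (s * t) = J s + J t := by
    intro s hs t ht
    have e1 := hJ1 s hs (t • x0)
    have e2 := hJ1 t ht x0
    have e3 := hJ1 (s * t) (M.mul_mem hs ht) x0
    rw [mul_smul, e1, e2, hn] at e3
    have e4 : (J (s * t) - (J s + J t)) * n x0 = 0 := by linear_combination e3
    have e5 : (J (s * t) - (J s + J t)) * (n x0 * n x0) = 0 := by
      rw [← mul_assoc, e4, zero_mul]
    rw [hinv, mul_one] at e5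
    exact sub_eq_zero.1 e5
  have J1 : J 1 = 0 := by rw [hJ, one_smul, sub_self, mul_zero]
  let N : Subgroup G :=
    { carrier := {s | s ∈ M ∧ J s = 0}
      mul_mem' := by
        rintro s t ⟨hs, hs'⟩ ⟨ht, ht'⟩
        exact ⟨M.mul_mem hs ht, by rw [hJm s hs t ht, hs', ht', add_zero]⟩
      one_mem' := ⟨M.one_mem, J1⟩
      inv_mem' := by
        rintro s ⟨hs, hs'⟩
        refine ⟨M.inv_mem hs, ?_⟩
        have := hJm s hs s⁻¹ (M.inv_mem hs)
        rw [mul_inv_cancel, J1, hs', zero_add] at this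
        exact this.symm }
  have memN : ∀ s, s ∈ N ↔ s ∈ M ∧ J s = 0 := fun s => Iff.rfl
  have hNM : N ≤ M := fun s hs => hs.1
  -- `N` is normal
  have hNn : N.Normal := by
    refine ⟨fun s hs t => ?_⟩
    rw [memN] at hs ⊢
    obtain ⟨hs, hs'⟩ := hs
    have hc : t * s * t⁻¹ ∈ M := hMn.conj_mem s hs t
    refine ⟨hc, ?_⟩
    have e0 : f (s • (t⁻¹ • x0)) = f (t⁻¹ • x0) := by
      rw [hJ1 s hs, hs', zero_mul, sub_zero]
    have e1 : n (s • (t⁻¹ • x0)) = n (t⁻¹ • x0) := hn _ _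
    have e2 : f ((t * s * t⁻¹) • x0) = f x0 := by
      have e3 : (t * s * t⁻¹) • x0 = t • (s • (t⁻¹ • x0)) := by rw [mul_smul, mul_smul]
      have e4 : x0 = t • (t⁻¹ • x0) := (smul_inv_smul t x0).symm
      by_cases ht : t ∈ M
      · obtain ⟨j, hj⟩ := h1 t ht
        rw [e3, hj, e0, e1]
        conv_rhs => rw [e4, hj]
      · obtain ⟨j, hj⟩ := h2 t ht
        rw [e3, hj, e0, e1]
        conv_rhs => rw [e4, hj]
    rw [hJ, e2, sub_self, mul_zero]
  -- `J = 0` on `M`
  have hJ0 : ∀ s ∈ M, J s = 0 := by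
    by_contra hc
    push Not at hc
    obtain ⟨s0, hs0, h0⟩ := hc
    obtain ⟨x, s, hx, hs, hsx, hsN⟩ := hcub N hNn hNM (relIndex_three hNM J hJm memN hs0 h0)
    apply hsN
    rw [memN]
    refine ⟨hs, ?_⟩
    have e := hJ1 s hs x
    rw [hsx] at e
    have e4 : J s * n x = 0 := by linear_combination e
    have hx' : n x * n x = 1 := by
      have : ∀ y : ZMod 3, y ≠ 0 → y * y = 1 := by decide
      exact this _ hx
    have e5 : J s * (n x * n x) = 0 := by rw [← mul_assoc, e4, zero_mul]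
    rwa [hx', mul_one] at e5
  have hfix : ∀ s ∈ M, ∀ x, f (s • x) = f x := by
    intro s hs x
    rw [hJ1 s hs, hJ0 s hs, zero_mul, sub_zero]
  by_cases hall : ∀ s, s ∈ M
  · exact ⟨0, fun _ => rfl, fun s hs x => by rw [hfix s hs], fun s hs => absurd (hall s) hs⟩
  · push Not at hall
    obtain ⟨s0, hs0⟩ := hall
    obtain ⟨j, hj⟩ := h2 s0 hs0
    refine ⟨j, fun h => absurd (h s0) hs0, fun s hs x => by rw [hfix s hs], fun s hs x => ?_⟩
    have hm : s0⁻¹ * s ∈ M := hM s0 s hs0 hs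
    have e1 : s • x = s0 • ((s0⁻¹ * s) • x) := by
      rw [← mul_smul, mul_inv_cancel_left]
    rw [e1, hj, hfix _ hm, hn]
    have e3 : (3 : ZMod 3) = 0 := by decide
    linear_combination (-(j * n x)) * e3

end grp

end Pool.Agent.Helper7K9.T3
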