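import Pool.Agent.Helper7K9.T3.Ord
import Pool.Agent.Helper7K9.T3.Grp
import Pool.Agent.Helper7K9.T3.Cond

/-!
The global step.
-/

set_option autoImplicit false
set_option linter.all false

open Polynomial IsDedekindDomain
open scoped Classical

namespace Pool.Agent.Helper7K9.T3

open Pool.Agent.TH115.GD (pl val_poly splits_of_sep exists_root_of_mem rootMult_galois lift
  map_prod_lin desc_poly)

section split

variable {k' : Type} [Field k']

/-- A product of powers with exponents in `ZMod 3`. -/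
theorem prod_split (Z : Finset k') (g : k' → ZMod 3) :
    ∏ θ ∈ Z, (X - C θ) ^ (g θ).val =
      (∏ θ ∈ Z.filter (fun θ => g θ = 1), (X - C θ)) *
        (∏ θ ∈ Z.filter (fun θ => g θ = 2), (X - C θ)) ^ 2 := by
  rw [Finset.prod_filter, Finset.prod_filter, ← Finset.prod_pow, ← Finset.prod_mul_distrib]
  refine Finset.prod_congr rfl fun θ _ => ?_
  have : ∀ y : ZMod 3, (y = 0 ∧ y ≠ 1 ∧ y ≠ 2 ∧ y.val = 0) ∨ (y = 1 ∧ y ≠ 2 ∧ y.val = 1) ∨
      (y = 2 ∧ y ≠ 1 ∧ y.val = 2) := by decide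
  rcases this (g θ) with ⟨-, h1, h2, h⟩ | ⟨h1, h2, h⟩ | ⟨h2, h1, h⟩
  · rw [h, if_neg h1, if_neg h2]; ring
  · rw [h, if_pos h1, if_neg h2]; ring
  · rw [h, if_neg h1, if_pos h2]; ring

theorem prod_disj (Z : Finset k') (g : k' → ZMod 3) :
    (∏ θ ∈ Z.filter (fun θ => g θ = 1), (X - C θ)) *
        (∏ θ ∈ Z.filter (fun θ => g θ = 2), (X - C θ)) =
      ∏ θ ∈ Z.filter (fun θ => g θ ≠ 0), (X - C θ) := by
  rw [Finset.prod_filter, Finset.prod_filter, Finset.prod_filter, ← Finset.prod_mul_distrib]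
  refine Finset.prod_congr rfl fun θ _ => ?_
  have : ∀ y : ZMod 3, (y = 0 ∧ y ≠ 1 ∧ y ≠ 2) ∨ (y = 1 ∧ y ≠ 2 ∧ y ≠ 0) ∨
      (y = 2 ∧ y ≠ 1 ∧ y ≠ 0) := by decide
  rcases this (g θ) with ⟨h0, h1, h2⟩ | ⟨h1, h2, h0⟩ | ⟨h2, h1, h0⟩
  · rw [if_neg h1, if_neg h2, if_neg (not_not.2 h0)]; ring
  · rw [if_pos h1, if_neg h2, if_pos h0]; ring
  · rw [if_neg h1, if_pos h2, if_pos h0]; ring

theorem monic_lin (D : Finset k') : (∏ θ ∈ D, (X - C θ)).Monic :=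
  monic_prod_of_monic _ _ fun θ _ => monic_X_sub_C θ

theorem sqf_lin (D : Finset k') : Squarefree (∏ θ ∈ D, (X - C θ)) := by
  apply Separable.squarefree
  rw [separable_prod_X_sub_C_iff']
  intro x _ y _ h
  exact h

theorem dvd_lin {p : k'[X]} (hp : p ≠ 0) (D : Finset k') (hD : ∀ θ ∈ D, p.IsRoot θ) :
    ∏ θ ∈ D, (X - C θ) ∣ p := by
  have := (Multiset.prod_X_sub_C_dvd_iff_le_roots hp D.val).2 (by
    rw [Multiset.le_iff_subset D.nodup]
    intro θ hθ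
    exact (mem_roots hp).2 (hD θ hθ))
  exact this

end split

section core

variable {k k' K F Ω : Type} [Field k] [Field k'] [Algebra k k'] [IsSepClosure k k']
  [Field K] [Algebra k[X] K] [IsFractionRing k[X] K] [Field F] [Algebra k'[X] F]
  [IsFractionRing k'[X] F] [Algebra K F]
  (hKF : ∀ p : k[X], algebraMap K F (algebraMap k[X] K p) =
    algebraMap k'[X] F (p.map (algebraMap k k')))
  (h3 : (3 : k) ≠ 0) {p : k[X]} (hp : p ≠ 0)
  (hsep : ∀ π : k[X], Irreducible π → π ∣ p → π.Separable)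
  (M : Subgroup (k' ≃ₐ[k] k')) (hMn : M.Normal)
  (hM : ∀ s t, s ∉ M → t ∉ M → s⁻¹ * t ∈ M) (hN : NoCubic k k' M p)
  [Field Ω] [Algebra F Ω] [Algebra K Ω] [IsScalarTower K F Ω] [IsSepClosure F Ω]

include hKF h3 hp hsep hMn hM hN in
/-- The global step. -/
theorem global3 {a0 : F} (n0 : a0 ≠ 0)
    (hloc : ∀ v : HeightOneSpectrum k'[X], p.map (algebraMap k k') ∉ v.asIdeal → om v a0 = 0)
    (hfix : ∀ (τ : Ω ≃ₐ[K] Ω) (s : k' ≃ₐ[k] k'), (∀ q : k'[X],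
      τ (algebraMap F Ω (algebraMap k'[X] F q)) =
        algebraMap F Ω (algebraMap k'[X] F (q.map (s : k' →+* k')))) →
      ∃ (u : F) (j e : ℕ), u ≠ 0 ∧ ((s ∈ M ∧ e = 1) ∨ (s ∉ M ∧ e = 2)) ∧
        τ (algebraMap F Ω a0) = algebraMap F Ω
          (u ^ 3 * (a0 * algebraMap K F (algebraMap k[X] K p) ^ j) ^ e)) :
    ∃ (d : ℕ) (A₁ A₂ : k'[X]), (M = ⊤ → d = 0) ∧ A₁.Monic ∧ A₂.Monic ∧ Squarefree (A₁ * A₂) ∧
      A₁ * A₂ ∣ p.map (algebraMap k k') ∧ Twisted M A₁ A₂ ∧ ∃ c : F, c ≠ 0 ∧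
      a0 = c ^ 3 * (algebraMap k'[X] F (A₁ * A₂ ^ 2) *
        algebraMap K F (algebraMap k[X] K p) ^ d) := by
  haveI : IsSepClosed k' := IsSepClosure.sep_closed k
  haveI : IsGalois k k' := inferInstance
  have injk := (algebraMap k k').injective
  set pp := p.map (algebraMap k k') with hpp
  have hpp0 : pp ≠ 0 := (Polynomial.map_ne_zero_iff injk).2 hp
  have hsplit : pp.Splits := splits_of_sep hp hsep
  have h3' : (3 : k') ≠ 0 := by
    rw [← map_ofNat (algebraMap k k') 3]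
    exact (_root_.map_ne_zero _).2 h3
  have hpF : algebraMap K F (algebraMap k[X] K p) ≠ 0 := by simpa using hp
  set P := algebraMap K F (algebraMap k[X] K p) with hP
  obtain ⟨n, hn⟩ : ∃ n : k' → ZMod 3, ∀ θ, n θ = (rootMultiplicity θ pp : ZMod 3) :=
    ⟨_, fun _ => rfl⟩
  obtain ⟨f, hf⟩ : ∃ f : k' → ZMod 3, ∀ θ, f θ = om (pl θ) a0 := ⟨_, fun _ => rfl⟩
  have hPn : ∀ θ, om (pl θ) P = n θ := fun θ => by
    rw [hn, hP, om_root hKF p hp]
  have hns : ∀ (s : k' ≃ₐ[k] k') θ, n (s θ) = n θ := by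
    intro s θ
    rw [hn, hn, hpp, rootMult_galois]
  have hn3 : ∀ θ, n θ ≠ 0 ↔ ¬ 3 ∣ rootMultiplicity θ pp := by
    intro θ
    rw [hn, Ne, ZMod.natCast_eq_zero_iff]
  have hrel : ∀ s : k' ≃ₐ[k] k', ∃ (j e : ℕ), ((s ∈ M ∧ e = 1) ∨ (s ∉ M ∧ e = 2)) ∧
      ∀ θ, f θ = e * (f (s θ) + j * n θ) := by
    intro s
    obtain ⟨τ, hτ⟩ := lift (Ω := Ω) hKF s
    obtain ⟨u, j, e, hu, hcase, hτa⟩ := hfix τ s hτ
    refine ⟨j, e, hcase, fun θ => ?_⟩
    have h4 := om_galois τ s hτ n0 hτa θ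
    rw [om_cube _ hu (pow_ne_zero e (mul_ne_zero n0 (pow_ne_zero j hpF))), om_pow,
      om_mul _ n0 (pow_ne_zero j hpF), om_pow, hPn, hns, ← hf, ← hf] at h4
    exact h4.symm
  obtain ⟨d, hd0, hd1, hd2⟩ := twist (X := k') M hMn hM n f (fun s θ => hns s θ)
    (fun N h1 h2 h4 => by
      obtain ⟨θ, s, q1, q2, q3, q4⟩ := hN.2 N h1 h2 h4
      exact ⟨θ, s, (hn3 θ).2 q1, q2, q3, q4⟩)
    (by
      obtain ⟨θ, hθ⟩ := hN.1
      exact ⟨θ, (hn3 θ).2 hθ⟩)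
    (fun s hs => by
      obtain ⟨j, e, hc, hj⟩ := hrel s
      rcases hc with ⟨-, rfl⟩ | ⟨h, -⟩
      · refine ⟨j, fun θ => ?_⟩
        have := hj θ
        show f (s θ) = _
        rw [this]
        push_cast
        ring
      · exact absurd hs h)
    (fun s hs => by
      obtain ⟨j, e, hc, hj⟩ := hrel s
      rcases hc with ⟨h, -⟩ | ⟨-, rfl⟩
      · exact absurd h hs
      · refine ⟨j, fun θ => ?_⟩
        have := hj θ
        show f (s θ) = _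
        rw [this]
        have e3 : (3 : ZMod 3) = 0 := by decide
        push_cast
        linear_combination (f (s θ) + (j : ZMod 3) * n θ) * e3)
  obtain ⟨g, hg⟩ : ∃ g : k' → ZMod 3, ∀ θ, g θ = f θ - d * n θ := ⟨_, fun _ => rfl⟩
  have hg1 : ∀ s ∈ M, ∀ θ, g (s θ) = g θ := by
    intro s hs θ
    rw [hg, hg, hns]
    exact hd1 s hs θ
  have hg2 : ∀ s ∉ M, ∀ θ, g (s θ) = -g θ := by
    intro s hs θ
    rw [hg, hg, hns]
    exact hd2 s hs θ
  -- the representative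
  set dn := d.val with hdn
  have hdd : ((dn : ℕ) : ZMod 3) = d := by rw [hdn, ZMod.natCast_val, ZMod.cast_id]
  set a0' := a0 * P ^ (2 * dn) with ha0'
  have n0' : a0' ≠ 0 := mul_ne_zero n0 (pow_ne_zero _ hpF)
  have hga : ∀ θ, om (pl θ) a0' = g θ := by
    intro θ
    rw [ha0', om_mul _ n0 (pow_ne_zero _ hpF), om_pow, hPn, ← hf, hg]
    have e3 : (3 : ZMod 3) = 0 := by decide
    push_cast
    rw [hdd]
    linear_combination (d * n θ) * e3
  set Z : Finset k' := pp.roots.toFinset with hZ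
  have hZmem : ∀ θ, θ ∈ Z ↔ pp.IsRoot θ := by
    intro θ
    rw [hZ, Multiset.mem_toFinset, mem_roots hpp0]
  obtain ⟨c, hc, r⟩ := rep3 h3' n0' Z (fun v hv => by
    have hv' : pp ∉ v.asIdeal := fun hm => by
      obtain ⟨θ, hθ, h4⟩ := exists_root_of_mem hpp0 hsplit hm
      exact hv θ (Multiset.mem_toFinset.2 hθ) h4
    have h5 : om v P = 0 := by
      apply om_of_Cu
      have h6 : v.valuation F P = 1 := by
        rw [hP, hKF, v.valuation_of_algebraMap, HeightOneSpectrum.intValuation_eq_one_iff]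
        exact hv'
      rw [h6]
      exact Cu.one
    rw [ha0', om_mul _ n0 (pow_ne_zero _ hpF), om_pow, h5, mul_zero, add_zero]
    exact hloc v hv')
  have r' : a0' = c ^ 3 * algebraMap k'[X] F (∏ θ ∈ Z, (X - C θ) ^ (g θ).val) := by
    rw [r]
    simp only [hga]
  rw [prod_split] at r'
  have isRoot_gal : ∀ (s : k' ≃ₐ[k] k') (θ : k'), θ ∈ Z → s θ ∈ Z := by
    intro s θ h
    rw [hZmem] at h ⊢
    rw [IsRoot.def, hpp, eval_map_algebraMap] at h ⊢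
    have h5 : aeval (s θ) p = s (aeval θ p) := Polynomial.aeval_algHom_apply s.toAlgHom θ p
    rw [h5, h, map_zero]
  have neg1 : -(1 : ZMod 3) = 2 := by decide
  have neg2 : -(2 : ZMod 3) = 1 := by decide
  have sM : ∀ s : k' ≃ₐ[k] k', s ∈ M → s.symm ∈ M := fun s hs => M.inv_mem hs
  have sM' : ∀ s : k' ≃ₐ[k] k', s ∉ M → s.symm ∉ M := fun s hs h => hs (by
    have := M.inv_mem h
    exact (inv_inv s) ▸ this)
  refine ⟨dn, ∏ θ ∈ Z.filter (fun θ => g θ = 1), (X - C θ),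
    ∏ θ ∈ Z.filter (fun θ => g θ = 2), (X - C θ), fun hMt => ?_, monic_lin _, monic_lin _, ?_, ?_,
    ⟨fun s hs => ⟨?_, ?_⟩, fun s hs => ⟨?_, ?_⟩⟩,
    c / P ^ dn, div_ne_zero hc (pow_ne_zero _ hpF), ?_⟩
  · rw [hdn, hd0 (fun s => by rw [hMt]; exact Subgroup.mem_top s)]
    rfl
  · rw [prod_disj]
    exact sqf_lin _
  · rw [prod_disj]
    exact dvd_lin hpp0 _ fun θ hθ => (hZmem θ).1 (Finset.mem_filter.1 hθ).1
  · refine map_prod_lin s _ _ (fun θ hθ => ?_) (fun θ hθ => ?_)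
    · rw [Finset.mem_filter] at hθ ⊢
      exact ⟨isRoot_gal s θ hθ.1, by rw [hg1 s hs]; exact hθ.2⟩
    · rw [Finset.mem_filter] at hθ ⊢
      exact ⟨isRoot_gal s.symm θ hθ.1, by rw [hg1 s.symm (sM s hs)]; exact hθ.2⟩
  · refine map_prod_lin s _ _ (fun θ hθ => ?_) (fun θ hθ => ?_)
    · rw [Finset.mem_filter] at hθ ⊢
      exact ⟨isRoot_gal s θ hθ.1, by rw [hg1 s hs]; exact hθ.2⟩
    · rw [Finset.mem_filter] at hθ ⊢
      exact ⟨isRoot_gal s.symm θ hθ.1, by rw [hg1 s.symm (sM s hs)]; exact hθ.2⟩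
  · refine map_prod_lin s _ _ (fun θ hθ => ?_) (fun θ hθ => ?_)
    · rw [Finset.mem_filter] at hθ ⊢
      exact ⟨isRoot_gal s θ hθ.1, by rw [hg2 s hs, hθ.2, neg1]⟩
    · rw [Finset.mem_filter] at hθ ⊢
      exact ⟨isRoot_gal s.symm θ hθ.1, by rw [hg2 s.symm (sM' s hs), hθ.2, neg2]⟩
  · refine map_prod_lin s _ _ (fun θ hθ => ?_) (fun θ hθ => ?_)
    · rw [Finset.mem_filter] at hθ ⊢
      exact ⟨isRoot_gal s θ hθ.1, by rw [hg2 s hs, hθ.2, neg2]⟩
    · rw [Finset.mem_filter] at hθ ⊢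
      exact ⟨isRoot_gal s.symm θ hθ.1, by rw [hg2 s.symm (sM' s hs), hθ.2, neg1]⟩
  · rw [div_pow, div_mul_eq_mul_div, eq_div_iff (pow_ne_zero 3 (pow_ne_zero _ hpF)),
      ← mul_assoc, ← r', ha0']
    ring

end core

end Pool.Agent.Helper7K9.T3
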