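import Pool.Agent.Helper7K9.T3.Dual
import Pool.Agent.Helper7K9.T3.Glob
import Pool.Agent.TH115.ID.Main

/-!
The Tate conjecture at 3 for elliptic surfaces with a section of order three.
-/

set_option autoImplicit false
set_option linter.all false

open Polynomial IsDedekindDomain WeierstrassCurve WeierstrassCurve.Affine
open scoped Classical

namespace Pool.Agent.Helper7K9.T3

open Pool.Agent.TH115.GD (vInf vInf_poly wInf CompInf AtInf pl Pt act incl rs ak IsCoc LocTriv Sep Comp LocallyTrivial act_zero act_some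
  act_inj act_act fixed_point exists_restrict exists_conj Preserves preserves sepKΩ wFin IsTower
  lt_subT cob_isCoc)

section fix

variable {k k' : Type} [Field k] [Field k'] [Algebra k k']

theorem mem_fixZ {z : k'} {s : k' ≃ₐ[k] k'} : s ∈ fixZ k z ↔ s z = z := Iff.rfl

variable {z : k'} (hz : z ^ 2 + z + 1 = 0)

include hz in
theorem gal_z (s : k' ≃ₐ[k] k') : s z = z ∨ s z = z ^ 2 := by
  have h4 : (s z - z) * (s z - z ^ 2) = 0 := by
    have h5 : (s z) ^ 2 + s z + 1 = 0 := by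
      rw [← map_pow, ← map_add, ← map_one s, ← map_add, hz, map_zero]
    linear_combination h5 - (s z) * hz + (z - 1) * hz
  rcases mul_eq_zero.1 h4 with h6 | h6
  · exact Or.inl (sub_eq_zero.1 h6)
  · exact Or.inr (sub_eq_zero.1 h6)

include hz in
theorem fixZ_normal : (fixZ k z).Normal := by
  refine ⟨fun s hs t => ?_⟩
  rw [mem_fixZ] at hs ⊢
  have h1 : s (t⁻¹ z) = t⁻¹ z := by
    rcases gal_z hz t⁻¹ with h | h
    · rw [h, hs]
    · rw [h, map_pow, hs]
  show t (s (t⁻¹ z)) = z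
  rw [h1]
  exact t.apply_symm_apply z

include hz in
theorem fixZ_index (s t : k' ≃ₐ[k] k') (hs : s ∉ fixZ k z) (ht : t ∉ fixZ k z) :
    s⁻¹ * t ∈ fixZ k z := by
  have hz3 : z ^ 3 = 1 := z_cube hz
  rw [mem_fixZ] at hs ht ⊢
  have h1 : s z = z ^ 2 := (gal_z hz s).resolve_left hs
  have h2 : t z = z ^ 2 := (gal_z hz t).resolve_left ht
  show s⁻¹ (t z) = z
  rw [h2, ← h1]
  exact s.symm_apply_apply z

end fix

theorem cube_roots (Ω : Type) [Field Ω] [IsSepClosed Ω] (h3 : (3 : Ω) ≠ 0) (x : Ω) :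
    ∃ y, y ^ 3 = x := by
  haveI : NeZero ((3 : ℕ) : Ω) := ⟨by exact_mod_cast h3⟩
  exact IsSepClosed.exists_pow_nat_eq x 3

/-- Extension to multiples. -/
theorem good_smul {G R : Type*} [AddCommGroup G] [CommMonoid R] (c : G → R) (I : G → Prop)
    (h0 : I 0) (hc0 : c 0 = 1) (ha : ∀ x y, I x → I y → I (x + y) ∧ c (x + y) = c x * c y)
    {x : G} (hx : I x) (n : ℕ) : I (n • x) ∧ c (n • x) = c x ^ n := by
  induction n with
  | zero => rw [zero_smul, pow_zero]; exact ⟨h0, hc0⟩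
  | succ n ih =>
    rw [succ_nsmul, pow_succ]
    have := ha _ _ ih.1 hx
    rw [ih.2] at this
    exact this

section nsq

variable {k k' K F : Type} [Field k] [Field k'] [Algebra k k']
  [Field K] [Algebra k[X] K] [IsFractionRing k[X] K] [Field F] [Algebra k'[X] F]
  [IsFractionRing k'[X] F] [Algebra K F]
  (hKF : ∀ p : k[X], algebraMap K F (algebraMap k[X] K p) =
    algebraMap k'[X] F (p.map (algebraMap k k')))

include hKF in
theorem notCube {p : k[X]} (hp : p ≠ 0)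
    (h : ∃ θ : k', ¬ 3 ∣ rootMultiplicity θ (p.map (algebraMap k k'))) (g : F) :
    g ^ 3 ≠ algebraMap K F (algebraMap k[X] K p) := by
  intro hg
  obtain ⟨θ, hθ⟩ := h
  apply hθ
  rw [← ZMod.natCast_eq_zero_iff, ← om_root hKF p hp, ← hg, om_pow]
  have : ((3 : ℕ) : ZMod 3) = 0 := by decide
  rw [this, zero_mul]

end nsq

section infinity

theorem cu_log {x : WithZero (Multiplicative ℤ)} (h : Cu x) : (3 : ℤ) ∣ WithZero.log x := by
  obtain ⟨β, rfl⟩ := h
  rw [WithZero.log_pow, nsmul_eq_mul]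
  exact ⟨WithZero.log β, by push_cast; ring⟩

variable {k' F : Type} [Field k'] [Field F] [Algebra k'[X] F] [IsFractionRing k'[X] F]

theorem log_vInf_mul {x y : F} (hx : x ≠ 0) (hy : y ≠ 0) : WithZero.log (vInf k' F (x * y)) =
    WithZero.log (vInf k' F x) + WithZero.log (vInf k' F y) := by
  rw [map_mul, WithZero.log_mul ((Valuation.ne_zero_iff _).2 hx) ((Valuation.ne_zero_iff _).2 hy)]

theorem log_vInf_pow (x : F) (n : ℕ) : WithZero.log (vInf k' F (x ^ n)) =
    n * WithZero.log (vInf k' F x) := by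
  rw [map_pow, WithZero.log_pow, nsmul_eq_mul]

theorem log_vInf_poly {p : k'[X]} (hp : p ≠ 0) :
    WithZero.log (vInf k' F (algebraMap k'[X] F p)) = (p.natDegree : ℤ) := by
  rw [vInf_poly hp, WithZero.log_exp]

end infinity

section main

variable {k k' K F : Type} [Field k] [Field k'] [Algebra k k'] [Field K] [Algebra k[X] K]
    [Field F] [Algebra k'[X] F] [IsFractionRing k'[X] F] [Algebra K F]

/-- **The criterion for elliptic surfaces with a section of order three.** -/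
theorem main3 (hT : IsTower k k' K F) (h3 : (3 : k) ≠ 0) {a b : k[X]} (hb : b ≠ 0)
    (hd : a ^ 3 - 27 * b ≠ 0)
    (hsep : ∀ π : k[X], Irreducible π → π ∣ b * (a ^ 3 - 27 * b) → π.Separable)
    {z : k'} (hz : z ^ 2 + z + 1 = 0)
    (hNb : NoCubic k k' ⊤ b) (hNd : NoCubic k k' (fixZ k z) (a ^ 3 - 27 * b))
    (hpA : EnoughPoints3 K F a b) (hpB : EnoughDual3 K F z a b) :
    TateAt (F := F) 3 k' (crv3 (algebraMap k[X] K a) (algebraMap k[X] K b)) := by
  haveI := hT.sep
  haveI := hT.fracK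
  haveI : IsSepClosed k' := IsSepClosure.sep_closed k
  haveI : IsGalois k k' := inferInstance
  have hKF := hT.map
  have h3K : (3 : K) ≠ 0 := by
    have h4 : algebraMap k[X] K (C (3 : k)) ≠ 0 := by
      rw [Ne, map_eq_zero_iff _ (IsFractionRing.injective k[X] K), C_eq_zero]
      exact h3
    rwa [map_ofNat, map_ofNat] at h4
  have injK := IsFractionRing.injective k[X] K
  set aK := algebraMap k[X] K a with haK
  set bK := algebraMap k[X] K b with hbK
  have hbK0 : bK ≠ 0 := by rw [hbK]; simpa using hb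
  have hdK : algebraMap k[X] K (a ^ 3 - 27 * b) = aK ^ 3 - 27 * bK := by
    rw [map_sub, map_mul, map_pow, map_ofNat]
  have hdK0 : aK ^ 3 - 27 * bK ≠ 0 := by
    rw [← hdK]
    intro h
    apply hd
    apply injK
    rw [h, map_zero]
  have hsb : ∀ π : k[X], Irreducible π → π ∣ b → π.Separable :=
    fun π h h' => hsep π h (h'.mul_right _)
  have hsd : ∀ π : k[X], Irreducible π → π ∣ a ^ 3 - 27 * b → π.Separable :=
    fun π h h' => hsep π h (h'.mul_left _)
  have hbs : ∀ g : F, g ^ 3 ≠ algebraMap K F bK := notCube hKF hb hNb.1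
  have hds : ∀ g : F, g ^ 3 ≠ algebraMap K F (aK ^ 3 - 27 * bK) := by
    rw [← hdK]
    exact notCube hKF hd hNd.1
  haveI : IsSepClosure K (Sep F) := sepKΩ hKF
  haveI : Algebra.IsSeparable K (Sep F) := IsSepClosure.separable
  haveI : IsGalois K (Sep F) := inferInstance
  have h := isE3 aK bK (Sep F) h3K hbK0 hdK0
  have h3r : ∀ x : Sep F, ∃ y, y ^ 3 = x := cube_roots (Sep F) h.three
  -- the cube root of unity
  set zF : F := algebraMap k'[X] F (C z) with hzFdef
  have hzF : zF ^ 2 + zF + 1 = 0 := by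
    rw [hzFdef, ← map_pow, ← map_add, ← map_one (algebraMap k'[X] F), ← map_add]
    have : (C z) ^ 2 + C z + 1 = (0 : k'[X]) := by
      rw [← C_pow, ← C_add, ← C_1, ← C_add, hz, C_0]
    rw [this, map_zero]
  set zΩ : Sep F := algebraMap F (Sep F) zF with hzΩdef
  have hzΩ : zΩ ^ 2 + zΩ + 1 = 0 := by
    rw [hzΩdef, ← map_pow, ← map_add, ← map_one (algebraMap F (Sep F)), ← map_add, hzF, map_zero]
  have hzfix : ∀ σ : Sep F ≃ₐ[F] Sep F, σ zΩ = zΩ := fun σ => σ.commutes _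
  have hdiv : ∀ X : Pt (crv3 aK bK) (Sep F), ∃ Y, Y + Y + Y = X := third h hzΩ h3r
  have hpres : Preserves K F (Sep F) := preserves hKF
  -- valuations
  have vle : ∀ (v : HeightOneSpectrum k'[X]) (p : k[X]),
      v.valuation F (algebraMap K F (algebraMap k[X] K p)) ≤ 1 := by
    intro v p
    rw [hKF]
    exact v.valuation_le_one _
  have vone : ∀ (v : HeightOneSpectrum k'[X]) (p : k[X]),
      p.map (algebraMap k k') ∉ v.asIdeal →
      v.valuation F (algebraMap K F (algebraMap k[X] K p)) = 1 := by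
    intro v p hp
    rw [hKF, v.valuation_of_algebraMap, HeightOneSpectrum.intValuation_eq_one_iff]
    exact hp
  have v3 : ∀ v : HeightOneSpectrum k'[X], v.valuation F 3 ≤ 1 := by
    intro v
    have := vle v 3
    rwa [map_ofNat, map_ofNat] at this
  have cubeL : ∀ v : HeightOneSpectrum k'[X], ∀ x : Sep (Comp k'[X] F v), ∃ y, y ^ 3 = x := by
    intro v
    refine cube_roots _ ?_
    have := (map_ne_zero (algebraMap K (Sep (Comp k'[X] F v)))).2 h3K
    rwa [map_ofNat] at this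
  refine tate_of_third hdiv fun c hc => ?_
  have hcc := hc.tc
  have hf3 : ∀ σ, c 1 σ + c 1 σ + c 1 σ = 0 := fun σ => by
    rw [← three_smul, hcc.mul 0 σ, hcc.zero]
  -- the first step
  obtain ⟨t0, a0, n0, e0, k0⟩ := kummer0 h3K hbK0 hdK0 hzΩ hzfix h3r (hcc.coc 1) hf3
  have ha0 : a0 ≠ 0 := by
    rintro rfl
    rw [map_zero] at e0
    exact pow_ne_zero 3 n0 e0
  have hi0 : InvOne (crv3 aK bK) (c 1) := by
    intro τ
    obtain ⟨m, Q, hQ, hinv⟩ := hc.inv τ
    have hpow : ∀ (k : ℕ) (σ), 3 ^ k • c (k + 1) σ = c 1 σ := by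
      intro k
      induction k with
      | zero => intro σ; rw [pow_zero, one_smul]
      | succ k ih =>
        intro σ
        rw [pow_succ, mul_smul, hcc.mul, ih]
    have hQpow : ∀ (k : ℕ), 3 ^ k • Q k = 0 := by
      intro k
      induction k with
      | zero => rw [hQ.zero, smul_zero]
      | succ k ih =>
        rw [pow_succ, mul_smul, hQ.mul, ih]
    refine ⟨Q (m + 1), ⟨m + 1, hQpow _⟩, fun σ σ' h => ?_⟩
    rw [← hinv (m + 1) σ σ' h, smul_sub, ← map_nsmul, hpow, hpow]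
  obtain ⟨dA, A1, A2, hdA, hA1, hA2, hA3, hA4, hA5, cA, hcA, rA⟩ := global3 (Ω := Sep F) hKF h3 hb hsb
    (⊤ : Subgroup (k' ≃ₐ[k] k')) inferInstance (fun s t hs => absurd (Subgroup.mem_top s) hs) hNb ha0
    (fun v hv => om_of_Cu v
      (gen0 (F := F) (L := Comp k'[X] F v)
        (Valued.v (R := v.adicCompletion F) (Γ₀ := WithZero (Multiplicative ℤ)))
        (v.valuation F) (wFin v) (vle v a) (vone v b hv)
        (loc0T h3K hbK0 hdK0 hzF (cubeL v) hf3 ((hc.loc 1).1 v) n0 e0 k0)))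
    (fun τ s _ => by
      obtain ⟨u, j, hu, e⟩ := inv0 h3K hbK0 hdK0 hzΩ hzfix h3r hbs hds hpres hf3 hi0 n0 e0 k0 τ
      exact ⟨u, j, 1, hu, Or.inl ⟨Subgroup.mem_top s, rfl⟩, by rw [e, pow_one]⟩)
  -- descent of the divisors
  have injk := (algebraMap k k').injective
  obtain ⟨B1, hB1⟩ := Pool.Agent.TH115.GD.desc_poly (k := k) (P := A1)
    (fun s => (hA5.1 s (Subgroup.mem_top s)).1)
  obtain ⟨B2, hB2⟩ := Pool.Agent.TH115.GD.desc_poly (k := k) (P := A2)
    (fun s => (hA5.1 s (Subgroup.mem_top s)).2)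
  have mB1 : B1.Monic := by
    rw [← hB1] at hA1
    exact monic_of_injective injk hA1
  have mB2 : B2.Monic := by
    rw [← hB2] at hA2
    exact monic_of_injective injk hA2
  have sB : Squarefree (B1 * B2) := by
    intro x hx
    have h1 := hA3 (x.map (algebraMap k k')) (by
      rw [← hB1, ← hB2, ← Polynomial.map_mul, ← Polynomial.map_mul]
      exact Polynomial.map_dvd _ hx)
    exact (Polynomial.isUnit_map (algebraMap k k')).1 h1
  have dB : B1 * B2 ∣ b := by
    rw [← Polynomial.map_dvd_map' (algebraMap k k'), Polynomial.map_mul, hB1, hB2]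
    exact hA4
  have vdeg : ∀ p : k[X], p ≠ 0 → vInf k' F (algebraMap K F (algebraMap k[X] K p)) =
      WithZero.exp (p.natDegree : ℤ) := by
    intro p hp
    rw [hKF, vInf_poly ((Polynomial.map_ne_zero_iff injk).2 hp), natDegree_map]
  have vXn : ∀ n : ℕ, vInf k' F (algebraMap k'[X] F (X ^ n)) = WithZero.exp (n : ℤ) := by
    intro n
    rw [vInf_poly (pow_ne_zero n X_ne_zero), natDegree_X_pow]
  have vXa : ∀ n : ℕ, a.natDegree ≤ n →
      vInf k' F (algebraMap K F aK) ≤ vInf k' F (algebraMap k'[X] F (X ^ n)) := by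
    intro n hn
    by_cases ha : a = 0
    · rw [haK, ha, map_zero, map_zero, map_zero]
      exact zero_le
    · rw [haK, vdeg a ha, vXn, WithZero.exp_le_exp]
      exact_mod_cast hn
  have vXp : ∀ (n : ℕ) (p : k[X]), p ≠ 0 → p.natDegree = 3 * n →
      vInf k' F (algebraMap K F (algebraMap k[X] K p)) =
        vInf k' F (algebraMap k'[X] F (X ^ n)) ^ 3 := by
    intro n p hp hn
    rw [vdeg p hp, vXn, ← WithZero.exp_nsmul]
    congr 1
    rw [hn]
    simp
  have v3inf : vInf k' F 3 ≤ 1 := by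
    have h4 := vdeg (C 3) (C_ne_zero.2 h3)
    have h5 : algebraMap K F (algebraMap k[X] K (C 3)) = 3 := by
      rw [show (C 3 : k[X]) = 3 from rfl, map_ofNat, map_ofNat]
    rw [h5, natDegree_C] at h4
    rw [h4]
    simp
  have nX : ∀ n : ℕ, algebraMap k'[X] F (X ^ n) ≠ 0 := by
    intro n
    simp
  have cubeInf : ∀ x : Sep (CompInf k' F), ∃ y, y ^ 3 = x := by
    refine cube_roots _ ?_
    have := (map_ne_zero (algebraMap K (Sep (CompInf k' F)))).2 h3K
    rwa [map_ofNat] at this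
  have nAA : algebraMap k'[X] F (A1 * A2 ^ 2) ≠ 0 := by
    have : A1 * A2 ^ 2 ≠ 0 := mul_ne_zero hA1.ne_zero (pow_ne_zero 2 hA2.ne_zero)
    simpa using this
  have infA : InfCond3 a b (B1 * B2 ^ 2).natDegree := by
    rintro ⟨n, hn⟩ hle
    have h4 := gen0s (F := F) (L := CompInf k' F)
      (Valued.v (R := (pl (0 : k')).adicCompletion (AtInf F)) (Γ₀ := WithZero (Multiplicative ℤ)))
      (vInf k' F) wInf (nX n) (vXa n (by omega)) (vXp n b hb hn)
      (loc0T h3K hbK0 hdK0 hzF cubeInf hf3 (hc.loc 1).2 n0 e0 k0)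
    have h5 := cu_log h4
    rw [rA, hdA rfl, pow_zero, mul_one, log_vInf_mul (pow_ne_zero 3 hcA) nAA, log_vInf_pow,
      log_vInf_poly (mul_ne_zero hA1.ne_zero (pow_ne_zero 2 hA2.ne_zero)), ← hB1, ← hB2,
      ← Polynomial.map_pow, ← Polynomial.map_mul, natDegree_map] at h5
    push_cast at h5
    omega
  obtain ⟨PA, uA, huA, sA⟩ := hpA B1 B2 mB1 mB2 sB dB infA
  rw [hKF, Polynomial.map_mul, Polynomial.map_pow, hB1, hB2] at sA
  rw [hdA rfl, pow_zero, mul_one, sA] at rA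
  obtain ⟨HA, hHA⟩ := hdiv (act (crv3 aK bK) (incl K K (Sep F)) PA)
  have PK : ∀ φ : Sep F →ₐ[K] Sep F, act (crv3 aK bK) φ (act (crv3 aK bK) (incl K K (Sep F)) PA) =
      act (crv3 aK bK) (incl K K (Sep F)) PA := by
    intro φ
    have h1 : φ.comp (incl K K (Sep F)) = incl K K (Sep F) := AlgHom.ext fun x => φ.commutes x
    rw [act_act, h1]
  have hf1 : ∀ σ, InT h (c 1 σ - (act (crv3 aK bK) (rs K σ) HA - HA)) := by
    refine step0 h3K hbK0 hdK0 hzΩ hzfix h3r hf3 n0 k0 (fun σ => by rw [hHA]; exact PK _)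
      (c0 := cA * uA) ?_
    rw [hHA]
    have h5 : dT (algebraMap K (Sep F) bK) (act (crv3 aK bK) (incl K K (Sep F)) PA) =
        algebraMap K (Sep F) (dT bK PA) := dT_act (crv3 aK bK) (incl K K (Sep F)) bK PA
    rw [h5, e0, rA, IsScalarTower.algebraMap_apply K F (Sep F)]
    simp only [map_mul, map_pow]
    ring
  -- the second step
  set f1 : (Sep F ≃ₐ[F] Sep F) → Pt (crv3 aK bK) (Sep F) :=
    fun σ => c 1 σ - (act (crv3 aK bK) (rs K σ) HA - HA) with hf1def
  have hf1c : IsCoc (crv3 aK bK) f1 := (hcc.coc 1).sub _ (cob_isCoc _ _)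
  have hf1l : LocallyTrivial k' (crv3 aK bK) f1 := lt_subT (hc.loc 1) HA
  obtain ⟨t1, a1, n1, e1, k1⟩ := kummer1 h3K hbK0 hdK0 hzΩ hzfix hf1c hf1
  have ha1 : a1 ≠ 0 := by
    rintro rfl
    rw [map_zero] at e1
    exact pow_ne_zero 3 n1 e1
  have hi1 : InvOne (crv3 aK bK) f1 := by
    intro τ
    obtain ⟨R, ⟨m, hm⟩, hrel⟩ := hi0 τ
    have h3H : (act (crv3 aK bK) (ak τ) HA - HA) + (act (crv3 aK bK) (ak τ) HA - HA) +
        (act (crv3 aK bK) (ak τ) HA - HA) = 0 := by
      rw [sub3, ← map_add, ← map_add, hHA, PK, sub_self]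
    refine ⟨R - (act (crv3 aK bK) (ak τ) HA - HA), ⟨m + 1, ?_⟩, fun σ σ' h => ?_⟩
    · rw [smul_sub]
      have h5 : 3 ^ (m + 1) • R = 0 := by rw [pow_succ', mul_smul, hm, smul_zero]
      have h6 : 3 ^ (m + 1) • (act (crv3 aK bK) (ak τ) HA - HA) = 0 := by
        rw [pow_succ, mul_smul, three_smul, h3H, smul_zero]
      rw [h5, h6, sub_zero]
    · have h1 := hrel σ σ' h
      have hcomp : act (crv3 aK bK) (ak τ) (act (crv3 aK bK) (rs K σ') HA) =
          act (crv3 aK bK) (rs K σ) (act (crv3 aK bK) (ak τ) HA) := by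
        have h5 : (ak τ).comp (rs K σ') = (rs K σ).comp (ak τ) := AlgHom.ext fun x => h x
        rw [act_act, act_act, h5]
      show act (crv3 aK bK) (ak τ) (c 1 σ' - (act (crv3 aK bK) (rs K σ') HA - HA)) -
        (c 1 σ - (act (crv3 aK bK) (rs K σ) HA - HA)) =
        act (crv3 aK bK) (rs K σ) (R - (act (crv3 aK bK) (ak τ) HA - HA)) -
          (R - (act (crv3 aK bK) (ak τ) HA - HA))
      rw [map_sub (act (crv3 aK bK) (ak τ)), map_sub (act (crv3 aK bK) (ak τ)), hcomp,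
        map_sub (act (crv3 aK bK) (rs K σ)) R, map_sub (act (crv3 aK bK) (rs K σ))]
      have h6 : act (crv3 aK bK) (ak τ) (c 1 σ') = c 1 σ + (act (crv3 aK bK) (rs K σ) R - R) := by
        rw [← h1]; abel
      rw [h6]
      abel
  have zinj : ∀ x y : k', algebraMap F (Sep F) (algebraMap k'[X] F (C x)) =
      algebraMap F (Sep F) (algebraMap k'[X] F (C y)) → x = y := by
    intro x y e
    exact C_injective (IsFractionRing.injective k'[X] F ((algebraMap F (Sep F)).injective e))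
  obtain ⟨dB', C1, C2, -, hC1, hC2, hC3, hC4, hC5, cB, hcB, rB⟩ := global3 (Ω := Sep F) hKF h3 hd
    hsd (fixZ k z) (fixZ_normal hz) (fixZ_index hz) hNd ha1
    (fun v hv => om_of_Cu v
      (gen1 (F := F) (L := Comp k'[X] F v)
        (Valued.v (R := v.adicCompletion F) (Γ₀ := WithZero (Multiplicative ℤ)))
        (v.valuation F) (wFin v) (v3 v) (vle v a) (by rw [← hdK]; exact vone v _ hv)
        (loc1T h3K hbK0 hdK0 hzF hf1 (hf1l.1 v) n1 e1 k1)))
    (fun τ s hτ => by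
      obtain ⟨u, j, e, hu, hcase, he⟩ := inv1 h3K hbK0 hdK0 hzΩ hzfix h3r hbs hds hpres hf1 hi1 n1 e1
        k1 τ
      have hτz : τ zΩ = algebraMap F (Sep F) (algebraMap k'[X] F (C (s z))) := by
        rw [hzΩdef, hzFdef, hτ, map_C]
        rfl
      refine ⟨u, j, e, hu, ?_, by rw [he, hdK]⟩
      rcases hcase with ⟨h1, h2⟩ | ⟨h1, h2⟩
      · left
        refine ⟨?_, h2⟩
        rw [mem_fixZ]
        rw [hτz] at h1
        exact zinj _ _ h1
      · right
        refine ⟨fun h4 => h1 ?_, h2⟩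
        rw [mem_fixZ] at h4
        rw [hτz, h4])
  have nCC : algebraMap k'[X] F (C1 * C2 ^ 2) ≠ 0 := by
    have : C1 * C2 ^ 2 ≠ 0 := mul_ne_zero hC1.ne_zero (pow_ne_zero 2 hC2.ne_zero)
    simpa using this
  have infC : InfCond3 a (a ^ 3 - 27 * b) (C1 * C2 ^ 2).natDegree := by
    rintro ⟨n, hn⟩ hle
    have h4 := gen1s (F := F) (L := CompInf k' F)
      (Valued.v (R := (pl (0 : k')).adicCompletion (AtInf F)) (Γ₀ := WithZero (Multiplicative ℤ)))
      (vInf k' F) wInf (nX n) v3inf (vXa n (by omega)) (by rw [← hdK]; exact vXp n _ hd hn)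
      (loc1T h3K hbK0 hdK0 hzF hf1 hf1l.2 n1 e1 k1)
    have h5 := cu_log h4
    have nP : algebraMap K F (algebraMap k[X] K (a ^ 3 - 27 * b)) ≠ 0 := by
      rw [hdK]
      exact (_root_.map_ne_zero _).2 hdK0
    have hl : WithZero.log (vInf k' F (algebraMap K F (algebraMap k[X] K (a ^ 3 - 27 * b)))) =
        ((a ^ 3 - 27 * b).natDegree : ℤ) := by rw [vdeg _ hd, WithZero.log_exp]
    rw [rB, log_vInf_mul (pow_ne_zero 3 hcB) (mul_ne_zero nCC (pow_ne_zero _ nP)), log_vInf_pow,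
      log_vInf_mul nCC (pow_ne_zero _ nP), log_vInf_pow, hl,
      log_vInf_poly (mul_ne_zero hC1.ne_zero (pow_ne_zero 2 hC2.ne_zero)), hn] at h5
    push_cast at h5
    have h6 : (3 : ℤ) ∣ ((C1 * C2 ^ 2).natDegree : ℤ) := by
      obtain ⟨w, hw⟩ := h5
      exact ⟨w - WithZero.log (vInf k' F cB) - dB' * n, by linear_combination hw⟩
    exact_mod_cast h6
  obtain ⟨QB, jB, uB, huB, sB'⟩ := hpB C1 C2 hC1 hC2 hC3 hC4 hC5 infC
  rw [sB', hdK] at rB
  have hQB : dD zF aK bK QB ≠ 0 := by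
    intro h0
    rw [h0] at rB
    apply ha1
    rw [rB]
    ring
  have hdDΩ : dD zΩ aK bK QB = algebraMap F (Sep F) (dD zF aK bK QB) := by
    rcases QB with _ | ⟨x, y, hxy⟩
    · exact (map_one _).symm
    · unfold dD
      rw [map_add (algebraMap F (Sep F)), map_mul (algebraMap F (Sep F)) zF,
        ← IsScalarTower.algebraMap_apply K F (Sep F), ← IsScalarTower.algebraMap_apply K F (Sep F)]
  obtain ⟨HQ, tQ, ntQ, htQ, hφQ⟩ := lift_dual h3K hbK0 hdK0 hzΩ h3r QB (by
    rw [hdDΩ]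
    exact (_root_.map_ne_zero _).2 hQB)
  obtain ⟨R, tR, ntR, htR, hR3, hφR⟩ := tor_gen h3K hbK0 hdK0 hzΩ h3r
  have good : ∀ σ : Sep F ≃ₐ[F] Sep F,
      InT h (act (crv3 aK bK) (rs K σ) (HQ + (jB + dB') • R) - (HQ + (jB + dB') • R)) ∧
      σ (tQ * tR ^ (jB + dB')) = ch zΩ (act (crv3 aK bK) (rs K σ) (HQ + (jB + dB') • R) -
        (HQ + (jB + dB') • R)) * (tQ * tR ^ (jB + dB')) := by
    intro σ
    obtain ⟨g1, g2⟩ := hφQ (rs K σ)
    obtain ⟨g3, g4⟩ := hφR (rs K σ) (hzfix σ)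
    have g2' : σ tQ = ch zΩ (act (crv3 aK bK) (rs K σ) HQ - HQ) * tQ := g2 (hzfix σ)
    have g4' : σ tR = ch zΩ (act (crv3 aK bK) (rs K σ) R - R) * tR := g4
    obtain ⟨g5, g6⟩ := good_smul (fun P : Pt (crv3 aK bK) (Sep F) => ch zΩ P) (fun P => InT h P)
      (Or.inl rfl) rfl (fun x y hx hy => ⟨hx.add h hy, ch_add h hzΩ hx hy⟩) g3 (jB + dB')
    have e7 : act (crv3 aK bK) (rs K σ) (HQ + (jB + dB') • R) - (HQ + (jB + dB') • R) =
        (act (crv3 aK bK) (rs K σ) HQ - HQ) +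
          (jB + dB') • (act (crv3 aK bK) (rs K σ) R - R) := by
      rw [map_add, map_nsmul, smul_sub]
      abel
    rw [e7]
    refine ⟨g1.add h g5, ?_⟩
    rw [ch_add h hzΩ g1 g5, map_mul, map_pow, g2', g4', mul_pow]
    have g6' : ch zΩ ((jB + dB') • (act (crv3 aK bK) (rs K σ) R - R)) =
      ch zΩ (act (crv3 aK bK) (rs K σ) R - R) ^ (jB + dB') := g6
    rw [g6']
    ring
  have hfin := step1 h3K hbK0 hdK0 hzΩ hzfix hf1 n1 k1 good (c1 := cB * uB) (by
    rw [mul_pow tQ, ← pow_mul, mul_comm (jB + dB') 3, pow_mul, htQ, htR, e1, rB, hdDΩ,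
      IsScalarTower.algebraMap_apply K F (Sep F)]
    simp only [map_mul, map_pow]
    ring)
  obtain ⟨Q, hQ⟩ := fixed_point (K := K) (F := K) (crv3 aK bK) (HQ + HQ + HQ) (fun τ => by
    have h5 : act (crv3 aK bK) (rs K τ) HQ = HQ + (act (crv3 aK bK) (rs K τ) HQ - HQ) := by abel
    have h6 := (hφQ (rs K τ)).1.three h
    rw [map_add, map_add, h5]
    have h7 : ∀ A B : Pt (crv3 aK bK) (Sep F), A + B + (A + B) + (A + B) =
      (A + A + A) + (B + B + B) := fun A B => by abel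
    rw [h7, h6, add_zero])
  have h3R : (jB + dB') • R + (jB + dB') • R + (jB + dB') • R = 0 := by
    rw [← smul_add, ← smul_add, hR3, smul_zero]
  refine ⟨PA + Q, HA + (HQ + (jB + dB') • R), ?_, fun σ => ?_⟩
  · rw [map_add, hQ, ← hHA]
    have h7 : ∀ A B D : Pt (crv3 aK bK) (Sep F), A + (B + D) + (A + (B + D)) + (A + (B + D)) =
      (A + A + A) + (B + B + B) + (D + D + D) := fun A B D => by abel
    rw [h7, h3R, add_zero]
  · have h5 : c 1 σ - (act (crv3 aK bK) (rs K σ) HA - HA) =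
        act (crv3 aK bK) (rs K σ) (HQ + (jB + dB') • R) - (HQ + (jB + dB') • R) := hfin σ
    rw [sub_eq_iff_eq_add] at h5
    rw [h5, map_add (act (crv3 aK bK) (rs K σ)) HA]
    abel

end main

end Pool.Agent.Helper7K9.T3
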