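import Pool.Agent.Helper7K9.T3.Fam

/-!
Explicit families of surfaces.
-/

set_option autoImplicit false
set_option linter.all false

open Polynomial IsDedekindDomain WeierstrassCurve WeierstrassCurve.Affine
open scoped Classical

namespace Pool.Agent.Helper7K9.T3

open Pool.Agent.TH115.GD (pl Pt act incl rs ak Sep act_act act_inj splits_of_sep splits_dvd IsTower
  desc_poly)

section ctx

variable {k k' K F : Type} [Field k] [Field k'] [Algebra k k'] [Field K] [Algebra k[X] K]
    [Field F] [Algebra k'[X] F] [IsFractionRing k'[X] F] [Algebra K F]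
    (hT : IsTower k k' K F) (h3 : (3 : k) ≠ 0) {a b : k[X]} (hb : b ≠ 0)
    (hd : a ^ 3 - 27 * b ≠ 0)
    (hsep : ∀ π : k[X], Irreducible π → π ∣ b * (a ^ 3 - 27 * b) → π.Separable)

include hT h3 hb hd in
/-- A polynomial point. -/
theorem point_of {x y p g : k[X]} (heq : y ^ 2 + a * x * y + b * y = x ^ 3) (hy : y = p * g ^ 3)
    (hp : p ≠ 0) (hg : g ≠ 0) :
    ∃ P : Pt (crv3 (algebraMap k[X] K a) (algebraMap k[X] K b)) K,
      (∃ hn, P = Point.some (algebraMap k[X] K x) (algebraMap k[X] K y) hn) ∧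
      ∃ c : F, c ≠ 0 ∧ em K F p = c ^ 3 * algebraMap K F (dT (algebraMap k[X] K b) P) := by
  haveI := hT.fracK
  have h := isE3 (algebraMap k[X] K a) (algebraMap k[X] K b) K (three_K hT h3) (b_K hT hb)
    (d_K hT hd)
  have hn : ((crv3 (algebraMap k[X] K a) (algebraMap k[X] K b)).baseChange K).toAffine.Nonsingular
      (algebraMap k[X] K x) (algebraMap k[X] K y) := by
    rw [h.nonsingular]
    have := congrArg (algebraMap k[X] K) heq
    simp only [map_add, map_mul, map_pow] at this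
    exact this
  have hy0 : algebraMap k[X] K y ≠ 0 := by
    rw [hy]
    have : p * g ^ 3 ≠ 0 := mul_ne_zero hp (pow_ne_zero 3 hg)
    simpa using this
  have hg0 : em K F g ≠ 0 := by
    unfold em
    simpa using hg
  refine ⟨Point.some _ _ hn, ⟨hn, rfl⟩, (em K F g)⁻¹, inv_ne_zero hg0, ?_⟩
  have e : dT (algebraMap k[X] K b) (Point.some (algebraMap k[X] K x) (algebraMap k[X] K y) hn) =
      algebraMap k[X] K y := by
    simp only [dT]
    rw [if_neg hy0]
  rw [e, hy]
  have e2 : algebraMap K F (algebraMap k[X] K (p * g ^ 3)) = em K F p * em K F g ^ 3 := by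
    unfold em
    simp only [map_mul, map_pow]
  rw [e2]
  field_simp

include hT h3 hd hsep hb in
/-- A family of surfaces with a section of infinite order. -/
theorem rank_one {p g q : k[X]} (hq : q = p - g ^ 3 - a * g) (hbe : b = p * q) (hg : g ≠ 0)
    (ip : Irreducible p) (iq : Irreducible q) (npq : ¬ q ∣ p) (h1 : HasFactor3 b)
    (h2 : GoodDisc (a ^ 3 - 27 * b)) :
    TateAt (F := F) 3 k' (crv3 (algebraMap k[X] K a) (algebraMap k[X] K b)) ∧
    ∃ P : Pt (crv3 (algebraMap k[X] K a) (algebraMap k[X] K b)) K,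
      (∃ hn, P = Point.some (algebraMap k[X] K (p * g)) (algebraMap k[X] K (p * g ^ 3)) hn) ∧
      ∀ n : ℕ, n ≠ 0 → n • P ≠ 0 := by
  obtain ⟨P, hP, hc⟩ := point_of (F := F) hT h3 hb hd (x := p * g) (y := p * g ^ 3) (p := p)
    (g := g) (by rw [hbe, hq]; ring) rfl ip.ne_zero hg
  obtain ⟨t, li⟩ := family (ι := Unit) (u := 1) (p₀ := q) (p := fun _ => p) hT h3 hb hd hsep h1 h2
    iq (fun _ => ip) (fun _ => npq) (fun i j hij => absurd (Subsingleton.elim i j) hij)
    (by rw [hbe]; simp [mul_comm]) (fun _ => P) (fun _ => hc)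
  refine ⟨t, P, hP, fun n hn h0 => hn ?_⟩
  rw [Fintype.linearIndependent_iff] at li
  have := li (fun _ => (n : ℤ)) (by
    rw [Finset.univ_unique, Finset.sum_singleton, natCast_zsmul]
    exact h0) ()
  exact_mod_cast this

include hT h3 hd hsep hb in
/-- A family of surfaces with two independent sections. -/
theorem rank_two {p g q : k[X]} (hq : q = (1 - g) * p - 2 * g ^ 2 + 4 * g)
    (hae : a = g * p + g ^ 2 - 2 * g - 4) (hbe : b = (g + 1) * p * q)
    (ig : Irreducible (g + 1)) (ip : Irreducible p) (iq : Irreducible q) (h20 : (2 : k) ≠ 0)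
    (hg : g ≠ 0)
    (n1 : ¬ (g + 1) ∣ p) (n2 : ¬ (g + 1) ∣ q) (n3 : ¬ p ∣ q) (n4 : ¬ q ∣ p) (h1 : HasFactor3 b)
    (h2 : GoodDisc (a ^ 3 - 27 * b)) :
    TateAt (F := F) 3 k' (crv3 (algebraMap k[X] K a) (algebraMap k[X] K b)) ∧
    ∃ P : Fin 2 → Pt (crv3 (algebraMap k[X] K a) (algebraMap k[X] K b)) K,
      (∃ hn, P 0 = Point.some (algebraMap k[X] K (p * g)) (algebraMap k[X] K (p * g ^ 3)) hn) ∧
      (∃ hn, P 1 = Point.some (algebraMap k[X] K (q * -2)) (algebraMap k[X] K (q * (-2) ^ 3)) hn) ∧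
      LinearIndependent ℤ P := by
  have h2' : (-2 : k[X]) ≠ 0 := by
    have : (C (2 : k) : k[X]) ≠ 0 := C_ne_zero.2 h20
    intro h
    apply this
    rw [show (C (2 : k) : k[X]) = 2 from rfl]
    linear_combination -h
  obtain ⟨P0, hP0, hc0⟩ := point_of (F := F) hT h3 hb hd (x := p * g) (y := p * g ^ 3) (p := p)
    (g := g) (by rw [hbe, hae, hq]; ring) rfl ip.ne_zero hg
  obtain ⟨P1, hP1, hc1⟩ := point_of (F := F) hT h3 hb hd (x := q * -2) (y := q * (-2) ^ 3) (p := q)
    (g := -2) (by rw [hbe, hae, hq]; ring) rfl iq.ne_zero h2'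
  obtain ⟨t, li⟩ := family (ι := Fin 2) (u := 1) (p₀ := g + 1) (p := ![p, q]) hT h3 hb hd hsep h1 h2
    ig (fun i => by fin_cases i; exacts [ip, iq]) (fun i => by fin_cases i; exacts [n1, n2])
    (fun i j hij => by
      fin_cases i <;> fin_cases j
      · exact absurd rfl hij
      · exact n3
      · exact n4
      · exact absurd rfl hij)
    (by rw [hbe]; simp [Fin.prod_univ_two, mul_assoc]) ![P0, P1]
    (fun i => by fin_cases i; exacts [hc0, hc1])
  exact ⟨t, ![P0, P1], hP0, hP1, li⟩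

end ctx

end Pool.Agent.Helper7K9.T3
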