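import Pool.Agent.Helper7K9.T3.Sgn
import Pool.Agent.Helper7K9.T3.Defs
import Pool.Agent.TH115.GD.Des

/-!
The action of automorphisms on the functions of a point.
-/

set_option autoImplicit false
set_option linter.all false

open WeierstrassCurve WeierstrassCurve.Affine
open scoped Classical

namespace Pool.Agent.Helper7K9.T3

open Pool.Agent.TH115.GD (Pt act incl rs ak IsCoc LocTriv act_zero act_some act_inj act_act)

section crv

variable {F : Type*} [Field F] {W : Affine F} {a b : F} (h : IsE3 W a b)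

/-- The Kummer generator for the second step. -/
noncomputable def t1 (z a b : F) : W.Point → F
  | .zero => 1
  | .some x y _ => if x = 0 then 1 else
      if y / x + z ^ 2 * (b / x) + z * (-a - y / x - b / x) = 0 then
        (y / x + z * (b / x) + z ^ 2 * (-a - y / x - b / x)) ^ 2
      else y / x + z ^ 2 * (b / x) + z * (-a - y / x - b / x)

/-- The character of the group generated by `(0, 0)`. -/
noncomputable def ch (z : F) : W.Point → F
  | .zero => 1
  | .some x y _ => if y = 0 then z else z ^ 2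

include h

theorem ch_pT (z : F) : ch z (pT h) = z := by unfold pT ch; simp

theorem ch_neg_pT (z : F) : ch z (-(pT h)) = z ^ 2 := by
  obtain ⟨hQ, e⟩ := neg_pT h
  rw [e]; unfold ch; simp [h.nb]

variable {z : F} (hz : z ^ 2 + z + 1 = 0)

include hz in
theorem ch_add {P Q : W.Point} (hP : InT h P) (hQ : InT h Q) : ch z (P + Q) = ch z P * ch z Q := by
  have hz3 := z_cube hz
  have e0 : ch z (0 : W.Point) = 1 := rfl
  have e2 : -(pT h) + -(pT h) = pT h := by rw [← neg_add, dbl_pT, neg_neg]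
  rcases hP with rfl | rfl | rfl <;> rcases hQ with rfl | rfl | rfl
  · rw [add_zero, e0, mul_one]
  · rw [zero_add, e0, one_mul]
  · rw [zero_add, e0, one_mul]
  · rw [add_zero, e0, mul_one]
  · rw [dbl_pT, ch_pT, ch_neg_pT]; ring
  · rw [add_neg_cancel, e0, ch_pT, ch_neg_pT, ← hz3]; ring
  · rw [add_zero, e0, mul_one]
  · rw [neg_add_cancel, e0, ch_pT, ch_neg_pT, ← hz3]; ring
  · rw [e2, ch_neg_pT, ch_pT]; linear_combination (-z) * hz3

include hz in
theorem ch_inj {P : W.Point} (hP : InT h P) (e : ch z P = 1) : P = 0 := by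
  rcases hP with rfl | rfl | rfl
  · rfl
  · rw [ch_pT] at e; exact absurd e (z_ne_one h hz)
  · rw [ch_neg_pT] at e; exact absurd e (z_sq_ne_one h hz)

include hz in
theorem ch_cube {P : W.Point} (hP : InT h P) : ch z P ^ 3 = 1 := by
  have hz3 := z_cube hz
  rcases hP with rfl | rfl | rfl
  · show (1 : F) ^ 3 = 1; ring
  · rw [ch_pT, hz3]
  · rw [ch_neg_pT]; linear_combination (z ^ 3 + 1) * hz3

include hz in
theorem ch_ne {P : W.Point} (hP : InT h P) : ch z P ≠ 0 := by
  intro e
  have := ch_cube h hz hP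
  rw [e, zero_pow (by norm_num)] at this
  exact zero_ne_one this

theorem t1_pt {α β γ : F} (h1 : α + β + γ = -a) (h2 : α * β * γ = -b) :
    t1 z a b (pt h h1 h2) = if α + z ^ 2 * β + z * γ = 0 then (α + z * β + z ^ 2 * γ) ^ 2
      else α + z ^ 2 * β + z * γ := by
  obtain ⟨hα, hβ, hγ⟩ := th_ne h.nb h2
  unfold pt t1
  simp only []
  rw [if_neg (pt_x_ne h h2)]
  have e1 : -(α ^ 2 * γ) / -(α * γ) = α := by field_simp
  have hb : b = -(α * β * γ) := by linear_combination h2
  have e2 : b / -(α * γ) = β := by rw [hb]; field_simp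
  have e3 : -a - α - β = γ := by linear_combination -h1
  rw [e1, e2, e3]

theorem t1_inT {P : W.Point} (hP : InT h P) : t1 z a b P = 1 := by
  rcases hP with rfl | rfl | rfl
  · rfl
  · unfold pT t1; simp
  · obtain ⟨hQ, e⟩ := neg_pT h
    rw [e]; unfold t1; simp

include hz in
theorem t1_ne (P : W.Point) : t1 z a b P ≠ 0 := by
  rcases exists_pt h P with rfl | rfl | rfl | ⟨α, β, γ, h1, h2, rfl⟩
  · rw [t1_inT h (Or.inl rfl)]; exact one_ne_zero
  · rw [t1_inT h (Or.inr (Or.inl rfl))]; exact one_ne_zero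
  · rw [t1_inT h (Or.inr (Or.inr rfl))]; exact one_ne_zero
  · rw [t1_pt h h1 h2]
    split_ifs with h3
    · intro e
      have e2 := pow_eq_zero_iff (by norm_num) |>.1 e
      have := (uw_pt (a := a) hz h.three h1 h2).2
      rw [h3, e2] at this
      apply h.nd
      rw [← this]; ring
    · exact h3

include hz in
theorem pt_add_inT {P : W.Point} (hP : ¬ InT h P) : t1 z a b (P + pT h) = z * t1 z a b P := by
  have hz3 := z_cube hz
  rcases exists_pt h P with rfl | rfl | rfl | ⟨α, β, γ, h1, h2, rfl⟩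
  · exact absurd (Or.inl rfl) hP
  · exact absurd (Or.inr (Or.inl rfl)) hP
  · exact absurd (Or.inr (Or.inr rfl)) hP
  · rw [pt_add_pT, t1_pt, t1_pt]
    have e1 : β + z ^ 2 * γ + z * α = z * (α + z ^ 2 * β + z * γ) := by
      linear_combination (-β) * hz3
    have e2 : β + z * γ + z ^ 2 * α = z ^ 2 * (α + z * β + z ^ 2 * γ) := by
      linear_combination (-β - z * γ) * hz3
    rw [e1, e2]
    by_cases h3 : α + z ^ 2 * β + z * γ = 0
    · rw [if_pos h3, if_pos (by rw [h3, mul_zero])]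
      linear_combination (z * (α + z * β + z ^ 2 * γ) ^ 2) * hz3
    · rw [if_neg h3, if_neg (mul_ne_zero (z_ne hz) h3)]

include hz in
/-- Translation by a multiple of `(0, 0)`. -/
theorem t1_add {P S : W.Point} (hP : ¬ InT h P) (hS : InT h S) :
    t1 z a b (P + S) = ch z S * t1 z a b P := by
  have hz3 := z_cube hz
  rcases hS with rfl | rfl | rfl
  · rw [add_zero]; show _ = 1 * _; rw [one_mul]
  · rw [ch_pT]; exact pt_add_inT h hz hP
  · rw [ch_neg_pT]
    have h3 : ¬ InT h (P + -(pT h)) := by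
      intro hh
      apply hP
      have := hh.add h (Or.inr (Or.inl rfl) : InT h (pT h))
      rwa [neg_add_cancel_right] at this
    have := pt_add_inT h hz h3
    rw [neg_add_cancel_right] at this
    rw [this]
    linear_combination (-t1 z a b (P + -(pT h))) * hz3

include hz in
/-- The pairing is multiplicative. -/
theorem s0_add (h3r : ∀ x : F, ∃ y, y ^ 3 = x) {S T : W.Point} (hS : S + S + S = 0)
    (hT : T + T + T = 0) : s0 a b (S + T) = s0 a b S * s0 a b T := by
  obtain ⟨P, hP⟩ := third h hz h3r (pT h)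
  have hP0 : P + P + P ≠ 0 := by rw [hP]; exact pT_ne h
  have hPS : P + S + (P + S) + (P + S) ≠ 0 := by
    have : P + S + (P + S) + (P + S) = (P + P + P) + (S + S + S) := by abel
    rw [this, hS, add_zero]; exact hP0
  have hST : S + T + (S + T) + (S + T) = 0 := by
    have : S + T + (S + T) + (S + T) = (S + S + S) + (T + T + T) := by abel
    rw [this, hS, hT, add_zero]
  have a0 := h0_translate h hz (P := P) hS (fun h' => absurd h' hP0)
  have b0 := h0_translate h hz (P := P + S) hT (fun h' => absurd h' hPS)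
  have c0 := h0_translate h hz (P := P) hST (fun h' => absurd h' hP0)
  have n0 := h0_ne h P
  rw [add_assoc, a0, c0] at b0
  apply mul_right_cancel₀ n0
  rw [b0]; ring

include hz in
theorem s0_neg (h3r : ∀ x : F, ∃ y, y ^ 3 = x) {S : W.Point} (hS : S + S + S = 0) :
    s0 a b (-S) * s0 a b S = 1 := by
  have h3 : -S + -S + -S = 0 := by rw [← neg_add, ← neg_add, hS, neg_zero]
  rw [← s0_add h hz h3r h3 hS, neg_add_cancel]
  rfl

end crv

universe u

section action

variable {K Ω Ω' : Type u} [Field K] [Field Ω] [Field Ω'] [Algebra K Ω] [Algebra K Ω'] {a b : K}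

theorem isE3 (a b : K) (Ω : Type u) [Field Ω] [Algebra K Ω] (h3 : (3 : K) ≠ 0) (hb : b ≠ 0)
    (hd : a ^ 3 - 27 * b ≠ 0) :
    IsE3 ((crv3 a b).baseChange Ω).toAffine (algebraMap K Ω a) (algebraMap K Ω b) where
  a1 := rfl
  a2 := map_zero _
  a3 := rfl
  a4 := map_zero _
  a6 := map_zero _
  three := by
    rw [← map_ofNat (algebraMap K Ω) 3]
    exact (map_ne_zero _).2 h3
  nb := (map_ne_zero _).2 hb
  nd := by
    have : algebraMap K Ω a ^ 3 - 27 * algebraMap K Ω b = algebraMap K Ω (a ^ 3 - 27 * b) := by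
      rw [map_sub, map_pow, map_mul, map_ofNat]
    rw [this]
    exact (map_ne_zero _).2 hd

theorem dT_act (W : WeierstrassCurve K) (φ : Ω →ₐ[K] Ω') (b : Ω) (P : Pt W Ω) :
    dT (φ b) (act W φ P) = φ (dT b P) := by
  rcases P with _ | ⟨x, y, hxy⟩
  · rw [act_zero]; simp [dT]
  · obtain ⟨h, hh⟩ := act_some W φ hxy
    rw [hh]
    simp only [dT, map_eq_zero]
    split_ifs <;> simp

theorem s0_act (W : WeierstrassCurve K) (φ : Ω →ₐ[K] Ω') (a b : Ω) (P : Pt W Ω) :
    s0 (φ a) (φ b) (act W φ P) = φ (s0 a b P) := by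
  rcases P with _ | ⟨x, y, hxy⟩
  · rw [act_zero]; simp [s0]
  · obtain ⟨h, hh⟩ := act_some W φ hxy
    rw [hh]
    simp only [s0, map_eq_zero]
    split_ifs
    · simp
    · simp only [map_div₀, map_neg, map_add, map_mul, map_ofNat]

theorem Dd_map (φ : Ω →ₐ[K] Ω') (α β γ : Ω) : Dd (φ α) (φ β) (φ γ) = φ (Dd α β γ) := by
  unfold Dd
  simp only [map_sub, map_add, map_mul, map_pow]

theorem Pp_map (φ : Ω →ₐ[K] Ω') (α β γ : Ω) : Pp (φ α) (φ β) (φ γ) = φ (Pp α β γ) := by
  unfold Pp
  rw [map_div₀, Dd_map]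
  simp only [map_sub, map_add, map_mul, map_pow, map_neg, map_ofNat]

theorem Qpt_map (φ : Ω →ₐ[K] Ω') (α β γ : Ω) : Qpt (φ α) (φ β) (φ γ) = φ (Qpt α β γ) := by
  unfold Qpt
  rw [map_div₀, Dd_map]
  simp only [map_sub, map_add, map_mul, map_pow, map_neg, map_ofNat]

theorem h0_act (W : WeierstrassCurve K) (φ : Ω →ₐ[K] Ω') (a b : Ω) (P : Pt W Ω) :
    h0 (φ a) (φ b) (act W φ P) = φ (h0 a b P) := by
  rcases P with _ | ⟨x, y, hxy⟩
  · rw [act_zero]; simp [h0]
  · obtain ⟨h, hh⟩ := act_some W φ hxy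
    rw [hh]
    have e3 : -φ a - φ y / φ x - φ b / φ x = φ (-a - y / x - b / x) := by
      simp only [map_sub, map_neg, map_div₀]
    have key : ∀ α β γ : Ω, T3.hh (φ α) (φ β) (φ γ) = φ (T3.hh α β γ) := by
      intro α β γ
      unfold T3.hh
      rw [Dd_map, Pp_map, Qpt_map]
      simp only [map_eq_zero]
      split_ifs <;> simp
    simp only [h0, map_eq_zero]
    split_ifs
    · simp
    · rw [e3, ← map_div₀, ← map_div₀, key]

theorem t1_act (W : WeierstrassCurve K) (φ : Ω →ₐ[K] Ω') (z a b : Ω) (P : Pt W Ω) :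
    t1 (φ z) (φ a) (φ b) (act W φ P) = φ (t1 z a b P) := by
  rcases P with _ | ⟨x, y, hxy⟩
  · rw [act_zero]; simp [t1]
  · obtain ⟨h, hh⟩ := act_some W φ hxy
    rw [hh]
    have e3 : -φ a - φ y / φ x - φ b / φ x = φ (-a - y / x - b / x) := by
      simp only [map_sub, map_neg, map_div₀]
    have e4 : φ y / φ x + φ z ^ 2 * (φ b / φ x) + φ z * (-φ a - φ y / φ x - φ b / φ x) =
        φ (y / x + z ^ 2 * (b / x) + z * (-a - y / x - b / x)) := by
      simp only [map_sub, map_neg, map_div₀, map_add, map_mul, map_pow]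
    have e5 : φ y / φ x + φ z * (φ b / φ x) + φ z ^ 2 * (-φ a - φ y / φ x - φ b / φ x) =
        φ (y / x + z * (b / x) + z ^ 2 * (-a - y / x - b / x)) := by
      simp only [map_sub, map_neg, map_div₀, map_add, map_mul, map_pow]
    simp only [t1]
    rw [e4, e5]
    simp only [map_eq_zero]
    split_ifs <;> simp

theorem three_act (W : WeierstrassCurve K) (φ : Ω →ₐ[K] Ω') {P : Pt W Ω} (h : P + P + P = 0) :
    act W φ P + act W φ P + act W φ P = 0 := by
  rw [← map_add, ← map_add, h, map_zero]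

variable (h3 : (3 : K) ≠ 0) (hb : b ≠ 0) (hd : a ^ 3 - 27 * b ≠ 0)

theorem pT_act (φ : Ω →ₐ[K] Ω') : act (crv3 a b) φ (pT (isE3 a b Ω h3 hb hd)) =
    pT (isE3 a b Ω' h3 hb hd) := by
  obtain ⟨h, hh⟩ := act_some (crv3 a b) φ
    ((isE3 a b Ω h3 hb hd).nonsingular.2 (by ring) :
      ((crv3 a b).baseChange Ω).toAffine.Nonsingular 0 0)
  unfold pT
  rw [hh]
  simp only [map_zero]

theorem InT_act (φ : Ω →ₐ[K] Ω') {P : Pt (crv3 a b) Ω} (hP : InT (isE3 a b Ω h3 hb hd) P) :
    InT (isE3 a b Ω' h3 hb hd) (act (crv3 a b) φ P) := by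
  rcases hP with rfl | rfl | rfl
  · left; rw [map_zero]
  · right; left; rw [pT_act h3 hb hd]
  · right; right; rw [map_neg, pT_act h3 hb hd]

/-- The multiples of `(0, 0)` are fixed. -/
theorem InT_fix (φ : Ω →ₐ[K] Ω) {P : Pt (crv3 a b) Ω} (hP : InT (isE3 a b Ω h3 hb hd) P) :
    act (crv3 a b) φ P = P := by
  rcases hP with rfl | rfl | rfl
  · rw [map_zero]
  · rw [pT_act h3 hb hd]
  · rw [map_neg, pT_act h3 hb hd]

theorem InT_of_act (φ : Ω →ₐ[K] Ω') {P : Pt (crv3 a b) Ω}
    (hP : InT (isE3 a b Ω' h3 hb hd) (act (crv3 a b) φ P)) : InT (isE3 a b Ω h3 hb hd) P := by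
  rcases hP with e | e | e
  · left
    apply act_inj (crv3 a b) φ
    rw [e, map_zero]
  · right; left
    apply act_inj (crv3 a b) φ
    rw [e, pT_act h3 hb hd]
  · right; right
    apply act_inj (crv3 a b) φ
    rw [e, map_neg, pT_act h3 hb hd]

end action

end Pool.Agent.Helper7K9.T3
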