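import Mathlib

/-!
Elliptic curves `y ^ 2 + a x y + b y = x ^ 3` with a point `(0, 0)` of order three: addition,
doubling and tripling.
-/

set_option autoImplicit false
set_option linter.all false

open WeierstrassCurve WeierstrassCurve.Affine
open scoped Classical

namespace Pool.Agent.Helper7K9.T3

section crv

variable {F : Type*} [Field F] {W : Affine F} {a b : F}

/-- `W` is the curve `y ^ 2 + a x y + b y = x ^ 3`. -/
structure IsE3 (W : Affine F) (a b : F) : Prop where
  a1 : W.a₁ = a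
  a2 : W.a₂ = 0
  a3 : W.a₃ = b
  a4 : W.a₄ = 0
  a6 : W.a₆ = 0
  three : (3 : F) ≠ 0
  nb : b ≠ 0
  nd : a ^ 3 - 27 * b ≠ 0

variable (h : IsE3 W a b)

include h

theorem IsE3.equation {x y : F} : W.Equation x y ↔ y ^ 2 + a * x * y + b * y = x ^ 3 := by
  rw [Affine.equation_iff, h.a1, h.a2, h.a3, h.a4, h.a6]
  constructor
  · intro e; linear_combination e
  · intro e; linear_combination e

theorem IsE3.disc : W.Δ ≠ 0 := by
  have e : W.Δ = b ^ 3 * (a ^ 3 - 27 * b) := by
    simp only [WeierstrassCurve.Δ, WeierstrassCurve.b₂, WeierstrassCurve.b₄, WeierstrassCurve.b₆,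
      WeierstrassCurve.b₈]
    rw [h.a1, h.a2, h.a3, h.a4, h.a6]
    ring
  rw [e]
  exact mul_ne_zero (pow_ne_zero 3 h.nb) h.nd

theorem IsE3.nonsingular {x y : F} : W.Nonsingular x y ↔
    y ^ 2 + a * x * y + b * y = x ^ 3 := by
  rw [← h.equation]
  exact (Affine.equation_iff_nonsingular_of_Δ_ne_zero h.disc).symm

theorem IsE3.negY (x y : F) : W.negY x y = -y - a * x - b := by
  rw [Affine.negY, h.a1, h.a3]

theorem IsE3.neg_some {x y : F} (hP : W.Nonsingular x y) :
    ∃ hQ, -(Point.some x y hP) = Point.some x (-y - a * x - b) hQ := by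
  have e := h.negY x y
  have hQ : W.Nonsingular x (-y - a * x - b) := by
    rw [h.nonsingular] at hP ⊢
    linear_combination hP
  refine ⟨hQ, ?_⟩
  rw [Point.neg_some]
  simp only [e]

/-- Three points on a line: two points with different abscissas. -/
theorem IsE3.add_line {x1 y1 x2 y2 x3 y3 m : F} (h1 : W.Nonsingular x1 y1)
    (h2 : W.Nonsingular x2 y2) (hx : x1 ≠ x2) (hm : y1 - y2 = m * (x1 - x2))
    (e1 : x1 + x2 + x3 = m ^ 2 + a * m) (e2 : y3 = -(m * (x3 - x1) + y1) - a * x3 - b) :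
    ∃ h3, Point.some x1 y1 h1 + Point.some x2 y2 h2 = Point.some x3 y3 h3 := by
  have hxy : ¬(x1 = x2 ∧ y1 = W.negY x2 y2) := fun hh => hx hh.1
  have hs : W.slope x1 x2 y1 y2 = m := by
    rw [Affine.slope_of_X_ne hx, hm]
    field_simp [sub_ne_zero.2 hx]
  have hX : W.addX x1 x2 (W.slope x1 x2 y1 y2) = x3 := by
    rw [hs, Affine.addX, h.a1, h.a2]
    linear_combination -e1
  have hY : W.addY x1 x2 y1 (W.slope x1 x2 y1 y2) = y3 := by
    rw [Affine.addY, Affine.negAddY, h.negY, hX, hs, e2]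
  have h3 := W.nonsingular_add h1 h2 hxy
  rw [hX, hY] at h3
  refine ⟨h3, ?_⟩
  rw [Point.add_some hxy]
  simp only [hX, hY]

/-- Doubling. -/
theorem IsE3.dbl_line {x1 y1 x3 y3 m : F} (h1 : W.Nonsingular x1 y1)
    (hn : 2 * y1 + a * x1 + b ≠ 0) (hm : 3 * x1 ^ 2 - a * y1 = m * (2 * y1 + a * x1 + b))
    (e1 : x1 + x1 + x3 = m ^ 2 + a * m) (e2 : y3 = -(m * (x3 - x1) + y1) - a * x3 - b) :
    ∃ h3, Point.some x1 y1 h1 + Point.some x1 y1 h1 = Point.some x3 y3 h3 := by
  have hy : y1 ≠ W.negY x1 y1 := by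
    rw [h.negY]
    intro hh
    apply hn
    linear_combination hh
  have hxy : ¬(x1 = x1 ∧ y1 = W.negY x1 y1) := fun hh => hy hh.2
  have hs : W.slope x1 x1 y1 y1 = m := by
    rw [Affine.slope_of_Y_ne rfl hy, h.negY, h.a1, h.a2, h.a4]
    have e : y1 - (-y1 - a * x1 - b) = 2 * y1 + a * x1 + b := by ring
    rw [e, div_eq_iff hn, ← hm]
    ring
  have hX : W.addX x1 x1 (W.slope x1 x1 y1 y1) = x3 := by
    rw [hs, Affine.addX, h.a1, h.a2]
    linear_combination -e1
  have hY : W.addY x1 x1 y1 (W.slope x1 x1 y1 y1) = y3 := by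
    rw [Affine.addY, Affine.negAddY, h.negY, hX, hs, e2]
  have h3 := W.nonsingular_add h1 h1 hxy
  rw [hX, hY] at h3
  refine ⟨h3, ?_⟩
  rw [Point.add_some hxy]
  simp only [hX, hY]

/-- The point `(0, 0)`. -/
noncomputable def pT : W.Point := Point.some 0 0 (h.nonsingular.2 (by ring))

theorem pT_ne : pT h ≠ 0 := Point.some_ne_zero _

theorem neg_pT : ∃ hQ, -(pT h) = Point.some 0 (-b) hQ := by
  obtain ⟨hQ, e⟩ := h.neg_some (h.nonsingular.2 (by ring) : W.Nonsingular 0 0)
  have e3 : -(0 : F) - a * 0 - b = -b := by ring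
  rw [e3] at hQ
  refine ⟨hQ, ?_⟩
  rw [pT, e]
  simp only [e3]

/-- The point with the coordinates `α = y / x`, `β = b / x`, `γ = - x ^ 2 / y`. -/
noncomputable def pt {α β γ : F} (h1 : α + β + γ = -a) (h2 : α * β * γ = -b) : W.Point :=
  Point.some (-(α * γ)) (-(α ^ 2 * γ)) (h.nonsingular.2 (by
    have ha : a = -(α + β + γ) := by linear_combination h1
    have hb : b = -(α * β * γ) := by linear_combination h2
    rw [ha, hb]; ring))

omit h in
theorem th_ne {α β γ : F} (hb : b ≠ 0) (h2 : α * β * γ = -b) : α ≠ 0 ∧ β ≠ 0 ∧ γ ≠ 0 := by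
  have h3 : α * β * γ ≠ 0 := by rw [h2]; exact neg_ne_zero.2 hb
  exact ⟨left_ne_zero_of_mul (left_ne_zero_of_mul h3), right_ne_zero_of_mul (left_ne_zero_of_mul h3),
    right_ne_zero_of_mul h3⟩

omit h in
theorem cyc1 {α β γ : F} (h1 : α + β + γ = -a) : β + γ + α = -a := by linear_combination h1
omit h in
theorem cyc2 {α β γ : F} (h2 : α * β * γ = -b) : β * γ * α = -b := by linear_combination h2
omit h in
theorem rev1 {α β γ : F} (h1 : α + β + γ = -a) : γ + β + α = -a := by linear_combination h1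
omit h in
theorem rev2 {α β γ : F} (h2 : α * β * γ = -b) : γ * β * α = -b := by linear_combination h2

theorem pt_congr {α β γ α' β' γ' : F} (h1 : α + β + γ = -a) (h2 : α * β * γ = -b)
    (h1' : α' + β' + γ' = -a) (h2' : α' * β' * γ' = -b) (e1 : α = α') (e2 : γ = γ') :
    pt h h1 h2 = pt h h1' h2' := by
  subst e1 e2
  rfl

theorem neg_pt {α β γ : F} (h1 : α + β + γ = -a) (h2 : α * β * γ = -b) :
    -(pt h h1 h2) = pt h (rev1 h1) (rev2 h2) := by
  unfold pt
  obtain ⟨hQ, e⟩ := h.neg_some (h.nonsingular.2 (by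
    have ha : a = -(α + β + γ) := by linear_combination h1
    have hb : b = -(α * β * γ) := by linear_combination h2
    rw [ha, hb]; ring) : W.Nonsingular (-(α * γ)) (-(α ^ 2 * γ)))
  rw [e]
  have e1 : -(α * γ) = -(γ * α) := by ring
  have e2 : - -(α ^ 2 * γ) - a * (-(α * γ)) - b = -(γ ^ 2 * α) := by
    linear_combination (α * γ) * h1 - h2
  simp only [e2]
  simp only [e1]

theorem pt_add_pT {α β γ : F} (h1 : α + β + γ = -a) (h2 : α * β * γ = -b) :
    pt h h1 h2 + pT h = pt h (cyc1 h1) (cyc2 h2) := by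
  obtain ⟨hα, hβ, hγ⟩ := th_ne h.nb h2
  have hx : -(α * γ) ≠ 0 := neg_ne_zero.2 (mul_ne_zero hα hγ)
  unfold pt pT
  obtain ⟨h3, e⟩ := h.add_line (x3 := -(β * α)) (y3 := -(β ^ 2 * α)) (m := α)
    (h.nonsingular.2 (by
      have ha : a = -(α + β + γ) := by linear_combination h1
      have hb : b = -(α * β * γ) := by linear_combination h2
      rw [ha, hb]; ring) : W.Nonsingular (-(α * γ)) (-(α ^ 2 * γ)))
    (h.nonsingular.2 (by ring) : W.Nonsingular 0 0) hx (by ring)
    (by linear_combination -α * h1) (by linear_combination -(α * β) * h1 + h2)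
  exact e

theorem pt_sub_pT {α β γ : F} (h1 : α + β + γ = -a) (h2 : α * β * γ = -b) :
    pt h h1 h2 - pT h = pt h (cyc1 (cyc1 h1)) (cyc2 (cyc2 h2)) := by
  rw [sub_eq_iff_eq_add, pt_add_pT]

theorem three_pT : pT h + pT h + pT h = 0 := by
  have h0 : W.Nonsingular 0 0 := h.nonsingular.2 (by ring)
  obtain ⟨h3, e⟩ := h.dbl_line (x3 := 0) (y3 := -b) (m := 0) h0
    (by simpa using h.nb) (by ring) (by ring) (by ring)
  obtain ⟨hQ, e'⟩ := neg_pT h
  have : pT h + pT h = -(pT h) := by
    rw [e']; exact e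
  rw [this]
  exact neg_add_cancel _

/-- Every point outside of the group generated by `(0, 0)` has coordinates `α`, `β`, `γ`. -/
theorem exists_pt (P : W.Point) : P = 0 ∨ P = pT h ∨ P = -(pT h) ∨
    ∃ (α β γ : F) (h1 : α + β + γ = -a) (h2 : α * β * γ = -b), P = pt h h1 h2 := by
  rcases P with _ | ⟨x, y, hxy⟩
  · exact Or.inl rfl
  · right
    have heq := h.nonsingular.1 hxy
    by_cases hx : x = 0
    · subst hx
      have h3 : y * (y + b) = 0 := by linear_combination heq
      rcases mul_eq_zero.1 h3 with h4 | h4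
      · left
        subst h4
        rfl
      · right; left
        obtain ⟨hQ, e⟩ := neg_pT h
        rw [e]
        have : y = -b := by linear_combination h4
        subst this
        rfl
    · right; right
      have hy : y ≠ 0 := by
        rintro rfl
        apply hx
        have : x ^ 3 = 0 := by linear_combination -heq
        exact pow_eq_zero_iff (by norm_num) |>.1 this
      have h1 : y / x + b / x + -(x ^ 2 / y) = -a := by
        field_simp
        linear_combination heq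
      have h2 : y / x * (b / x) * -(x ^ 2 / y) = -b := by
        field_simp
      refine ⟨y / x, b / x, -(x ^ 2 / y), h1, h2, ?_⟩
      unfold pt
      have e1 : -(y / x * -(x ^ 2 / y)) = x := by field_simp
      have e2 : -((y / x) ^ 2 * -(x ^ 2 / y)) = y := by field_simp
      simp only [e1, e2]

/-- The symmetric function which vanishes at the points of order three. -/
def Dd (α β γ : F) : F := α ^ 2 + β ^ 2 + γ ^ 2 - α * β - β * γ - γ * α

/-- The cube root of the ordinate of the triple. -/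
noncomputable def Pp (α β γ : F) : F :=
  -(α * β ^ 2 + β * γ ^ 2 + γ * α ^ 2 - 3 * α * β * γ) / Dd α β γ

/-- The abscissa of the triple is `Pp * Qpt`. -/
noncomputable def Qpt (α β γ : F) : F :=
  (α ^ 2 * β + β ^ 2 * γ + γ ^ 2 * α - 3 * α * β * γ) / Dd α β γ

theorem dbl_pt {α β γ : F} (h1 : α + β + γ = -a) (h2 : α * β * γ = -b) (hne : γ - α ≠ 0) :
    ∃ h3, pt h h1 h2 + pt h h1 h2 = Point.some (α * γ * (β - α) * (β - γ) / (γ - α) ^ 2)
      (α * γ ^ 2 * (β - α) ^ 3 / (γ - α) ^ 3) h3 := by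
  obtain ⟨hα, hβ, hγ⟩ := th_ne h.nb h2
  have ha : a = -(α + β + γ) := by linear_combination h1
  have hb : b = -(α * β * γ) := by linear_combination h2
  unfold pt
  refine h.dbl_line (m := α * (2 * γ - α - β) / (γ - α)) _ ?_ ?_ ?_ ?_
  · have e : 2 * -(α ^ 2 * γ) + a * -(α * γ) + b = α * γ * (γ - α) := by
      rw [ha, hb]; ring
    rw [e]
    exact mul_ne_zero (mul_ne_zero hα hγ) hne
  · rw [ha, hb]
    field_simp
    ring
  · rw [ha]
    field_simp
    ring
  · rw [ha, hb]
    field_simp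
    ring

omit h in
theorem pq_rel {α β γ : F} (hD : Dd α β γ ≠ 0) : Pp α β γ ^ 3 - Qpt α β γ ^ 3 -
    (α + β + γ) * Pp α β γ * Qpt α β γ - α * β * γ = 0 := by
  unfold Pp Qpt
  rw [div_pow, div_pow]
  field_simp
  unfold Dd
  ring

/-- The triple of a point. -/
theorem triple_pt {α β γ : F} (h1 : α + β + γ = -a) (h2 : α * β * γ = -b)
    (hD : Dd α β γ ≠ 0) : ∃ h3, pt h h1 h2 + pt h h1 h2 + pt h h1 h2 =
      Point.some (Pp α β γ * Qpt α β γ) (Pp α β γ ^ 3) h3 := by
  obtain ⟨hα, hβ, hγ⟩ := th_ne h.nb h2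
  have ha : a = -(α + β + γ) := by linear_combination h1
  have hb : b = -(α * β * γ) := by linear_combination h2
  by_cases hne : γ - α = 0
  · have hγα : γ = α := sub_eq_zero.1 hne
    subst hγα
    have e : pt h h1 h2 + pt h h1 h2 = 0 := by
      have := neg_pt h h1 h2
      rw [add_eq_zero_iff_eq_neg, this]
    rw [e, zero_add]
    have e3 : Dd γ β γ = (γ - β) ^ 2 := by unfold Dd; ring
    rw [e3] at hD
    have hγβ : γ - β ≠ 0 := fun h' => hD (by rw [h']; ring)
    have eP : Pp γ β γ = -γ := by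
      unfold Pp
      rw [e3]
      field_simp
      ring
    have eQ : Qpt γ β γ = γ := by
      unfold Qpt
      rw [e3]
      field_simp
      ring
    have e5 : Pp γ β γ * Qpt γ β γ = -(γ * γ) := by rw [eP, eQ]; ring
    have e6 : Pp γ β γ ^ 3 = -(γ ^ 2 * γ) := by rw [eP]; ring
    rw [e5, e6]
    exact ⟨_, rfl⟩
  · obtain ⟨h3, e⟩ := dbl_pt h h1 h2 hne
    rw [e]
    unfold pt
    have hx : α * γ * (β - α) * (β - γ) / (γ - α) ^ 2 - -(α * γ) =
        α * γ * Dd α β γ / (γ - α) ^ 2 := by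
      unfold Dd
      field_simp
      ring
    have hx' : α * γ * Dd α β γ / (γ - α) ^ 2 ≠ 0 :=
      div_ne_zero (mul_ne_zero (mul_ne_zero hα hγ) hD) (pow_ne_zero 2 hne)
    refine h.add_line (m := (γ * (β - α) ^ 3 + α * (γ - α) ^ 3) / ((γ - α) * Dd α β γ)) _ _ ?_ ?_
      ?_ ?_
    · intro h'
      apply hx'
      rw [← hx, h', sub_self]
    · rw [hx]
      field_simp
      ring
    · rw [ha]
      unfold Pp Qpt
      rw [div_mul_div_comm]
      field_simp
      unfold Dd
      ring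
    · rw [ha, hb]
      unfold Pp Qpt
      field_simp
      unfold Dd
      ring

end crv

end Pool.Agent.Helper7K9.T3
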