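import Pool.Agent.Helper7K9.T3.Inv

/-!
The isogenous curve: points of `E` which come from its points.
-/

set_option autoImplicit false
set_option linter.all false

open WeierstrassCurve WeierstrassCurve.Affine
open scoped Classical

namespace Pool.Agent.Helper7K9.T3

open Pool.Agent.TH115.GD (Pt act incl rs ak IsCoc LocTriv act_zero act_some act_inj act_act
  fixed_point)

universe u

section trig

variable {F : Type*} [Field F] {W : Affine F} {a b : F} (h : IsE3 W a b) {z : F}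
  (hz : z ^ 2 + z + 1 = 0)

include h hz in
theorem uv1 {u w : F} : (-a + u + w) / 3 + (-a + z * u + z ^ 2 * w) / 3 +
    (-a + z ^ 2 * u + z * w) / 3 = -a := by
  have h3 := h.three
  field_simp
  linear_combination (u + w) * hz

include h hz in
theorem uv2 {u w : F} (huw : u ^ 3 + w ^ 3 + 3 * a * (u * w) = a ^ 3 - 27 * b) :
    (-a + u + w) / 3 * ((-a + z * u + z ^ 2 * w) / 3) * ((-a + z ^ 2 * u + z * w) / 3) = -b := by
  have h3 := h.three
  have e := norm3 hz (-a) u w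
  have e2 : (-a + u + w) * (-a + z * u + z ^ 2 * w) * (-a + z ^ 2 * u + z * w) = -(27 * b) := by
    rw [e]; linear_combination huw
  have h27 : (27 : F) ≠ 0 := by
    have : (27 : F) = 3 ^ 3 := by norm_num
    rw [this]; exact pow_ne_zero 3 h3
  apply mul_left_cancel₀ h27
  have : 27 * ((-a + u + w) / 3 * ((-a + z * u + z ^ 2 * w) / 3) * ((-a + z ^ 2 * u + z * w) / 3)) =
    (-a + u + w) * (-a + z * u + z ^ 2 * w) * (-a + z ^ 2 * u + z * w) := by
    field_simp
    ring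
  rw [this, e2]
  ring

/-- The point with given `u`, `w`. -/
noncomputable def PT {u w : F} (huw : u ^ 3 + w ^ 3 + 3 * a * (u * w) = a ^ 3 - 27 * b) : W.Point :=
  pt h (uv1 h hz (u := u) (w := w)) (uv2 h hz huw)

theorem PT_congr {u w u' w' : F} (huw : u ^ 3 + w ^ 3 + 3 * a * (u * w) = a ^ 3 - 27 * b)
    (huw' : u' ^ 3 + w' ^ 3 + 3 * a * (u' * w') = a ^ 3 - 27 * b) (e1 : u = u') (e2 : w = w') :
    PT h hz huw = PT h hz huw' := by
  subst e1 e2
  rfl

theorem PT_rot {u w : F} (huw : u ^ 3 + w ^ 3 + 3 * a * (u * w) = a ^ 3 - 27 * b) :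
    ∃ huw' : (z * u) ^ 3 + (z ^ 2 * w) ^ 3 + 3 * a * ((z * u) * (z ^ 2 * w)) = a ^ 3 - 27 * b,
      PT h hz huw' = PT h hz huw + pT h := by
  have hz3 := z_cube hz
  have e : (z * u) ^ 3 + (z ^ 2 * w) ^ 3 + 3 * a * ((z * u) * (z ^ 2 * w)) = a ^ 3 - 27 * b := by
    linear_combination huw + (u ^ 3 + (z ^ 3 + 1) * w ^ 3 + 3 * a * u * w) * hz3
  refine ⟨e, ?_⟩
  unfold PT
  rw [pt_add_pT]
  refine pt_congr h _ _ _ _ (by ring) ?_
  linear_combination (w / 3 + u / 3) * hz3

theorem PT_rot_all {u w u' w' ζ : F} (huw : u ^ 3 + w ^ 3 + 3 * a * (u * w) = a ^ 3 - 27 * b)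
    (huw' : u' ^ 3 + w' ^ 3 + 3 * a * (u' * w') = a ^ 3 - 27 * b)
    (hζ : ζ = 1 ∨ ζ = z ∨ ζ = z ^ 2) (e1 : u' = ζ * u) (e2 : w' = ζ ^ 2 * w) :
    InT h (PT h hz huw' - PT h hz huw) ∧ ch z (PT h hz huw' - PT h hz huw) = ζ := by
  have hz3 := z_cube hz
  rcases hζ with rfl | rfl | rfl
  · have e := PT_congr h hz huw' huw (by rw [e1]; ring) (by rw [e2]; ring)
    rw [e, sub_self]
    exact ⟨Or.inl rfl, rfl⟩
  · obtain ⟨q1, q2⟩ := PT_rot h hz huw
    have e := PT_congr h hz huw' q1 e1 e2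
    have e3 : PT h hz huw' - PT h hz huw = pT h := by rw [e, q2]; abel
    rw [e3, ch_pT]
    exact ⟨Or.inr (Or.inl rfl), rfl⟩
  · obtain ⟨q1, q2⟩ := PT_rot h hz huw
    obtain ⟨q3, q4⟩ := PT_rot h hz q1
    have e := PT_congr h hz huw' q3 (by rw [e1]; ring)
      (by rw [e2]; ring)
    have e3 : PT h hz huw' - PT h hz huw = -(pT h) := by
      rw [e, q4, q2, ← dbl_pT]; abel
    rw [e3, ch_neg_pT]
    exact ⟨Or.inr (Or.inr rfl), rfl⟩

theorem PT_tor {u w : F} (huw : u ^ 3 + w ^ 3 + 3 * a * (u * w) = a ^ 3 - 27 * b) (h0 : w = 0) :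
    PT h hz huw + PT h hz huw + PT h hz huw = 0 := by
  unfold PT
  rw [triple_iff]
  unfold Dd
  have h3 := h.three
  subst h0
  field_simp
  linear_combination (u ^ 2 * (z ^ 2 - z + 1) - u ^ 2 * z + 0 * a) * hz

end trig

section act

variable {K Ω : Type u} [Field K] [Field Ω] [Algebra K Ω] {a b : K} (h3 : (3 : K) ≠ 0)
  (hb : b ≠ 0) (hd : a ^ 3 - 27 * b ≠ 0) {z : Ω} (hz : z ^ 2 + z + 1 = 0)

/-- The image of a point with given `u`, `w`. -/
theorem act_PT (φ : Ω →ₐ[K] Ω) (hφ : φ z = z ∨ φ z = z ^ 2) {u w : Ω}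
    (huw : u ^ 3 + w ^ 3 + 3 * algebraMap K Ω a * (u * w) =
      algebraMap K Ω a ^ 3 - 27 * algebraMap K Ω b) :
    ∃ (u' w' : Ω) (huw' : u' ^ 3 + w' ^ 3 + 3 * algebraMap K Ω a * (u' * w') =
      algebraMap K Ω a ^ 3 - 27 * algebraMap K Ω b),
      act (crv3 a b) φ (PT (isE3 a b Ω h3 hb hd) hz huw) = PT (isE3 a b Ω h3 hb hd) hz huw' ∧
      ((φ z = z ∧ u' = φ u ∧ w' = φ w) ∨ (φ z = z ^ 2 ∧ u' = φ w ∧ w' = φ u)) := by
  have h := isE3 a b Ω h3 hb hd
  have hz3 := z_cube hz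
  have huw1 : φ u ^ 3 + φ w ^ 3 + 3 * algebraMap K Ω a * (φ u * φ w) =
      algebraMap K Ω a ^ 3 - 27 * algebraMap K Ω b := by
    have := congrArg φ huw
    simp only [map_add, map_sub, map_mul, map_pow, map_ofNat, φ.commutes] at this
    exact this
  have key : ∀ (x y : Ω) (hxy : ((crv3 a b).baseChange Ω).toAffine.Nonsingular x y),
      ∃ hxy', act (crv3 a b) φ (Point.some x y hxy) = Point.some (φ x) (φ y) hxy' :=
    fun x y hxy => act_some (crv3 a b) φ hxy
  rcases hφ with e | e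
  · refine ⟨φ u, φ w, huw1, ?_, Or.inl ⟨e, rfl, rfl⟩⟩
    unfold PT pt
    obtain ⟨hxy', e'⟩ := key _ _ _
    rw [e']
    simp only [map_neg, map_mul, map_pow, map_div₀, map_add, map_ofNat, φ.commutes, e]
  · refine ⟨φ w, φ u, by linear_combination huw1, ?_, Or.inr ⟨e, rfl, rfl⟩⟩
    unfold PT pt
    obtain ⟨hxy', e'⟩ := key _ _ _
    rw [e']
    have e1 : (-algebraMap K Ω a + (z ^ 2) ^ 2 * φ u + z ^ 2 * φ w) / 3 =
        (-algebraMap K Ω a + z ^ 2 * φ w + z * φ u) / 3 := by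
      linear_combination (z * φ u / 3) * hz3
    have e2 : -algebraMap K Ω a + φ u + φ w = -algebraMap K Ω a + φ w + φ u := by ring
    simp only [map_neg, map_mul, map_pow, map_div₀, map_add, map_ofNat, φ.commutes, e, e1, e2]

include h3 hb hd hz in
/-- The preimage of a point of the isogenous curve. -/
theorem lift_dual (h3r : ∀ x : Ω, ∃ y, y ^ 3 = x) (Q : Pt (dual3 a b) K)
    (hQ : dD z a b Q ≠ 0) :
    ∃ (H : Pt (crv3 a b) Ω) (t : Ω), t ≠ 0 ∧ t ^ 3 = dD z a b Q ∧
      ∀ φ : Ω →ₐ[K] Ω, InT (isE3 a b Ω h3 hb hd) (act (crv3 a b) φ H - H) ∧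
        (φ z = z → φ t = ch z (act (crv3 a b) φ H - H) * t) := by
  have h := isE3 a b Ω h3 hb hd
  have hz3 := z_cube hz
  rcases Q with _ | ⟨x, y, hxy⟩
  · refine ⟨0, 1, one_ne_zero, ?_, fun φ => ?_⟩
    · rw [one_pow]; rfl
    · rw [map_zero, sub_zero]
      refine ⟨Or.inl rfl, fun _ => ?_⟩
      rw [map_one]
      show _ = 1 * _
      rw [one_mul]
  · have heq : y ^ 2 + a * x * y + b * y = x ^ 3 - 5 * a * b * x - a ^ 3 * b - 7 * b ^ 2 := by
      have h1 := hxy.1
      rw [Affine.equation_iff] at h1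
      have e1 : ((dual3 a b).baseChange K).toAffine.a₁ = a := rfl
      have e2 : ((dual3 a b).baseChange K).toAffine.a₂ = 0 := rfl
      have e3 : ((dual3 a b).baseChange K).toAffine.a₃ = b := rfl
      have e4 : ((dual3 a b).baseChange K).toAffine.a₄ = -5 * a * b := rfl
      have e6 : ((dual3 a b).baseChange K).toAffine.a₆ = -(a ^ 3 * b) - 7 * b ^ 2 := rfl
      rw [e1, e2, e3, e4, e6] at h1
      linear_combination h1
    set A := algebraMap K Ω a with hA
    set B := algebraMap K Ω b with hB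
    set p := algebraMap K Ω (3 * y - 3 * a * x - a ^ 3 - 12 * b) with hp
    set q := algebraMap K Ω (3 * (2 * y + a * x + b)) with hq
    set D := algebraMap K Ω (a ^ 2 + 3 * x) with hD
    have hY : dD z a b (Point.some x y hxy) = p + z * q := rfl
    rw [hY] at hQ ⊢
    have r1 : p ^ 2 - p * q + q ^ 2 = D ^ 3 := by
      rw [hp, hq, hD, ← map_pow, ← map_pow, ← map_pow, ← map_mul, ← map_sub, ← map_add]
      congr 1
      linear_combination 27 * heq
    have r2 : 2 * p - q = A ^ 3 - 27 * B - 3 * A * D := by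
      rw [hp, hq, hD, hA, hB]
      simp only [map_add, map_sub, map_mul, map_pow, map_ofNat]
      ring
    have r3 : (p + z * q) * (p - q - z * q) = D ^ 3 := by
      linear_combination r1 - q ^ 2 * hz
    obtain ⟨u, hu⟩ := h3r (p + z * q)
    have hu0 : u ≠ 0 := by
      rintro rfl
      rw [zero_pow (by norm_num)] at hu
      exact hQ hu.symm
    obtain ⟨w, hw⟩ : ∃ w, w = D / u := ⟨_, rfl⟩
    have huw0 : u * w = D := by rw [hw]; field_simp
    have hw3 : w ^ 3 = p - q - z * q := by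
      have : u ^ 3 * w ^ 3 = u ^ 3 * (p - q - z * q) := by
        rw [← mul_pow, huw0, hu, r3]
      exact mul_left_cancel₀ (pow_ne_zero 3 hu0) this
    have huw : u ^ 3 + w ^ 3 + 3 * A * (u * w) = A ^ 3 - 27 * B := by
      rw [hu, hw3, huw0]
      linear_combination r2
    refine ⟨PT h hz huw, u, hu0, hu, fun φ => ?_⟩
    have hφz : φ z = z ∨ φ z = z ^ 2 := by
      have h4 : (φ z - z) * (φ z - z ^ 2) = 0 := by
        have h5 : (φ z) ^ 2 + φ z + 1 = 0 := by
          rw [← map_pow, ← map_add, ← map_one φ, ← map_add, hz, map_zero]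
        linear_combination h5 - (φ z) * hz + (z - 1) * hz
      rcases mul_eq_zero.1 h4 with h6 | h6
      · exact Or.inl (sub_eq_zero.1 h6)
      · exact Or.inr (sub_eq_zero.1 h6)
    have hφp : φ p = p := φ.commutes _
    have hφq : φ q = q := φ.commutes _
    have hφD : φ D = D := φ.commutes _
    have hprod : φ u * φ w = u * w := by rw [← map_mul, huw0, hφD]
    have root3 : ∀ s t : Ω, t ≠ 0 → s ^ 3 = t ^ 3 → ∃ ζ : Ω, (ζ = 1 ∨ ζ = z ∨ ζ = z ^ 2) ∧
        ζ ^ 3 = 1 ∧ s = ζ * t := by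
      intro s t ht hst
      have h5 : (s / t) ^ 3 = 1 := by
        rw [div_pow, hst]
        exact div_self (pow_ne_zero 3 ht)
      refine ⟨s / t, ?_, h5, (div_mul_cancel₀ s ht).symm⟩
      have h6 : (s / t - 1) * ((s / t - z) * (s / t - z ^ 2)) = 0 := by
        have : (s / t - 1) * ((s / t - z) * (s / t - z ^ 2)) = (s / t) ^ 3 - 1 := by
          linear_combination (-((s / t) ^ 2) + (s / t) * z - z + 1) * hz
        rw [this, h5, sub_self]
      rcases mul_eq_zero.1 h6 with h7 | h7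
      · exact Or.inl (sub_eq_zero.1 h7)
      · rcases mul_eq_zero.1 h7 with h8 | h8
        · exact Or.inr (Or.inl (sub_eq_zero.1 h8))
        · exact Or.inr (Or.inr (sub_eq_zero.1 h8))
    have hwz : φ w = D / φ u := by rw [hw, map_div₀, hφD]
    have hφu0 : φ u ≠ 0 := (map_ne_zero φ).2 hu0
    obtain ⟨u', w', huw', eact, hc⟩ := act_PT h3 hb hd hz φ hφz huw
    rw [eact]
    rcases hc with ⟨e, e1, e2⟩ | ⟨e, e1, e2⟩
    · obtain ⟨ζ, hζ, hζ3, e3⟩ := root3 (φ u) u hu0 (by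
        rw [← map_pow, hu, map_add, map_mul, hφp, hφq, e])
      have hζ0 : ζ ≠ 0 := by
        rintro rfl
        norm_num at hζ3
      have e4 : w' = ζ ^ 2 * w := by
        rw [e2, hwz, e3, hw]
        field_simp
        linear_combination (-D) * hζ3
      obtain ⟨g1, g2⟩ := PT_rot_all h hz huw huw' hζ (e1.trans e3) e4
      exact ⟨g1, fun _ => by rw [g2, e3]⟩
    · have hzne : z ^ 2 ≠ z := by
        intro e'
        have : z * (z - 1) = 0 := by linear_combination e'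
        rcases mul_eq_zero.1 this with h6 | h6
        · exact z_ne hz h6
        · exact z_ne_one h hz (sub_eq_zero.1 h6)
      refine ⟨?_, fun h' => absurd (e.symm.trans h') hzne⟩
      have hu'3 : u' ^ 3 = u ^ 3 := by
        rw [e1, ← map_pow, hw3, hu, map_sub, map_sub, map_mul, hφp, hφq, e]
        linear_combination (-q) * hz
      obtain ⟨ζ, hζ, hζ3, e3⟩ := root3 u' u hu0 hu'3
      have hζ0 : ζ ≠ 0 := by
        rintro rfl
        norm_num at hζ3
      have e4 : w' = ζ ^ 2 * w := by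
        have e5 : u' * w' = u * w := by rw [e1, e2, mul_comm, hprod]
        rw [e3] at e5
        have e6 : ζ * u * (w' - ζ ^ 2 * w) = 0 := by
          linear_combination e5 - u * w * hζ3
        have e7 := (mul_eq_zero.1 e6).resolve_left (mul_ne_zero hζ0 hu0)
        exact sub_eq_zero.1 e7
      exact (PT_rot_all h hz huw huw' hζ e3 e4).1

include h3 hb hd hz in
/-- A point of order three outside of the group generated by `(0, 0)`. -/
theorem tor_gen (h3r : ∀ x : Ω, ∃ y, y ^ 3 = x) :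
    ∃ (R : Pt (crv3 a b) Ω) (t : Ω), t ≠ 0 ∧ t ^ 3 = algebraMap K Ω (a ^ 3 - 27 * b) ∧
      R + R + R = 0 ∧ ∀ φ : Ω →ₐ[K] Ω, φ z = z →
        InT (isE3 a b Ω h3 hb hd) (act (crv3 a b) φ R - R) ∧
          φ t = ch z (act (crv3 a b) φ R - R) * t := by
  have h := isE3 a b Ω h3 hb hd
  have hz3 := z_cube hz
  obtain ⟨u, hu⟩ := h3r (algebraMap K Ω (a ^ 3 - 27 * b))
  have hΔ : algebraMap K Ω (a ^ 3 - 27 * b) = algebraMap K Ω a ^ 3 - 27 * algebraMap K Ω b := by
    simp only [map_sub, map_pow, map_mul, map_ofNat]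
  have hu0 : u ≠ 0 := by
    rintro rfl
    rw [zero_pow (by norm_num), hΔ] at hu
    exact h.nd hu.symm
  have huw : u ^ 3 + 0 ^ 3 + 3 * algebraMap K Ω a * (u * 0) =
      algebraMap K Ω a ^ 3 - 27 * algebraMap K Ω b := by
    rw [hu, hΔ]; ring
  refine ⟨PT h hz huw, u, hu0, hu, PT_tor h hz huw rfl, fun φ hφ => ?_⟩
  obtain ⟨u', w', huw', eact, hc⟩ := act_PT h3 hb hd hz φ (Or.inl hφ) huw
  rw [eact]
  have hzne : z ≠ z ^ 2 := by
    intro e'
    have : z * (z - 1) = 0 := by linear_combination -e'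
    rcases mul_eq_zero.1 this with h6 | h6
    · exact z_ne hz h6
    · exact z_ne_one h hz (sub_eq_zero.1 h6)
  rcases hc with ⟨e, e1, e2⟩ | ⟨e, e1, e2⟩
  · have h5 : (φ u / u) ^ 3 = 1 := by
      rw [div_pow, ← map_pow, hu, φ.commutes, ← hu]
      exact div_self (pow_ne_zero 3 hu0)
    have hζ : φ u / u = 1 ∨ φ u / u = z ∨ φ u / u = z ^ 2 := by
      have h6 : (φ u / u - 1) * ((φ u / u - z) * (φ u / u - z ^ 2)) = 0 := by
        have : (φ u / u - 1) * ((φ u / u - z) * (φ u / u - z ^ 2)) = (φ u / u) ^ 3 - 1 := by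
          linear_combination (-((φ u / u) ^ 2) + (φ u / u) * z - z + 1) * hz
        rw [this, h5, sub_self]
      rcases mul_eq_zero.1 h6 with h7 | h7
      · exact Or.inl (sub_eq_zero.1 h7)
      · rcases mul_eq_zero.1 h7 with h8 | h8
        · exact Or.inr (Or.inl (sub_eq_zero.1 h8))
        · exact Or.inr (Or.inr (sub_eq_zero.1 h8))
    have e3 : φ u = φ u / u * u := (div_mul_cancel₀ _ hu0).symm
    obtain ⟨g1, g2⟩ := PT_rot_all h hz huw huw' hζ (e1.trans e3)
      (by rw [e2, map_zero, mul_zero])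
    exact ⟨g1, by rw [g2]; exact e3⟩
  · exact absurd (hφ.symm.trans e) hzne

end act

end Pool.Agent.Helper7K9.T3
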