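import Pool.Agent.Helper7K9.T3.Unb
import Pool.Agent.W309.RK.Exist

/-!
Existence of admissible polynomials.
-/

set_option autoImplicit false
set_option linter.all false

open Polynomial
open scoped Classical

namespace Pool.Agent.Helper7K9.T3

open Pool.Agent.W309.RK (exists_shift)

theorem exists_family3 (p : ℕ) [hp : Fact p.Prime] (f : ℕ) (hf : 1 ≤ f) :
    ∃ (k : Type) (_ : Field k) (_ : Finite k) (_ : CharP k p) (n : ℕ), 0 < n ∧
      Nat.card k = p ^ (2 * f * n) ∧ ∀ N : ℕ, ∃ h : k[X], N ≤ h.natDegree ∧ ¬ 3 ∣ h.natDegree ∧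
        Irreducible h ∧ ∀ z : k, z ^ (p ^ f + 1) = 1 → Irreducible (h - C z) := by
  classical
  obtain ⟨l, hl1, hl⟩ := Nat.exists_infinite_primes (p ^ f + 3)
  have hp2 := hp.out.two_le
  have hpf : p ≤ p ^ f := Nat.le_self_pow (by omega) p
  have hpl : p < l := by omega
  have hcop : p.Coprime l := (Nat.coprime_primes hp.out hl).2 hpl.ne
  have hn0 : 2 * f * (l - 1) ≠ 0 := by
    have : 1 ≤ l - 1 := by omega
    positivity
  refine ⟨GaloisField p (2 * f * (l - 1)), inferInstance, inferInstance, inferInstance, l - 1,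
    by omega, GaloisField.card p _ hn0, ?_⟩
  haveI : Fintype (GaloisField p (2 * f * (l - 1))) := Fintype.ofFinite _
  set k := GaloisField p (2 * f * (l - 1)) with hk
  have hcard : Fintype.card k = p ^ (2 * f * (l - 1)) := by
    rw [← Nat.card_eq_fintype_card]; exact GaloisField.card p _ hn0
  have hdvd : l ∣ Fintype.card k - 1 := by
    rw [hcard]
    haveI : Fact l.Prime := ⟨hl⟩
    have h1 : ((p ^ (2 * f)) ^ (l - 1) : ZMod l) = 1 := by
      apply ZMod.pow_card_sub_one_eq_one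
      apply pow_ne_zero
      intro h
      have h2 : ((p : ℕ) : ZMod l) = 0 := h
      rw [ZMod.natCast_eq_zero_iff] at h2
      have := Nat.le_of_dvd hp.out.pos h2
      omega
    have h3 : 1 ≤ p ^ (2 * f * (l - 1)) := Nat.one_le_pow _ _ hp.out.pos
    have h4 : ((p ^ (2 * f * (l - 1)) - 1 : ℕ) : ZMod l) = 0 := by
      rw [Nat.cast_sub h3, Nat.cast_pow, pow_mul, Nat.cast_one, h1, sub_self]
    exact (ZMod.natCast_eq_zero_iff _ _).1 h4
  have hq : (l - 1) ^ 2 < Fintype.card k := by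
    rw [hcard]
    have h1 : l - 1 < p ^ (l - 1) := Nat.lt_pow_self hp.out.one_lt
    calc (l - 1) ^ 2 < (p ^ (l - 1)) ^ 2 := Nat.pow_lt_pow_left h1 two_ne_zero
      _ = p ^ (2 * (l - 1)) := by rw [← pow_mul]; ring_nf
      _ ≤ p ^ (2 * f * (l - 1)) := by
        apply Nat.pow_le_pow_right hp.out.pos
        have : 2 * (l - 1) * 1 ≤ 2 * (l - 1) * f := Nat.mul_le_mul_left _ hf
        calc 2 * (l - 1) = 2 * (l - 1) * 1 := by ring
          _ ≤ 2 * (l - 1) * f := this
          _ = 2 * f * (l - 1) := by ring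
  set Z : Finset k := insert 0 (nthRootsFinset (p ^ f + 1) (1 : k)) with hZdef
  have hZ : Z.card + 1 ≤ l := by
    have h1 : Z.card ≤ (nthRootsFinset (p ^ f + 1) (1 : k)).card + 1 := Finset.card_insert_le _ _
    have h2 : (nthRootsFinset (p ^ f + 1) (1 : k)).card ≤ p ^ f + 1 := by
      unfold nthRootsFinset
      exact (Multiset.toFinset_card_le _).trans (card_nthRoots _ _)
    omega
  obtain ⟨c, hc⟩ := exists_shift (k := k) hl hdvd Z hZ hq
  intro N
  have hl2 : l ≠ 2 := by omega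
  refine ⟨X ^ l ^ N - C c, ?_, ?_, ?_, ?_⟩
  · rw [natDegree_X_pow_sub_C]
    exact (Nat.lt_pow_self hl.one_lt).le
  · rw [natDegree_X_pow_sub_C]
    intro h3
    have h4 := (Nat.prime_dvd_prime_iff_eq Nat.prime_three hl).1
      (Nat.prime_three.dvd_of_dvd_pow h3)
    omega
  · apply X_pow_sub_C_irreducible_of_prime_pow hl hl2
    intro b hb
    exact hc 0 (Finset.mem_insert_self _ _) b (by rw [hb, add_zero])
  · intro z hz
    have e : (X ^ l ^ N - C c - C z : k[X]) = X ^ l ^ N - C (c + z) := by rw [C_add]; ring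
    rw [e]
    apply X_pow_sub_C_irreducible_of_prime_pow hl hl2
    intro b hb
    exact hc z (Finset.mem_insert_of_mem ((mem_nthRootsFinset (by omega) 1).2 hz)) b hb

theorem exists_prim_root {p : ℕ} [hp : Fact p.Prime] {f n : ℕ} {k : Type} [Field k]
    [Finite k] (hcard : Nat.card k = p ^ (2 * f * n)) (hf : 0 < f) :
    ∃ ω : k, IsPrimitiveRoot ω ((p ^ f) ^ 2 - 1) := by
  classical
  haveI : Fintype k := Fintype.ofFinite k
  have hdvd : (p ^ f) ^ 2 - 1 ∣ Nat.card kˣ := by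
    rw [Nat.card_eq_fintype_card, Fintype.card_units, ← Nat.card_eq_fintype_card, hcard]
    have h1 : (p ^ f) ^ 2 = p ^ (2 * f) := by rw [← pow_mul, mul_comm]
    have h3 : p ^ (2 * f) - 1 ∣ (p ^ (2 * f)) ^ n - 1 ^ n := Nat.sub_dvd_pow_sub_pow (p ^ (2 * f)) 1 n
    rw [one_pow, ← pow_mul] at h3
    rw [h1]
    exact h3
  obtain ⟨g, hg⟩ := IsCyclic.exists_generator (α := kˣ)
  obtain ⟨r, hr⟩ := hdvd
  have hord : orderOf g = Nat.card kˣ := orderOf_eq_card_of_forall_mem_zpowers hg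
  have hpos : 0 < Nat.card kˣ := Nat.card_pos
  have h1 : IsPrimitiveRoot g (Nat.card kˣ) := by
    rw [← hord]
    exact IsPrimitiveRoot.orderOf g
  have h2 : IsPrimitiveRoot (g ^ r) ((p ^ f) ^ 2 - 1) := h1.pow hpos (by rw [hr]; ring)
  exact ⟨((g ^ r : kˣ) : k), (IsPrimitiveRoot.coe_units_iff).2 h2⟩

/-- Over suitable finite fields there are admissible `h` of arbitrarily large degree. -/
theorem exist3 {p ν : ℕ} [Fact p.Prime] (hν : 0 < ν) :
    ∃ (k : Type) (_ : Field k) (_ : Finite k) (_ : CharP k p) (ω : k),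
      IsPrimitiveRoot ω ((p ^ ν) ^ 2 - 1) ∧ ∀ N : ℕ, ∃ h : k[X], N ≤ h.natDegree ∧
        Admissible3 (p ^ ν) 1 h := by
  obtain ⟨k, i1, i2, i3, n, hn, hcard, H⟩ := exists_family3 p ν hν
  obtain ⟨ω, hω⟩ := exists_prim_root hcard hν
  refine ⟨k, i1, i2, i3, ω, hω, fun N => ?_⟩
  obtain ⟨h, h1, h2, h3, h5⟩ := H N
  haveI : PerfectField k := inferInstance
  refine ⟨h, h1, one_ne_zero, ?_, h2, ⟨h3, PerfectField.separable_of_irreducible h3⟩, ?_⟩
  · rw [natDegree_one, mul_zero]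
    exact h3.natDegree_pos
  · intro ζ hζ
    rw [one_pow, mul_one]
    exact ⟨h5 ζ hζ, PerfectField.separable_of_irreducible (h5 ζ hζ)⟩

theorem key_inf {κ : Type} [Field κ] (q : ℕ) {r : ℕ} (hr : r.Prime) (ζ : RatFunc κ)
    (hζ : ζ = 0 ∨ ζ ^ (q + 1) = 1) :
    RatFunc.X + ζ ≠ 0 ∧ ∀ b : RatFunc κ, b ^ r ≠ RatFunc.X + ζ := by
  have hX : RatFunc.inftyValuation κ (RatFunc.X : RatFunc κ) = WithZero.exp (1 : ℤ) :=
    RatFunc.inftyValuation.X κ
  have hlt : RatFunc.inftyValuation κ ζ < RatFunc.inftyValuation κ (RatFunc.X : RatFunc κ) := by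
    rw [hX]
    rcases hζ with rfl | h
    · rw [map_zero]
      exact WithZero.exp_pos
    · have h1 := congrArg (RatFunc.inftyValuation κ) h
      rw [map_pow, map_one] at h1
      have h3 : RatFunc.inftyValuation κ ζ = 1 := by
        rcases lt_trichotomy (RatFunc.inftyValuation κ ζ) 1 with h4 | h4 | h4
        · exact absurd h1 (pow_lt_one₀ zero_le' h4 (Nat.succ_ne_zero q)).ne
        · exact h4
        · exact absurd h1 (one_lt_pow₀ h4 (Nat.succ_ne_zero q)).ne'
      rw [h3, ← WithZero.exp_zero]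
      exact WithZero.exp_lt_exp.2 zero_lt_one
  have hval : RatFunc.inftyValuation κ (RatFunc.X + ζ) = WithZero.exp (1 : ℤ) := by
    rw [Valuation.map_add_eq_of_lt_left _ hlt, hX]
  have hne : RatFunc.X + ζ ≠ 0 := by
    intro h0
    rw [h0, map_zero] at hval
    exact WithZero.exp_ne_zero hval.symm
  refine ⟨hne, ?_⟩
  intro b hb
  have hb0 : b ≠ 0 := by
    rintro rfl
    rw [zero_pow hr.ne_zero] at hb
    exact hne hb.symm
  have v := congrArg (RatFunc.inftyValuation κ) hb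
  rw [hval, map_pow, RatFunc.inftyValuation_apply, RatFunc.inftyValuation_of_nonzero κ hb0,
    ← WithZero.exp_nsmul, WithZero.exp_inj, nsmul_eq_mul] at v
  have h1 : (r : ℤ) ∣ 1 := ⟨_, v.symm⟩
  have h3 := Int.eq_one_of_dvd_one (Int.natCast_nonneg r) h1
  exact hr.one_lt.ne' (by exact_mod_cast h3)

/-- The identification of a field of fractions of `κ[X]` with the rational functions. -/
noncomputable def idfr (κ k : Type) [Field κ] [Field k] [Algebra κ[X] k] [IsFractionRing κ[X] k] :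
    k ≃ₐ[κ[X]] RatFunc κ := IsLocalization.algEquiv (nonZeroDivisors κ[X]) k (RatFunc κ)

/-- Over `k = κ(s)`: `f = 1` and `h = t ^ r - s` for all primes `r ≠ 3, p`. -/
theorem exist_inf3 {p : ℕ} [Fact p.Prime] {κ k : Type} [Field κ] [CharP κ p] [Field k]
    [Algebra κ[X] k] [IsFractionRing κ[X] k] (q : ℕ) {r : ℕ}
    (hr : r.Prime) (hr3 : r ≠ 3) (hrp : r ≠ p) :
    Admissible3 q 1 (X ^ r - C (algebraMap κ[X] k X)) := by
  have hinj : Function.Injective ((algebraMap κ[X] k).comp C) := by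
    rw [RingHom.coe_comp]
    exact (IsFractionRing.injective κ[X] k).comp C_injective
  haveI : CharP k p := charP_of_injective_ringHom hinj p
  have hr0 : ((r : ℕ) : k) ≠ 0 := by
    rw [Ne, CharP.cast_eq_zero_iff k p]
    intro hd
    exact hrp ((Nat.prime_dvd_prime_iff_eq Fact.out hr).1 hd).symm
  have e : idfr κ k (algebraMap κ[X] k X) = RatFunc.X := by
    rw [AlgEquiv.commutes, RatFunc.algebraMap_X]
  have key : ∀ ζ : k, (ζ = 0 ∨ ζ ^ (q + 1) = 1) → algebraMap κ[X] k X + ζ ≠ 0 ∧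
      ∀ b : k, b ^ r ≠ algebraMap κ[X] k X + ζ := by
    intro ζ hζ
    obtain ⟨h1, h3⟩ := key_inf q hr (idfr κ k ζ) (by
      rcases hζ with rfl | h
      · left; exact map_zero _
      · right; rw [← map_pow, h, map_one])
    rw [← e, ← map_add] at h1 h3
    refine ⟨fun h0 => h1 (by rw [h0, map_zero]), fun b hb => h3 (idfr κ k b) ?_⟩
    rw [← map_pow, hb]
  have irr : ∀ ζ : k, (ζ = 0 ∨ ζ ^ (q + 1) = 1) →
      Irreducible (X ^ r - C (algebraMap κ[X] k X + ζ)) ∧
        (X ^ r - C (algebraMap κ[X] k X + ζ)).Separable := by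
    intro ζ hζ
    exact ⟨X_pow_sub_C_irreducible_of_prime hr (key ζ hζ).2,
      separable_X_pow_sub_C _ hr0 (key ζ hζ).1⟩
  have hz := irr 0 (Or.inl rfl)
  rw [add_zero] at hz
  refine ⟨one_ne_zero, ?_, ?_, hz, ?_⟩
  · rw [natDegree_one, mul_zero, natDegree_X_pow_sub_C]
    exact hr.pos
  · rw [natDegree_X_pow_sub_C]
    intro h3
    exact hr3 ((Nat.prime_dvd_prime_iff_eq Nat.prime_three hr).1 h3).symm
  · intro ζ hζ
    have e : X ^ r - C (algebraMap κ[X] k X) - C ζ * 1 ^ 3 =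
        (X ^ r - C (algebraMap κ[X] k X + ζ) : k[X]) := by
      rw [C_add]
      ring
    rw [e]
    exact irr ζ (Or.inr hζ)

end Pool.Agent.Helper7K9.T3
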