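import Pool.Agent.Helper7K9.T3.Main

/-!
Sufficient conditions in terms of the irreducible factors.
-/

set_option autoImplicit false
set_option linter.all false

open Polynomial IsDedekindDomain WeierstrassCurve WeierstrassCurve.Affine
open scoped Classical IntermediateField

namespace Pool.Agent.Helper7K9.T3

open Pool.Agent.TH115.GD (splits_of_sep splits_dvd rootMult_galois)

section stab

variable {k k' : Type} [Field k] [Field k'] [Algebra k k'] [IsGalois k k']

theorem stab_eq (θ : k') : MulAction.stabilizer (k' ≃ₐ[k] k') θ = (k⟮θ⟯).fixingSubgroup := by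
  ext s
  rw [MulAction.mem_stabilizer_iff, IntermediateField.mem_fixingSubgroup_iff]
  constructor
  · intro hs x hx
    have h1 : k⟮θ⟯ ≤ IntermediateField.fixedField (Subgroup.zpowers s) := by
      rw [IntermediateField.adjoin_simple_le_iff]
      rintro ⟨g, hg⟩
      have h2 : Subgroup.zpowers s ≤ MulAction.stabilizer (k' ≃ₐ[k] k') θ := by
        rw [Subgroup.zpowers_le]
        exact hs
      exact h2 hg
    exact (h1 hx) ⟨s, Subgroup.mem_zpowers s⟩
  · intro h
    exact h θ (IntermediateField.mem_adjoin_simple_self k θ)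

theorem stab_index (θ : k') :
    (MulAction.stabilizer (k' ≃ₐ[k] k') θ).index = (minpoly k θ).natDegree := by
  rw [stab_eq, ← IntermediateField.finrank_eq_fixingSubgroup_index,
    IntermediateField.adjoin.finrank (Algebra.IsIntegral.isIntegral θ)]

end stab

section root

variable {k k' : Type} [Field k] [Field k'] [Algebra k k'] [IsSepClosure k k']

theorem exists_root_irr {π : k[X]} (hπ : Irreducible π) (hs : π.Separable) :
    ∃ θ : k', (π.map (algebraMap k k')).IsRoot θ := by
  haveI : IsSepClosed k' := IsSepClosure.sep_closed k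
  have hdeg : (π.map (algebraMap k k')).degree ≠ 0 := by
    rw [degree_map]
    exact (Irreducible.degree_pos hπ).ne'
  exact IsSepClosed.exists_root _ hdeg hs.map

theorem dvd_of_root {π q : k[X]} (hπ : Irreducible π) {θ : k'}
    (h1 : (π.map (algebraMap k k')).IsRoot θ) (h2 : (q.map (algebraMap k k')).IsRoot θ) : π ∣ q := by
  rw [IsRoot.def, eval_map_algebraMap] at h1 h2
  have h3 : minpoly k θ = π * C π.leadingCoeff⁻¹ := (minpoly.eq_of_irreducible hπ h1).symm
  have h4 : minpoly k θ ∣ q := minpoly.dvd k θ h2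
  rw [h3] at h4
  exact (dvd_mul_right _ _).trans h4

theorem natDegree_minpoly {π : k[X]} (hπ : Irreducible π) {θ : k'}
    (h1 : (π.map (algebraMap k k')).IsRoot θ) : (minpoly k θ).natDegree = π.natDegree := by
  rw [IsRoot.def, eval_map_algebraMap] at h1
  rw [← minpoly.eq_of_irreducible hπ h1, natDegree_mul_C
    (inv_ne_zero (leadingCoeff_ne_zero.2 hπ.ne_zero))]

/-- The multiplicity of a root of an irreducible factor. -/
theorem mult_factor {p π : k[X]} {m : ℕ} (hp : p ≠ 0) (hπ : Irreducible π) (hs : π.Separable)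
    (h1 : π ^ m ∣ p) (h2 : ¬ π ^ (m + 1) ∣ p) {θ : k'}
    (hθ : (π.map (algebraMap k k')).IsRoot θ) :
    rootMultiplicity θ (p.map (algebraMap k k')) = m := by
  have injk := (algebraMap k k').injective
  obtain ⟨q, hq⟩ := h1
  have hq0 : q ≠ 0 := by
    rintro rfl
    rw [mul_zero] at hq
    exact hp hq
  have hπ' : π.map (algebraMap k k') ≠ 0 := (Polynomial.map_ne_zero_iff injk).2 hπ.ne_zero
  have hq' : q.map (algebraMap k k') ≠ 0 := (Polynomial.map_ne_zero_iff injk).2 hq0
  have h3 : rootMultiplicity θ (π.map (algebraMap k k')) = 1 := by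
    have h4 : rootMultiplicity θ (π.map (algebraMap k k')) ≤ 1 :=
      rootMultiplicity_le_one_of_separable hs.map θ
    have h5 : 0 < rootMultiplicity θ (π.map (algebraMap k k')) := (rootMultiplicity_pos hπ').2 hθ
    omega
  have h4 : rootMultiplicity θ (q.map (algebraMap k k')) = 0 := by
    apply rootMultiplicity_eq_zero
    intro h5
    apply h2
    rw [hq, pow_succ]
    exact mul_dvd_mul_left _ (dvd_of_root hπ hθ h5)
  have h5 : ∀ n : ℕ, rootMultiplicity θ ((π.map (algebraMap k k')) ^ n) = n := by
    intro n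
    induction n with
    | zero => simp
    | succ n ih =>
      rw [pow_succ, rootMultiplicity_mul (mul_ne_zero (pow_ne_zero n hπ') hπ'), ih, h3]
  rw [hq, Polynomial.map_mul, Polynomial.map_pow,
    rootMultiplicity_mul (mul_ne_zero (pow_ne_zero m hπ') hq'), h5, h4, add_zero]

theorem noCubic_of_factor {p : k[X]} (hp : p ≠ 0)
    (hsep : ∀ π : k[X], Irreducible π → π ∣ p → π.Separable) (h : HasFactor3 p)
    (M : Subgroup (k' ≃ₐ[k] k')) (hMn : M.Normal) (hM : M.index ∣ 2) : NoCubic k k' M p := by
  haveI : IsSepClosed k' := IsSepClosure.sep_closed k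
  haveI : IsGalois k k' := inferInstance
  obtain ⟨π, m, hπ, hd, hm, h1, h2⟩ := h
  have hm0 : m ≠ 0 := by
    rintro rfl
    exact hm (dvd_zero 3)
  have hs : π.Separable := hsep π hπ ((dvd_pow_self π hm0).trans h1)
  obtain ⟨θ, hθ⟩ := exists_root_irr (k' := k') hπ hs
  have hmul := mult_factor (k' := k') hp hπ hs h1 h2 hθ
  refine ⟨⟨θ, by rw [hmul]; exact hm⟩, fun N hN hNM hrel => ?_⟩
  by_contra hc
  push Not at hc
  set S := MulAction.stabilizer (k' ≃ₐ[k] k') θ with hS
  have hSM : S ⊓ M ≤ N := by
    rintro s ⟨hs1, hs2⟩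
    exact hc θ s (by rw [hmul]; exact hm) hs2 hs1
  have e1 := Subgroup.relIndex_mul_index hNM
  have e2 : N.index ∣ (S ⊓ M).index := Subgroup.index_dvd_of_le hSM
  have e3 : (S ⊓ M).relIndex S * S.index = (S ⊓ M).index := Subgroup.relIndex_mul_index inf_le_left
  have e4 : (S ⊓ M).relIndex S = M.relIndex S := Subgroup.inf_relIndex_left S M
  have e5 : M.relIndex S ∣ M.index := Subgroup.relIndex_dvd_index_of_normal M S
  have e6 : S.index = π.natDegree := by rw [hS, stab_index, natDegree_minpoly hπ hθ]
  have h3 : 3 ∣ M.relIndex S * π.natDegree := by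
    rw [← e6, ← e4, e3]
    refine Dvd.dvd.trans ?_ e2
    rw [← e1, hrel]
    exact dvd_mul_right 3 _
  rcases (Nat.Prime.dvd_mul Nat.prime_three).1 h3 with h4 | h4
  · have h5 := (h4.trans e5).trans hM
    omega
  · exact hd h4

theorem fixZ_index_dvd {z : k'} (hz : z ^ 2 + z + 1 = 0) : (fixZ k z).index ∣ 2 := by
  haveI : IsSepClosed k' := IsSepClosure.sep_closed k
  haveI : IsGalois k k' := inferInstance
  have h1 : (fixZ k z).index = (minpoly k z).natDegree := stab_index z
  have h2 : minpoly k z ∣ X ^ 2 + X + 1 := by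
    apply minpoly.dvd
    simp only [map_add, map_pow, aeval_X, map_one]
    exact hz
  have h3 : (X ^ 2 + X + 1 : k[X]).natDegree = 2 := by compute_degree!
  have h4 : (X ^ 2 + X + 1 : k[X]) ≠ 0 := by
    intro h
    rw [h] at h3
    simp at h3
  have h5 : (minpoly k z).natDegree ≤ 2 := by
    rw [← h3]
    exact natDegree_le_of_dvd h2 h4
  have h6 : 0 < (minpoly k z).natDegree := minpoly.natDegree_pos (Algebra.IsIntegral.isIntegral z)
  rw [h1]
  interval_cases (minpoly k z).natDegree <;> decide

/-- If `X ^ 2 + X + 1` has no root in `k`, then it has no root in an extension of odd degree. -/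
theorem exists_swap {z : k'} (hz : z ^ 2 + z + 1 = 0) (hk : ∀ x : k, x ^ 2 + x + 1 ≠ 0) {θ : k'}
    (hodd : Odd (minpoly k θ).natDegree) : ∃ s : k' ≃ₐ[k] k', s θ = θ ∧ s z ≠ z := by
  haveI : IsSepClosed k' := IsSepClosure.sep_closed k
  haveI : IsGalois k k' := inferInstance
  by_contra hc
  push Not at hc
  have h1 : MulAction.stabilizer (k' ≃ₐ[k] k') θ ≤ fixZ k z := fun s hs => hc s hs
  have h2 : (fixZ k z).index ∣ (minpoly k θ).natDegree := by
    rw [← stab_index θ]
    exact Subgroup.index_dvd_of_le h1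
  have h3 : (fixZ k z).index ≠ 1 := by
    intro h4
    rw [Subgroup.index_eq_one] at h4
    have h5 : z ∈ Set.range (algebraMap k k') := by
      rw [InfiniteGalois.mem_range_algebraMap_iff_fixed]
      intro s
      have : s ∈ fixZ k z := by rw [h4]; exact Subgroup.mem_top s
      exact this
    obtain ⟨x, hx⟩ := h5
    apply hk x
    apply (algebraMap k k').injective
    rw [map_add, map_add, map_pow, hx, map_one, map_zero, hz]
  have h4 := fixZ_index_dvd (k := k) hz
  have h5 : (fixZ k z).index = 2 := ((Nat.dvd_prime Nat.prime_two).1 h4).resolve_left h3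
  rw [h5] at h2
  rw [← Nat.not_even_iff_odd] at hodd
  exact hodd (even_iff_two_dvd.2 h2)

end root

end Pool.Agent.Helper7K9.T3
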