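import Pool.Agent.Helper7K9.T3.Ind

/-!
Families of surfaces.
-/

set_option autoImplicit false
set_option linter.all false

open Polynomial IsDedekindDomain WeierstrassCurve WeierstrassCurve.Affine
open scoped Classical

namespace Pool.Agent.Helper7K9.T3

open Pool.Agent.TH115.GD (pl Pt act incl rs ak Sep act_act act_inj splits_of_sep splits_dvd IsTower
  desc_poly)

theorem hasFactor_prime_power {k : Type} [Field k] {p π : k[X]} {u : k} {m : ℕ} (hp : p ≠ 0)
    (hπ : Irreducible π) (hd : ¬ 3 ∣ π.natDegree) (hm : ¬ 3 ∣ m) (e : p = C u * π ^ m) :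
    HasFactor3 p := by
  have hu : u ≠ 0 := by
    rintro rfl
    rw [C_0, zero_mul] at e
    exact hp e
  have hCu : IsUnit (C u : k[X]) := isUnit_C.2 (isUnit_iff_ne_zero.2 hu)
  refine ⟨π, m, hπ, hd, hm, ⟨C u, by rw [e]; ring⟩, fun h => ?_⟩
  rw [e, hCu.dvd_mul_left, pow_succ] at h
  have h2 : π ^ m * π ∣ π ^ m * 1 := by rw [mul_one]; exact h
  exact hπ.not_isUnit (isUnit_of_dvd_one
    ((mul_dvd_mul_iff_left (pow_ne_zero m hπ.ne_zero)).1 h2))

section ctx

variable {k k' K F : Type} [Field k] [Field k'] [Algebra k k'] [Field K] [Algebra k[X] K]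
    [Field F] [Algebra k'[X] F] [IsFractionRing k'[X] F] [Algebra K F]
    (hT : IsTower k k' K F) (h3 : (3 : k) ≠ 0) {a b : k[X]} (hb : b ≠ 0)
    (hd : a ^ 3 - 27 * b ≠ 0)
    (hsep : ∀ π : k[X], Irreducible π → π ∣ b * (a ^ 3 - 27 * b) → π.Separable)

include hT h3 hb hd hsep in
/-- The criterion with conditions on the factors only. -/
theorem tate_of_points (h1 : HasFactor3 b) (h2 : GoodDisc (a ^ 3 - 27 * b))
    (hpts : EnoughPoints3 K F a b) :
    TateAt (F := F) 3 k' (crv3 (algebraMap k[X] K a) (algebraMap k[X] K b)) := by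
  haveI := hT.sep
  haveI := hT.fracK
  haveI : IsSepClosed k' := IsSepClosure.sep_closed k
  haveI : IsGalois k k' := inferInstance
  obtain ⟨z, hz⟩ := exists_z hT h3
  have hsb : ∀ π : k[X], Irreducible π → π ∣ b → π.Separable :=
    fun π h h' => hsep π h (h'.mul_right _)
  have hsd : ∀ π : k[X], Irreducible π → π ∣ a ^ 3 - 27 * b → π.Separable :=
    fun π h h' => hsep π h (h'.mul_left _)
  refine main3 hT h3 hb hd hsep hz
    (noCubic_of_factor hb hsb h1 ⊤ inferInstance (by rw [Subgroup.index_top]; exact one_dvd _))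
    (noCubic_of_factor hd hsd h2.1 (fixZ k z) (fixZ_normal hz) (fixZ_index_dvd hz)) hpts ?_
  rcases h2.2 with ⟨hk, hodd⟩ | ⟨⟨x, hx⟩, v, ρ, n, hρ, hn, hde⟩
  · refine dual_of_swap hT hd hsd fun θ hθ => exists_swap hz hk ?_
    have h4 : IsIntegral k θ := Algebra.IsIntegral.isIntegral θ
    refine hodd _ (minpoly.irreducible h4) ?_
    apply minpoly.dvd
    rw [IsRoot.def, eval_map_algebraMap] at hθ
    exact hθ
  · refine dual_prime_power hT h3 hd ?_ hρ hde hn
    have h4 : (z - algebraMap k k' x) * (z - algebraMap k k' (-1 - x)) = 0 := by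
      have h5 : (algebraMap k k' x) ^ 2 + algebraMap k k' x + 1 = 0 := by
        rw [← map_pow, ← map_add, ← map_one (algebraMap k k'), ← map_add, hx, map_zero]
      rw [map_sub, map_neg, map_one]
      linear_combination hz - h5
    rcases mul_eq_zero.1 h4 with h | h
    · exact ⟨x, (sub_eq_zero.1 h).symm⟩
    · exact ⟨-1 - x, (sub_eq_zero.1 h).symm⟩

include hT h3 hb hd in
/-- The Tate conjecture at 3 if `b` and the discriminant are prime powers. -/
theorem tate_prime_powers {u v : k} {π ρ : k[X]} {m n : ℕ} (hπ : Irreducible π)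
    (hρ : Irreducible ρ) (sπ : π.Separable) (sρ : ρ.Separable) (hbe : b = C u * π ^ m)
    (hde : a ^ 3 - 27 * b = C v * ρ ^ n) (hm : ¬ 3 ∣ m) (hn : ¬ 3 ∣ n)
    (dπ : ¬ 3 ∣ π.natDegree) (dρ : ¬ 3 ∣ ρ.natDegree)
    (hz : (∃ x : k, x ^ 2 + x + 1 = 0) ∨ Odd ρ.natDegree) :
    TateAt (F := F) 3 k' (crv3 (algebraMap k[X] K a) (algebraMap k[X] K b)) := by
  have hu : u ≠ 0 := by
    rintro rfl
    rw [C_0, zero_mul] at hbe
    exact hb hbe
  have hv : v ≠ 0 := by
    rintro rfl
    rw [C_0, zero_mul] at hde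
    exact hd hde
  have hCu : IsUnit (C u : k[X]) := isUnit_C.2 (isUnit_iff_ne_zero.2 hu)
  have hCv : IsUnit (C v : k[X]) := isUnit_C.2 (isUnit_iff_ne_zero.2 hv)
  have ab : ∀ κ : k[X], Irreducible κ → κ ∣ b → Associated κ π := by
    intro κ hκ h
    rw [hbe, hCu.dvd_mul_left] at h
    exact hκ.associated_of_dvd hπ (hκ.prime.dvd_of_dvd_pow h)
  have ad : ∀ κ : k[X], Irreducible κ → κ ∣ a ^ 3 - 27 * b → Associated κ ρ := by
    intro κ hκ h
    rw [hde, hCv.dvd_mul_left] at h
    exact hκ.associated_of_dvd hρ (hκ.prime.dvd_of_dvd_pow h)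
  have hsep : ∀ κ : k[X], Irreducible κ → κ ∣ b * (a ^ 3 - 27 * b) → κ.Separable := by
    intro κ hκ h
    rcases hκ.prime.dvd_or_dvd h with h1 | h1
    · exact sπ.of_dvd (ab κ hκ h1).dvd
    · exact sρ.of_dvd (ad κ hκ h1).dvd
  refine tate_of_points hT h3 hb hd hsep (hasFactor_prime_power hb hπ dπ hm hbe)
    ⟨hasFactor_prime_power hd hρ dρ hn hde, ?_⟩ ?_
  · by_cases hk : ∃ x : k, x ^ 2 + x + 1 = 0
    · exact Or.inr ⟨hk, v, ρ, n, hρ, hn, hde⟩
    · left
      push Not at hk
      refine ⟨hk, fun κ hκ h => ?_⟩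
      have hodd := hz.resolve_left (fun ⟨x, hx⟩ => hk x hx)
      have h5 : κ.natDegree = ρ.natDegree := natDegree_eq_of_degree_eq
        (degree_eq_degree_of_associated (ad κ hκ h))
      rw [h5]; exact hodd
  · refine enough_of_primes hT h3 hb hd fun κ hκ h => ?_
    obtain ⟨w, hw⟩ := (ab κ hκ h).symm
    obtain ⟨y, hy, ey⟩ := Polynomial.isUnit_iff.1 w.isUnit
    refine Rep.prime_power (F := F) hT h3 hb hd (u := u * (y ^ m)⁻¹) (π := κ) (m := m) ?_ hm
    have hy0 : y ≠ 0 := hy.ne_zero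
    have e1 : (C (y ^ m)⁻¹ : k[X]) * C y ^ m = 1 := by
      rw [← C_pow, ← C_mul, inv_mul_cancel₀ (pow_ne_zero m hy0), C_1]
    rw [← hw, ← ey, mul_pow, hbe, C_mul]
    linear_combination (-(C u * π ^ m)) * e1

theorem Rep.assoc (hT : IsTower k k' K F) (h3 : (3 : k) ≠ 0) (hb : b ≠ 0)
    (hd : a ^ 3 - 27 * b ≠ 0) {p q : k[X]} (h : Associated p q)
    (hp : Rep K (algebraMap k[X] K a) (algebraMap k[X] K b) (em K F p)) :
    Rep K (algebraMap k[X] K a) (algebraMap k[X] K b) (em K F q) := by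
  obtain ⟨w, hw⟩ := h
  obtain ⟨y, hy, ey⟩ := Polynomial.isUnit_iff.1 w.isUnit
  obtain ⟨r, hr, er⟩ := const_cube (F := F) hT h3 y hy.ne_zero
  have e : em K F q = em K F p * r ^ 3 := by
    rw [← hw, ← er, ey]
    unfold em
    rw [map_mul, map_mul]
  rw [e]
  exact Rep.mul hT h3 hb hd hp (Rep.cube hr)

theorem Rep.prod (hT : IsTower k k' K F) (h3 : (3 : k) ≠ 0) (hb : b ≠ 0)
    (hd : a ^ 3 - 27 * b ≠ 0) {ι : Type*} (s : Finset ι) (x : ι → F)
    (hx : ∀ i ∈ s, Rep K (algebraMap k[X] K a) (algebraMap k[X] K b) (x i)) :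
    Rep K (algebraMap k[X] K a) (algebraMap k[X] K b) (∏ i ∈ s, x i) := by
  induction s using Finset.induction_on with
  | empty => rw [Finset.prod_empty]; exact Rep.one
  | insert j s hj ih =>
    rw [Finset.prod_insert hj]
    exact Rep.mul hT h3 hb hd (hx j (Finset.mem_insert_self j s))
      (ih fun i hi => hx i (Finset.mem_insert_of_mem hi))

include hT h3 hb hd hsep in
/-- Surfaces with points for all irreducible factors of `b` but one. -/
theorem family (h1 : HasFactor3 b) (h2 : GoodDisc (a ^ 3 - 27 * b)) {ι : Type*} [Fintype ι]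
    {u : k} {p₀ : k[X]} {p : ι → k[X]} (hp₀ : Irreducible p₀) (hp : ∀ i, Irreducible (p i))
    (n0 : ∀ i, ¬ p₀ ∣ p i) (n1 : ∀ i j, i ≠ j → ¬ p i ∣ p j)
    (hbe : b = C u * (p₀ * ∏ i, p i))
    (P : ι → Pt (crv3 (algebraMap k[X] K a) (algebraMap k[X] K b)) K)
    (hP : ∀ i, ∃ c : F, c ≠ 0 ∧ em K F (p i) = c ^ 3 * algebraMap K F (dT (algebraMap k[X] K b) (P i))) :
    TateAt (F := F) 3 k' (crv3 (algebraMap k[X] K a) (algebraMap k[X] K b)) ∧
      LinearIndependent ℤ P := by
  haveI := hT.sep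
  haveI := hT.fracK
  haveI : IsSepClosed k' := IsSepClosure.sep_closed k
  haveI : IsGalois k k' := inferInstance
  have hKF := hT.map
  have injk := (algebraMap k k').injective
  have hu : u ≠ 0 := by
    rintro rfl
    rw [C_0, zero_mul] at hbe
    exact hb hbe
  have hCu : IsUnit (C u : k[X]) := isUnit_C.2 (isUnit_iff_ne_zero.2 hu)
  have hprod0 : ∏ i, p i ≠ 0 := Finset.prod_ne_zero_iff.2 fun i _ => (hp i).ne_zero
  have emne : ∀ q : k[X], q ≠ 0 → em K F q ≠ 0 := by
    intro q hq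
    unfold em
    simpa using hq
  have emmul : ∀ q r : k[X], em K F (q * r) = em K F q * em K F r := by
    intro q r; unfold em; rw [map_mul, map_mul]
  have hRp : ∀ i, Rep K (algebraMap k[X] K a) (algebraMap k[X] K b) (em K F (p i)) := by
    intro i
    obtain ⟨c, hc, e⟩ := hP i
    exact ⟨P i, c, hc, e⟩
  have emprod : em K F (∏ i, p i) = ∏ i, em K F (p i) := by
    unfold em
    rw [map_prod, map_prod]
  have hR0 : Rep K (algebraMap k[X] K a) (algebraMap k[X] K b) (em K F p₀) := by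
    obtain ⟨r, hr, er⟩ := const_cube (F := F) hT h3 u hu
    have q1 := Rep.base (F := F) hT h3 hb hd
    have q2 := Rep.pow hT h3 hb hd (Rep.prod hT h3 hb hd Finset.univ (fun i => em K F (p i))
      (fun i _ => hRp i)) 2
    obtain ⟨Q, c, hc, e⟩ := Rep.mul hT h3 hb hd q1 q2
    rw [← emprod] at e
    have hPr := emne _ hprod0
    have hbF : em K F b = r ^ 3 * (em K F p₀ * em K F (∏ i, p i)) := by
      rw [hbe, emmul, emmul]
      congr 1
    refine ⟨Q, c / (r * em K F (∏ i, p i)), div_ne_zero hc (mul_ne_zero hr hPr), ?_⟩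
    rw [div_pow, div_mul_eq_mul_div, ← e, hbF]
    field_simp
  constructor
  · refine tate_of_points hT h3 hb hd hsep h1 h2 (enough_of_primes hT h3 hb hd fun κ hκ h => ?_)
    rw [hbe, hCu.dvd_mul_left] at h
    rcases hκ.prime.dvd_or_dvd h with h | h
    · exact Rep.assoc hT h3 hb hd (hκ.associated_of_dvd hp₀ h).symm hR0
    · obtain ⟨i, -, hi⟩ := (hκ.prime.dvd_finset_prod_iff _).1 h
      exact Rep.assoc hT h3 hb hd (hκ.associated_of_dvd (hp i) hi).symm (hRp i)
  · -- linear independence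
    have p0b : p₀ ∣ b := ⟨C u * ∏ i, p i, by rw [hbe]; ring⟩
    have pib : ∀ i, p i ∣ b := fun i => by
      rw [hbe]
      exact ((Finset.dvd_prod_of_mem p (Finset.mem_univ i)).mul_left _).mul_left _
    have hs0 : p₀.Separable := hsep _ hp₀ (p0b.mul_right _)
    have hsi : ∀ i, (p i).Separable := fun i => hsep _ (hp i) ((pib i).mul_right _)
    obtain ⟨θ₀, hθ₀⟩ := exists_root_irr (k' := k') hp₀ hs0
    choose θ hθ using fun i => exists_root_irr (k' := k') (hp i) (hsi i)
    have nd0 : ¬ p₀ ^ (1 + 1) ∣ b := by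
      intro h
      rw [hbe, hCu.dvd_mul_left, pow_succ, pow_one, mul_dvd_mul_iff_left hp₀.ne_zero,
        hp₀.prime.dvd_finset_prod_iff] at h
      obtain ⟨i, -, hi⟩ := h
      exact n0 i hi
    have ndi : ∀ i, ¬ p i ^ (1 + 1) ∣ b := by
      intro i h
      have e1 : p₀ * ∏ j, p j = p i * (p₀ * ∏ j ∈ Finset.univ.erase i, p j) := by
        rw [← Finset.mul_prod_erase Finset.univ p (Finset.mem_univ i)]
        ring
      rw [hbe, hCu.dvd_mul_left, pow_succ, pow_one, e1, mul_dvd_mul_iff_left (hp i).ne_zero] at h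
      rcases (hp i).prime.dvd_or_dvd h with h5 | h5
      · exact n0 i ((hp i).associated_of_dvd hp₀ h5).symm.dvd
      · obtain ⟨j, hj, hj'⟩ := ((hp i).prime.dvd_finset_prod_iff _).1 h5
        exact n1 i j (Finset.ne_of_mem_erase hj).symm hj'
    have m0 : rootMultiplicity θ₀ (b.map (algebraMap k k')) = 1 :=
      mult_factor hb hp₀ hs0 (by rw [pow_one]; exact p0b) nd0 hθ₀
    have mi : ∀ i, rootMultiplicity (θ i) (b.map (algebraMap k k')) = 1 := fun i =>
      mult_factor hb (hp i) (hsi i) (by rw [pow_one]; exact pib i) (ndi i) (hθ i)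
    have hlam : ∀ (η : k') (j : ι), lam k' F a b η (P j) =
        (rootMultiplicity η ((p j).map (algebraMap k k')) : ZMod 3) := by
      intro η j
      obtain ⟨c, hc, e⟩ := hP j
      have hne : algebraMap K F (dT (algebraMap k[X] K b) (P j)) ≠ 0 := by
        intro h0
        rw [h0, mul_zero] at e
        exact emne _ (hp j).ne_zero e
      unfold lam
      rw [← om_cube _ hc hne, ← e]
      exact om_root hKF (p j) (hp j).ne_zero η
    have hself : ∀ i, rootMultiplicity (θ i) ((p i).map (algebraMap k k')) = 1 := fun i =>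
      mult_factor (hp i).ne_zero (hp i) (hsi i) (by rw [pow_one]) (by
        rw [pow_succ, pow_one]
        intro h
        have h2 : p i * p i ∣ p i * 1 := by rw [mul_one]; exact h
        exact (hp i).not_isUnit (isUnit_of_dvd_one
          ((mul_dvd_mul_iff_left (hp i).ne_zero).1 h2))) (hθ i)
    refine indep (F := F) hT h3 hb hd ⟨θ₀, by rw [m0]; decide⟩ ?_ P θ θ₀ (fun i j => ?_)
      (fun j => ?_) (fun i => by rw [m0, mi])
    · have hsd : ∀ π : k[X], Irreducible π → π ∣ a ^ 3 - 27 * b → π.Separable :=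
        fun π h h' => hsep π h (h'.mul_left _)
      exact (noCubic_of_factor (k' := k') hd hsd h2.1 ⊤ inferInstance
        (by rw [Subgroup.index_top]; exact one_dvd _)).1
    · rw [hlam]
      by_cases hij : i = j
      · subst hij
        rw [if_pos rfl, hself]
        rfl
      · rw [if_neg hij, rootMultiplicity_eq_zero]
        · rfl
        · intro h
          exact n1 i j hij (dvd_of_root (hp i) (hθ i) h)
    · rw [hlam, rootMultiplicity_eq_zero]
      · rfl
      · intro h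
        exact n0 j (dvd_of_root hp₀ hθ₀ h)

end ctx

end Pool.Agent.Helper7K9.T3
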