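import Pool.Agent.Helper7K9.T3.Suf2

/-!
Linear independence of points.
-/

set_option autoImplicit false
set_option linter.all false

open Polynomial IsDedekindDomain WeierstrassCurve WeierstrassCurve.Affine
open scoped Classical

namespace Pool.Agent.Helper7K9.T3

open Pool.Agent.TH115.GD (pl Pt act incl rs ak Sep act_act act_inj splits_of_sep splits_dvd IsTower
  desc_poly)

section ctx

variable {k k' K F : Type} [Field k] [Field k'] [Algebra k k'] [Field K] [Algebra k[X] K]
    [Field F] [Algebra k'[X] F] [IsFractionRing k'[X] F] [Algebra K F]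
    (hT : IsTower k k' K F) (h3 : (3 : k) ≠ 0) {a b : k[X]} (hb : b ≠ 0)
    (hd : a ^ 3 - 27 * b ≠ 0)

/-- The order modulo three, at `θ`, of the value of the descent function. -/
noncomputable def lam (k' F : Type) {k K : Type} [Field k] [Field k'] [Field K] [Algebra k[X] K]
    [Field F] [Algebra k'[X] F] [IsFractionRing k'[X] F] [Algebra K F] (a b : k[X]) (θ : k')
    (P : Pt (crv3 (algebraMap k[X] K a) (algebraMap k[X] K b)) K) : ZMod 3 :=
  om (pl θ) (algebraMap K F (dT (algebraMap k[X] K b) P))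

include hT h3 in
theorem three_K : (3 : K) ≠ 0 := by
  haveI := hT.fracK
  have h4 : algebraMap k[X] K (C (3 : k)) ≠ 0 := by
    rw [Ne, map_eq_zero_iff _ (IsFractionRing.injective k[X] K), C_eq_zero]
    exact h3
  rwa [map_ofNat, map_ofNat] at h4

include hT hb in
theorem b_K : algebraMap k[X] K b ≠ 0 := by
  haveI := hT.fracK
  simpa using hb

include hT hd in
theorem d_K : algebraMap k[X] K a ^ 3 - 27 * algebraMap k[X] K b ≠ 0 := by
  haveI := hT.fracK
  have hdK : algebraMap k[X] K (a ^ 3 - 27 * b) =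
      algebraMap k[X] K a ^ 3 - 27 * algebraMap k[X] K b := by
    rw [map_sub, map_mul, map_pow, map_ofNat]
  rw [← hdK]
  intro h
  exact hd (IsFractionRing.injective k[X] K (by rw [h, map_zero]))

theorem z_Ω {z : k'} (hz : z ^ 2 + z + 1 = 0) :
    (algebraMap F (Sep F) (algebraMap k'[X] F (C z))) ^ 2 +
      algebraMap F (Sep F) (algebraMap k'[X] F (C z)) + 1 = 0 := by
  rw [← map_pow, ← map_add, ← map_one (algebraMap F (Sep F)), ← map_add, ← map_pow, ← map_add,
    ← map_one (algebraMap k'[X] F), ← map_add]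
  have : (C z) ^ 2 + C z + 1 = (0 : k'[X]) := by
    rw [← C_pow, ← C_add, ← C_1, ← C_add, hz, C_0]
  rw [this, map_zero, map_zero]

include hT h3 hb hd in
theorem lam_add (θ : k') (P Q : Pt (crv3 (algebraMap k[X] K a) (algebraMap k[X] K b)) K) :
    lam k' F a b θ (P + Q) = lam k' F a b θ P + lam k' F a b θ Q := by
  haveI := hT.sep
  haveI := hT.fracK
  have h3K := three_K hT h3
  have hbK0 := b_K hT hb
  have hdK0 := d_K hT hd
  obtain ⟨z, hz⟩ := exists_z hT h3
  have h := isE3 (algebraMap k[X] K a) (algebraMap k[X] K b) (Sep F) h3K hbK0 hdK0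
  have hK := isE3 (algebraMap k[X] K a) (algebraMap k[X] K b) K h3K hbK0 hdK0
  obtain ⟨c0, hc0, q⟩ := dT_add (F := F) (Ω := Sep F) h3K hbK0 hdK0 (z_Ω (F := F) hz)
    (fun σ => σ.commutes _) (cube_roots (Sep F) h.three) P Q
  have n1 : algebraMap K F (dT (algebraMap k[X] K b) P) ≠ 0 :=
    (_root_.map_ne_zero _).2 (dT_ne hK P)
  have n2 : algebraMap K F (dT (algebraMap k[X] K b) Q) ≠ 0 :=
    (_root_.map_ne_zero _).2 (dT_ne hK Q)
  unfold lam
  rw [q, om_cube _ hc0 (mul_ne_zero n1 n2), om_mul _ n1 n2]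

/-- `lam` as a homomorphism. -/
noncomputable def lamHom (θ : k') :
    Pt (crv3 (algebraMap k[X] K a) (algebraMap k[X] K b)) K →+ ZMod 3 :=
  AddMonoidHom.mk' (lam k' F a b θ) (lam_add hT h3 hb hd θ)

theorem lamHom_apply (θ : k') (P : Pt (crv3 (algebraMap k[X] K a) (algebraMap k[X] K b)) K) :
    lamHom hT h3 hb hd θ P = lam k' F a b θ P := rfl

include hT h3 hb hd in
/-- The torsion points over `K` of order a power of three. -/
theorem torK (hbm : ∃ θ : k', ¬ 3 ∣ rootMultiplicity θ (b.map (algebraMap k k')))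
    (hdm : ∃ θ : k', ¬ 3 ∣ rootMultiplicity θ ((a ^ 3 - 27 * b).map (algebraMap k k')))
    {X : Pt (crv3 (algebraMap k[X] K a) (algebraMap k[X] K b)) K} {m : ℕ} (hX : 3 ^ m • X = 0)
    (θ θ' : k') (hθ : (rootMultiplicity θ (b.map (algebraMap k k')) : ZMod 3) =
      rootMultiplicity θ' (b.map (algebraMap k k'))) :
    lam k' F a b θ X = lam k' F a b θ' X := by
  haveI := hT.sep
  haveI := hT.fracK
  have hKF := hT.map
  have h3K := three_K hT h3
  have hbK0 := b_K hT hb
  have hdK0 := d_K hT hd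
  obtain ⟨z, hz⟩ := exists_z hT h3
  have hdK : algebraMap k[X] K (a ^ 3 - 27 * b) =
      algebraMap k[X] K a ^ 3 - 27 * algebraMap k[X] K b := by
    rw [map_sub, map_mul, map_pow, map_ofNat]
  have hbs : ∀ g : F, g ^ 3 ≠ algebraMap K F (algebraMap k[X] K b) := notCube hKF hb hbm
  have hds : ∀ g : F, g ^ 3 ≠ algebraMap K F
      (algebraMap k[X] K a ^ 3 - 27 * algebraMap k[X] K b) := by
    rw [← hdK]
    exact notCube hKF hd hdm
  have h := isE3 (algebraMap k[X] K a) (algebraMap k[X] K b) (Sep F) h3K hbK0 hdK0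
  have hI := torsF h3K hbK0 hdK0 (z_Ω (F := F) hz) (fun σ => σ.commutes _) hbs hds m
    (act (crv3 (algebraMap k[X] K a) (algebraMap k[X] K b)) (incl K K (Sep F)) X)
    (fun σ => by
      have h1 : (rs K σ).comp (incl K K (Sep F)) = incl K K (Sep F) :=
        AlgHom.ext fun x => (rs K σ).commutes x
      rw [act_act, h1])
    (by rw [← map_nsmul, hX, map_zero])
  have dK : algebraMap F (Sep F) (algebraMap K F (dT (algebraMap k[X] K b) X)) =
      dT (algebraMap K (Sep F) (algebraMap k[X] K b))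
        (act (crv3 (algebraMap k[X] K a) (algebraMap k[X] K b)) (incl K K (Sep F)) X) := by
    rw [← IsScalarTower.algebraMap_apply K F (Sep F)]
    exact (dT_act (crv3 (algebraMap k[X] K a) (algebraMap k[X] K b)) (incl K K (Sep F)) _ X).symm
  have inj := (algebraMap F (Sep F)).injective
  have hbF : algebraMap K F (algebraMap k[X] K b) ≠ 0 := (_root_.map_ne_zero _).2 hbK0
  unfold lam
  rcases hI with e | e | e
  · have e1 : algebraMap K F (dT (algebraMap k[X] K b) X) = 1 := by
      apply inj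
      rw [dK, e, map_one]
      rfl
    rw [e1, om_one, om_one]
  · have e1 : algebraMap K F (dT (algebraMap k[X] K b) X) =
        (algebraMap K F (algebraMap k[X] K b)) ^ 2 := by
      apply inj
      rw [dK, e, dT_pT, IsScalarTower.algebraMap_apply K F (Sep F), map_pow]
    rw [e1, om_pow, om_pow, om_root hKF b hb, om_root hKF b hb, hθ]
  · have e1 : algebraMap K F (dT (algebraMap k[X] K b) X) =
        (-1) ^ 3 * algebraMap K F (algebraMap k[X] K b) := by
      apply inj
      rw [dK, e, dT_neg_pT, IsScalarTower.algebraMap_apply K F (Sep F), map_mul, map_pow, map_neg,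
        map_one]
      ring
    have nn : (-1 : F) ≠ 0 := by norm_num
    rw [e1, om_cube _ nn hbF, om_cube _ nn hbF, om_root hKF b hb, om_root hKF b hb, hθ]

include hT h3 hb hd in
/-- Linear independence of points. -/
theorem indep (hbm : ∃ θ : k', ¬ 3 ∣ rootMultiplicity θ (b.map (algebraMap k k')))
    (hdm : ∃ θ : k', ¬ 3 ∣ rootMultiplicity θ ((a ^ 3 - 27 * b).map (algebraMap k k')))
    {ι : Type*} [Fintype ι] (P : ι → Pt (crv3 (algebraMap k[X] K a) (algebraMap k[X] K b)) K)
    (θ : ι → k') (θ₀ : k')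
    (h1 : ∀ i j, lam k' F a b (θ i) (P j) = if i = j then 1 else 0)
    (h0 : ∀ j, lam k' F a b θ₀ (P j) = 0)
    (hθ : ∀ i, (rootMultiplicity (θ i) (b.map (algebraMap k k')) : ZMod 3) =
      rootMultiplicity θ₀ (b.map (algebraMap k k'))) : LinearIndependent ℤ P := by
  rw [Fintype.linearIndependent_iff]
  intro g hg
  have key : ∀ m : ℕ, ∀ j, (3 : ℤ) ^ m ∣ g j := by
    intro m
    induction m with
    | zero => intro j; rw [pow_zero]; exact one_dvd _
    | succ m ih =>
      choose g' hg' using ih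
      have hX : 3 ^ m • (∑ i, g' i • P i) = 0 := by
        rw [← hg, Finset.smul_sum]
        refine Finset.sum_congr rfl fun i _ => ?_
        rw [hg' i, mul_smul, ← Nat.cast_smul_eq_nsmul ℤ]
        push_cast
        rfl
      intro j
      have h5 := torK (F := F) hT h3 hb hd hbm hdm hX (θ j) θ₀ (hθ j)
      have h6 : ∀ η : k', lam k' F a b η (∑ i, g' i • P i) =
          ∑ i, (g' i : ZMod 3) * lam k' F a b η (P i) := by
        intro η
        rw [← lamHom_apply hT h3 hb hd, map_sum]
        refine Finset.sum_congr rfl fun i _ => ?_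
        rw [map_zsmul, zsmul_eq_mul, lamHom_apply]
      rw [h6, h6] at h5
      simp only [h0, h1, mul_zero, Finset.sum_const_zero, mul_ite, mul_one, Finset.sum_ite_eq,
        Finset.mem_univ, if_true] at h5
      rw [ZMod.intCast_zmod_eq_zero_iff_dvd] at h5
      obtain ⟨w, hw⟩ := h5
      refine ⟨w, ?_⟩
      rw [hg' j, hw]
      push_cast
      ring
  intro i
  by_contra hne
  have h7 := Int.le_of_dvd (abs_pos.2 hne) ((dvd_abs _ _).2 (key (g i).natAbs i))
  have h8 : (g i).natAbs < 3 ^ (g i).natAbs := Nat.lt_pow_self (by norm_num)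
  have h9 : |g i| = ((g i).natAbs : ℤ) := Int.abs_eq_natAbs (g i)
  rw [h9] at h7
  have h10 : ((3 ^ (g i).natAbs : ℕ) : ℤ) ≤ ((g i).natAbs : ℤ) := by
    rw [Nat.cast_pow]
    exact h7
  have h11 : 3 ^ (g i).natAbs ≤ (g i).natAbs := Int.ofNat_le.1 h10
  omega

end ctx

end Pool.Agent.Helper7K9.T3
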