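import Pool.Agent.Helper7K9.T3.Loc
import Pool.Agent.Helper7K9.T3.Step

/-!
Torsion points over `F`, and invariance of the Kummer generators.
-/

set_option autoImplicit false
set_option linter.all false

open WeierstrassCurve WeierstrassCurve.Affine
open scoped Classical

namespace Pool.Agent.Helper7K9.T3

open Pool.Agent.TH115.GD (Pt act incl rs ak IsCoc LocTriv act_zero act_some act_inj act_act
  fixed_point exists_restrict exists_conj Preserves)
open Pool.Agent.W309.TD (locConst_apply compare)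

universe u

section pow

variable {F : Type*} [Field F]

theorem no_cube_sq {x : F} (h : ∀ g : F, g ^ 3 ≠ x) (hx : x ≠ 0) (g : F) : g ^ 3 ≠ x ^ 2 := by
  intro e
  apply h (g ^ 2 / x)
  rw [div_pow, ← pow_mul, show 2 * 3 = 3 * 2 by norm_num, pow_mul, e]
  field_simp

end pow

section three

variable {G : Type*} [AddCommGroup G]

theorem three_smul (X : G) : (3 : ℕ) • X = X + X + X := by
  rw [show (3 : ℕ) = 2 + 1 from rfl, add_smul, two_nsmul, one_smul]

end three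

section tor

variable {K F Ω : Type u} [Field K] [Field F] [Field Ω] [Algebra K F] [Algebra F Ω] [Algebra K Ω]
  [IsScalarTower K F Ω] {a b : K} (h3 : (3 : K) ≠ 0) (hb : b ≠ 0) (hd : a ^ 3 - 27 * b ≠ 0)
  {z : Ω} (hz : z ^ 2 + z + 1 = 0) (hzF : ∀ σ : Ω ≃ₐ[F] Ω, σ z = z)
  (h3r : ∀ x : Ω, ∃ y, y ^ 3 = x)

/-- The function `t1` on `E(Ω)`. -/
noncomputable abbrev T1 (a b : K) (z : Ω) (P : Pt (crv3 a b) Ω) : Ω :=
  t1 z (algebraMap K Ω a) (algebraMap K Ω b) P

theorem T1_act {Ω' : Type u} [Field Ω'] [Algebra K Ω'] (φ : Ω →ₐ[K] Ω') (z : Ω)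
    (P : Pt (crv3 a b) Ω) : T1 a b (φ z) (act (crv3 a b) φ P) = φ (T1 a b z P) := by
  have := t1_act (crv3 a b) φ z (algebraMap K Ω a) (algebraMap K Ω b) P
  rw [φ.commutes, φ.commutes] at this
  exact this

include hz in
/-- The cube of `t1` at a point of order three. -/
theorem t1_tor {S : Pt (crv3 a b) Ω} (hS : S + S + S = 0) :
    (T1 a b z S ^ 3 = 1 ∧ InT (isE3 a b Ω h3 hb hd) S) ∨
    T1 a b z S ^ 3 = algebraMap K Ω (a ^ 3 - 27 * b) ∨
    T1 a b z S ^ 3 = algebraMap K Ω (a ^ 3 - 27 * b) ^ 2 := by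
  have h := isE3 a b Ω h3 hb hd
  have hΔ : algebraMap K Ω (a ^ 3 - 27 * b) = algebraMap K Ω a ^ 3 - 27 * algebraMap K Ω b := by
    simp only [map_sub, map_pow, map_mul, map_ofNat]
  by_cases hI : InT h S
  · left
    refine ⟨?_, hI⟩
    show t1 z _ _ S ^ 3 = 1
    rw [t1_inT h hI, one_pow]
  · right
    rcases exists_pt h S with rfl | rfl | rfl | ⟨α, β, γ, h1, h2, rfl⟩
    · exact absurd (Or.inl rfl) hI
    · exact absurd (Or.inr (Or.inl rfl)) hI
    · exact absurd (Or.inr (Or.inr rfl)) hI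
    · rw [triple_iff] at hS
      obtain ⟨e1, e2⟩ := uw_pt (a := algebraMap K Ω a) hz h.three h1 h2
      rw [e1] at hS
      show t1 z _ _ _ ^ 3 = _ ∨ t1 z _ _ _ ^ 3 = _
      rw [t1_pt]
      by_cases hu : α + z ^ 2 * β + z * γ = 0
      · right
        rw [if_pos hu]
        rw [hu] at e2
        rw [hΔ, ← e2]
        ring
      · left
        rw [if_neg hu]
        have hw := (mul_eq_zero.1 hS).resolve_left hu
        rw [hw] at e2
        rw [hΔ, ← e2]
        ring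

variable [IsSepClosed Ω] [IsGalois F Ω] (hbs : ∀ g : F, g ^ 3 ≠ algebraMap K F b)
  (hds : ∀ g : F, g ^ 3 ≠ algebraMap K F (a ^ 3 - 27 * b))

include hbs in
/-- A multiple of `(0, 0)` which is three times a point is zero, if the Kummer generator of the point
is in `F`. -/
theorem no_third {X : Pt (crv3 a b) Ω}
    (hX : ∀ σ : Ω ≃ₐ[F] Ω, σ (H0 a b X) = H0 a b X)
    (hI : InT (isE3 a b Ω h3 hb hd) (X + X + X)) : X + X + X = 0 := by
  have h := isE3 a b Ω h3 hb hd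
  have hbF : algebraMap K F b ≠ 0 := (_root_.map_ne_zero _).2 hb
  obtain ⟨g, hg⟩ : H0 a b X ∈ Set.range (algebraMap F Ω) := by
    rw [InfiniteGalois.mem_range_algebraMap_iff_fixed]
    exact hX
  have hc := h0_cube h X
  have hcg : algebraMap F Ω (g ^ 3) = dT (algebraMap K Ω b) (X + X + X) := by
    rw [map_pow, hg]
    exact hc
  rcases hI with e | e | e
  · exact e
  · exfalso
    rw [e, dT_pT, IsScalarTower.algebraMap_apply K F Ω, ← map_pow] at hcg
    exact no_cube_sq hbs hbF g ((algebraMap F Ω).injective hcg)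
  · exfalso
    rw [e, dT_neg_pT, IsScalarTower.algebraMap_apply K F Ω, ← map_neg] at hcg
    have := (algebraMap F Ω).injective hcg
    apply hbs (-g)
    rw [neg_pow, this]
    ring

include h3 hb hd hz hzF hbs hds in
/-- The torsion points of 3-power order over `F`. -/
theorem torsF (m : ℕ) : ∀ X : Pt (crv3 a b) Ω, (∀ σ : Ω ≃ₐ[F] Ω, act (crv3 a b) (rs K σ) X = X) →
    3 ^ m • X = 0 → InT (isE3 a b Ω h3 hb hd) X := by
  have h := isE3 a b Ω h3 hb hd
  have hdF : algebraMap K F (a ^ 3 - 27 * b) ≠ 0 := (_root_.map_ne_zero _).2 hd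
  induction m with
  | zero =>
    intro X _ h
    rw [pow_zero, one_smul] at h
    exact Or.inl h
  | succ m ih =>
    intro X hX hm
    have h1 : 3 ^ m • (X + X + X) = 0 := by
      rw [← three_smul, smul_smul, ← pow_succ, hm]
    have h4 := ih (X + X + X) (fun σ => by rw [map_add, map_add, hX]) h1
    have h5 := no_third h3 hb hd hbs (X := X) (fun σ => by
      have := H0_act (rs K σ) X
      rw [hX σ] at this
      exact this.symm) h4
    by_contra hI
    obtain ⟨g, hg⟩ : T1 a b z X ∈ Set.range (algebraMap F Ω) := by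
      rw [InfiniteGalois.mem_range_algebraMap_iff_fixed]
      intro σ
      have := T1_act (rs K σ) z X
      rw [hX σ, show (rs K σ) z = z from hzF σ] at this
      exact this.symm
    rcases t1_tor h3 hb hd hz h5 with ⟨-, e⟩ | e | e
    · exact hI e
    · rw [← hg, IsScalarTower.algebraMap_apply K F Ω, ← map_pow] at e
      exact hds g ((algebraMap F Ω).injective e)
    · rw [← hg, IsScalarTower.algebraMap_apply K F Ω, ← map_pow, ← map_pow] at e
      exact no_cube_sq hds hdF g ((algebraMap F Ω).injective e)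

/-- Invariance in the first layer. -/
def InvOne (W : WeierstrassCurve K) (f : (Ω ≃ₐ[F] Ω) → Pt W Ω) : Prop :=
  ∀ τ : Ω ≃ₐ[K] Ω, ∃ R : Pt W Ω, (∃ m : ℕ, 3 ^ m • R = 0) ∧
    ∀ σ σ' : Ω ≃ₐ[F] Ω, (∀ x, τ (σ' x) = σ (τ x)) →
      act W (ak τ) (f σ') - f σ = act W (rs K σ) R - R

theorem sub3 {G : Type*} [AddCommGroup G] (X Y : G) :
    (X - Y) + (X - Y) + (X - Y) = (X + X + X) - (Y + Y + Y) := by abel

include h3 hb hd hz hzF h3r hbs hds in
theorem inv0 (hN : Preserves K F Ω) {f : (Ω ≃ₐ[F] Ω) → Pt (crv3 a b) Ω}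
    (hf3 : ∀ σ, f σ + f σ + f σ = 0) (hi : InvOne (crv3 a b) f) {t0 : Ω} {a0 : F} (n0 : t0 ≠ 0)
    (e0 : t0 ^ 3 = algebraMap F Ω a0) (k0 : ∀ σ, σ t0 = S0 a b (f σ) * t0) (τ : Ω ≃ₐ[K] Ω) :
    ∃ (u : F) (j : ℕ), u ≠ 0 ∧
      τ (algebraMap F Ω a0) = algebraMap F Ω (u ^ 3 * (a0 * algebraMap K F b ^ j)) := by
  have h := isE3 a b Ω h3 hb hd
  obtain ⟨R, ⟨m, hm⟩, hrel⟩ := hi τ
  have hd3 : ∀ σ : Ω ≃ₐ[F] Ω, (act (crv3 a b) (rs K σ) R - R) +
      (act (crv3 a b) (rs K σ) R - R) + (act (crv3 a b) (rs K σ) R - R) = 0 := by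
    intro σ
    obtain ⟨σ', hσ'⟩ := exists_conj hN τ σ
    rw [← hrel σ σ' hσ']
    have h1 : act (crv3 a b) (ak τ) (f σ') + act (crv3 a b) (ak τ) (f σ') +
        act (crv3 a b) (ak τ) (f σ') = 0 := three_act _ (ak τ) (hf3 σ')
    rw [sub3, h1, hf3, sub_zero]
  have hfix : ∀ σ : Ω ≃ₐ[F] Ω, act (crv3 a b) (rs K σ) (R + R + R) = R + R + R := by
    intro σ
    have h1 := hd3 σ
    rw [sub3, ← map_add, ← map_add] at h1
    exact sub_eq_zero.1 h1
  have hRR : InT h (R + R + R) := by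
    apply torsF h3 hb hd hz hzF hbs hds m (R + R + R) hfix
    rw [← three_smul, smul_comm, hm, smul_zero]
  have key : ∀ σ σ' : Ω ≃ₐ[F] Ω, (∀ x, τ (σ' x) = σ (τ x)) →
      act (crv3 a b) (ak τ) (f σ') = f σ + (act (crv3 a b) (rs K σ) R - R) := by
    intro σ σ' h
    rw [← hrel σ σ' h]; abel
  have s0τ : ∀ P : Pt (crv3 a b) Ω, τ (S0 a b P) = S0 a b (act (crv3 a b) (ak τ) P) :=
    fun P => (S0_act (ak τ) P).symm
  obtain ⟨u0, hu0, q0⟩ := compare (K := F) (t := τ t0) (u := t0 * H0 a b R)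
    ((map_ne_zero τ).2 n0) (mul_ne_zero n0 (h0_ne h R))
    (fun σ => S0 a b (f σ) * S0 a b (act (crv3 a b) (rs K σ) R - R))
    (fun σ => mul_ne_zero (s0_ne h hz (hf3 σ)) (s0_ne h hz (hd3 σ))) (fun σ => by
      obtain ⟨σ', hσ'⟩ := exists_conj hN τ σ
      rw [← hσ', k0, map_mul, s0τ, key σ σ' hσ']
      congr 1
      exact s0_add h hz h3r (hf3 σ) (hd3 σ))
    (fun σ => by
      rw [map_mul, k0, (sign0 h3 hb hd hz hzF h3r hfix σ).2]; ring)
  have e1 : τ (algebraMap F Ω a0) = algebraMap F Ω u0 ^ 3 * (algebraMap F Ω a0 *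
      dT (algebraMap K Ω b) (R + R + R)) := by
    rw [← e0, map_pow, q0, mul_pow, mul_pow, h0_cube h]
  rcases hRR with e | e | e
  · refine ⟨u0, 0, hu0, ?_⟩
    rw [e1, e, pow_zero, mul_one, map_mul, map_pow]
    show _ * (_ * 1) = _
    rw [mul_one]
  · refine ⟨u0, 2, hu0, ?_⟩
    rw [e1, e, dT_pT, IsScalarTower.algebraMap_apply K F Ω]
    simp only [map_mul, map_pow]
  · refine ⟨-u0, 1, neg_ne_zero.2 hu0, ?_⟩
    rw [e1, e, dT_neg_pT, IsScalarTower.algebraMap_apply K F Ω]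
    simp only [map_mul, map_pow, map_neg]
    ring

include h3 hb hd hz hzF h3r hbs hds in
theorem inv1 (hN : Preserves K F Ω) {f : (Ω ≃ₐ[F] Ω) → Pt (crv3 a b) Ω}
    (hf : ∀ σ, InT (isE3 a b Ω h3 hb hd) (f σ)) (hi : InvOne (crv3 a b) f) {t : Ω} {a1 : F}
    (n1 : t ≠ 0) (e1 : t ^ 3 = algebraMap F Ω a1) (k1 : ∀ σ, σ t = ch z (f σ) * t)
    (τ : Ω ≃ₐ[K] Ω) :
    ∃ (u : F) (j e : ℕ), u ≠ 0 ∧ ((τ z = z ∧ e = 1) ∨ (τ z ≠ z ∧ e = 2)) ∧
      τ (algebraMap F Ω a1) = algebraMap F Ω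
        (u ^ 3 * (a1 * algebraMap K F (a ^ 3 - 27 * b) ^ j) ^ e) := by
  have h := isE3 a b Ω h3 hb hd
  obtain ⟨R, ⟨m, hm⟩, hrel⟩ := hi τ
  have hτf : ∀ σ', act (crv3 a b) (ak τ) (f σ') = f σ' := fun σ' => InT_fix h3 hb hd _ (hf σ')
  -- the coboundary of `R` has values in the group generated by `(0, 0)`
  have hdI : ∀ σ : Ω ≃ₐ[F] Ω, InT h (act (crv3 a b) (rs K σ) R - R) := by
    intro σ
    obtain ⟨σ', hσ'⟩ := exists_conj hN τ σ
    rw [← hrel σ σ' hσ', hτf, sub_eq_add_neg]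
    exact (hf σ').add h ((hf σ).neg h)
  have hd3 : ∀ σ : Ω ≃ₐ[F] Ω, (act (crv3 a b) (rs K σ) R - R) +
      (act (crv3 a b) (rs K σ) R - R) + (act (crv3 a b) (rs K σ) R - R) = 0 :=
    fun σ => (hdI σ).three h
  have hfix : ∀ σ : Ω ≃ₐ[F] Ω, act (crv3 a b) (rs K σ) (R + R + R) = R + R + R := by
    intro σ
    have h1 := hd3 σ
    rw [sub3, ← map_add, ← map_add] at h1
    exact sub_eq_zero.1 h1
  have hRR : R + R + R = 0 := by
    have h6 : InT h (R + R + R) := by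
      apply torsF h3 hb hd hz hzF hbs hds m (R + R + R) hfix
      rw [← three_smul, smul_comm, hm, smul_zero]
    refine no_third h3 hb hd hbs (X := R) (fun σ => ?_) h6
    rw [(sign0 h3 hb hd hz hzF h3r hfix σ).2]
    have e2 : S0 a b (act (crv3 a b) (rs K σ) R - R) = 1 := s0_inT h (hdI σ)
    rw [e2, one_mul]
  have hfi : ∀ σ σ' : Ω ≃ₐ[F] Ω, (∀ x, τ (σ' x) = σ (τ x)) →
      ch z (f σ') = ch z (f σ) * ch z (act (crv3 a b) (rs K σ) R - R) := by
    intro σ σ' h'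
    have e3 : f σ' = f σ + (act (crv3 a b) (rs K σ) R - R) := by
      rw [← hrel σ σ' h', hτf]; abel
    rw [e3]
    exact ch_add h hz (hf σ) (hdI σ)
  -- the Kummer generator of the coboundary of `R`
  have hρ : ∀ σ : Ω ≃ₐ[F] Ω, σ (T1 a b z R) = ch z (act (crv3 a b) (rs K σ) R - R) * T1 a b z R := by
    intro σ
    have e5 := T1_act (rs K σ) z R
    rw [show (rs K σ) z = z from hzF σ] at e5
    by_cases hPI : InT h R
    · have e6 : act (crv3 a b) (rs K σ) R - R = 0 := by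
        rw [InT_fix h3 hb hd _ hPI, sub_self]
      have e7 : T1 a b z R = 1 := t1_inT h hPI
      rw [e6, e7, map_one]
      show (1 : Ω) = 1 * 1
      ring
    · have e8 : act (crv3 a b) (rs K σ) R = R + (act (crv3 a b) (rs K σ) R - R) := by abel
      have e9 : T1 a b z (R + (act (crv3 a b) (rs K σ) R - R)) =
          ch z (act (crv3 a b) (rs K σ) R - R) * T1 a b z R := t1_add h hz hPI (hdI σ)
      rw [← e8] at e9
      exact e5.symm.trans e9
  have hρn : T1 a b z R ≠ 0 := t1_ne h hz R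
  have hcube : ∃ j : ℕ, T1 a b z R ^ 3 = algebraMap F Ω (algebraMap K F (a ^ 3 - 27 * b) ^ j) := by
    rcases t1_tor h3 hb hd hz hRR with ⟨e, -⟩ | e | e
    · exact ⟨0, by rw [e, pow_zero, map_one]⟩
    · exact ⟨1, by rw [e, pow_one, IsScalarTower.algebraMap_apply K F Ω]⟩
    · exact ⟨2, by rw [e, map_pow, IsScalarTower.algebraMap_apply K F Ω]⟩
  obtain ⟨j, hj⟩ := hcube
  have ha1 : a1 ≠ 0 := by
    rintro rfl
    rw [map_zero] at e1
    exact pow_ne_zero 3 n1 e1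
  have hτz : τ z = z ∨ τ z = z ^ 2 := by
    have h4 : (τ z - z) * (τ z - z ^ 2) = 0 := by
      have h5 : (τ z) ^ 2 + τ z + 1 = 0 := by
        rw [← map_pow, ← map_add, ← map_one τ, ← map_add, hz, map_zero]
      linear_combination h5 - (τ z) * hz + (z - 1) * hz
    rcases mul_eq_zero.1 h4 with h6 | h6
    · exact Or.inl (sub_eq_zero.1 h6)
    · exact Or.inr (sub_eq_zero.1 h6)
  rcases hτz with hτz | hτz
  · -- `τ` fixes `z`
    have chτ : ∀ S : Pt (crv3 a b) Ω, τ (ch z S) = ch z S := by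
      intro S
      rcases S with _ | ⟨x, y, hxy⟩
      · exact map_one τ
      · simp only [ch]
        split_ifs
        · exact hτz
        · rw [map_pow, hτz]
    obtain ⟨u, hu, q⟩ := compare (K := F) (t := τ t) (u := t * T1 a b z R)
      ((map_ne_zero τ).2 n1) (mul_ne_zero n1 hρn)
      (fun σ => ch z (f σ) * ch z (act (crv3 a b) (rs K σ) R - R))
      (fun σ => mul_ne_zero (ch_ne h hz (hf σ)) (ch_ne h hz (hdI σ))) (fun σ => by
        obtain ⟨σ', hσ'⟩ := exists_conj hN τ σ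
        rw [← hσ', k1, map_mul, chτ, hfi σ σ' hσ']) (fun σ => by
        rw [map_mul, k1, hρ]; ring)
    refine ⟨u, j, 1, hu, Or.inl ⟨hτz, rfl⟩, ?_⟩
    rw [← e1, map_pow, q, mul_pow, mul_pow, hj, e1, pow_one]
    simp only [map_mul, map_pow]
  · -- `τ` does not fix `z`
    have hz3 := z_cube hz
    have hzne : z ^ 2 ≠ z := by
      intro e
      have : z * (z - 1) = 0 := by linear_combination e
      rcases mul_eq_zero.1 this with h6 | h6
      · exact z_ne hz h6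
      · exact z_ne_one h hz (sub_eq_zero.1 h6)
    have chτ : ∀ S : Pt (crv3 a b) Ω, τ (ch z S) = (ch z S) ^ 2 := by
      intro S
      rcases S with _ | ⟨x, y, hxy⟩
      · show τ 1 = 1 ^ 2
        rw [map_one, one_pow]
      · simp only [ch]
        split_ifs
        · exact hτz
        · rw [map_pow, hτz]
    have hfix3 : ∀ σ : Ω ≃ₐ[F] Ω, σ (τ t * (t * T1 a b z R)) = τ t * (t * T1 a b z R) := by
      intro σ
      obtain ⟨σ', hσ'⟩ := exists_conj hN τ σ
      rw [map_mul, ← hσ', k1, map_mul, chτ, hfi σ σ' hσ', map_mul, k1, hρ]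
      have c1 : ch z (f σ) ^ 3 = 1 := ch_cube h hz (hf σ)
      have c2 : ch z (act (crv3 a b) (rs K σ) R - R) ^ 3 = 1 := ch_cube h hz (hdI σ)
      linear_combination (ch z (act (crv3 a b) (rs K σ) R - R) ^ 3 * (τ t * (t * T1 a b z R))) * c1 +
        (τ t * (t * T1 a b z R)) * c2
    obtain ⟨u, hu⟩ : τ t * (t * T1 a b z R) ∈ Set.range (algebraMap F Ω) := by
      rw [InfiniteGalois.mem_range_algebraMap_iff_fixed]
      exact hfix3
    have hne : τ t * (t * T1 a b z R) ≠ 0 :=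
      mul_ne_zero ((map_ne_zero τ).2 n1) (mul_ne_zero n1 hρn)
    have hu0 : u ≠ 0 := by
      rintro rfl
      rw [map_zero] at hu
      exact hne hu.symm
    have hΔ : algebraMap K F (a ^ 3 - 27 * b) ^ j ≠ 0 :=
      pow_ne_zero j ((_root_.map_ne_zero _).2 hd)
    have hprod : a1 * algebraMap K F (a ^ 3 - 27 * b) ^ j ≠ 0 := mul_ne_zero ha1 hΔ
    have e5 : τ (algebraMap F Ω a1) * algebraMap F Ω (a1 * algebraMap K F (a ^ 3 - 27 * b) ^ j) =
        algebraMap F Ω (u ^ 3) := by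
      have e6 : τ (algebraMap F Ω a1) = (τ t) ^ 3 := by rw [← e1, map_pow]
      rw [e6, map_pow (algebraMap F Ω) u, hu, mul_pow, mul_pow, hj, e1, map_mul (algebraMap F Ω) a1]
    refine ⟨u / (a1 * algebraMap K F (a ^ 3 - 27 * b) ^ j), j, 2, div_ne_zero hu0 hprod,
      Or.inr ⟨by rw [hτz]; exact hzne, rfl⟩, ?_⟩
    have hpn : algebraMap F Ω (a1 * algebraMap K F (a ^ 3 - 27 * b) ^ j) ≠ 0 :=
      (_root_.map_ne_zero _).2 hprod
    apply mul_right_cancel₀ hpn
    rw [e5, ← map_mul]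
    congr 1
    rw [div_pow, div_mul_eq_mul_div, div_mul_eq_mul_div, eq_div_iff (pow_ne_zero 3 hprod)]
    ring

end tor

end Pool.Agent.Helper7K9.T3
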