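import Pool.Agent.Helper7K9.T3.Act

/-!
Kummer theory for the two steps of the descent by 3-isogeny.
-/

set_option autoImplicit false
set_option linter.all false

open WeierstrassCurve WeierstrassCurve.Affine
open scoped Classical

namespace Pool.Agent.Helper7K9.T3

open Pool.Agent.TH115.GD (Pt act incl rs ak IsCoc LocTriv act_zero act_some act_inj act_act
  fixed_point exists_restrict)
open Pool.Agent.W309.TD (locConst_apply compare)

universe u

section kummer

variable {K Ω : Type u} [Field K] [Field Ω] [Algebra K Ω] [IsGalois K Ω]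

/-- A locally constant cubic character comes from a cube root. -/
theorem exists_root3 {z : Ω} (h3 : (3 : Ω) ≠ 0) (hz : z ^ 2 + z + 1 = 0)
    (hzK : ∀ σ : Ω ≃ₐ[K] Ω, σ z = z) (χ : (Ω ≃ₐ[K] Ω) → Ω)
    (hχ : ∀ σ, χ σ = 1 ∨ χ σ = z ∨ χ σ = z ^ 2)
    (hmul : ∀ σ τ, χ (σ * τ) = χ σ * χ τ) (hc : IsLocallyConstant χ) :
    ∃ (s : Ω) (a : K), s ≠ 0 ∧ s ^ 3 = algebraMap K Ω a ∧ ∀ σ, σ s = χ σ * s := by
  have hz3 : z ^ 3 = 1 := by linear_combination (z - 1) * hz
  have hz1 : z ≠ 1 := by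
    rintro rfl
    apply h3
    linear_combination hz
  have hχ3 : ∀ σ, χ σ ^ 3 = 1 := by
    intro σ
    rcases hχ σ with h | h | h
    · rw [h]; ring
    · rw [h, hz3]
    · rw [h]; linear_combination (z ^ 3 + 1) * hz3
  have hfix : ∀ s : Ω, (∀ σ, σ s = χ σ * s) → ∃ a : K, s ^ 3 = algebraMap K Ω a := by
    intro s hs
    have : s ^ 3 ∈ Set.range (algebraMap K Ω) := by
      rw [InfiniteGalois.mem_range_algebraMap_iff_fixed]
      intro σ
      rw [map_pow, hs, mul_pow, hχ3, one_mul]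
    obtain ⟨a, ha⟩ := this
    exact ⟨a, ha.symm⟩
  have hone : χ 1 = 1 := by
    have h1 := hmul 1 1
    rw [mul_one] at h1
    have h2 := hχ3 1
    have h4 : χ 1 ≠ 0 := by
      intro h5; rw [h5] at h2; norm_num at h2
    exact (mul_eq_left₀ h4).1 h1.symm
  by_cases htriv : ∀ σ, χ σ = 1
  · obtain ⟨a, ha⟩ := hfix 1 (fun σ => by rw [htriv σ, map_one, mul_one])
    exact ⟨1, a, one_ne_zero, ha, fun σ => by rw [htriv σ, map_one, mul_one]⟩
  · push Not at htriv
    obtain ⟨τ, hτ⟩ := htriv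
    obtain ⟨w, hw⟩ : ∃ w, w = χ τ := ⟨_, rfl⟩
    rw [← hw] at hτ
    have hw2 : w ^ 2 + w + 1 = 0 := by
      have h1 : (w - 1) * (w ^ 2 + w + 1) = 0 := by
        have := hχ3 τ
        rw [← hw] at this
        linear_combination this
      exact (mul_eq_zero.1 h1).resolve_left (sub_ne_zero.2 hτ)
    have hwK : ∀ σ : Ω ≃ₐ[K] Ω, σ w = w := by
      intro σ
      rcases hχ τ with h | h | h
      · rw [hw, h, map_one]
      · rw [hw, h, hzK]
      · rw [hw, h, map_pow, hzK]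
    have hw3 : w ^ 3 = 1 := by linear_combination (w - 1) * hw2
    have hχw : ∀ σ, χ σ = 1 ∨ χ σ = w ∨ χ σ = w ^ 2 := by
      intro σ
      rcases hχ τ with h | h | h
      · exact absurd (hw.trans h) hτ
      · rw [hw, h]; exact hχ σ
      · rw [hw, h]
        rcases hχ σ with h' | h' | h'
        · exact Or.inl h'
        · right; right; rw [h']; linear_combination (-z) * hz3
        · exact Or.inr (Or.inl h')
    let H : Subgroup (Ω ≃ₐ[K] Ω) :=
      { carrier := {σ | χ σ = 1}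
        mul_mem' := by
          intro a b ha hb
          show χ (a * b) = 1
          rw [hmul, show χ a = 1 from ha, show χ b = 1 from hb, mul_one]
        one_mem' := hone
        inv_mem' := by
          intro a ha
          show χ a⁻¹ = 1
          have := hmul a⁻¹ a
          rw [inv_mul_cancel, hone, show χ a = 1 from ha, mul_one] at this
          exact this.symm }
    have hHo : IsOpen (H : Set (Ω ≃ₐ[K] Ω)) := hc.isOpen_fiber 1
    let Hc : ClosedSubgroup (Ω ≃ₐ[K] Ω) := ⟨H, H.isClosed_of_isOpen hHo⟩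
    have hfx := InfiniteGalois.fixingSubgroup_fixedField Hc
    have hτn : τ ∉ (IntermediateField.fixedField (Hc : Subgroup (Ω ≃ₐ[K] Ω))).fixingSubgroup := by
      rw [hfx]
      intro h
      exact hτ (hw.trans h)
    rw [IntermediateField.mem_fixingSubgroup_iff] at hτn
    push Not at hτn
    obtain ⟨x, hx, hx'⟩ := hτn
    have hxH : ∀ σ, χ σ = 1 → σ x = x := by
      intro σ hσ
      exact hx ⟨σ, hσ⟩
    have hsame : ∀ y : Ω, (∀ σ, χ σ = 1 → σ y = y) → ∀ σ σ' : Ω ≃ₐ[K] Ω, χ σ = χ σ' →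
        σ y = σ' y := by
      intro y hy σ σ' h
      have h1 : χ (σ'⁻¹ * σ) = 1 := by
        rw [hmul, h, ← hmul, inv_mul_cancel, hone]
      have h2 := hy _ h1
      rw [AlgEquiv.mul_apply] at h2
      have h4 := congrArg σ' h2
      rw [← AlgEquiv.mul_apply σ' σ'⁻¹, mul_inv_cancel, AlgEquiv.one_apply] at h4
      exact h4
    have hττ : χ (τ * τ) = w ^ 2 := by rw [hmul, ← hw, pow_two]
    -- the resolvent
    have hres : ∀ y : Ω, (∀ σ, χ σ = 1 → σ y = y) → ∀ σ : Ω ≃ₐ[K] Ω,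
        σ (y + w ^ 2 * τ y + w * τ (τ y)) = χ σ * (y + w ^ 2 * τ y + w * τ (τ y)) := by
      intro y hy σ
      have e1 : σ (τ y) = (σ * τ) y := rfl
      have e2 : σ (τ (τ y)) = (σ * (τ * τ)) y := rfl
      have e3 : τ (τ y) = (τ * τ) y := rfl
      have e4 : (1 : Ω ≃ₐ[K] Ω) y = y := rfl
      rw [map_add, map_add, map_mul, map_mul, map_pow, hwK, e1, e2, e3]
      rcases hχw σ with h | h | h
      · rw [hsame y hy σ 1 (by rw [h, hone]), hsame y hy (σ * τ) τ (by rw [hmul, h, one_mul]),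
          hsame y hy (σ * (τ * τ)) (τ * τ) (by rw [hmul, h, one_mul]), h, e4]
        ring
      · rw [hsame y hy σ τ (by rw [h, hw]), hsame y hy (σ * τ) (τ * τ) (by rw [hmul, h, hττ, ← hw, pow_two]),
          hsame y hy (σ * (τ * τ)) 1 (by rw [hmul, h, hττ, hone]; linear_combination hw3), h, e4]
        linear_combination (-τ y) * hw3
      · rw [hsame y hy σ (τ * τ) (by rw [h, hττ]), hsame y hy (σ * τ) 1
          (by rw [hmul, h, hone, ← hw]; linear_combination hw3),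
          hsame y hy (σ * (τ * τ)) τ (by rw [hmul, h, hττ, ← hw]; linear_combination w * hw3), h, e4]
        linear_combination (-w * τ y - (τ * τ) y) * hw3
    have hx2 : ∀ σ, χ σ = 1 → σ (x ^ 2) = x ^ 2 := fun σ h => by rw [map_pow, hxH σ h]
    by_cases hr : x + w ^ 2 * τ x + w * τ (τ x) = 0
    · have hr2 : x ^ 2 + w ^ 2 * τ (x ^ 2) + w * τ (τ (x ^ 2)) ≠ 0 := by
        intro hr2
        rw [map_pow, map_pow] at hr2
        have hw0 : w ≠ 0 := by
          rintro h; rw [h] at hw3; norm_num at hw3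
        -- `(x - τ x) (x - τ τ x) = 0`
        have key : (x - τ x) * (x - τ (τ x)) = 0 := by
          linear_combination (-(τ x + τ (τ x))) * hr + hr2 + (τ x * τ (τ x)) * hw2
        rcases mul_eq_zero.1 key with h | h
        · exact hx' (sub_eq_zero.1 h).symm
        · apply hx'
          have h5 : τ (τ x) = x := (sub_eq_zero.1 h).symm
          have h6 : τ (τ (τ x)) = x := by
            have : τ (τ (τ x)) = (τ * (τ * τ)) x := rfl
            rw [this, hsame x hxH _ 1 (by rw [hmul, hττ, hone, ← hw]; linear_combination hw3)]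
            rfl
          rw [h5] at h6
          exact h6
      obtain ⟨a, ha⟩ := hfix _ (hres _ hx2)
      exact ⟨_, a, hr2, ha, hres _ hx2⟩
    · obtain ⟨a, ha⟩ := hfix _ (hres _ hxH)
      exact ⟨_, a, hr, ha, hres _ hxH⟩

end kummer

section cocycle

variable {K F Ω : Type u} [Field K] [Field F] [Field Ω] [Algebra K F] [Algebra F Ω] [Algebra K Ω]
  [IsScalarTower K F Ω] {a b : K} (h3 : (3 : K) ≠ 0) (hb : b ≠ 0) (hd : a ^ 3 - 27 * b ≠ 0)
  {z : Ω} (hz : z ^ 2 + z + 1 = 0) (hzF : ∀ σ : Ω ≃ₐ[F] Ω, σ z = z)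
  (h3r : ∀ x : Ω, ∃ y, y ^ 3 = x)

/-- The function `s0` on `E(Ω)`. -/
noncomputable abbrev S0 (a b : K) (P : Pt (crv3 a b) Ω) : Ω :=
  s0 (algebraMap K Ω a) (algebraMap K Ω b) P

/-- The function `h0` on `E(Ω)`. -/
noncomputable abbrev H0 (a b : K) (P : Pt (crv3 a b) Ω) : Ω :=
  h0 (algebraMap K Ω a) (algebraMap K Ω b) P

theorem S0_act {Ω' : Type u} [Field Ω'] [Algebra K Ω'] (φ : Ω →ₐ[K] Ω') (P : Pt (crv3 a b) Ω) :
    S0 a b (act (crv3 a b) φ P) = φ (S0 a b P) := by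
  have := s0_act (crv3 a b) φ (algebraMap K Ω a) (algebraMap K Ω b) P
  rw [φ.commutes, φ.commutes] at this
  exact this

theorem H0_act {Ω' : Type u} [Field Ω'] [Algebra K Ω'] (φ : Ω →ₐ[K] Ω') (P : Pt (crv3 a b) Ω) :
    H0 a b (act (crv3 a b) φ P) = φ (H0 a b P) := by
  have := h0_act (crv3 a b) φ (algebraMap K Ω a) (algebraMap K Ω b) P
  rw [φ.commutes, φ.commutes] at this
  exact this

include h3 hb hd hz hzF in
/-- The pairing is fixed by `Gal(Ω / F)`. -/
theorem S0_fix {S : Pt (crv3 a b) Ω} (hS : S + S + S = 0) (σ : Ω ≃ₐ[F] Ω) :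
    S0 a b (act (crv3 a b) (rs K σ) S) = S0 a b S := by
  rw [S0_act]
  have h := isE3 a b Ω h3 hb hd
  rcases s0_val h hz hS with ⟨h', -⟩ | ⟨h' | h', -⟩
  · show (rs K σ) (s0 _ _ S) = s0 _ _ S
    rw [h', map_one]
  · show (rs K σ) (s0 _ _ S) = s0 _ _ S
    rw [h']; exact hzF σ
  · show (rs K σ) (s0 _ _ S) = s0 _ _ S
    rw [h', map_pow]
    congr 1
    exact hzF σ

include h3 hb hd hz hzF h3r in
theorem sign0 {H : Pt (crv3 a b) Ω} (hH : ∀ σ : Ω ≃ₐ[F] Ω,
      act (crv3 a b) (rs K σ) (H + H + H) = H + H + H) (σ : Ω ≃ₐ[F] Ω) :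
    (act (crv3 a b) (rs K σ) H - H) + (act (crv3 a b) (rs K σ) H - H) +
      (act (crv3 a b) (rs K σ) H - H) = 0 ∧
    σ (H0 a b H) = S0 a b (act (crv3 a b) (rs K σ) H - H) * H0 a b H := by
  have h := isE3 a b Ω h3 hb hd
  set S := act (crv3 a b) (rs K σ) H - H with hS
  have hSS : S + S + S = 0 := by
    have e := hH σ
    rw [map_add, map_add] at e
    have : S + S + S = (act (crv3 a b) (rs K σ) H + act (crv3 a b) (rs K σ) H +
      act (crv3 a b) (rs K σ) H) - (H + H + H) := by rw [hS]; abel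
    rw [this, e, sub_self]
  refine ⟨hSS, ?_⟩
  have hSH : act (crv3 a b) (rs K σ) H = H + S := by rw [hS]; abel
  have hPS : H + H + H = 0 → S0 a b S = 1 := by
    intro h'
    have e : S = act (crv3 a b) (rs K σ) H + -H := by rw [hS]; abel
    have h3' : -H + -H + -H = 0 := by rw [← neg_add, ← neg_add, h', neg_zero]
    have e1 := s0_add h hz h3r (three_act (crv3 a b) (rs K σ) h') h3'
    rw [e]
    have e2 := S0_fix h3 hb hd hz hzF h' σ
    have e3 := s0_neg h hz h3r h'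
    show s0 _ _ (act (crv3 a b) (rs K σ) H + -H) = 1
    rw [e1]
    have e4 : s0 (algebraMap K Ω a) (algebraMap K Ω b) (act (crv3 a b) (rs K σ) H) =
      s0 (algebraMap K Ω a) (algebraMap K Ω b) H := e2
    rw [e4, mul_comm]
    exact e3
  have h1 := H0_act (rs K σ) H
  rw [hSH] at h1
  have h2 := h0_translate h hz hSS hPS
  have h4 : H0 a b (H + S) = S0 a b S * H0 a b H := h2
  rw [← h4]
  exact h1.symm

section gal

variable [IsGalois F Ω]

include h3 hb hd hz hzF h3r in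
/-- The first Kummer generator. -/
theorem kummer0 {f : (Ω ≃ₐ[F] Ω) → Pt (crv3 a b) Ω} (hf : IsCoc (crv3 a b) f)
    (hf3 : ∀ σ, f σ + f σ + f σ = 0) :
    ∃ (t0 : Ω) (a0 : F), t0 ≠ 0 ∧ t0 ^ 3 = algebraMap F Ω a0 ∧ ∀ σ, σ t0 = S0 a b (f σ) * t0 := by
  have h := isE3 a b Ω h3 hb hd
  refine exists_root3 (K := F) h.three hz hzF (fun σ => S0 a b (f σ)) (fun σ => ?_)
    (fun σ τ => ?_) (hf.lc.comp (fun P => S0 a b P))
  · rcases s0_val h hz (hf3 σ) with ⟨h', -⟩ | ⟨h' | h', -⟩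
    · exact Or.inl h'
    · exact Or.inr (Or.inl h')
    · exact Or.inr (Or.inr h')
  · show S0 a b (f (σ * τ)) = S0 a b (f σ) * S0 a b (f τ)
    rw [hf.mul, ← S0_fix h3 hb hd hz hzF (hf3 τ) σ]
    exact s0_add h hz h3r (hf3 σ) (three_act _ _ (hf3 τ))

include hz hzF in
/-- The second Kummer generator. -/
theorem kummer1 {f : (Ω ≃ₐ[F] Ω) → Pt (crv3 a b) Ω} (hf : IsCoc (crv3 a b) f)
    (hf3 : ∀ σ, InT (isE3 a b Ω h3 hb hd) (f σ)) :
    ∃ (t : Ω) (a1 : F), t ≠ 0 ∧ t ^ 3 = algebraMap F Ω a1 ∧ ∀ σ, σ t = ch z (f σ) * t := by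
  have h := isE3 a b Ω h3 hb hd
  refine exists_root3 (K := F) h.three hz hzF (fun σ => ch z (f σ)) (fun σ => ?_)
    (fun σ τ => ?_) (hf.lc.comp (fun P => ch z P))
  · rcases hf3 σ with h' | h' | h'
    · left; rw [h']; rfl
    · right; left; rw [h', ch_pT]
    · right; right; rw [h', ch_neg_pT]
  · show ch z (f (σ * τ)) = ch z (f σ) * ch z (f τ)
    rw [hf.mul, InT_fix h3 hb hd _ (hf3 τ)]
    exact ch_add h hz (hf3 σ) (hf3 τ)

end gal

include h3 hb hd hz hzF h3r in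
/-- If the first generator is that of a third `H` of a point, then `f` and the coboundary of `H` differ
by a multiple of `(0, 0)`. -/
theorem step0 {f : (Ω ≃ₐ[F] Ω) → Pt (crv3 a b) Ω} (hf3 : ∀ σ, f σ + f σ + f σ = 0) {t0 : Ω}
    (n0 : t0 ≠ 0) (k0 : ∀ σ, σ t0 = S0 a b (f σ) * t0) {H : Pt (crv3 a b) Ω}
    (hH : ∀ σ : Ω ≃ₐ[F] Ω, act (crv3 a b) (rs K σ) (H + H + H) = H + H + H) {c0 : F}
    (e0 : t0 ^ 3 = algebraMap F Ω c0 ^ 3 * dT (algebraMap K Ω b) (H + H + H)) (σ : Ω ≃ₐ[F] Ω) :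
    InT (isE3 a b Ω h3 hb hd) (f σ - (act (crv3 a b) (rs K σ) H - H)) := by
  have h := isE3 a b Ω h3 hb hd
  obtain ⟨hSS, m0⟩ := sign0 h3 hb hd hz hzF h3r hH σ
  rw [← h0_cube h, ← mul_pow] at e0
  set S := act (crv3 a b) (rs K σ) H - H with hS
  have hSn : -S + -S + -S = 0 := by rw [← neg_add, ← neg_add, hSS, neg_zero]
  have key : S0 a b (f σ) = S0 a b S := by
    -- `t0 = ω c0 h(H)` with `ω` a cube root of unity
    have hne : algebraMap F Ω c0 * H0 a b H ≠ 0 := by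
      intro e
      have e' : algebraMap F Ω c0 * h0 (algebraMap K Ω a) (algebraMap K Ω b) H = 0 := e
      rw [e', zero_pow (by norm_num)] at e0
      exact pow_ne_zero 3 n0 e0
    have hω : (t0 / (algebraMap F Ω c0 * H0 a b H)) ^ 3 = 1 := by
      rw [div_pow, e0]
      exact div_self (pow_ne_zero 3 hne)
    obtain ⟨ω, hω'⟩ : ∃ ω, ω = t0 / (algebraMap F Ω c0 * H0 a b H) := ⟨_, rfl⟩
    rw [← hω'] at hω
    have hσω : σ ω = ω := by
      have h5 : (ω - 1) * ((ω - z) * (ω - z ^ 2)) = 0 := by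
        have : (ω - 1) * ((ω - z) * (ω - z ^ 2)) = ω ^ 3 - 1 := by
          linear_combination (-(ω ^ 2) + ω * z - z + 1) * hz
        rw [this, hω, sub_self]
      rcases mul_eq_zero.1 h5 with h6 | h6
      · rw [sub_eq_zero.1 h6, map_one]
      · rcases mul_eq_zero.1 h6 with h7 | h7
        · rw [sub_eq_zero.1 h7, hzF]
        · rw [sub_eq_zero.1 h7, map_pow, hzF]
    have ht0 : t0 = ω * (algebraMap F Ω c0 * H0 a b H) := by
      rw [hω', div_mul_cancel₀ _ hne]
    have key : σ t0 = S0 a b S * t0 := by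
      rw [ht0, map_mul, map_mul, hσω, σ.commutes, m0]; ring
    rw [k0] at key
    exact mul_right_cancel₀ n0 key
  apply s0_one h hz
  · have : f σ - S + (f σ - S) + (f σ - S) = (f σ + f σ + f σ) - (S + S + S) := by abel
    rw [this, hf3, hSS, sub_zero]
  · rw [sub_eq_add_neg, s0_add h hz h3r (hf3 σ) hSn]
    have e1 : s0 (algebraMap K Ω a) (algebraMap K Ω b) (f σ) =
      s0 (algebraMap K Ω a) (algebraMap K Ω b) S := key
    rw [e1, mul_comm]
    exact s0_neg h hz h3r hSS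

include hz hzF in
/-- If the second generator is that of `H`, then `f` is the coboundary of `H`. -/
theorem step1 {f : (Ω ≃ₐ[F] Ω) → Pt (crv3 a b) Ω}
    (hf3 : ∀ σ, InT (isE3 a b Ω h3 hb hd) (f σ))
    {t : Ω} (n1 : t ≠ 0) (k1 : ∀ σ, σ t = ch z (f σ) * t) {H : Pt (crv3 a b) Ω} {s : Ω}
    (hH : ∀ σ : Ω ≃ₐ[F] Ω, InT (isE3 a b Ω h3 hb hd) (act (crv3 a b) (rs K σ) H - H) ∧
      σ s = ch z (act (crv3 a b) (rs K σ) H - H) * s) {c1 : F}
    (e1 : t ^ 3 = algebraMap F Ω c1 ^ 3 * s ^ 3) (σ : Ω ≃ₐ[F] Ω) :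
    f σ = act (crv3 a b) (rs K σ) H - H := by
  have h := isE3 a b Ω h3 hb hd
  obtain ⟨hT, m1⟩ := hH σ
  rw [← mul_pow] at e1
  set S := act (crv3 a b) (rs K σ) H - H with hS
  have key : ch z (f σ) = ch z S := by
    have hne : algebraMap F Ω c1 * s ≠ 0 := by
      intro e
      rw [e, zero_pow (by norm_num)] at e1
      exact pow_ne_zero 3 n1 e1
    obtain ⟨ω, hω'⟩ : ∃ ω, ω = t / (algebraMap F Ω c1 * s) := ⟨_, rfl⟩
    have hω : ω ^ 3 = 1 := by
      rw [hω', div_pow, e1]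
      exact div_self (pow_ne_zero 3 hne)
    have hσω : σ ω = ω := by
      have h5 : (ω - 1) * ((ω - z) * (ω - z ^ 2)) = 0 := by
        have : (ω - 1) * ((ω - z) * (ω - z ^ 2)) = ω ^ 3 - 1 := by
          linear_combination (-(ω ^ 2) + ω * z - z + 1) * hz
        rw [this, hω, sub_self]
      rcases mul_eq_zero.1 h5 with h6 | h6
      · rw [sub_eq_zero.1 h6, map_one]
      · rcases mul_eq_zero.1 h6 with h7 | h7
        · rw [sub_eq_zero.1 h7, hzF]
        · rw [sub_eq_zero.1 h7, map_pow, hzF]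
    have ht0 : t = ω * (algebraMap F Ω c1 * s) := by
      rw [hω', div_mul_cancel₀ _ hne]
    have key : σ t = ch z S * t := by
      rw [ht0, map_mul, map_mul, hσω, σ.commutes, m1]; ring
    rw [k1] at key
    exact mul_right_cancel₀ n1 key
  have h5 : InT h (f σ - S) := by
    rw [sub_eq_add_neg]
    exact (hf3 σ).add h (hT.neg h)
  have h6 : ch z (f σ - S) = 1 := by
    have e2 : ch z (f σ) = ch z (f σ - S) * ch z S := by
      rw [← ch_add h hz h5 hT, sub_add_cancel]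
    rw [key] at e2
    exact mul_right_cancel₀ (ch_ne h hz hT) (by rw [one_mul]; exact e2.symm)
  exact sub_eq_zero.1 (ch_inj h hz h5 h6)

end cocycle

end Pool.Agent.Helper7K9.T3
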