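import Pool.Agent.Helper7K9.T3.Fac

/-!
The descent function is a homomorphism modulo cubes; sufficient conditions for enough points.
-/

set_option autoImplicit false
set_option linter.all false

open Polynomial IsDedekindDomain WeierstrassCurve WeierstrassCurve.Affine
open scoped Classical

namespace Pool.Agent.Helper7K9.T3

open Pool.Agent.TH115.GD (Pt act incl rs ak act_act splits_of_sep splits_dvd)
open Pool.Agent.W309.TD (compare)

universe u

section add

variable {K F Ω : Type u} [Field K] [Field F] [Field Ω] [Algebra K F] [Algebra F Ω] [Algebra K Ω]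
  [IsScalarTower K F Ω] [IsGalois F Ω] {a b : K} (h3 : (3 : K) ≠ 0) (hb : b ≠ 0)
  (hd : a ^ 3 - 27 * b ≠ 0) {z : Ω} (hz : z ^ 2 + z + 1 = 0) (hzF : ∀ σ : Ω ≃ₐ[F] Ω, σ z = z)
  (h3r : ∀ x : Ω, ∃ y, y ^ 3 = x)

include h3 hb hd hz hzF h3r in
/-- The descent function is a homomorphism modulo cubes. -/
theorem dT_add (P Q : Pt (crv3 a b) K) : ∃ c : F, c ≠ 0 ∧ algebraMap K F (dT b (P + Q)) =
    c ^ 3 * (algebraMap K F (dT b P) * algebraMap K F (dT b Q)) := by
  have h := isE3 a b Ω h3 hb hd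
  set ip := act (crv3 a b) (incl K K Ω) P with hip
  set iq := act (crv3 a b) (incl K K Ω) Q with hiq
  obtain ⟨P', hP'⟩ := third h hz h3r ip
  obtain ⟨Q', hQ'⟩ := third h hz h3r iq
  have fixK : ∀ (R : Pt (crv3 a b) K) (φ : Ω →ₐ[K] Ω), act (crv3 a b) φ
      (act (crv3 a b) (incl K K Ω) R) = act (crv3 a b) (incl K K Ω) R := by
    intro R φ
    have h1 : φ.comp (incl K K Ω) = incl K K Ω := AlgHom.ext fun x => φ.commutes x
    rw [act_act, h1]
  have fP : ∀ σ : Ω ≃ₐ[F] Ω, act (crv3 a b) (rs K σ) (P' + P' + P') = P' + P' + P' := by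
    intro σ; rw [hP']; exact fixK P _
  have fQ : ∀ σ : Ω ≃ₐ[F] Ω, act (crv3 a b) (rs K σ) (Q' + Q' + Q') = Q' + Q' + Q' := by
    intro σ; rw [hQ']; exact fixK Q _
  have e3 : (P' + Q') + (P' + Q') + (P' + Q') = (P' + P' + P') + (Q' + Q' + Q') := by abel
  have fR : ∀ σ : Ω ≃ₐ[F] Ω, act (crv3 a b) (rs K σ) ((P' + Q') + (P' + Q') + (P' + Q')) =
      (P' + Q') + (P' + Q') + (P' + Q') := by
    intro σ
    rw [e3, map_add, fP, fQ]
  obtain ⟨c0, hc0, q0⟩ := compare (K := F) (t := H0 a b (P' + Q')) (u := H0 a b P' * H0 a b Q')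
    (h0_ne h _) (mul_ne_zero (h0_ne h _) (h0_ne h _))
    (fun σ => S0 a b (act (crv3 a b) (rs K σ) P' - P') * S0 a b (act (crv3 a b) (rs K σ) Q' - Q'))
    (fun σ => mul_ne_zero (s0_ne h hz (sign0 h3 hb hd hz hzF h3r fP σ).1)
      (s0_ne h hz (sign0 h3 hb hd hz hzF h3r fQ σ).1))
    (fun σ => by
      obtain ⟨-, g⟩ := sign0 h3 hb hd hz hzF h3r fR σ
      rw [g]
      congr 1
      have e4 : act (crv3 a b) (rs K σ) (P' + Q') - (P' + Q') =
          (act (crv3 a b) (rs K σ) P' - P') + (act (crv3 a b) (rs K σ) Q' - Q') := by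
        rw [map_add]; abel
      rw [e4]
      exact s0_add h hz h3r (sign0 h3 hb hd hz hzF h3r fP σ).1 (sign0 h3 hb hd hz hzF h3r fQ σ).1)
    (fun σ => by
      rw [map_mul, (sign0 h3 hb hd hz hzF h3r fP σ).2, (sign0 h3 hb hd hz hzF h3r fQ σ).2]
      ring)
  refine ⟨c0, hc0, ?_⟩
  apply (algebraMap F Ω).injective
  have dK : ∀ R : Pt (crv3 a b) K, algebraMap F Ω (algebraMap K F (dT b R)) =
      dT (algebraMap K Ω b) (act (crv3 a b) (incl K K Ω) R) := by
    intro R
    rw [← IsScalarTower.algebraMap_apply K F Ω]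
    exact (dT_act (crv3 a b) (incl K K Ω) b R).symm
  have h5 : act (crv3 a b) (incl K K Ω) (P + Q) = (P' + Q') + (P' + Q') + (P' + Q') := by
    rw [map_add, ← hip, ← hiq, e3, hP', hQ']
  rw [dK, h5, ← h0_cube h, map_mul, map_pow, map_mul, dK, dK, ← hip, ← hiq, ← hP', ← hQ',
    ← h0_cube h, ← h0_cube h]
  have q0' : h0 (algebraMap K Ω a) (algebraMap K Ω b) (P' + Q') = algebraMap F Ω c0 *
      (h0 (algebraMap K Ω a) (algebraMap K Ω b) P' *
        h0 (algebraMap K Ω a) (algebraMap K Ω b) Q') := q0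
  rw [q0']
  ring

end add

section rep

variable {K F : Type} [Field K] [Field F] [Algebra K F]

/-- The element `x` of `F` is the value of the descent function at a point over `K`, up to cubes. -/
def Rep (K : Type) {F : Type} [Field K] [Field F] [Algebra K F] (a b : K) (x : F) : Prop :=
  ∃ (P : Pt (crv3 a b) K) (c : F), c ≠ 0 ∧ x = c ^ 3 * algebraMap K F (dT b P)

theorem Rep.cube {a b : K} {c : F} (hc : c ≠ 0) : Rep K a b (c ^ 3) :=
  ⟨0, c, hc, by
    show _ = _ * algebraMap K F 1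
    rw [map_one, mul_one]⟩

theorem Rep.one {a b : K} : Rep K a b (1 : F) := by
  have := Rep.cube (K := K) (a := a) (b := b) (one_ne_zero (α := F))
  rwa [one_pow] at this

end rep

end Pool.Agent.Helper7K9.T3
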