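import Pool.Agent.Helper7K9.T3.Trn

/-!
The points of order three, and division of points by three.
-/

set_option autoImplicit false
set_option linter.all false
set_option maxRecDepth 4000

open WeierstrassCurve WeierstrassCurve.Affine
open scoped Classical

namespace Pool.Agent.Helper7K9.T3

section crv

variable {F : Type*} [Field F] {W : Affine F} {a b : F} (h : IsE3 W a b)

/-- `P` is a multiple of `(0, 0)`. -/
def InT (P : W.Point) : Prop := P = 0 ∨ P = pT h ∨ P = -(pT h)

include h

theorem InT.three {P : W.Point} (hP : InT h P) : P + P + P = 0 := by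
  rcases hP with rfl | rfl | rfl
  · rw [add_zero, add_zero]
  · exact three_pT h
  · rw [← neg_add, ← neg_add, three_pT h, neg_zero]

theorem InT.zero : InT h (0 : W.Point) := Or.inl rfl

theorem dbl_pT : pT h + pT h = -(pT h) := by
  have := three_pT h
  exact eq_neg_of_add_eq_zero_left this

theorem InT.add {P Q : W.Point} (hP : InT h P) (hQ : InT h Q) : InT h (P + Q) := by
  have e2 : -(pT h) + -(pT h) = pT h := by rw [← neg_add, dbl_pT, neg_neg]
  rcases hP with rfl | rfl | rfl <;> rcases hQ with rfl | rfl | rfl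
  · exact Or.inl (add_zero _)
  · exact Or.inr (Or.inl (zero_add _))
  · exact Or.inr (Or.inr (zero_add _))
  · exact Or.inr (Or.inl (add_zero _))
  · exact Or.inr (Or.inr (dbl_pT h))
  · exact Or.inl (add_neg_cancel _)
  · exact Or.inr (Or.inr (add_zero _))
  · exact Or.inl (neg_add_cancel _)
  · exact Or.inr (Or.inl e2)

theorem InT.neg {P : W.Point} (hP : InT h P) : InT h (-P) := by
  rcases hP with rfl | rfl | rfl
  · exact Or.inl neg_zero
  · exact Or.inr (Or.inr rfl)
  · exact Or.inr (Or.inl (neg_neg _))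

theorem s0_inT {P : W.Point} (hP : InT h P) : s0 a b P = 1 := by
  rcases hP with rfl | rfl | rfl
  · rfl
  · exact s0_pT h
  · exact s0_neg_pT h

theorem h0_one {P : W.Point} (hP : P + P + P = 0) : h0 a b P = 1 := by
  rcases exists_pt h P with rfl | rfl | rfl | ⟨α, β, γ, h1, h2, rfl⟩
  · rfl
  · unfold pT h0; simp
  · obtain ⟨hQ, e⟩ := neg_pT h
    rw [e]; unfold h0; simp
  · rw [h0_pt]
    unfold hh
    rw [if_pos ((triple_iff h h1 h2).1 hP)]

variable {z : F} (hz : z ^ 2 + z + 1 = 0)

omit h in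
include hz in
theorem z_cube : z ^ 3 = 1 := by linear_combination (z - 1) * hz

omit h in
include hz in
theorem z_ne : z ≠ 0 := by
  rintro rfl
  have := z_cube hz
  rw [zero_pow (by norm_num)] at this
  exact zero_ne_one this

include hz in
theorem z_ne_one : z ≠ 1 := by
  rintro rfl
  apply h.three
  linear_combination hz

include hz in
theorem z_sq_ne_one : z ^ 2 ≠ 1 := by
  intro e
  apply z_ne_one h hz
  have := z_cube hz
  have e2 : z ^ 3 = z * z ^ 2 := by ring
  rw [e2, e, mul_one] at this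
  exact this

omit h in
include hz in
theorem uw_pt (h3 : (3 : F) ≠ 0) {α β γ : F} (h1 : α + β + γ = -a) (h2 : α * β * γ = -b) :
    Dd α β γ = (α + z ^ 2 * β + z * γ) * (α + z * β + z ^ 2 * γ) ∧
    (α + z ^ 2 * β + z * γ) ^ 3 + (α + z * β + z ^ 2 * γ) ^ 3 +
      3 * a * (α + z ^ 2 * β + z * γ) * (α + z * β + z ^ 2 * γ) = a ^ 3 - 27 * b := by
  obtain ⟨v1, v2, v3, v4⟩ := uw_val (a := a) (z := z) (u := α + z ^ 2 * β + z * γ)
    (w := α + z * β + z ^ 2 * γ) (α := α) (β := β) (γ := γ) h3 hz
    (by linear_combination h1 - (β + γ) * hz) (aux_e2 hz h1) (aux_e3 hz h1)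
  refine ⟨v1, ?_⟩
  linear_combination -v4 + 27 * h2

include hz in
/-- The values of the pairing. -/
theorem s0_cases {α β γ : F} (h1 : α + β + γ = -a) (h2 : α * β * γ = -b)
    (hD : Dd α β γ = 0) :
    (α + z * β + z ^ 2 * γ = 0 ∧ s0 a b (pt h h1 h2) = z) ∨
    (α + z ^ 2 * β + z * γ = 0 ∧ s0 a b (pt h h1 h2) = z ^ 2) := by
  obtain ⟨d1, d2⟩ := dist h h1 h2 hD
  have hD' := hD
  rw [(uw_pt (a := a) hz h.three h1 h2).1] at hD'
  rw [s0_pt h h1 h2 hD]
  rcases mul_eq_zero.1 hD' with e | e
  · right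
    refine ⟨e, ?_⟩
    rw [div_eq_iff d2]
    linear_combination -e + γ * hz
  · left
    refine ⟨e, ?_⟩
    rw [div_eq_iff d2]
    linear_combination -e + γ * hz

include hz in
theorem s0_val {S : W.Point} (hS : S + S + S = 0) : (s0 a b S = 1 ∧ InT h S) ∨
    ((s0 a b S = z ∨ s0 a b S = z ^ 2) ∧ ¬ InT h S) := by
  rcases exists_pt h S with rfl | rfl | rfl | ⟨α, β, γ, h1, h2, rfl⟩
  · exact Or.inl ⟨rfl, Or.inl rfl⟩
  · exact Or.inl ⟨s0_pT h, Or.inr (Or.inl rfl)⟩
  · exact Or.inl ⟨s0_neg_pT h, Or.inr (Or.inr rfl)⟩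
  · right
    rw [triple_iff] at hS
    refine ⟨?_, ?_⟩
    · rcases s0_cases h hz h1 h2 hS with h' | h'
      · exact Or.inl h'.2
      · exact Or.inr h'.2
    · intro hh
      have e := s0_inT h hh
      rcases s0_cases h hz h1 h2 hS with h' | h'
      · rw [h'.2] at e; exact z_ne_one h hz e
      · rw [h'.2] at e; exact z_sq_ne_one h hz e

include hz in
theorem s0_one {S : W.Point} (hS : S + S + S = 0) (e : s0 a b S = 1) : InT h S := by
  rcases s0_val h hz hS with h' | h'
  · exact h'.2
  · exfalso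
    rcases h'.1 with h3 | h3
    · rw [h3] at e; exact z_ne_one h hz e
    · rw [h3] at e; exact z_sq_ne_one h hz e

include hz in
theorem s0_cube {S : W.Point} (hS : S + S + S = 0) : s0 a b S ^ 3 = 1 := by
  have hz3 := z_cube hz
  rcases s0_val h hz hS with h' | h'
  · rw [h'.1]; ring
  · rcases h'.1 with h3 | h3
    · rw [h3, hz3]
    · rw [h3]
      linear_combination (z ^ 3 + 1) * hz3

include hz in
theorem s0_ne {S : W.Point} (hS : S + S + S = 0) : s0 a b S ≠ 0 := by
  intro e
  have := s0_cube h hz hS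
  rw [e, zero_pow (by norm_num)] at this
  exact zero_ne_one this

include hz in
theorem h0_translate_z {P S : W.Point} (hP : P + P + P ≠ 0) {α0 β0 γ0 : F}
    (h1' : α0 + β0 + γ0 = -a) (h2' : α0 * β0 * γ0 = -b) (hw : α0 + z * β0 + z ^ 2 * γ0 = 0) :
    h0 a b (P + pt h h1' h2') = z * h0 a b P := by
  rcases exists_pt h P with rfl | rfl | rfl | ⟨α, β, γ, h1, h2, rfl⟩
  · exact absurd (InT.three h (Or.inl rfl)) hP
  · exact absurd (InT.three h (Or.inr (Or.inl rfl))) hP
  · exact absurd (InT.three h (Or.inr (Or.inr rfl))) hP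
  · have hD : Dd α β γ ≠ 0 := fun e => hP ((triple_iff h h1 h2).2 e)
    obtain ⟨α3, β3, γ3, h3, h4, e, hD3, eP, eQ⟩ := trans_core h hz h1 h2 h1' h2' hD hw
    rw [e, h0_pt, h0_pt]
    unfold hh
    rw [if_neg hD, if_neg hD3, eP, eQ]
    by_cases hPp : Pp α β γ = 0
    · rw [if_pos hPp, if_pos (by rw [hPp, mul_zero])]
      linear_combination (Qpt α β γ ^ 2 * z) * z_cube hz
    · rw [if_neg hPp, if_neg (mul_ne_zero (z_ne hz) hPp)]

include hz in
/-- Translation by a point of order three. -/
theorem h0_translate {P S : W.Point} (hS : S + S + S = 0) (hPS : P + P + P = 0 → s0 a b S = 1) :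
    h0 a b (P + S) = s0 a b S * h0 a b P := by
  by_cases hP : P + P + P = 0
  · rw [hPS hP, h0_one h hP, h0_one h, mul_one]
    have : P + S + (P + S) + (P + S) = (P + P + P) + (S + S + S) := by abel
    rw [this, hP, hS, add_zero]
  · have key : ∀ {α0 β0 γ0 : F} (h1' : α0 + β0 + γ0 = -a) (h2' : α0 * β0 * γ0 = -b),
        ∀ P : W.Point, P + P + P ≠ 0 → h0 a b (P + pT h) = h0 a b P := by
      intro _ _ _ _ _ P hP
      rcases exists_pt h P with rfl | rfl | rfl | ⟨α, β, γ, h1, h2, rfl⟩
      · exact absurd (InT.three h (Or.inl rfl)) hP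
      · exact absurd (InT.three h (Or.inr (Or.inl rfl))) hP
      · exact absurd (InT.three h (Or.inr (Or.inr rfl))) hP
      · rw [pt_add_pT, h0_pt, h0_pt, hh_cyc]
    have keyT : ∀ P : W.Point, P + P + P ≠ 0 → h0 a b (P + pT h) = h0 a b P := by
      intro P hP
      rcases exists_pt h P with rfl | rfl | rfl | ⟨α, β, γ, h1, h2, rfl⟩
      · exact absurd (InT.three h (Or.inl rfl)) hP
      · exact absurd (InT.three h (Or.inr (Or.inl rfl))) hP
      · exact absurd (InT.three h (Or.inr (Or.inr rfl))) hP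
      · rw [pt_add_pT, h0_pt, h0_pt, hh_cyc]
    rcases exists_pt h S with rfl | rfl | rfl | ⟨α0, β0, γ0, h1', h2', rfl⟩
    · rw [add_zero]
      show _ = 1 * _
      rw [one_mul]
    · rw [s0_pT, one_mul, keyT P hP]
    · rw [s0_neg_pT, one_mul]
      have h3 : P + -(pT h) + (P + -(pT h)) + (P + -(pT h)) ≠ 0 := by
        have : P + -(pT h) + (P + -(pT h)) + (P + -(pT h)) = P + P + P -
          (pT h + pT h + pT h) := by abel
        rw [this, three_pT, sub_zero]
        exact hP
      have := keyT _ h3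
      rw [neg_add_cancel_right] at this
      exact this.symm
    · have hD0 := (triple_iff h h1' h2').1 hS
      rcases s0_cases h hz h1' h2' hD0 with ⟨e1, e2⟩ | ⟨e1, e2⟩
      · rw [e2]
        exact h0_translate_z h hz hP h1' h2' e1 (S := 0)
      · rw [e2]
        have h3 : P + pt h h1' h2' + (P + pt h h1' h2') + (P + pt h h1' h2') ≠ 0 := by
          have : P + pt h h1' h2' + (P + pt h h1' h2') + (P + pt h h1' h2') = P + P + P +
            (pt h h1' h2' + pt h h1' h2' + pt h h1' h2') := by abel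
          rw [this, hS, add_zero]
          exact hP
        have e3 := h0_translate_z h hz h3 (rev1 h1') (rev2 h2')
          (by linear_combination z ^ 2 * e1 - (β0 * z + γ0) * z_cube hz) (S := 0)
        rw [← neg_pt h h1' h2', add_neg_cancel_right] at e3
        rw [e3]
        linear_combination (-h0 a b (P + pt h h1' h2')) * z_cube hz

omit h in
include hz in
theorem norm3 (A B C : F) : (A + B + C) * (A + z * B + z ^ 2 * C) * (A + z ^ 2 * B + z * C) =
    A ^ 3 + B ^ 3 + C ^ 3 - 3 * A * B * C := by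
  grind

include hz in
/-- Division by three. -/
theorem third (h3r : ∀ x : F, ∃ y, y ^ 3 = x) (X : W.Point) : ∃ P : W.Point, P + P + P = X := by
  have h3n := h.three
  have hz3 := z_cube hz
  rcases X with _ | ⟨x, y, hxy⟩
  · exact ⟨0, by rw [add_zero, add_zero]; rfl⟩
  · have heq := h.nonsingular.1 hxy
    -- the coordinates `p`, `q`
    obtain ⟨p, q, e1, e2, e3⟩ : ∃ p q : F, p * q = x ∧ p ^ 3 = y ∧
        p ^ 3 - q ^ 3 + a * p * q + b = 0 := by
      by_cases hy : y = 0
      · subst hy
        have hx : x = 0 := by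
          have : x ^ 3 = 0 := by linear_combination -heq
          exact pow_eq_zero_iff (by norm_num) |>.1 this
        obtain ⟨q, hq⟩ := h3r b
        exact ⟨0, q, by rw [hx]; ring, by ring, by linear_combination -hq⟩
      · obtain ⟨p, hp⟩ := h3r y
        have hp0 : p ≠ 0 := by
          rintro rfl
          rw [zero_pow (by norm_num)] at hp
          exact hy hp.symm
        refine ⟨p, x / p, by field_simp, hp, ?_⟩
        have e5 : (x / p) ^ 3 = y + a * x + b := by
          rw [div_pow, hp, ← heq]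
          field_simp
        rw [e5, hp]
        field_simp
        ring
    set B := a + 3 * p + -(3 * q) with hB
    set A := a + z * (3 * p) + z ^ 2 * (-(3 * q)) with hA
    set G := a + z ^ 2 * (3 * p) + z * (-(3 * q)) with hG
    have hABG : A * B * G = a ^ 3 - 27 * b := by
      have e5 := norm3 hz a (3 * p) (-(3 * q))
      rw [hA, hB, hG]
      linear_combination e5 + 27 * e3
    have hABG0 : A * B * G ≠ 0 := by rw [hABG]; exact h.nd
    have hA0 := left_ne_zero_of_mul (left_ne_zero_of_mul hABG0)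
    have hB0 := right_ne_zero_of_mul (left_ne_zero_of_mul hABG0)
    have hG0 := right_ne_zero_of_mul hABG0
    obtain ⟨u, hu⟩ := h3r (-(A ^ 2 * G))
    have hu0 : u ≠ 0 := by
      rintro rfl
      rw [zero_pow (by norm_num)] at hu
      exact neg_ne_zero.2 (mul_ne_zero (pow_ne_zero 2 hA0) hG0) hu.symm
    obtain ⟨w, hw⟩ : ∃ w, w = A * G / u := ⟨_, rfl⟩
    have huw : u * w = A * G := by rw [hw]; field_simp
    have hw3 : w ^ 3 = -(A * G ^ 2) := by
      rw [hw, div_pow, hu]
      field_simp
    have hsum : A + B + G = 3 * a := by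
      rw [hA, hB, hG]
      linear_combination (3 * p - 3 * q) * hz
    have hrel : u ^ 3 + w ^ 3 + 3 * a * u * w = a ^ 3 - 27 * b := by
      rw [← hABG, hu, hw3]
      linear_combination (3 * a) * huw - (A * G) * hsum
    have h27 : (27 : F) ≠ 0 := by
      have : (27 : F) = 3 ^ 3 := by norm_num
      rw [this]; exact pow_ne_zero _ h3n
    obtain ⟨α, hα⟩ : ∃ α, α = (-a + u + w) / 3 := ⟨_, rfl⟩
    obtain ⟨β, hβ⟩ : ∃ β, β = (-a + z * u + z ^ 2 * w) / 3 := ⟨_, rfl⟩
    obtain ⟨γ, hγ⟩ : ∃ γ, γ = (-a + z ^ 2 * u + z * w) / 3 := ⟨_, rfl⟩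
    have f1 : 3 * α = -a + u + w := by rw [hα]; field_simp
    have f2 : 3 * β = -a + z * u + z ^ 2 * w := by rw [hβ]; field_simp
    have f3 : 3 * γ = -a + z ^ 2 * u + z * w := by rw [hγ]; field_simp
    obtain ⟨v1, v2, v3, v4⟩ := uw_val h3n hz f1 f2 f3
    have h1 : α + β + γ = -a := by
      apply mul_left_cancel₀ h3n
      linear_combination f1 + f2 + f3 + (u + w) * hz
    have h2 : α * β * γ = -b := by
      apply mul_left_cancel₀ h27
      linear_combination v4 + hrel
    have hD : Dd α β γ ≠ 0 := by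
      rw [v1]
      exact mul_ne_zero hu0 (by
        rw [hw]; exact div_ne_zero (mul_ne_zero hA0 hG0) hu0)
    have h9 : (9 : F) ≠ 0 := by
      have : (9 : F) = 3 * 3 := by norm_num
      rw [this]; exact mul_ne_zero h3n h3n
    have eP : Pp α β γ = p := by
      unfold Pp
      rw [div_eq_iff hD]
      apply mul_right_cancel₀ h9
      rw [v2, hrel, ← hABG, v1, huw, hu, hw3]
      have : B + z ^ 2 * A + z * G = 9 * p := by
        rw [hA, hB, hG]
        linear_combination a * hz - 3 * q * hz + (6 * p - 3 * q * z) * z_cube hz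
      linear_combination (A * G) * this
    have eQ : Qpt α β γ = q := by
      unfold Qpt
      rw [div_eq_iff hD]
      apply mul_right_cancel₀ h9
      rw [v3, hrel, ← hABG, v1, huw, hu, hw3]
      have : B + z * A + z ^ 2 * G = -(9 * q) := by
        rw [hA, hB, hG]
        linear_combination a * hz + 3 * p * hz + (3 * p * z - 6 * q) * z_cube hz
      linear_combination (-(A * G)) * this
    obtain ⟨h3, e⟩ := triple_pt h h1 h2 hD
    refine ⟨pt h h1 h2, ?_⟩
    rw [e]
    have g1 : Pp α β γ * Qpt α β γ = x := by rw [eP, eQ, e1]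
    have g2 : Pp α β γ ^ 3 = y := by rw [eP, e2]
    simp only [g1, g2]

end crv

end Pool.Agent.Helper7K9.T3
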