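import Pool.Agent.Helper7K9.T3.Defs
import Pool.Agent.Helper7K9.T3.Cond

/-!
# The descent by isogenies of degree three: the definitions used in the statements
-/

set_option autoImplicit false
set_option linter.all false

open Polynomial WeierstrassCurve WeierstrassCurve.Affine
open scoped Classical

namespace Pool.Agent.Helper7K9.T3

open Pool.Agent.TH115.GD (Pt)

/-! ### The descent functions -/

/-- The descent function of the curve `y ^ 2 + a x y + b y = x ^ 3`: representative of the class of a
point modulo cubes (`y`; `b ^ 2` for the point `(0, 0)`, and `1` for the point `0`). -/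
noncomputable def dT {F : Type*} [Field F] {W : Affine F} (b : F) : W.Point → F
  | .zero => 1
  | .some x y _ => if y = 0 then b ^ 2 else y

/-- The quotient of the curve `y ^ 2 + a x y + b y = x ^ 3` by the group generated by `(0, 0)`: the
curve `y ^ 2 + a x y + b y = x ^ 3 - 5 a b x - a ^ 3 b - 7 b ^ 2`. -/
def dual3 {K : Type*} [Field K] (a b : K) : WeierstrassCurve K :=
  ⟨a, 0, b, -5 * a * b, -(a ^ 3 * b) - 7 * b ^ 2⟩

/-- The descent function on the points of `dual3 a b` over `K`, with values in the extension `L` of `K`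
which contains the primitive cube root of unity `z`: its value at `(x, y)` is
`3 y - 3 a x - a ^ 3 - 12 b + 3 z (2 y + a x + b)`. -/
noncomputable def dD {K L : Type*} [Field K] [Field L] [Algebra K L] (z : L) (a b : K)
    {W : Affine K} : W.Point → L
  | .zero => 1
  | .some x y _ => algebraMap K L (3 * y - 3 * a * x - a ^ 3 - 12 * b) +
      z * algebraMap K L (3 * (2 * y + a * x + b))

/-! ### The conditions on the points -/

section cond

variable {k : Type} [Field k]

/-- The condition at the place `t = ∞` on a divisor of degree `n` which is supported on the zeros of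
`p` (`p = b` or `p = a ^ 3 - 27 b`): `n` is divisible by three if the degree of `p` is divisible by
three and at least three times the degree of `a`. -/
def InfCond3 (a p : k[X]) (n : ℕ) : Prop :=
  3 ∣ p.natDegree → 3 * a.natDegree ≤ p.natDegree → 3 ∣ n

/-- For all monic `A₁`, `A₂` such that `A₁ A₂` is squarefree and divides `b` (and such that the degree
of `A₁ A₂ ^ 2` satisfies the condition at infinity) there is a point `P` of the curve
`y ^ 2 + a x y + b y = x ^ 3` over `K` such that `A₁ A₂ ^ 2` is equal to `y(P)` up to cubes of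
`F` (to `b ^ 2` for `P = (0, 0)`, and to `1` for `P = 0`). -/
def EnoughPoints3 (K F : Type) [Field K] [Algebra k[X] K] [Field F] [Algebra K F] (a b : k[X]) :
    Prop :=
  ∀ A₁ A₂ : k[X], A₁.Monic → A₂.Monic → Squarefree (A₁ * A₂) → A₁ * A₂ ∣ b →
    InfCond3 a b (A₁ * A₂ ^ 2).natDegree →
    ∃ (P : Pt (crv3 (algebraMap k[X] K a) (algebraMap k[X] K b)) K) (c : F), c ≠ 0 ∧
      algebraMap K F (algebraMap k[X] K (A₁ * A₂ ^ 2)) =
        c ^ 3 * algebraMap K F (dT (algebraMap k[X] K b) P)

/-- The same for the isogenous curve: `z` is a primitive cube root of unity in `k'`. For all monic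
`A₁`, `A₂` in `k'[t]` such that `A₁ A₂` is squarefree and divides `Δ = a ^ 3 - 27 b`, which are fixed
by the automorphisms of `k'` which fix `z` and exchanged by the other ones (and which satisfy the
condition at infinity), there is a point `Q` of
`dual3 a b` over `K` such that `A₁ A₂ ^ 2` is equal to the value at `Q` of the descent function, up to
powers of `Δ` and cubes of `F`. -/
def EnoughDual3 (K F : Type) [Field K] [Algebra k[X] K] [Field F] [Algebra K F] {k' : Type}
    [Field k'] [Algebra k k'] [Algebra k'[X] F] (z : k') (a b : k[X]) : Prop :=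
  ∀ A₁ A₂ : k'[X], A₁.Monic → A₂.Monic → Squarefree (A₁ * A₂) →
    A₁ * A₂ ∣ (a ^ 3 - 27 * b).map (algebraMap k k') → Twisted (fixZ k z) A₁ A₂ →
    InfCond3 a (a ^ 3 - 27 * b) (A₁ * A₂ ^ 2).natDegree →
    ∃ (Q : Pt (dual3 (algebraMap k[X] K a) (algebraMap k[X] K b)) K) (j : ℕ) (c : F), c ≠ 0 ∧
      algebraMap k'[X] F (A₁ * A₂ ^ 2) = c ^ 3 *
        (dD (algebraMap k'[X] F (C z)) (algebraMap k[X] K a) (algebraMap k[X] K b) Q *
          algebraMap K F (algebraMap k[X] K (a ^ 3 - 27 * b)) ^ j)

end cond

/-! ### The conditions on `b` and the discriminant -/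

/-- `p` has an irreducible factor whose degree and multiplicity are prime to three. -/
def HasFactor3 {k : Type} [Field k] (p : k[X]) : Prop :=
  ∃ (π : k[X]) (m : ℕ), Irreducible π ∧ ¬ 3 ∣ π.natDegree ∧ ¬ 3 ∣ m ∧ π ^ m ∣ p ∧ ¬ π ^ (m + 1) ∣ p

/-- The conditions on the discriminant `D = a ^ 3 - 27 b`: it has an irreducible factor whose degree
and multiplicity are prime to three; and either `k` does not contain the primitive cube roots of unity
and all irreducible factors of `D` have odd degree, or `k` contains them and `D` is a constant times a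
power of an irreducible polynomial, with exponent prime to three. -/
def GoodDisc {k : Type} [Field k] (D : k[X]) : Prop :=
  HasFactor3 D ∧
  (((∀ x : k, x ^ 2 + x + 1 ≠ 0) ∧ ∀ ρ : k[X], Irreducible ρ → ρ ∣ D → Odd ρ.natDegree) ∨
   ((∃ x : k, x ^ 2 + x + 1 = 0) ∧
     ∃ (v : k) (ρ : k[X]) (n : ℕ), Irreducible ρ ∧ ¬ 3 ∣ n ∧ D = C v * ρ ^ n))

/-! ### A family of surfaces -/

/-- `f ≠ 0`, the degree of `h` is prime to three and larger than `3 deg f`; `h` and all `h - ζ f ^ 3`
with `ζ ^ (q + 1) = 1` are irreducible and separable. -/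
structure Admissible3 {k : Type} [Field k] (q : ℕ) (f h : k[X]) : Prop where
  f_ne : f ≠ 0
  degree : 3 * f.natDegree < h.natDegree
  three : ¬ 3 ∣ h.natDegree
  irr : Irreducible h ∧ h.Separable
  irr_sub : ∀ ζ : k, ζ ^ (q + 1) = 1 →
    Irreducible (h - C ζ * f ^ 3) ∧ (h - C ζ * f ^ 3).Separable

/-- The curve `y ^ 2 + 3 f ^ (q + 1) x y + (f ^ (3 q + 3) - h ^ (q + 1)) y = x ^ 3`. -/
noncomputable def curve3 {k : Type} [Field k] (K : Type) [Field K] [Algebra k[X] K] (q : ℕ)
    (f h : k[X]) : WeierstrassCurve K :=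
  crv3 (algebraMap k[X] K (3 * f ^ (q + 1))) (algebraMap k[X] K (f ^ (3 * (q + 1)) - h ^ (q + 1)))

end Pool.Agent.Helper7K9.T3
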