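import Pool.Agent.Helper7K9.T3.Rep

/-!
Sufficient conditions for enough points.
-/

set_option autoImplicit false
set_option linter.all false

open Polynomial IsDedekindDomain WeierstrassCurve WeierstrassCurve.Affine
open scoped Classical

namespace Pool.Agent.Helper7K9.T3

open Pool.Agent.TH115.GD (Pt act incl rs ak Sep act_act splits_of_sep splits_dvd IsTower)

section ctx

variable {k k' K F : Type} [Field k] [Field k'] [Algebra k k'] [Field K] [Algebra k[X] K]
    [Field F] [Algebra k'[X] F] [IsFractionRing k'[X] F] [Algebra K F]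
    (hT : IsTower k k' K F) (h3 : (3 : k) ≠ 0)

include hT h3 in
theorem exists_z : ∃ z : k', z ^ 2 + z + 1 = 0 := by
  haveI := hT.sep
  haveI : IsSepClosed k' := IsSepClosure.sep_closed k
  have h3' : (3 : k') ≠ 0 := by
    rw [← map_ofNat (algebraMap k k') 3]
    exact (_root_.map_ne_zero _).2 h3
  have hdeg : (X ^ 2 + X + 1 : k'[X]).natDegree = 2 := by compute_degree!
  have hsep : (X ^ 2 + X + 1 : k'[X]).Separable := by
    rw [Polynomial.separable_def]
    have e : derivative (X ^ 2 + X + 1 : k'[X]) = 2 * X + 1 := by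
      simp only [derivative_add, derivative_X_pow, derivative_X, derivative_one]
      norm_num
      rfl
    rw [e]
    refine ⟨C (4 / 3), C (-(1 / 3)) * (2 * X + 1), ?_⟩
    have h1 : (C (4 / 3 : k') : k'[X]) * 3 = 4 := by
      rw [show (3 : k'[X]) = C 3 from rfl, ← C_mul, div_mul_cancel₀ _ h3']
      rfl
    have h2 : (C (-(1 / 3) : k') : k'[X]) * 3 = -1 := by
      rw [show (3 : k'[X]) = C 3 from rfl, ← C_mul, neg_mul, div_mul_cancel₀ _ h3', C_neg, C_1]
    have h4 : (C (4 / 3 : k') : k'[X]) = -4 * C (-(1 / 3)) := by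
      rw [show (-4 : k'[X]) = C (-4) by rw [C_neg]; rfl, ← C_mul]
      congr 1
      ring
    rw [h4]
    linear_combination (-1) * h2
  obtain ⟨z, hz⟩ := IsSepClosed.exists_root (X ^ 2 + X + 1 : k'[X]) (by
    rw [degree_eq_natDegree (fun h => by rw [h] at hdeg; simp at hdeg), hdeg]
    norm_num) hsep
  refine ⟨z, ?_⟩
  rw [IsRoot.def] at hz
  simpa using hz

include hT h3 in
theorem const_cube (c : k) (hc : c ≠ 0) :
    ∃ r : F, r ≠ 0 ∧ algebraMap K F (algebraMap k[X] K (C c)) = r ^ 3 := by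
  haveI := hT.sep
  haveI : IsSepClosed k' := IsSepClosure.sep_closed k
  have h3' : (3 : k') ≠ 0 := by
    rw [← map_ofNat (algebraMap k k') 3]
    exact (_root_.map_ne_zero _).2 h3
  obtain ⟨r, hr⟩ := cube_roots k' h3' (algebraMap k k' c)
  have hr0 : r ≠ 0 := by
    rintro rfl
    rw [zero_pow (by norm_num)] at hr
    exact hc ((_root_.map_eq_zero _).1 hr.symm)
  refine ⟨algebraMap k'[X] F (C r), by simpa using hr0, ?_⟩
  rw [hT.map, map_C, ← hr, C_pow, map_pow]

variable {a b : k[X]} (hb : b ≠ 0) (hd : a ^ 3 - 27 * b ≠ 0)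

/-- The element of `F` given by a polynomial over `k`. -/
noncomputable abbrev em (K F : Type) {k : Type} [Field k] [Field K] [Algebra k[X] K] [Field F]
    [Algebra K F] (p : k[X]) : F := algebraMap K F (algebraMap k[X] K p)

include hT h3 hb hd in
theorem Rep.mul {x y : F} (hx : Rep K (algebraMap k[X] K a) (algebraMap k[X] K b) x)
    (hy : Rep K (algebraMap k[X] K a) (algebraMap k[X] K b) y) :
    Rep K (algebraMap k[X] K a) (algebraMap k[X] K b) (x * y) := by
  haveI := hT.sep
  haveI := hT.fracK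
  have h3K : (3 : K) ≠ 0 := by
    have h4 : algebraMap k[X] K (C (3 : k)) ≠ 0 := by
      rw [Ne, map_eq_zero_iff _ (IsFractionRing.injective k[X] K), C_eq_zero]
      exact h3
    rwa [map_ofNat, map_ofNat] at h4
  have hbK0 : algebraMap k[X] K b ≠ 0 := by simpa using hb
  have hdK : algebraMap k[X] K (a ^ 3 - 27 * b) =
      algebraMap k[X] K a ^ 3 - 27 * algebraMap k[X] K b := by
    rw [map_sub, map_mul, map_pow, map_ofNat]
  have hdK0 : algebraMap k[X] K a ^ 3 - 27 * algebraMap k[X] K b ≠ 0 := by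
    rw [← hdK]
    intro h
    exact hd (IsFractionRing.injective k[X] K (by rw [h, map_zero]))
  obtain ⟨z, hz⟩ := exists_z hT h3
  have hzΩ : (algebraMap F (Sep F) (algebraMap k'[X] F (C z))) ^ 2 +
      algebraMap F (Sep F) (algebraMap k'[X] F (C z)) + 1 = 0 := by
    rw [← map_pow, ← map_add, ← map_one (algebraMap F (Sep F)), ← map_add, ← map_pow, ← map_add,
      ← map_one (algebraMap k'[X] F), ← map_add]
    have : (C z) ^ 2 + C z + 1 = (0 : k'[X]) := by
      rw [← C_pow, ← C_add, ← C_1, ← C_add, hz, C_0]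
    rw [this, map_zero, map_zero]
  have h := isE3 (algebraMap k[X] K a) (algebraMap k[X] K b) (Sep F) h3K hbK0 hdK0
  obtain ⟨P, c, hc, e⟩ := hx
  obtain ⟨Q, c', hc', e'⟩ := hy
  obtain ⟨c0, hc0, q⟩ := dT_add (F := F) (Ω := Sep F) h3K hbK0 hdK0 hzΩ
    (fun σ => σ.commutes _) (cube_roots (Sep F) h.three) P Q
  refine ⟨P + Q, c * c' / c0, div_ne_zero (mul_ne_zero hc hc') hc0, ?_⟩
  rw [q, e, e']
  field_simp

include hT h3 hb hd in
theorem Rep.pow {x : F} (hx : Rep K (algebraMap k[X] K a) (algebraMap k[X] K b) x) (n : ℕ) :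
    Rep K (algebraMap k[X] K a) (algebraMap k[X] K b) (x ^ n) := by
  induction n with
  | zero => rw [pow_zero]; exact Rep.one
  | succ n ih => rw [pow_succ]; exact Rep.mul hT h3 hb hd ih hx

include hT h3 hb hd in
/-- Enough points, from points for the irreducible factors. -/
theorem enough_of_primes (hR : ∀ π : k[X], Irreducible π → π ∣ b →
    Rep K (algebraMap k[X] K a) (algebraMap k[X] K b) (em K F π)) : EnoughPoints3 K F a b := by
  have key : ∀ A : k[X], A ≠ 0 → A ∣ b →
      Rep K (algebraMap k[X] K a) (algebraMap k[X] K b) (em K F A) := by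
    intro A
    refine WfDvdMonoid.induction_on_irreducible A ?_ ?_ ?_
    · intro h; exact absurd rfl h
    · intro u hu _ _
      obtain ⟨c, hc, rfl⟩ := Polynomial.isUnit_iff.1 hu
      obtain ⟨r, hr, e⟩ := const_cube hT h3 c hc.ne_zero
      show Rep K _ _ (algebraMap K F (algebraMap k[X] K (C c)))
      rw [e]
      exact Rep.cube hr
    · intro q π hq hπ ih h0 hd'
      have h1 := hR π hπ ((dvd_mul_right _ _).trans hd')
      have h2 := ih hq ((dvd_mul_left _ _).trans hd')
      have e : em K F (π * q) = em K F π * em K F q := by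
        simp only [em, map_mul]
      rw [e]
      exact Rep.mul hT h3 hb hd h1 h2
  intro A1 A2 m1 m2 hs hdvd _
  have r1 := key A1 m1.ne_zero ((dvd_mul_right _ _).trans hdvd)
  have r2 := key A2 m2.ne_zero ((dvd_mul_left _ _).trans hdvd)
  have r := Rep.mul hT h3 hb hd r1 (Rep.pow hT h3 hb hd r2 2)
  have e : em K F A1 * em K F A2 ^ 2 = algebraMap K F (algebraMap k[X] K (A1 * A2 ^ 2)) := by
    simp only [em, map_mul, map_pow]
  rw [e] at r
  exact r

/-- The value at `-(0, 0)` is `b`, up to a sign. -/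
theorem Rep.base (hT : IsTower k k' K F) (h3 : (3 : k) ≠ 0) (hb : b ≠ 0)
    (hd : a ^ 3 - 27 * b ≠ 0) :
    Rep K (algebraMap k[X] K a) (algebraMap k[X] K b) (em K F b) := by
  haveI := hT.fracK
  have h3K : (3 : K) ≠ 0 := by
    have h4 : algebraMap k[X] K (C (3 : k)) ≠ 0 := by
      rw [Ne, map_eq_zero_iff _ (IsFractionRing.injective k[X] K), C_eq_zero]
      exact h3
    rwa [map_ofNat, map_ofNat] at h4
  have hbK0 : algebraMap k[X] K b ≠ 0 := by simpa using hb
  have hdK : algebraMap k[X] K (a ^ 3 - 27 * b) =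
      algebraMap k[X] K a ^ 3 - 27 * algebraMap k[X] K b := by
    rw [map_sub, map_mul, map_pow, map_ofNat]
  have hdK0 : algebraMap k[X] K a ^ 3 - 27 * algebraMap k[X] K b ≠ 0 := by
    rw [← hdK]
    intro h
    exact hd (IsFractionRing.injective k[X] K (by rw [h, map_zero]))
  have h := isE3 (algebraMap k[X] K a) (algebraMap k[X] K b) K h3K hbK0 hdK0
  refine ⟨-(pT h), -1, by norm_num, ?_⟩
  have e : dT (algebraMap k[X] K b) (-(pT h)) = -(algebraMap k[X] K b) := dT_neg_pT h
  rw [e, map_neg]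
  ring

include hT h3 in
/-- The prime of a prime power. -/
theorem Rep.prime_power (hb : b ≠ 0) (hd : a ^ 3 - 27 * b ≠ 0) {u : k} {π : k[X]} {m : ℕ}
    (hbe : b = C u * π ^ m) (hm : ¬ 3 ∣ m) :
    Rep K (algebraMap k[X] K a) (algebraMap k[X] K b) (em K F π) := by
  have hu : u ≠ 0 := by
    rintro rfl
    rw [C_0, zero_mul] at hbe
    exact hb hbe
  have hπ0 : π ≠ 0 := by
    rintro rfl
    rw [zero_pow (fun h => hm (by rw [h]; exact dvd_zero 3)), mul_zero] at hbe
    exact hb hbe
  haveI := hT.fracK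
  have hπF : em K F π ≠ 0 := by
    unfold em
    simpa using hπ0
  obtain ⟨r, hr, er⟩ := const_cube hT h3 (F := F) u hu
  have hbF : em K F b = r ^ 3 * em K F π ^ m := by
    unfold em
    rw [hbe, map_mul, map_mul, er, map_pow, map_pow]
  have hbase := Rep.base (F := F) hT h3 hb hd
  -- `π = b ^ m` up to cubes
  have key : Rep K (algebraMap k[X] K a) (algebraMap k[X] K b) (em K F b ^ m) :=
    Rep.pow hT h3 hb hd hbase m
  have hmm : ∃ n, m * m = 3 * n + 1 := by
    have : m % 3 = 1 ∨ m % 3 = 2 := by omega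
    obtain ⟨q, hq⟩ : ∃ q, m = 3 * q + m % 3 := ⟨m / 3, by omega⟩
    rcases this with h | h
    · rw [h] at hq
      exact ⟨3 * q * q + 2 * q, by rw [hq]; ring⟩
    · rw [h] at hq
      exact ⟨3 * q * q + 4 * q + 1, by rw [hq]; ring⟩
  obtain ⟨n, hn⟩ := hmm
  obtain ⟨P, c, hc, e⟩ := key
  have e2 : em K F b ^ m = (r ^ m * em K F π ^ n) ^ 3 * em K F π := by
    rw [hbF, mul_pow, ← pow_mul, ← pow_mul, hn]
    ring
  have hne : r ^ m * em K F π ^ n ≠ 0 := mul_ne_zero (pow_ne_zero m hr) (pow_ne_zero n hπF)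
  refine ⟨P, c / (r ^ m * em K F π ^ n), div_ne_zero hc hne, ?_⟩
  rw [div_pow, div_mul_eq_mul_div, ← e, e2]
  field_simp

end ctx

end Pool.Agent.Helper7K9.T3
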