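import Pool.Agent.Helper7K9.T3.Suf

/-!
Sufficient conditions for the isogenous curve.
-/

set_option autoImplicit false
set_option linter.all false

open Polynomial IsDedekindDomain WeierstrassCurve WeierstrassCurve.Affine
open scoped Classical

namespace Pool.Agent.Helper7K9.T3

open Pool.Agent.TH115.GD (Pt act incl rs ak Sep act_act splits_of_sep splits_dvd IsTower desc_poly)

section ctx

variable {k k' K F : Type} [Field k] [Field k'] [Algebra k k'] [Field K] [Algebra k[X] K]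
    [Field F] [Algebra k'[X] F] [IsFractionRing k'[X] F] [Algebra K F]
    (hT : IsTower k k' K F) (h3 : (3 : k) ≠ 0) {a b : k[X]}

theorem no_common {A₁ A₂ : k'[X]} (h : Squarefree (A₁ * A₂)) {θ : k'} (h1 : A₁.IsRoot θ)
    (h2 : A₂.IsRoot θ) : False := by
  have h4 := h (X - C θ) (mul_dvd_mul (dvd_iff_isRoot.2 h1) (dvd_iff_isRoot.2 h2))
  exact not_isUnit_X_sub_C θ h4

theorem isRoot_map {s : k' ≃ₐ[k] k'} {A : k'[X]} {θ : k'} (h : A.IsRoot θ) :
    (A.map (s : k' →+* k')).IsRoot (s θ) := by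
  rw [IsRoot.def] at h ⊢
  have h1 : eval ((s : k' →+* k') θ) (A.map (s : k' →+* k')) = (s : k' →+* k') (eval θ A) :=
    eval_map_apply _ _
  have h2 : eval (s θ) (A.map (s : k' →+* k')) = s (eval θ A) := h1
  rw [h2, h, map_zero]

include hT in
/-- If the cube roots of unity are in none of the fields `k(θ)`, for the roots `θ` of the
discriminant, then there is no condition on points of the isogenous curve. -/
theorem dual_of_swap (hd : a ^ 3 - 27 * b ≠ 0)
    (hsep : ∀ π : k[X], Irreducible π → π ∣ a ^ 3 - 27 * b → π.Separable) {z : k'}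
    (hsw : ∀ θ : k', ((a ^ 3 - 27 * b).map (algebraMap k k')).IsRoot θ →
      ∃ s : k' ≃ₐ[k] k', s θ = θ ∧ s z ≠ z) : EnoughDual3 K F z a b := by
  haveI := hT.sep
  haveI := hT.fracK
  intro A₁ A₂ m1 m2 hs hdvd htw _
  have injk := (algebraMap k k').injective
  have hp0 : (a ^ 3 - 27 * b).map (algebraMap k k') ≠ 0 :=
    (Polynomial.map_ne_zero_iff injk).2 hd
  have hspl : ((a ^ 3 - 27 * b).map (algebraMap k k')).Splits := splits_of_sep hd hsep
  have key : ∀ B₁ B₂ : k'[X], B₁.Monic → Squarefree (B₁ * B₂) →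
      B₁ ∣ (a ^ 3 - 27 * b).map (algebraMap k k') →
      (∀ s ∉ fixZ k z, B₁.map (s : k' →+* k') = B₂) → B₁ = 1 := by
    intro B₁ B₂ mB sB dB hB
    by_contra hne
    have hdeg : B₁.degree ≠ 0 := by
      intro h0
      apply hne
      exact mB.natDegree_eq_zero.1 (natDegree_eq_zero_iff_degree_le_zero.2 h0.le)
    obtain ⟨θ, hθ⟩ := (hspl.of_dvd hp0 dB).exists_eval_eq_zero hdeg
    obtain ⟨s, hs1, hs2⟩ := hsw θ (IsRoot.dvd hθ dB)
    have h4 := isRoot_map (s := s) (IsRoot.def.2 hθ)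
    rw [hB s hs2, hs1] at h4
    exact no_common sB hθ h4
  have e1 : A₁ = 1 := key A₁ A₂ m1 hs ((dvd_mul_right _ _).trans hdvd)
    (fun s h => (htw.2 s h).1)
  have e2 : A₂ = 1 := key A₂ A₁ m2 (by rwa [mul_comm]) ((dvd_mul_left _ _).trans hdvd)
    (fun s h => (htw.2 s h).2)
  refine ⟨0, 0, 1, one_ne_zero, ?_⟩
  rw [e1, e2]
  have e3 : dD (algebraMap k'[X] F (C z)) (algebraMap k[X] K a) (algebraMap k[X] K b)
    (0 : Pt (dual3 (algebraMap k[X] K a) (algebraMap k[X] K b)) K) = 1 := rfl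
  rw [e3, one_pow, one_pow, one_mul, map_one, pow_zero, one_mul, one_mul]

include hT h3 in
/-- The discriminant is a prime power, and the cube roots of unity are in `k`. -/
theorem dual_prime_power (hd : a ^ 3 - 27 * b ≠ 0) {z : k'} (hz : ∃ x : k, algebraMap k k' x = z)
    {v : k} {ρ : k[X]} {n : ℕ} (hρ : Irreducible ρ) (hde : a ^ 3 - 27 * b = C v * ρ ^ n)
    (hn : ¬ 3 ∣ n) : EnoughDual3 K F z a b := by
  haveI := hT.sep
  haveI := hT.fracK
  haveI : IsSepClosed k' := IsSepClosure.sep_closed k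
  haveI : IsGalois k k' := inferInstance
  have injk := (algebraMap k k').injective
  have hv : v ≠ 0 := by
    rintro rfl
    rw [C_0, zero_mul] at hde
    exact hd hde
  intro A₁ A₂ m1 m2 hs hdvd htw _
  have htop : ∀ s : k' ≃ₐ[k] k', s ∈ fixZ k z := by
    intro s
    obtain ⟨x, rfl⟩ := hz
    exact s.commutes x
  obtain ⟨B₁, hB1⟩ := desc_poly (k := k) (P := A₁) (fun s => (htw.1 s (htop s)).1)
  obtain ⟨B₂, hB2⟩ := desc_poly (k := k) (P := A₂) (fun s => (htw.1 s (htop s)).2)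
  have dB : B₁ * B₂ ∣ a ^ 3 - 27 * b := by
    rw [← Polynomial.map_dvd_map' (algebraMap k k'), Polynomial.map_mul, hB1, hB2]
    exact hdvd
  rw [hde] at dB
  have hCv : IsUnit (C v : k[X]) := isUnit_C.2 (isUnit_iff_ne_zero.2 hv)
  have dB' : B₁ * B₂ ∣ ρ ^ n := (hCv.dvd_mul_left).1 dB
  obtain ⟨i, -, hi⟩ := (dvd_prime_pow hρ.prime n).1 ((dvd_mul_right _ _).trans dB')
  obtain ⟨j, -, hj⟩ := (dvd_prime_pow hρ.prime n).1 ((dvd_mul_left _ _).trans dB')
  obtain ⟨w, hw⟩ := hi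
  obtain ⟨w', hw'⟩ := hj
  obtain ⟨x, hx, ex⟩ := Polynomial.isUnit_iff.1 w.isUnit
  obtain ⟨y, hy, ey⟩ := Polynomial.isUnit_iff.1 w'.isUnit
  obtain ⟨r1, hr1, er1⟩ := const_cube (F := F) hT h3 x hx.ne_zero
  obtain ⟨r2, hr2, er2⟩ := const_cube (F := F) hT h3 y hy.ne_zero
  obtain ⟨r3, hr3, er3⟩ := const_cube (F := F) hT h3 v hv
  have hρF : em K F ρ ≠ 0 := by
    unfold em
    simpa using hρ.ne_zero
  -- everything in terms of `ρ`
  have f1 : algebraMap k'[X] F A₁ * r1 ^ 3 = em K F ρ ^ i := by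
    rw [← hB1, ← hT.map, ← er1, ex, ← map_mul, ← map_mul, hw]
    unfold em
    rw [map_pow, map_pow]
  have f2 : algebraMap k'[X] F A₂ * r2 ^ 3 = em K F ρ ^ j := by
    rw [← hB2, ← hT.map, ← er2, ey, ← map_mul, ← map_mul, hw']
    unfold em
    rw [map_pow, map_pow]
  have f3 : algebraMap K F (algebraMap k[X] K (a ^ 3 - 27 * b)) = r3 ^ 3 * em K F ρ ^ n := by
    rw [hde, map_mul, map_mul, er3]
    unfold em
    rw [map_pow, map_pow]
  have hnn : ∃ q, n * n = 3 * q + 1 := by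
    have : n % 3 = 1 ∨ n % 3 = 2 := by omega
    obtain ⟨q, hq⟩ : ∃ q, n = 3 * q + n % 3 := ⟨n / 3, by omega⟩
    rcases this with h | h
    · rw [h] at hq
      exact ⟨3 * q * q + 2 * q, by rw [hq]; ring⟩
    · rw [h] at hq
      exact ⟨3 * q * q + 4 * q + 1, by rw [hq]; ring⟩
  obtain ⟨q, hq⟩ := hnn
  set e := i + 2 * j with he
  have f4 : (algebraMap K F (algebraMap k[X] K (a ^ 3 - 27 * b))) ^ (n * e) =
      (r3 ^ (n * e) * em K F ρ ^ (q * e)) ^ 3 * em K F ρ ^ e := by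
    rw [f3, mul_pow, ← pow_mul, ← pow_mul, show n * (n * e) = (n * n) * e by ring, hq]
    ring
  have hne : r3 ^ (n * e) * em K F ρ ^ (q * e) ≠ 0 :=
    mul_ne_zero (pow_ne_zero _ hr3) (pow_ne_zero _ hρF)
  have hne2 : r1 * r2 ^ 2 ≠ 0 := mul_ne_zero hr1 (pow_ne_zero 2 hr2)
  refine ⟨0, n * e, 1 / ((r1 * r2 ^ 2) * (r3 ^ (n * e) * em K F ρ ^ (q * e))),
    div_ne_zero one_ne_zero (mul_ne_zero hne2 hne), ?_⟩
  have e3 : dD (algebraMap k'[X] F (C z)) (algebraMap k[X] K a) (algebraMap k[X] K b)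
    (0 : Pt (dual3 (algebraMap k[X] K a) (algebraMap k[X] K b)) K) = 1 := rfl
  rw [e3, one_mul, f4, map_mul, map_pow, div_pow, one_pow, mul_pow _ (r3 ^ (n * e) * _)]
  have f5 : algebraMap k'[X] F A₁ * algebraMap k'[X] F A₂ ^ 2 * (r1 * r2 ^ 2) ^ 3 =
      em K F ρ ^ e := by
    rw [he, pow_add, pow_mul' (em K F ρ) 2 j, ← f1, ← f2]
    ring
  rw [← f5]
  field_simp

end ctx

end Pool.Agent.Helper7K9.T3
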