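import Pool.Agent.Helper7K9.T3.Crv
import Pool.Agent.Helper7K9.T3.Stm

/-!
Translation of a point by a point of order three.
-/

set_option autoImplicit false
set_option linter.all false
set_option maxRecDepth 4000

open WeierstrassCurve WeierstrassCurve.Affine
open scoped Classical

namespace Pool.Agent.Helper7K9.T3

section ident

variable {F : Type*} [Field F]

theorem key_e1 (a u w z s A1 G1 A0 G0 AR GR : F) (hz : z ^ 2 + z + 1 = 0)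
    (hs : s ^ 3 = u ^ 3 + w ^ 3 + 3 * a * u * w) (e1 : A1 = -a + u + w)
    (e2 : G1 = -a + z ^ 2 * u + z * w) (e3 : A0 = -a + s) (e4 : G0 = -a + z ^ 2 * s)
    (e5 : AR = -a * u + s ^ 2 - s * w) (e6 : GR = -a * u + z ^ 2 * s ^ 2 - z * s * w) :
    ((A1 ^ 2 * G1 - A0 ^ 2 * G0) ^ 2 + 3 * a * (A1 ^ 2 * G1 - A0 ^ 2 * G0) *
      (A1 * G1 - A0 * G0)) * u ^ 2 =
      -((A1 * G1 + A0 * G0) * u ^ 2 + AR * GR) * (A1 * G1 - A0 * G0) ^ 2 := by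
  subst e1 e2 e3 e4 e5 e6
  linear_combination (a^4*u^4*z^2 - a^4*u^4*z + a^4*u^4 + 3*a^4*u^3*w*z^4 - 3*a^4*u^3*w*z^3 + 6*a^4*u^3*w*z^2 -
    a^4*u^3*w*z + 2*a^4*u^3*w - 2*a^4*u^3*s*z^2 + 2*a^4*u^3*s*z - 2*a^4*u^3*s + 9*a^4*u^2*w^2*z^4 +
    18*a^4*u^2*w^2*z^2 + 10*a^4*u^2*w^2 - 3*a^4*u^2*w*s*z^4 + 3*a^4*u^2*w*s*z^3 - 9*a^4*u^2*w*s*z^2
    + 4*a^4*u^2*w*s*z - 5*a^4*u^2*w*s + a^4*u^2*s^2*z^2 - a^4*u^2*s^2*z + a^4*u^2*s^2 -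
    2*a^3*u^5*z^2 + 2*a^3*u^5*z - 2*a^3*u^5 - 6*a^3*u^4*w*z^4 + 6*a^3*u^4*w*z^3 - 10*a^3*u^4*w*z^2 +
    2*a^3*u^4*w*z - 3*a^3*u^4*w + a^3*u^4*s*z^2 - a^3*u^4*s*z + a^3*u^4*s - 9*a^3*u^3*w^2*z^3 -
    3*a^3*u^3*w^2*z^2 - 11*a^3*u^3*w^2*z - 6*a^3*u^3*w^2 + 6*a^3*u^3*w*s*z^4 - 3*a^3*u^3*w*s*z^3 +
    13*a^3*u^3*w*s*z^2 - 3*a^3*u^3*w*s*z + 8*a^3*u^3*w*s + a^3*u^3*s^2*z^2 - a^3*u^3*s^2*z +
    a^3*u^3*s^2 + 19*a^3*u^2*w^3*z^4 - a^3*u^2*w^3*z^3 + 14*a^3*u^2*w^3*z^2 - 20*a^3*u^2*w^3*z -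
    2*a^3*u^2*w^3 - 12*a^3*u^2*w^2*s*z^4 + 12*a^3*u^2*w^2*s*z^3 - 9*a^3*u^2*w^2*s*z^2 +
    10*a^3*u^2*w^2*s*z + 4*a^3*u^2*w^2*s - 3*a^3*u^2*w*s^2*z^3 - 2*a^3*u^2*w*s^2*z - 2*a^3*u^2*w*s^2
    + 6*a^3*u*w^4*z^4 - 3*a^3*u*w^4*z^3 + 3*a^3*u*w^4*z^2 - 9*a^3*u*w^4*z + 3*a^3*u*w^4 -
    a^3*u*w^3*s*z^4 + 10*a^3*u*w^3*s*z^3 + 3*a^3*u*w^3*s*z^2 + 12*a^3*u*w^3*s*z -
    3*a^3*u*w^2*s^2*z^4 - 6*a^3*u*w^2*s^2*z^3 - 6*a^3*u*w^2*s^2*z^2 - 6*a^3*u*w^2*s^2*z -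
    3*a^3*u*w^2*s^2 + a^2*u^6*z^2 - a^2*u^6*z + a^2*u^6 + 12*a^2*u^5*w*z^4 - 6*a^2*u^5*w*z^3 +
    15*a^2*u^5*w*z^2 - 2*a^2*u^5*w*z + 4*a^2*u^5*w + a^2*u^5*s*z^2 - a^2*u^5*s*z + a^2*u^5*s +
    15*a^2*u^4*w^2*z^4 + 18*a^2*u^4*w^2*z^3 + 22*a^2*u^4*w^2*z^2 + 3*a^2*u^4*w^2*z + 6*a^2*u^4*w^2 -
    9*a^2*u^4*w*s*z^4 + 3*a^2*u^4*w*s*z^3 - 7*a^2*u^4*w*s*z^2 - a^2*u^4*w*s*z - 2*a^2*u^4*s^2*z^2 +
    2*a^2*u^4*s^2*z - 2*a^2*u^4*s^2 - 14*a^2*u^3*w^3*z^4 + 20*a^2*u^3*w^3*z^3 + 9*a^2*u^3*w^3*z^2 +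
    8*a^2*u^3*w^3*z + 4*a^2*u^3*w^3 - 6*a^2*u^3*w^2*s*z^4 - 6*a^2*u^3*w^2*s*z^3 - a^2*u^3*w^2*s*z^2
    - 5*a^2*u^3*w^2*s*z - 3*a^2*u^3*w*s^2*z^4 + 3*a^2*u^3*w*s^2*z^3 - 8*a^2*u^3*w*s^2*z^2 +
    3*a^2*u^3*w*s^2*z - 4*a^2*u^3*w*s^2 + 3*a^2*u^2*w^4*z^4 + 3*a^2*u^2*w^4*z^3 + 18*a^2*u^2*w^4*z^2
    + a^2*u^2*w^4*z + a^2*u^2*w^4 - 13*a^2*u^2*w^3*s*z^4 - 8*a^2*u^2*w^3*s*z^3 - 5*a^2*u^2*w^3*s*z^2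
    - 8*a^2*u^2*w^3*s*z + a^2*u^2*w^3*s + 9*a^2*u^2*w^2*s^2*z^4 + a^2*u^2*w^2*s^2*z^2 +
    7*a^2*u^2*w^2*s^2*z - 2*a^2*u^2*w^2*s^2 + 12*a^2*u*w^5*z^4 + 6*a^2*u*w^5*z^3 + 16*a^2*u*w^5*z^2
    - 6*a^2*u*w^5*z - 10*a^2*u*w^4*s*z^4 + 4*a^2*u*w^4*s*z^3 - 10*a^2*u*w^4*s*z^2 -
    6*a^2*u*w^3*s^2*z^3 + 6*a^2*u*w^3*s^2*z + a^2*w^6*z^4 - a^2*w^6*z^3 - a^2*w^6*z^2 - 3*a^2*w^6*z
    + 3*a^2*w^5*s*z^3 + 2*a^2*w^5*s*z^2 + 3*a^2*w^5*s*z - a^2*w^4*s^2*z^4 - 2*a^2*w^4*s^2*z^3 -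
    a^2*w^4*s^2*z^2 - 6*a*u^6*w*z^4 + 3*a*u^6*w*z^3 - 2*a*u^6*w*z^2 - 2*a*u^6*w*z - 16*a*u^5*w^2*z^4
    - 9*a*u^5*w^2*z^3 - 4*a*u^5*w^2*z^2 - 8*a*u^5*w^2*z - 2*a*u^4*w^3*z^4 - 19*a*u^4*w^3*z^3 -
    12*a*u^4*w^3*z - 4*a*u^4*w^2*s*z^4 + 3*a*u^4*w^2*s*z^3 - a*u^4*w^2*s*z^2 + 6*a*u^4*w*s^2*z^4 -
    3*a*u^4*w*s^2*z^3 + 2*a*u^4*w*s^2*z^2 + 2*a*u^4*w*s^2*z - a*u^3*w^4*z^4 - 4*a*u^3*w^4*z^3 +
    2*a*u^3*w^4*z^2 - 8*a*u^3*w^4*z + 4*a*u^3*w^3*s*z^3 + a*u^3*w^3*s*z^2 + 5*a*u^3*w^2*s^2*z^4 -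
    3*a*u^3*w^2*s^2*z^3 - 3*a*u^3*w^2*s^2*z^2 + 4*a*u^3*w^2*s^2*z - 10*a*u^2*w^5*z^4 +
    2*a*u^2*w^5*z^2 - 2*a*u^2*w^5*z - 2*a*u^2*w^4*s*z^4 - a*u^2*w^4*s*z^3 + 3*a*u^2*w^4*s*z^2 +
    5*a*u^2*w^3*s^2*z^4 + 3*a*u^2*w^3*s^2*z^3 - 8*a*u^2*w^3*s^2*z^2 + 2*a*u^2*w^3*s^2*z +
    a*u*w^6*z^4 - a*u*w^6*z^3 + 6*a*u*w^6*z^2 - 8*a*u*w^5*s*z^4 - 2*a*u*w^5*s*z^3 - a*u*w^5*s*z^2 +
    6*a*u*w^4*s^2*z^4 + a*u*w^4*s^2*z^3 - 5*a*u*w^4*s^2*z^2 + 2*a*w^7*z^4 + 2*a*w^7*z^3 +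
    4*a*w^7*z^2 - 2*a*w^6*s*z^4 - 2*a*w^6*s*z^2 - 2*a*w^5*s^2*z^3 - 2*a*w^5*s^2*z^2 + u^6*w^2*z^4 +
    3*u^6*w^2*z^3 + u^6*w^2*z^2 - 2*u^5*w^3*z^4 + 6*u^5*w^3*z^3 + 4*u^5*w^3*z^2 + u^5*w^2*s*z^4 -
    5*u^4*w^4*z^4 + u^4*w^4*z^3 + 6*u^4*w^4*z^2 + u^4*w^2*s^2*z^4 - 2*u^3*w^5*z^4 - 4*u^3*w^5*z^3 +
    4*u^3*w^5*z^2 - u^3*w^4*s*z^4 + 2*u^3*w^3*s^2*z^4 - 2*u^2*w^6*z^4 - 3*u^2*w^6*z^3 + u^2*w^6*z^2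
    + u^2*w^5*s*z^4 + 2*u^2*w^4*s^2*z^4 + u^2*w^4*s^2*z^3 - 2*u*w^7*z^4 - 2*u*w^7*z^3 +
    2*u*w^5*s^2*z^4 + 2*u*w^5*s^2*z^3 - w^8*z^3 - w^7*s*z^4 + w^6*s^2*z^4 + w^6*s^2*z^3) * hz + (a^3*u^2*z^6 + 2*a^3*u^2*z^4 + 2*a^3*u^2*z^2 + 3*a^3*u*w*z^6 + 3*a^3*u*w*z^5 + 9*a^3*u*w*z^4 +
    6*a^3*u*w*z^3 + 9*a^3*u*w*z^2 + 3*a^3*u*w*z + 3*a^3*u*w - a^3*u*s*z^6 - 3*a^3*u*s*z^4 -
    3*a^3*u*s*z^2 - a^3*u*s - 3*a^2*u^3*z^6 - 5*a^2*u^3*z^4 - 4*a^2*u^3*z^2 - 3*a^2*u^2*w*z^5 -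
    3*a^2*u^2*w*z^4 - 5*a^2*u^2*w*z^3 - 4*a^2*u^2*w*z^2 - 3*a^2*u^2*w*z + 2*a^2*u^2*s*z^6 +
    4*a^2*u^2*s*z^4 + 4*a^2*u^2*s*z^2 + a^2*u^2*s + 6*a^2*u*w^2*z^6 + 6*a^2*u*w^2*z^5 +
    10*a^2*u*w^2*z^4 - 2*a^2*u*w^2*z^3 - 2*a^2*u*w^2*z^2 - 6*a^2*u*w^2*z - 4*a^2*u*w*s*z^6 -
    4*a^2*u*w*s*z^4 + 2*a^2*u*w*s*z^3 + 2*a^2*u*w*s*z + a^2*w^3*z^6 - a^2*w^3*z^4 - 5*a^2*w^3*z^3 -
    4*a^2*w^3*z^2 - 3*a^2*w^3*z + 3*a^2*w^2*s*z^5 + 5*a^2*w^2*s*z^4 + 8*a^2*w^2*s*z^3 +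
    5*a^2*w^2*s*z^2 + 3*a^2*w^2*s*z - a^2*w*s^2*z^6 - 3*a^2*w*s^2*z^5 - 4*a^2*w*s^2*z^4 -
    4*a^2*w*s^2*z^3 - 3*a^2*w*s^2*z^2 - a^2*w*s^2*z + a^2*s^3*z^6 + 2*a^2*s^3*z^4 + a^2*s^3*z^2 +
    3*a*u^4*z^6 + 4*a*u^4*z^4 + 2*a*u^4*z^2 + 3*a*u^3*w*z^6 + 6*a*u^3*w*z^5 + 10*a*u^3*w*z^4 +
    7*a*u^3*w*z^3 + 4*a*u^3*w*z^2 - a*u^3*s*z^6 - a*u^3*s*z^4 - 4*a*u^2*w^2*z^6 + 2*a*u^2*w^2*z^5 +
    4*a*u^2*w^2*z^4 + 9*a*u^2*w^2*z^3 + 4*a*u^2*w^2*z^2 - 2*a*u^2*w*s*z^6 - 3*a*u^2*w*s*z^5 -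
    3*a*u^2*w*s*z^4 - 2*a*u^2*w*s*z^3 - a*u^2*s^2*z^6 - 2*a*u^2*s^2*z^4 - 2*a*u^2*s^2*z^2 +
    a*u*w^3*z^6 + 3*a*u*w^3*z^5 + 9*a*u*w^3*z^4 + 8*a*u*w^3*z^3 + 6*a*u*w^3*z^2 - 5*a*u*w^2*s*z^6 -
    7*a*u*w^2*s*z^5 - 8*a*u*w^2*s*z^4 - 4*a*u*w^2*s*z^3 - 2*a*u*w^2*s*z^2 + 3*a*u*w*s^2*z^6 +
    a*u*w*s^2*z^5 + a*u*w*s^2*z^4 + a*u*s^3*z^6 + a*u*s^3*z^4 + 2*a*w^4*z^6 + 4*a*w^4*z^5 +
    8*a*w^4*z^4 + 6*a*w^4*z^3 + 4*a*w^4*z^2 - 2*a*w^3*s*z^6 - 2*a*w^3*s*z^5 - 4*a*w^3*s*z^4 -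
    2*a*w^3*s*z^3 - 2*a*w^3*s*z^2 - 2*a*w^2*s^2*z^5 - 4*a*w^2*s^2*z^4 - 2*a*w^2*s^2*z^3 +
    2*a*w*s^3*z^6 + 4*a*w*s^3*z^5 + 4*a*w*s^3*z^4 + 2*a*w*s^3*z^3 - 2*a*s^4*z^6 - 2*a*s^4*z^4 -
    u^5*z^6 - u^5*z^4 - 3*u^4*w*z^6 - 3*u^4*w*z^5 - 4*u^4*w*z^4 - 2*u^4*w*z^3 - 2*u^3*w^2*z^6 -
    5*u^3*w^2*z^5 - 4*u^3*w^2*z^4 - 4*u^3*w^2*z^3 + u^3*s^2*z^6 - 2*u^2*w^3*z^6 - 5*u^2*w^3*z^5 -
    4*u^2*w^3*z^4 - 3*u^2*w^3*z^3 + u^2*w^2*s*z^6 + u^2*w^2*s*z^5 + u^2*w^2*s*z^4 + 2*u^2*w*s^2*z^6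
    + 2*u^2*w*s^2*z^5 - u^2*s^3*z^6 + u^2*s^3*z^4 - 2*u*w^4*z^6 - 4*u*w^4*z^5 - 4*u*w^4*z^4 -
    2*u*w^4*z^3 + 2*u*w^2*s^2*z^6 + 4*u*w^2*s^2*z^5 + 2*u*w^2*s^2*z^4 - 2*u*w*s^3*z^6 -
    2*u*w*s^3*z^5 - w^5*z^5 - w^5*z^4 - w^5*z^3 - w^4*s*z^6 - w^4*s*z^5 - w^4*s*z^4 + w^3*s^2*z^6 +
    2*w^3*s^2*z^5 + 2*w^3*s^2*z^4 - w^2*s^3*z^5 - w*s^4*z^6 - w*s^4*z^5 + s^5*z^6) * hs

theorem key_e2 (a u w z s A1 G1 A0 G0 AR GR : F) (hz : z ^ 2 + z + 1 = 0)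
    (hs : s ^ 3 = u ^ 3 + w ^ 3 + 3 * a * u * w) (e1 : A1 = -a + u + w)
    (e2 : G1 = -a + z ^ 2 * u + z * w) (e3 : A0 = -a + s) (e4 : G0 = -a + z ^ 2 * s)
    (e5 : AR = -a * u + s ^ 2 - s * w) (e6 : GR = -a * u + z ^ 2 * s ^ 2 - z * s * w) :
    (AR ^ 2 * GR - A1 ^ 2 * G1 * u ^ 3) * (A1 * G1 - A0 * G0) =
      (A1 ^ 2 * G1 - A0 ^ 2 * G0) * (AR * GR * u - A1 * G1 * u ^ 3) := by
  subst e1 e2 e3 e4 e5 e6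
  grind

/-- The functions in the coordinates `u`, `w`. -/
theorem uw_val {a u w z α β γ : F} (h3 : (3 : F) ≠ 0) (hz : z ^ 2 + z + 1 = 0)
    (e1 : 3 * α = -a + u + w) (e2 : 3 * β = -a + z * u + z ^ 2 * w)
    (e3 : 3 * γ = -a + z ^ 2 * u + z * w) :
    Dd α β γ = u * w ∧
    -(α * β ^ 2 + β * γ ^ 2 + γ * α ^ 2 - 3 * α * β * γ) * 9 =
      (u ^ 3 + w ^ 3 + 3 * a * u * w) - z ^ 2 * u ^ 3 - z * w ^ 3 ∧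
    (α ^ 2 * β + β ^ 2 * γ + γ ^ 2 * α - 3 * α * β * γ) * 9 =
      -((u ^ 3 + w ^ 3 + 3 * a * u * w) - z * u ^ 3 - z ^ 2 * w ^ 3) ∧
    α * β * γ * 27 = u ^ 3 + w ^ 3 + 3 * a * u * w - a ^ 3 := by
  have h9 : (9 : F) ≠ 0 := by
    have : (9 : F) = 3 * 3 := by norm_num
    rw [this]; exact mul_ne_zero h3 h3
  refine ⟨?_, ?_, ?_, ?_⟩
  · apply mul_left_cancel₀ h9
    unfold Dd
    have e : 9 * (α ^ 2 + β ^ 2 + γ ^ 2 - α * β - β * γ - γ * α) = (3 * α) ^ 2 + (3 * β) ^ 2 +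
      (3 * γ) ^ 2 - (3 * α) * (3 * β) - (3 * β) * (3 * γ) - (3 * γ) * (3 * α) := by ring
    rw [e, e1, e2, e3]
    grind
  · apply mul_left_cancel₀ h3
    have e : 3 * (-(α * β ^ 2 + β * γ ^ 2 + γ * α ^ 2 - 3 * α * β * γ) * 9) =
      -((3 * α) * (3 * β) ^ 2 + (3 * β) * (3 * γ) ^ 2 + (3 * γ) * (3 * α) ^ 2 -
        3 * (3 * α) * (3 * β) * (3 * γ)) := by ring
    rw [e, e1, e2, e3]
    grind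
  · apply mul_left_cancel₀ h3
    have e : 3 * ((α ^ 2 * β + β ^ 2 * γ + γ ^ 2 * α - 3 * α * β * γ) * 9) =
      ((3 * α) ^ 2 * (3 * β) + (3 * β) ^ 2 * (3 * γ) + (3 * γ) ^ 2 * (3 * α) -
        3 * (3 * α) * (3 * β) * (3 * γ)) := by ring
    rw [e, e1, e2, e3]
    grind
  · have e : α * β * γ * 27 = (3 * α) * (3 * β) * (3 * γ) := by ring
    rw [e, e1, e2, e3]
    grind

end ident

section crv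

variable {F : Type*} [Field F] {W : Affine F} {a b : F} (h : IsE3 W a b)

/-- The pairing of a point of order three with `(0, 0)`. -/
noncomputable def s0 (a b : F) : W.Point → F
  | .zero => 1
  | .some x y _ => if x = 0 then 1 else -(2 * y + a * x + b) / (y + a * x + 2 * b)

/-- The function `h` in the coordinates `α`, `β`, `γ`. -/
noncomputable def hh (α β γ : F) : F :=
  if Dd α β γ = 0 then 1 else if Pp α β γ = 0 then Qpt α β γ ^ 2 else Pp α β γ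

/-- A cube root of the class of `3 P`. -/
noncomputable def h0 (a b : F) : W.Point → F
  | .zero => 1
  | .some x y _ => if x = 0 then 1 else hh (y / x) (b / x) (-a - y / x - b / x)

include h

theorem pt_x_ne {α β γ : F} (h2 : α * β * γ = -b) : -(α * γ) ≠ 0 := by
  obtain ⟨hα, hβ, hγ⟩ := th_ne h.nb h2
  exact neg_ne_zero.2 (mul_ne_zero hα hγ)

theorem pt_y_ne {α β γ : F} (h2 : α * β * γ = -b) : -(α ^ 2 * γ) ≠ 0 := by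
  obtain ⟨hα, hβ, hγ⟩ := th_ne h.nb h2
  exact neg_ne_zero.2 (mul_ne_zero (pow_ne_zero 2 hα) hγ)

theorem dT_pt {α β γ : F} (h1 : α + β + γ = -a) (h2 : α * β * γ = -b) :
    dT b (pt h h1 h2) = -(α ^ 2 * γ) := by
  unfold pt dT
  simp only []
  rw [if_neg (pt_y_ne h h2)]

theorem h0_pt {α β γ : F} (h1 : α + β + γ = -a) (h2 : α * β * γ = -b) :
    h0 a b (pt h h1 h2) = hh α β γ := by
  obtain ⟨hα, hβ, hγ⟩ := th_ne h.nb h2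
  unfold pt h0
  simp only []
  rw [if_neg (pt_x_ne h h2)]
  have e1 : -(α ^ 2 * γ) / -(α * γ) = α := by field_simp
  have hb : b = -(α * β * γ) := by linear_combination h2
  have e2 : b / -(α * γ) = β := by rw [hb]; field_simp
  have e3 : -a - α - β = γ := by linear_combination -h1
  rw [e1, e2, e3]

/-- The three coordinates are different from each other, or `Dd` is not zero. -/
theorem dist {α β γ : F} (h1 : α + β + γ = -a) (h2 : α * β * γ = -b) (hD : Dd α β γ = 0) :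
    γ - α ≠ 0 ∧ β - γ ≠ 0 := by
  have key : ∀ x y : F, x + y + x = -a → x * y * x = -b → (x - y) ^ 2 ≠ 0 := by
    intro x y e1 e2 e3
    have hxy : x - y = 0 := pow_eq_zero_iff (by norm_num) |>.1 e3
    have : y = x := by linear_combination -hxy
    subst this
    apply h.nd
    have ha : a = -(3 * y) := by linear_combination e1
    have hb : b = -(y ^ 3) := by linear_combination e2
    rw [ha, hb]; ring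
  constructor
  · intro e
    have : γ = α := by linear_combination e
    subst this
    refine key γ β (by linear_combination h1) (by linear_combination h2) ?_
    rw [← hD]; unfold Dd; ring
  · intro e
    have : β = γ := by linear_combination e
    subst this
    refine key β α (by linear_combination h1) (by linear_combination h2) ?_
    rw [← hD]; unfold Dd; ring

theorem s0_pt {α β γ : F} (h1 : α + β + γ = -a) (h2 : α * β * γ = -b) (hD : Dd α β γ = 0) :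
    s0 a b (pt h h1 h2) = (γ - α) / (β - γ) := by
  obtain ⟨hα, hβ, hγ⟩ := th_ne h.nb h2
  obtain ⟨d1, d2⟩ := dist h h1 h2 hD
  unfold pt s0
  simp only []
  rw [if_neg (pt_x_ne h h2)]
  have ha : a = -(α + β + γ) := by linear_combination h1
  have hb : b = -(α * β * γ) := by linear_combination h2
  have e1 : -(2 * -(α ^ 2 * γ) + a * -(α * γ) + b) = -(α * γ * (γ - α)) := by rw [ha, hb]; ring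
  have e2 : -(α ^ 2 * γ) + a * -(α * γ) + 2 * b = -(α * γ * (β - γ)) := by rw [ha, hb]; ring
  rw [e1, e2]
  field_simp

theorem s0_pT : s0 a b (pT h) = 1 := by
  unfold pT s0
  simp

theorem s0_neg_pT : s0 a b (-(pT h)) = 1 := by
  obtain ⟨hQ, e⟩ := neg_pT h
  rw [e]
  unfold s0
  simp

theorem dT_pT : dT b (pT h) = b ^ 2 := by
  unfold pT dT
  simp

theorem dT_neg_pT : dT b (-(pT h)) = -b := by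
  obtain ⟨hQ, e⟩ := neg_pT h
  rw [e]
  unfold dT
  simp [h.nb]

omit h in
theorem Dd_cyc (α β γ : F) : Dd β γ α = Dd α β γ := by unfold Dd; ring
omit h in
theorem Dd_rev (α β γ : F) : Dd γ β α = Dd α β γ := by unfold Dd; ring
omit h in
theorem Pp_cyc (α β γ : F) : Pp β γ α = Pp α β γ := by
  unfold Pp; rw [Dd_cyc]; congr 1; ring
omit h in
theorem Qpt_cyc (α β γ : F) : Qpt β γ α = Qpt α β γ := by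
  unfold Qpt; rw [Dd_cyc]; congr 1; ring
omit h in
theorem hh_cyc (α β γ : F) : hh β γ α = hh α β γ := by
  unfold hh; rw [Dd_cyc, Pp_cyc, Qpt_cyc]

/-- The points with `Dd = 0` are of order three. -/
theorem triple_zero {α β γ : F} (h1 : α + β + γ = -a) (h2 : α * β * γ = -b)
    (hD : Dd α β γ = 0) : pt h h1 h2 + pt h h1 h2 + pt h h1 h2 = 0 := by
  obtain ⟨hα, hβ, hγ⟩ := th_ne h.nb h2
  obtain ⟨d1, d2⟩ := dist h h1 h2 hD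
  obtain ⟨h3, e⟩ := dbl_pt h h1 h2 d1
  rw [add_eq_zero_iff_eq_neg, neg_pt, e]
  have e1 : α * γ * (β - α) * (β - γ) / (γ - α) ^ 2 = -(γ * α) := by
    rw [div_eq_iff (pow_ne_zero 2 d1)]
    unfold Dd at hD
    linear_combination α * γ * hD
  have e2 : α * γ ^ 2 * (β - α) ^ 3 / (γ - α) ^ 3 = -(γ ^ 2 * α) := by
    rw [div_eq_iff (pow_ne_zero 3 d1)]
    unfold Dd at hD
    linear_combination α * γ ^ 2 * (β + γ - 2 * α) * hD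
  unfold pt
  simp only [e1, e2]

theorem triple_iff {α β γ : F} (h1 : α + β + γ = -a) (h2 : α * β * γ = -b) :
    pt h h1 h2 + pt h h1 h2 + pt h h1 h2 = 0 ↔ Dd α β γ = 0 := by
  constructor
  · intro e
    by_contra hD
    obtain ⟨h3, e'⟩ := triple_pt h h1 h2 hD
    rw [e'] at e
    exact Point.some_ne_zero _ e
  · exact triple_zero h h1 h2

/-- `h` is a cube root of the class of the triple. -/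
theorem h0_cube (P : W.Point) : h0 a b P ^ 3 = dT b (P + P + P) := by
  have h3T := three_pT h
  rcases exists_pt h P with rfl | rfl | rfl | ⟨α, β, γ, h1, h2, rfl⟩
  · rw [add_zero, add_zero]
    show (1 : F) ^ 3 = 1
    ring
  · rw [h3T]
    show (h0 a b (pT h)) ^ 3 = 1
    have : h0 a b (pT h) = 1 := by unfold pT h0; simp
    rw [this]; ring
  · have e : -(pT h) + -(pT h) + -(pT h) = 0 := by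
      rw [← neg_add, ← neg_add, h3T, neg_zero]
    rw [e]
    have : h0 a b (-(pT h)) = 1 := by
      obtain ⟨hQ, e⟩ := neg_pT h
      rw [e]; unfold h0; simp
    rw [this]
    show (1 : F) ^ 3 = 1
    ring
  · rw [h0_pt]
    unfold hh
    by_cases hD : Dd α β γ = 0
    · rw [if_pos hD, triple_zero h h1 h2 hD]
      show (1 : F) ^ 3 = 1
      ring
    · rw [if_neg hD]
      obtain ⟨h3, e⟩ := triple_pt h h1 h2 hD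
      rw [e]
      unfold dT
      simp only []
      by_cases hP : Pp α β γ = 0
      · rw [if_pos hP, if_pos (by rw [hP]; ring)]
        have := pq_rel hD
        rw [hP] at this
        have e5 : Qpt α β γ ^ 3 = b := by linear_combination -this - h2
        rw [← pow_mul, mul_comm 2 3, pow_mul, e5]
      · rw [if_neg hP, if_neg (pow_ne_zero 3 hP)]

theorem dT_ne (P : W.Point) : dT b P ≠ 0 := by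
  rcases P with _ | ⟨x, y, hxy⟩
  · exact one_ne_zero
  · unfold dT
    simp only []
    split_ifs with hy
    · exact pow_ne_zero 2 h.nb
    · exact hy

theorem h0_ne (P : W.Point) : h0 a b P ≠ 0 := by
  intro e
  have := h0_cube h P
  rw [e, zero_pow (by norm_num)] at this
  exact dT_ne h _ this.symm

end crv

end Pool.Agent.Helper7K9.T3
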