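import Pool.Agent.Helper7K9.T3.Tri

/-!
Translation of a point by a point of order three.
-/

set_option autoImplicit false
set_option linter.all false
set_option maxRecDepth 4000

open WeierstrassCurve WeierstrassCurve.Affine
open scoped Classical

namespace Pool.Agent.Helper7K9.T3

section ident

variable {F : Type*} [Field F]

theorem Dd_sym (α β γ : F) :
    Dd α β γ = (α + β + γ) ^ 2 - 3 * (α * γ + β * (α + β + γ - β)) := by
  unfold Dd; ring

theorem aux_f2 {a z x y w : F} (hz : z ^ 2 + z + 1 = 0) (h1 : x + y + w = -a)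
    (hw : x + z * y + z ^ 2 * w = 0) : 3 * y = -a + z * (x + z ^ 2 * y + z * w) := by
  grind

theorem aux_f3 {a z x y w : F} (hz : z ^ 2 + z + 1 = 0) (h1 : x + y + w = -a)
    (hw : x + z * y + z ^ 2 * w = 0) : 3 * w = -a + z ^ 2 * (x + z ^ 2 * y + z * w) := by
  grind

theorem aux_e2 {a z x y w : F} (hz : z ^ 2 + z + 1 = 0) (h1 : x + y + w = -a) :
    3 * y = -a + z * (x + z ^ 2 * y + z * w) + z ^ 2 * (x + z * y + z ^ 2 * w) := by
  grind

theorem aux_e3 {a z x y w : F} (hz : z ^ 2 + z + 1 = 0) (h1 : x + y + w = -a) :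
    3 * w = -a + z ^ 2 * (x + z ^ 2 * y + z * w) + z * (x + z * y + z ^ 2 * w) := by
  grind

theorem aux_e5 {a u w z s : F} (hz : z ^ 2 + z + 1 = 0)
    (hs : s ^ 3 = u ^ 3 + w ^ 3 + 3 * a * u * w) :
    (-a * u + s ^ 2 - s * w) * (-a * u + z * s ^ 2 - z ^ 2 * s * w) *
        (-a * u + z ^ 2 * s ^ 2 - z * s * w) =
        u ^ 3 * ((u ^ 3 + w ^ 3 + 3 * a * u * w) - a ^ 3) := by grind

end ident

section crv

variable {F : Type*} [Field F] {W : Affine F} {a b : F} (h : IsE3 W a b)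

include h

theorem trans_core {z : F} (hz : z ^ 2 + z + 1 = 0) {α β γ α0 β0 γ0 : F} (h1 : α + β + γ = -a)
    (h2 : α * β * γ = -b) (h1' : α0 + β0 + γ0 = -a) (h2' : α0 * β0 * γ0 = -b)
    (hD : Dd α β γ ≠ 0) (hw : α0 + z * β0 + z ^ 2 * γ0 = 0) :
    ∃ (α3 β3 γ3 : F) (h3 : α3 + β3 + γ3 = -a) (h4 : α3 * β3 * γ3 = -b),
      pt h h1 h2 + pt h h1' h2' = pt h h3 h4 ∧ Dd α3 β3 γ3 ≠ 0 ∧
      Pp α3 β3 γ3 = z * Pp α β γ ∧ Qpt α3 β3 γ3 = z ^ 2 * Qpt α β γ := by
  have h3n := h.three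
  obtain ⟨hα, hβ, hγ⟩ := th_ne h.nb h2
  obtain ⟨hα0, hβ0, hγ0⟩ := th_ne h.nb h2'
  obtain ⟨u, hu⟩ : ∃ u, u = α + z ^ 2 * β + z * γ := ⟨_, rfl⟩
  obtain ⟨w, hw'⟩ : ∃ w, w = α + z * β + z ^ 2 * γ := ⟨_, rfl⟩
  obtain ⟨s, hs'⟩ : ∃ s, s = α0 + z ^ 2 * β0 + z * γ0 := ⟨_, rfl⟩
  have z3 : z ^ 3 = 1 := by linear_combination (z - 1) * hz
  have e1 : 3 * α = -a + u + w := by
    rw [hu, hw']; linear_combination h1 - (β + γ) * hz
  have e2 : 3 * β = -a + z * u + z ^ 2 * w := by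
    rw [hu, hw']; exact aux_e2 hz h1
  have e3 : 3 * γ = -a + z ^ 2 * u + z * w := by
    rw [hu, hw']; exact aux_e3 hz h1
  have f1 : 3 * α0 = -a + s := by
    rw [hs']; linear_combination h1' - (β0 + γ0) * hz + hw
  have f2 : 3 * β0 = -a + z * s := by
    rw [hs']; exact aux_f2 hz h1' hw
  have f3 : 3 * γ0 = -a + z ^ 2 * s := by
    rw [hs']; exact aux_f3 hz h1' hw
  obtain ⟨v1, v2, v3, v4⟩ := uw_val h3n hz e1 e2 e3
  obtain ⟨w1, w2, w3, w4⟩ := uw_val (a := a) (u := s) (w := 0) h3n hz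
    (by rw [f1]; ring) (by rw [f2]; ring) (by rw [f3]; ring)
  have hD0 : Dd α0 β0 γ0 = 0 := by rw [w1, mul_zero]
  have hs : s ^ 3 = u ^ 3 + w ^ 3 + 3 * a * u * w := by
    linear_combination v4 - w4 - 27 * h2 + 27 * h2'
  rw [v1] at hD
  have hu0 : u ≠ 0 := left_ne_zero_of_mul hD
  have hw0 : w ≠ 0 := right_ne_zero_of_mul hD
  have hs3 : s ^ 3 ≠ 0 := by
    intro e
    apply h.nd
    linear_combination e + w4 - 27 * h2'
  have hs0 : s ≠ 0 := fun e => hs3 (by rw [e]; ring)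
  have h3u : 3 * u ≠ 0 := mul_ne_zero h3n hu0
  obtain ⟨αR, hαR⟩ : ∃ r, r = (-a * u + s ^ 2 - s * w) / (3 * u) := ⟨_, rfl⟩
  obtain ⟨βR, hβR⟩ : ∃ r, r = (-a * u + z * s ^ 2 - z ^ 2 * s * w) / (3 * u) := ⟨_, rfl⟩
  obtain ⟨γR, hγR⟩ : ∃ r, r = (-a * u + z ^ 2 * s ^ 2 - z * s * w) / (3 * u) := ⟨_, rfl⟩
  have gA : 3 * u * αR = -a * u + s ^ 2 - s * w := by rw [hαR]; field_simp
  have gB : 3 * u * βR = -a * u + z * s ^ 2 - z ^ 2 * s * w := by rw [hβR]; field_simp
  have gG : 3 * u * γR = -a * u + z ^ 2 * s ^ 2 - z * s * w := by rw [hγR]; field_simp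
  have r1 : γR + βR + αR = -a := by
    apply mul_left_cancel₀ h3u
    linear_combination gA + gB + gG + (s ^ 2 - s * w) * hz
  have r2 : γR * βR * αR = -b := by
    apply mul_left_cancel₀ (pow_ne_zero 3 h3u)
    have e : (3 * u) ^ 3 * (γR * βR * αR) = (3 * u * αR) * (3 * u * βR) * (3 * u * γR) := by ring
    rw [e, gA, gB, gG]
    have e5 : (-a * u + s ^ 2 - s * w) * (-a * u + z * s ^ 2 - z ^ 2 * s * w) *
        (-a * u + z ^ 2 * s ^ 2 - z * s * w) =
        u ^ 3 * ((u ^ 3 + w ^ 3 + 3 * a * u * w) - a ^ 3) := aux_e5 hz hs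
    rw [e5]
    linear_combination -u ^ 3 * v4 + 27 * u ^ 3 * h2
  refine ⟨γR, βR, αR, r1, r2, ?_, ?_⟩
  · -- the sum
    have hx : -(α * γ) ≠ -(α0 * γ0) := by
      intro e
      have e6 : β = β0 := by
        have e7 : α * γ * β = α * γ * β0 := by
          have : α * γ = α0 * γ0 := by linear_combination -e
          nth_rewrite 2 [this]
          linear_combination h2 - h2'
        exact mul_left_cancel₀ (mul_ne_zero hα hγ) e7
      apply hD
      rw [← v1, Dd_sym, h1, e6, show α * γ = α0 * γ0 by linear_combination -e, ← h1', ← Dd_sym, hD0]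
    have hx' : -(α * γ) - -(α0 * γ0) ≠ 0 := sub_ne_zero.2 hx
    have k1 := key_e1 a u w z s (3 * α) (3 * γ) (3 * α0) (3 * γ0) (3 * u * αR) (3 * u * γR) hz hs
      e1 e3 f1 f3 gA gG
    have k2 := key_e2 a u w z s (3 * α) (3 * γ) (3 * α0) (3 * γ0) (3 * u * αR) (3 * u * γR) hz hs
      e1 e3 f1 f3 gA gG
    have h729 : (729 : F) * u ^ 2 ≠ 0 := by
      have : (729 : F) = 3 ^ 6 := by norm_num
      rw [this]; exact mul_ne_zero (pow_ne_zero _ h3n) (pow_ne_zero _ hu0)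
    have h243 : (243 : F) * u ^ 3 ≠ 0 := by
      have : (243 : F) = 3 ^ 5 := by norm_num
      rw [this]; exact mul_ne_zero (pow_ne_zero _ h3n) (pow_ne_zero _ hu0)
    unfold pt
    obtain ⟨h3, e⟩ := h.add_line (x3 := -(γR * αR)) (y3 := -(γR ^ 2 * αR))
      (m := (-(α ^ 2 * γ) - -(α0 ^ 2 * γ0)) / (-(α * γ) - -(α0 * γ0)))
      (pt._proof_1 h h1 h2 : W.Nonsingular (-(α * γ)) (-(α ^ 2 * γ)))
      (pt._proof_1 h h1' h2' : W.Nonsingular (-(α0 * γ0)) (-(α0 ^ 2 * γ0))) hx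
      (by field_simp) (by
        rw [div_pow, ← mul_div_assoc]
        have : ∀ X Y Z A : F, Z ≠ 0 → X * Z ^ 2 = Y ^ 2 + A * Y * Z →
            X = Y ^ 2 / Z ^ 2 + A * Y / Z := by
          intro X Y Z A hZ e
          field_simp
          linear_combination e
        apply this _ _ _ _ hx'
        apply mul_left_cancel₀ h729
        linear_combination -k1) (by
        have : ∀ X Y Z V : F, Z ≠ 0 → X * Z = Y * V → X = Y / Z * V := by
          intro X Y Z V hZ e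
          field_simp
          linear_combination e
        have e9 : -(αR ^ 2 * γR) - -(α ^ 2 * γ) =
            (-(α ^ 2 * γ) - -(α0 ^ 2 * γ0)) / (-(α * γ) - -(α0 * γ0)) *
              (-(γR * αR) - -(α * γ)) := by
          apply this _ _ _ _ hx'
          apply mul_left_cancel₀ h243
          linear_combination k2
        linear_combination -e9 - (αR * γR) * r1 + r2)
    exact e
  · -- the values
    have hu' : (3 : F) * γR = -a + (-(z * s * w) / u) + z ^ 2 * s ^ 2 / u := by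
      rw [hγR]; field_simp; ring
    have hv' : (3 : F) * βR = -a + z * (-(z * s * w) / u) + z ^ 2 * (z ^ 2 * s ^ 2 / u) := by
      rw [hβR]; field_simp; linear_combination (-s ^ 2 * z) * z3
    have hw'' : (3 : F) * αR = -a + z ^ 2 * (-(z * s * w) / u) + z * (z ^ 2 * s ^ 2 / u) := by
      rw [hαR]; field_simp; linear_combination (s * w - s ^ 2) * z3
    obtain ⟨x1, x2, x3, x4⟩ := uw_val h3n hz hu' hv' hw''
    have hδ : (-(z * s * w) / u) ^ 3 + (z ^ 2 * s ^ 2 / u) ^ 3 +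
        3 * a * (-(z * s * w) / u) * (z ^ 2 * s ^ 2 / u) = s ^ 3 := by
      linear_combination w4 - x4 + 27 * r2 - 27 * h2'
    have hD3 : Dd γR βR αR = -(s ^ 3 * w) / u ^ 2 := by
      rw [x1]; field_simp; linear_combination -z3
    have hD3' : Dd γR βR αR ≠ 0 := by
      rw [hD3]
      exact div_ne_zero (neg_ne_zero.2 (mul_ne_zero hs3 hw0)) (pow_ne_zero _ hu0)
    have h9 : (9 : F) ≠ 0 := by
      have : (9 : F) = 3 * 3 := by norm_num
      rw [this]; exact mul_ne_zero h3n h3n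
    have gen : ∀ N3 D3 N D c : F, D3 ≠ 0 → D ≠ 0 → N3 * 9 * D = c * (N * 9) * D3 →
        N3 / D3 = c * (N / D) := by
      intro N3 D3 N D c hD3 hD e
      field_simp
      apply mul_left_cancel₀ h9
      linear_combination e
    rw [hδ] at x2 x3
    rw [← hs] at v2 v3
    refine ⟨hD3', ?_, ?_⟩
    · unfold Pp
      apply gen _ _ _ _ _ hD3' (by rw [v1]; exact hD)
      rw [x2, v2, hD3, v1]
      have e8 : (-(z * s * w) / u) ^ 3 = -(s ^ 3 * w ^ 3) / u ^ 3 := by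
        field_simp; linear_combination -z3
      have e9 : (z ^ 2 * s ^ 2 / u) ^ 3 = s ^ 6 / u ^ 3 := by
        field_simp; linear_combination (z ^ 3 + 1) * z3
      rw [e8, e9]
      field_simp
      linear_combination (-u ^ 3) * z3
    · unfold Qpt
      apply gen _ _ _ _ _ hD3' (by rw [v1]; exact hD)
      rw [x3, v3, hD3, v1]
      have e8 : (-(z * s * w) / u) ^ 3 = -(s ^ 3 * w ^ 3) / u ^ 3 := by
        field_simp; linear_combination -z3
      have e9 : (z ^ 2 * s ^ 2 / u) ^ 3 = s ^ 6 / u ^ 3 := by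
        field_simp; linear_combination (z ^ 3 + 1) * z3
      rw [e8, e9]
      field_simp
      linear_combination (u ^ 3 + z * w ^ 3) * z3

end crv

end Pool.Agent.Helper7K9.T3
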