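import Pool.Agent.Helper7K9.T3.Inst

/-!
Surfaces with many sections in positive characteristic.
-/

set_option autoImplicit false
set_option linter.all false

open Polynomial IsDedekindDomain WeierstrassCurve WeierstrassCurve.Affine
open scoped Classical

namespace Pool.Agent.Helper7K9.T3

open Pool.Agent.TH115.GD (pl Pt act incl rs ak Sep act_act act_inj splits_of_sep splits_dvd IsTower
  desc_poly)

section poly

variable {k : Type} [Field k]

theorem prod_nth {n : ℕ} (hn : 0 < n) (g : k[X] → k[X]) :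
    ∏ z ∈ nthRootsFinset n (1 : k[X]), g z = ∏ z ∈ nthRootsFinset n (1 : k), g (C z) := by
  symm
  refine Finset.prod_nbij (fun z => C z) ?_ ?_ ?_ (fun _ _ => rfl)
  · intro z hz
    rw [mem_nthRootsFinset hn] at hz ⊢
    rw [← C_pow, hz, C_1]
  · intro a _ b _ hab
    exact C_injective hab
  · intro z hz
    rw [Finset.mem_coe, mem_nthRootsFinset hn] at hz
    have hu : IsUnit z := IsUnit.of_pow_eq_one hz hn.ne'
    obtain ⟨c, hc, rfl⟩ := Polynomial.isUnit_iff.1 hu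
    refine ⟨c, ?_, rfl⟩
    rw [Finset.mem_coe, mem_nthRootsFinset hn]
    rw [← C_pow, ← C_1] at hz
    exact C_injective hz

/-- The identity behind the points. -/
theorem b_identity {p : ℕ} [Fact p.Prime] [CharP k p] {ν m : ℕ}
    (hm : p ^ ν = 3 * m + 1) {ζ : k} (hζ : ζ ^ (p ^ ν + 1) = 1) (f h : k[X]) :
    f ^ (3 * (p ^ ν + 1)) - h ^ (p ^ ν + 1) = -((C ζ * h - f ^ 3) *
      ((C ζ * h - f ^ 3) * ((C ζ * h - f ^ 3) ^ m) ^ 3 + f ^ 3 * ((C ζ * h - f ^ 3) ^ m) ^ 3 +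
        f ^ 3 * (f ^ (3 * m)) ^ 3)) := by
  set z : k[X] := C ζ * h - f ^ 3 with hz
  have h1 : z ^ (p ^ ν) = (C ζ * h) ^ (p ^ ν) - (f ^ 3) ^ (p ^ ν) := by
    rw [hz, sub_pow_char_pow]
  have h2 : z * (z ^ m) ^ 3 = z ^ (p ^ ν) := by rw [hm]; ring
  have h4 : (C ζ * h) ^ (p ^ ν + 1) = h ^ (p ^ ν + 1) := by
    rw [mul_pow, ← C_pow, hζ, C_1, one_mul]
  have h5 : (z ^ (p ^ ν) + (f ^ 3) ^ (p ^ ν)) * (z + f ^ 3) = h ^ (p ^ ν + 1) := by
    rw [← h4, pow_succ, h1, hz]; ring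
  have h6 : f ^ 3 * (f ^ (3 * m)) ^ 3 = (f ^ 3) ^ (p ^ ν) := by rw [hm]; ring
  have h7 : f ^ (3 * (p ^ ν + 1)) = (f ^ 3) ^ (p ^ ν) * f ^ 3 := by rw [pow_mul, pow_succ]
  rw [h7, ← h5]
  linear_combination (z + f ^ 3) * h2 + z * h6

end poly

section ctx

variable {k k' K F : Type} [Field k] [Field k'] [Algebra k k'] [Field K] [Algebra k[X] K]
    [Field F] [Algebra k'[X] F] [IsFractionRing k'[X] F] [Algebra K F]
    (hT : IsTower k k' K F)

include hT in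
/-- The surfaces `y ^ 2 + 3 f ^ (q + 1) x y + (f ^ (3 q + 3) - h ^ (q + 1)) y = x ^ 3`. -/
theorem unbounded (p : ℕ) [Fact p.Prime] (ν : ℕ) [CharP k p] (hν : 0 < ν)
    (hm : p ^ ν % 3 = 1) {ω₀ : k} (hω₀ : IsPrimitiveRoot ω₀ ((p ^ ν) ^ 2 - 1)) (f h : k[X])
    (A : Admissible3 (p ^ ν) f h) :
    TateAt (F := F) 3 k' (curve3 K (p ^ ν) f h) ∧
    ∃ P : Fin (p ^ ν) → Pt (curve3 K (p ^ ν) f h) K, LinearIndependent ℤ P := by
  obtain ⟨m, hm⟩ : ∃ m, p ^ ν = 3 * m + 1 := ⟨p ^ ν / 3, by omega⟩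
  have h1p : 1 < p ^ ν := Nat.one_lt_pow (by omega) (Fact.out : p.Prime).one_lt
  have hm0 : 0 < m := by omega
  obtain ⟨hf0, hdeg, h3d, ⟨ih, sh⟩, hirr⟩ := A
  have hp3 : p ≠ 3 := by
    rintro rfl
    obtain ⟨n, rfl⟩ : ∃ n, ν = n + 1 := ⟨ν - 1, by omega⟩
    rw [pow_succ] at hm
    omega
  unfold curve3
  set d := p ^ ν + 1 with hdd
  have hq2 : (p ^ ν) ^ 2 - 1 = (3 * m) * d := by
    rw [hdd, hm]
    have : (3 * m + 1) ^ 2 = 3 * m * (3 * m + 1 + 1) + 1 := by ring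
    rw [this]
    rfl
  have hpos : 0 < (p ^ ν) ^ 2 - 1 := by
    rw [hq2]
    exact Nat.mul_pos (by omega) (by omega)
  obtain ⟨ω, hω⟩ : ∃ ω : k, IsPrimitiveRoot ω d := ⟨_, hω₀.pow hpos hq2⟩
  have hcub : ∃ x : k, x ^ 2 + x + 1 = 0 := by
    have h1 : IsPrimitiveRoot (ω₀ ^ (m * d)) 3 := hω₀.pow hpos (by rw [hq2]; ring)
    refine ⟨ω₀ ^ (m * d), ?_⟩
    have h2 := h1.pow_eq_one
    have h4 : ω₀ ^ (m * d) ≠ 1 := h1.ne_one (by norm_num)
    have h5 : (ω₀ ^ (m * d) - 1) * ((ω₀ ^ (m * d)) ^ 2 + ω₀ ^ (m * d) + 1) = 0 := by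
      linear_combination h2
    exact (mul_eq_zero.1 h5).resolve_left (sub_ne_zero.2 h4)
  have hk3 : (3 : k) ≠ 0 := by
    have h1 : ((3 : ℕ) : k) ≠ 0 := by
      rw [Ne, CharP.cast_eq_zero_iff k p]
      intro h2
      exact hp3 ((Nat.prime_dvd_prime_iff_eq (Fact.out : p.Prime) Nat.prime_three).1 h2)
    exact_mod_cast h1
  have hk27 : (27 : k) ≠ 0 := by
    have : (27 : k) = 3 ^ 3 := by norm_num
    rw [this]; exact pow_ne_zero 3 hk3
  have hdpos : 0 < d := by omega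
  have h0 : 0 < h.natDegree := ih.natDegree_pos
  have hz0 : ∀ z : k, z ^ d = 1 → z ≠ 0 := by
    intro z hz h0
    rw [h0, zero_pow hdpos.ne'] at hz
    exact zero_ne_one hz
  set b : k[X] := f ^ (3 * d) - h ^ d with hbdef
  set a : k[X] := 3 * f ^ d with hadef
  have hΔ : a ^ 3 - 27 * b = C 27 * h ^ d := by
    have e27 : (C 27 : k[X]) = 27 := rfl
    rw [e27, hadef, hbdef, mul_comm 3 d, pow_mul f d 3]; ring
  have hd0 : a ^ 3 - 27 * b ≠ 0 := by
    rw [hΔ]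
    exact mul_ne_zero (C_ne_zero.2 hk27) (pow_ne_zero d ih.ne_zero)
  have degz : ∀ z : k, (h - C z * f ^ 3).natDegree = h.natDegree := by
    intro z
    apply natDegree_sub_eq_left_of_natDegree_lt
    refine lt_of_le_of_lt (natDegree_C_mul_le _ _) ?_
    rw [natDegree_pow]
    exact hdeg
  -- factorisation of `b`
  have hfac : b = C (-1) * ∏ ζ ∈ nthRootsFinset d (1 : k), (h - C ζ * f ^ 3) := by
    have h1 : IsPrimitiveRoot (C ω : k[X]) d := hω.map_of_injective C_injective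
    have h3 := h1.pow_sub_pow_eq_prod_sub_mul h (f ^ 3) hdpos
    rw [prod_nth hdpos (fun z => h - z * f ^ 3)] at h3
    rw [← h3, C_neg, C_1, hbdef, pow_mul]
    ring
  have hunit : (1 : k) ∈ nthRootsFinset d (1 : k) := (mem_nthRootsFinset hdpos 1).2 (one_pow d)
  let ι := {z : k // z ∈ (nthRootsFinset d (1 : k)).erase 1}
  have hι : ∀ z : ι, z.1 ^ d = 1 := fun z =>
    (mem_nthRootsFinset hdpos 1).1 (Finset.mem_erase.1 z.2).2
  have hι1 : ∀ z : ι, z.1 ≠ 1 := fun z => (Finset.mem_erase.1 z.2).1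
  have hcard : Fintype.card ι = p ^ ν := by
    rw [Fintype.card_coe, Finset.card_erase_of_mem hunit, hω.card_nthRootsFinset]
    omega
  have hbe : b = C (-1) * ((h - C 1 * f ^ 3) * ∏ z : ι, (h - C z.1 * f ^ 3)) := by
    rw [hfac, ← Finset.mul_prod_erase _ _ hunit]
    congr 2
    exact (Finset.prod_coe_sort ((nthRootsFinset d (1 : k)).erase 1)
      (fun z => h - C z * f ^ 3)).symm
  have hb0 : b ≠ 0 := by
    rw [hfac]
    refine mul_ne_zero (C_ne_zero.2 (by norm_num)) (Finset.prod_ne_zero_iff.2 fun z hz => ?_)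
    exact (hirr z ((mem_nthRootsFinset hdpos 1).1 hz)).1.ne_zero
  have hsep : ∀ π : k[X], Irreducible π → π ∣ b * (a ^ 3 - 27 * b) →
      π.Separable := by
    intro π hπ hdv
    rcases hπ.prime.dvd_or_dvd hdv with h1 | h1
    · have hC : IsUnit (C (-1) : k[X]) := isUnit_C.2 (isUnit_iff_ne_zero.2 (by norm_num))
      rw [hfac, hC.dvd_mul_left] at h1
      obtain ⟨z, hz, hz'⟩ := (hπ.prime.dvd_finset_prod_iff _).1 h1
      exact (hirr z ((mem_nthRootsFinset hdpos 1).1 hz)).2.of_dvd hz'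
    · have hC : IsUnit (C 27 : k[X]) := isUnit_C.2 (isUnit_iff_ne_zero.2 hk27)
      rw [hΔ, hC.dvd_mul_left] at h1
      exact sh.of_dvd (hπ.prime.dvd_of_dvd_pow h1)
  have hdiff : ∀ z w : k, z ^ d = 1 → z ≠ w → ¬ (h - C z * f ^ 3) ∣ (h - C w * f ^ 3) := by
    intro z w hz hzw hdv
    have h1 : (h - C z * f ^ 3) ∣ C (z - w) * f ^ 3 := by
      have : (C (z - w) * f ^ 3 : k[X]) = (h - C w * f ^ 3) - (h - C z * f ^ 3) := by
        rw [C_sub]; ring
      rw [this]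
      exact dvd_sub hdv dvd_rfl
    have h2 : C (z - w) * f ^ 3 ≠ 0 :=
      mul_ne_zero (C_ne_zero.2 (sub_ne_zero.2 hzw)) (pow_ne_zero 3 hf0)
    have h4 := natDegree_le_of_dvd h1 h2
    rw [degz z] at h4
    have h5 : (C (z - w) * f ^ 3).natDegree ≤ 3 * f.natDegree := by
      refine (natDegree_C_mul_le _ _).trans ?_
      rw [natDegree_pow]
    omega
  -- the conditions on `b` and the discriminant
  have hF1 : HasFactor3 b := by
    refine ⟨h - C 1 * f ^ 3, 1, (hirr 1 (one_pow d)).1, by rw [degz]; exact h3d, by norm_num,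
      ?_, ?_⟩
    · rw [pow_one, hbe]
      exact ⟨C (-1) * ∏ z : ι, (h - C z.1 * f ^ 3), by ring⟩
    · intro hdv
      have hC : IsUnit (C (-1) : k[X]) := isUnit_C.2 (isUnit_iff_ne_zero.2 (by norm_num))
      rw [hbe, hC.dvd_mul_left, pow_succ, pow_one,
        mul_dvd_mul_iff_left (hirr 1 (one_pow d)).1.ne_zero] at hdv
      obtain ⟨z, -, hz⟩ := ((hirr 1 (one_pow d)).1.prime.dvd_finset_prod_iff _).1 hdv
      exact hdiff 1 z.1 (one_pow d) (hι1 z).symm hz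
  have hd3 : ¬ 3 ∣ d := by
    rw [hdd, hm]; omega
  have hF2 : GoodDisc (a ^ 3 - 27 * b) :=
    ⟨hasFactor_prime_power hd0 ih h3d hd3 hΔ, Or.inr ⟨hcub, 27, h, d, ih, hd3, hΔ⟩⟩
  -- the points
  have hpt : ∀ z : ι, ∃ P : Pt (crv3 (algebraMap k[X] K a) (algebraMap k[X] K b)) K,
      ∃ c : F, c ≠ 0 ∧ em K F (h - C z.1 * f ^ 3) =
        c ^ 3 * algebraMap K F (dT (algebraMap k[X] K b) P) := by
    intro z
    have hz := hι z
    have hzn := hz0 z.1 hz
    set y : k[X] := C z.1⁻¹ * h - f ^ 3 with hy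
    have hyf : y = C z.1⁻¹ * (h - C z.1 * f ^ 3) := by
      rw [hy, mul_sub, ← mul_assoc, ← C_mul, inv_mul_cancel₀ hzn, C_1, one_mul]
    have hydeg : y.natDegree = h.natDegree := by
      rw [hyf, natDegree_C_mul (inv_ne_zero hzn), degz]
    have hy0 : y ≠ 0 := by
      intro h'
      rw [h', natDegree_zero] at hydeg
      omega
    have hg0 : f * (f ^ (3 * m) + y ^ m) ≠ 0 := by
      refine mul_ne_zero hf0 fun h' => ?_
      have h5 : (f ^ (3 * m) + y ^ m).natDegree = m * h.natDegree := by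
        rw [natDegree_add_eq_right_of_natDegree_lt, natDegree_pow, hydeg]
        rw [natDegree_pow, natDegree_pow, hydeg, mul_comm 3 m, mul_assoc]
        exact Nat.mul_lt_mul_of_pos_left hdeg hm0
      rw [h', natDegree_zero] at h5
      have : 0 < m * h.natDegree := Nat.mul_pos hm0 h0
      omega
    have hid := b_identity hm (ζ := z.1⁻¹) (by rw [inv_pow, hz, inv_one]) f h
    have hid' : b = -(y * (y * (y ^ m) ^ 3 + f ^ 3 * (y ^ m) ^ 3 + f ^ 3 * (f ^ (3 * m)) ^ 3)) := hid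
    have had : a = 3 * (f ^ (3 * m) * f ^ 2) := by
      rw [hadef, hdd, hm]; ring
    obtain ⟨P, -, c, hc, e⟩ := point_of (F := F) hT hk3 hb0 hd0
      (x := -(y * y ^ m * (f * (f ^ (3 * m) + y ^ m))))
      (y := y * (f * (f ^ (3 * m) + y ^ m)) ^ 3) (p := y) (g := f * (f ^ (3 * m) + y ^ m)) (by
        rw [hid', had]; ring) rfl hy0 hg0
    obtain ⟨r, hr, er⟩ := const_cube (F := F) hT hk3 z.1⁻¹ (inv_ne_zero hzn)
    refine ⟨P, c / r, div_ne_zero hc hr, ?_⟩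
    have e1 : em K F y = r ^ 3 * em K F (h - C z.1 * f ^ 3) := by
      rw [← er, hyf]
      unfold em
      rw [map_mul, map_mul]
    rw [div_pow, div_mul_eq_mul_div, ← e, e1]
    field_simp
  choose P hP using hpt
  obtain ⟨t, li⟩ := family (ι := ι) (u := -1) (p₀ := h - C 1 * f ^ 3)
    (p := fun z => h - C z.1 * f ^ 3) hT hk3 hb0
    hd0 hsep hF1 hF2 (hirr 1 (one_pow d)).1 (fun z => (hirr z.1 (hι z)).1)
    (fun z => hdiff 1 z.1 (one_pow d) (hι1 z).symm)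
    (fun z w hzw => hdiff z.1 w.1 (hι z) (fun h' => hzw (Subtype.ext h'))) hbe P hP
  refine ⟨t, fun i => P ((Fintype.equivFinOfCardEq hcard).symm i), ?_⟩
  exact li.comp _ (Equiv.injective _)

end ctx

end Pool.Agent.Helper7K9.T3
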